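import Pool.Agent.RSM.Defs

/-!
# RSM module A0: calculus rules for `dbar`

All rules are immediate from the definition
`dbar g z = (fderiv ℝ g z 1 + I * fderiv ℝ g z I) / 2` and the chain rule.
The last theorem: the integral of `dbar g` over the plane is `0` for a compactly supported `C¹`
function (both `∫ fderiv ℝ g z 1` and `∫ fderiv ℝ g z I` vanish; Mathlib has
`integral_fderiv_eq_zero`-type statements for compactly supported functions, e.g.
`integral_bilinear_hasLineDerivAt_right_eq_neg_left_of_integrable` with the constant function, or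
use the one dimensional `integral_eq_zero_of_hasDerivAt_of_integrable` and Fubini).
-/

open Complex Set Metric Filter Topology MeasureTheory

namespace RSM

theorem norm_dbar_le (g : ℂ → ℂ) (z : ℂ) : ‖dbar g z‖ ≤ ‖fderiv ℝ g z‖ := by
  have h1 : ‖fderiv ℝ g z 1‖ ≤ ‖fderiv ℝ g z‖ := by
    have := (fderiv ℝ g z).le_opNorm 1
    rwa [norm_one, mul_one] at this
  have h2 : ‖fderiv ℝ g z I‖ ≤ ‖fderiv ℝ g z‖ := by
    have := (fderiv ℝ g z).le_opNorm I
    rwa [norm_I, mul_one] at this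
  change ‖(fderiv ℝ g z 1 + I * fderiv ℝ g z I) / 2‖ ≤ _
  rw [norm_div, Complex.norm_ofNat]
  have h3 : ‖fderiv ℝ g z 1 + I * fderiv ℝ g z I‖ ≤ 2 * ‖fderiv ℝ g z‖ := by
    refine (norm_add_le _ _).trans ?_
    rw [norm_mul, norm_I, one_mul]
    linarith
  rw [div_le_iff₀ two_pos]
  linarith

/-- `dbar` in terms of a given real derivative -/
theorem dbar_of_hasFDerivAt {g : ℂ → ℂ} {z : ℂ} {D : ℂ →L[ℝ] ℂ} (h : HasFDerivAt g D z) :
    dbar g z = (D 1 + I * D I) / 2 := by
  change (fderiv ℝ g z 1 + I * fderiv ℝ g z I) / 2 = _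
  rw [h.fderiv]

theorem dbar_const (k : ℂ) (z : ℂ) : dbar (fun _ => k) z = 0 :=
  Pool.Lib.dbar_eq_zero (differentiableAt_const k)

theorem dbar_add {f g : ℂ → ℂ} {z : ℂ} (hf : DifferentiableAt ℝ f z)
    (hg : DifferentiableAt ℝ g z) : dbar (fun w => f w + g w) z = dbar f z + dbar g z := by
  rw [dbar_of_hasFDerivAt (hf.hasFDerivAt.fun_add hg.hasFDerivAt),
    dbar_of_hasFDerivAt hf.hasFDerivAt, dbar_of_hasFDerivAt hg.hasFDerivAt]
  simp only [ContinuousLinearMap.add_apply]
  ring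

theorem dbar_neg {f : ℂ → ℂ} {z : ℂ} : dbar (fun w => -f w) z = -dbar f z := by
  change (fderiv ℝ (fun w => -f w) z 1 + I * fderiv ℝ (fun w => -f w) z I) / 2 =
    -((fderiv ℝ f z 1 + I * fderiv ℝ f z I) / 2)
  rw [fderiv_fun_neg]
  simp only [ContinuousLinearMap.neg_apply]
  ring

theorem dbar_sub {f g : ℂ → ℂ} {z : ℂ} (hf : DifferentiableAt ℝ f z)
    (hg : DifferentiableAt ℝ g z) : dbar (fun w => f w - g w) z = dbar f z - dbar g z := by
  rw [dbar_of_hasFDerivAt (hf.hasFDerivAt.fun_sub hg.hasFDerivAt),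
    dbar_of_hasFDerivAt hf.hasFDerivAt, dbar_of_hasFDerivAt hg.hasFDerivAt]
  simp only [ContinuousLinearMap.sub_apply]
  ring

theorem dbar_sum {ι : Type} (s : Finset ι) {f : ι → ℂ → ℂ} {z : ℂ}
    (hf : ∀ i ∈ s, DifferentiableAt ℝ (f i) z) :
    dbar (fun w => ∑ i ∈ s, f i w) z = ∑ i ∈ s, dbar (f i) z := by
  classical
  induction s using Finset.induction_on with
  | empty =>
    simp only [Finset.sum_empty]
    exact dbar_const 0 z
  | insert a s ha ih =>
    have h1 : (fun w => ∑ i ∈ insert a s, f i w) = fun w => f a w + ∑ i ∈ s, f i w := by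
      funext w
      rw [Finset.sum_insert ha]
    have h2 : DifferentiableAt ℝ (fun w => ∑ i ∈ s, f i w) z :=
      DifferentiableAt.fun_sum fun i hi => hf i (Finset.mem_insert_of_mem hi)
    rw [h1, dbar_add (hf a (Finset.mem_insert_self _ _)) h2, Finset.sum_insert ha,
      ih fun i hi => hf i (Finset.mem_insert_of_mem hi)]

theorem dbar_mul {f g : ℂ → ℂ} {z : ℂ} (hf : DifferentiableAt ℝ f z)
    (hg : DifferentiableAt ℝ g z) :
    dbar (fun w => f w * g w) z = dbar f z * g z + f z * dbar g z := by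
  rw [dbar_of_hasFDerivAt (hf.hasFDerivAt.fun_mul hg.hasFDerivAt),
    dbar_of_hasFDerivAt hf.hasFDerivAt, dbar_of_hasFDerivAt hg.hasFDerivAt]
  simp only [ContinuousLinearMap.add_apply, ContinuousLinearMap.smul_apply, smul_eq_mul]
  ring

theorem dbar_const_mul {f : ℂ → ℂ} {z : ℂ} (hf : DifferentiableAt ℝ f z) (k : ℂ) :
    dbar (fun w => k * f w) z = k * dbar f z := by
  rw [dbar_mul (differentiableAt_const k) hf, dbar_const, zero_mul, zero_add]

/-- A holomorphic factor is a constant for `dbar`. -/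
theorem dbar_mul_holo {f g : ℂ → ℂ} {z : ℂ} (hf : DifferentiableAt ℝ f z)
    (hg : DifferentiableAt ℂ g z) : dbar (fun w => f w * g w) z = dbar f z * g z := by
  rw [dbar_mul hf (hg.restrictScalars ℝ), Pool.Lib.dbar_eq_zero hg, mul_zero, add_zero]

/-- the real derivative of a holomorphic function -/
theorem holo_apply {g : ℂ → ℂ} {z : ℂ} (v : ℂ) :
    ((fderiv ℂ g z).restrictScalars ℝ) v = v * deriv g z := by
  change fderiv ℂ g z v = v * deriv g z
  rw [fderiv_eq_smul_deriv, smul_eq_mul]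

theorem dbar_conj_holo {g : ℂ → ℂ} {z : ℂ} (hg : DifferentiableAt ℂ g z) :
    dbar (fun w => (starRingEnd ℂ) (g w)) z = (starRingEnd ℂ) (deriv g z) := by
  have h1 := hg.hasFDerivAt.restrictScalars ℝ
  have h2 : HasFDerivAt (fun w => (starRingEnd ℂ) (g w))
      ((Complex.conjCLE : ℂ →L[ℝ] ℂ).comp ((fderiv ℂ g z).restrictScalars ℝ)) z :=
    (Complex.conjCLE : ℂ →L[ℝ] ℂ).hasFDerivAt.comp z h1
  rw [dbar_of_hasFDerivAt h2]
  have h3 : ∀ v, ((Complex.conjCLE : ℂ →L[ℝ] ℂ).comp ((fderiv ℂ g z).restrictScalars ℝ)) v =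
      (starRingEnd ℂ) (v * deriv g z) := by
    intro v
    rw [← holo_apply]
    rfl
  rw [h3, h3, map_mul, map_mul, conj_I, map_one]
  linear_combination (-(starRingEnd ℂ) (deriv g z) / 2) * I_mul_I

theorem dbar_im_holo {g : ℂ → ℂ} {z : ℂ} (hg : DifferentiableAt ℂ g z) :
    dbar (fun w => ((g w).im : ℂ)) z = I / 2 * (starRingEnd ℂ) (deriv g z) := by
  have h1 := hg.hasFDerivAt.restrictScalars ℝ
  have h2 : HasFDerivAt (fun w => ((g w).im : ℂ))
      ((Complex.ofRealCLM.comp Complex.imCLM).comp ((fderiv ℂ g z).restrictScalars ℝ)) z :=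
    (Complex.ofRealCLM.comp Complex.imCLM).hasFDerivAt.comp z h1
  rw [dbar_of_hasFDerivAt h2]
  have h3 : ∀ v, ((Complex.ofRealCLM.comp Complex.imCLM).comp
      ((fderiv ℂ g z).restrictScalars ℝ)) v = ((v * deriv g z).im : ℂ) := by
    intro v
    rw [← holo_apply]
    rfl
  rw [h3, h3]
  apply Complex.ext
  · simp
    ring
  · simp
    ring

theorem dbar_re_holo {g : ℂ → ℂ} {z : ℂ} (hg : DifferentiableAt ℂ g z) :
    dbar (fun w => ((g w).re : ℂ)) z = (starRingEnd ℂ) (deriv g z) / 2 := by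
  have h1 := hg.hasFDerivAt.restrictScalars ℝ
  have h2 : HasFDerivAt (fun w => ((g w).re : ℂ))
      ((Complex.ofRealCLM.comp Complex.reCLM).comp ((fderiv ℂ g z).restrictScalars ℝ)) z :=
    (Complex.ofRealCLM.comp Complex.reCLM).hasFDerivAt.comp z h1
  rw [dbar_of_hasFDerivAt h2]
  have h3 : ∀ v, ((Complex.ofRealCLM.comp Complex.reCLM).comp
      ((fderiv ℂ g z).restrictScalars ℝ)) v = ((v * deriv g z).re : ℂ) := by
    intro v
    rw [← holo_apply]
    rfl
  rw [h3, h3]
  apply Complex.ext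
  · simp
  · simp

/-- Chain rule with an outer real function of one variable. -/
theorem dbar_comp_real {σ : ℝ → ℝ} {v : ℂ → ℝ} {z : ℂ} {σ' : ℝ} (hσ : HasDerivAt σ σ' (v z))
    (hv : DifferentiableAt ℝ v z) :
    dbar (fun w => ((σ (v w) : ℝ) : ℂ)) z = σ' * dbar (fun w => (v w : ℂ)) z := by
  have h1 : HasFDerivAt (fun w => σ (v w)) (σ' • fderiv ℝ v z) z :=
    hσ.comp_hasFDerivAt z hv.hasFDerivAt
  have h2 : HasFDerivAt (fun w => ((σ (v w) : ℝ) : ℂ))
      (Complex.ofRealCLM.comp (σ' • fderiv ℝ v z)) z := Complex.ofRealCLM.hasFDerivAt.comp z h1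
  have h3 : HasFDerivAt (fun w => ((v w : ℝ) : ℂ))
      (Complex.ofRealCLM.comp (fderiv ℝ v z)) z :=
    Complex.ofRealCLM.hasFDerivAt.comp z hv.hasFDerivAt
  rw [dbar_of_hasFDerivAt h2, dbar_of_hasFDerivAt h3]
  simp only [ContinuousLinearMap.comp_apply, ContinuousLinearMap.smul_apply, smul_eq_mul,
    Complex.ofRealCLM_apply, ofReal_mul]
  ring

private lemma circle_decomp' (D : ℂ →L[ℝ] ℂ) (u : ℂ) :
    D u + I * D (I * u) = (starRingEnd ℂ) u * (D 1 + I * D I) := by
  have h1 : u = u.re • (1 : ℂ) + u.im • I := by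
    apply Complex.ext <;> simp
  have h2 : I * u = u.re • I + (-u.im) • (1 : ℂ) := by
    apply Complex.ext <;> simp
  rw [h2]
  conv_lhs => rw [show D u = D (u.re • (1 : ℂ) + u.im • I) by rw [← h1]]
  rw [map_add, map_smul, map_smul, map_add, map_smul, map_smul]
  simp only [real_smul]
  have h3 : (starRingEnd ℂ) u = u.re - u.im * I := by
    apply Complex.ext <;> simp
  rw [h3]
  push_cast
  linear_combination (-(u.im : ℂ) * (-D I)) * I_mul_I

/-- Chain rule with an inner holomorphic function. -/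
theorem dbar_comp_holo {Y F : ℂ → ℂ} {z : ℂ} (hY : DifferentiableAt ℝ Y (F z))
    (hF : DifferentiableAt ℂ F z) :
    dbar (fun w => Y (F w)) z = dbar Y (F z) * (starRingEnd ℂ) (deriv F z) := by
  have h1 := hF.hasFDerivAt.restrictScalars ℝ
  have h2 : HasFDerivAt (fun w => Y (F w))
      ((fderiv ℝ Y (F z)).comp ((fderiv ℂ F z).restrictScalars ℝ)) z :=
    hY.hasFDerivAt.comp z h1
  rw [dbar_of_hasFDerivAt h2, dbar_of_hasFDerivAt hY.hasFDerivAt, ContinuousLinearMap.comp_apply,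
    ContinuousLinearMap.comp_apply, holo_apply, holo_apply, one_mul, circle_decomp']
  ring

theorem dbar_norm_sub {c z : ℂ} (hz : z ≠ c) :
    dbar (fun w => ((‖w - c‖ : ℝ) : ℂ)) z = (z - c) / (2 * ‖z - c‖) := by
  have hn : (‖z - c‖ : ℂ) ≠ 0 := by
    rw [Ne, ofReal_eq_zero, norm_eq_zero]
    exact sub_ne_zero.2 hz
  have hv : DifferentiableAt ℝ (fun w : ℂ => ‖w - c‖) z :=
    (differentiableAt_id.sub_const c).norm ℝ (sub_ne_zero.2 hz)
  have hV : DifferentiableAt ℝ (fun w : ℂ => ((‖w - c‖ : ℝ) : ℂ)) z :=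
    Complex.ofRealCLM.differentiableAt.comp z hv
  have h1 := dbar_mul hV hV
  have h2 : (fun w : ℂ => ((‖w - c‖ : ℝ) : ℂ) * ((‖w - c‖ : ℝ) : ℂ)) =
      fun w => (starRingEnd ℂ) (w - c) * (w - c) := by
    funext w
    rw [mul_comm ((starRingEnd ℂ) (w - c)), mul_conj', sq]
  have h3 : DifferentiableAt ℂ (fun w : ℂ => w - c) z := differentiableAt_id.sub_const c
  have h4 : DifferentiableAt ℝ (fun w : ℂ => (starRingEnd ℂ) (w - c)) z :=
    (Complex.conjCLE : ℂ →L[ℝ] ℂ).differentiableAt.comp z (h3.restrictScalars ℝ)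
  rw [h2, dbar_mul_holo h4 h3, dbar_conj_holo h3] at h1
  have h5 : deriv (fun w : ℂ => w - c) z = 1 := by
    rw [deriv_sub_const]
    exact deriv_id z
  rw [h5, map_one, one_mul] at h1
  rw [eq_div_iff (mul_ne_zero two_ne_zero hn)]
  linear_combination -h1

theorem integral_dbar_eq_zero {g : ℂ → ℂ} (hg : ContDiff ℝ 1 g) (hc : HasCompactSupport g) :
    ∫ z, dbar g z = 0 := by
  have hd : Differentiable ℝ g := hg.differentiable one_ne_zero
  have hcont := hg.continuous_fderiv one_ne_zero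
  have hi : ∀ v : ℂ, Integrable (fun z => fderiv ℝ g z v) := fun v =>
    (hcont.clm_apply continuous_const).integrable_of_hasCompactSupport
      (hc.fderiv_apply (𝕜 := ℝ) v)
  have hz : ∀ v : ℂ, ∫ z, fderiv ℝ g z v = 0 := by
    intro v
    have h1 := integral_mul_fderiv_eq_neg_fderiv_mul_of_integrable (μ := (volume : Measure ℂ))
      (f := fun _ : ℂ => (1 : ℂ)) (g := g) (v := v) (by simp) (by simpa using hi v)
      (by simpa using hg.continuous.integrable_of_hasCompactSupport hc)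
      (fun x _ => differentiableAt_const _) (fun x _ => hd x)
    simpa using h1
  have h1 : (fun z => dbar g z) = fun z =>
      (fderiv ℝ g z 1 + I * fderiv ℝ g z I) / 2 := rfl
  rw [h1, integral_div, integral_add (hi 1) ((hi I).const_mul I), integral_const_mul, hz, hz]
  simp

end RSM
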