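import Pool.Agent.RSM.Basic

/-!
# RSM module A1: a circle domain is connected

PROOF.  Choose `κ > 0` with `2 * (ρ + κ) < ‖c a - c b‖` for `a ≠ b` (`exists_gap`), put
`ρ₁ = ρ + κ`.  Define on `V = (range c)ᶜ` the map
  `Φ z = z + ∑ a, max 0 (ρ * (1 - ‖z - c a‖ / ρ₁)) * (z - c a) / ‖z - c a‖`.
It is continuous on `V`.  `V` is the complement of a finite set, hence path connected
(`Set.Countable.isPathConnected_compl_of_one_lt_rank`, the real rank of `ℂ` is 2), so the image of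
`V` is preconnected.  The image is exactly `dom c ρ`: if `‖z - c a‖ ≥ ρ₁` for all `a` then
`Φ z = z`; if `0 < t = ‖z - c a‖ < ρ₁` (for exactly one `a`, all other summands vanish since
`‖z - c b‖ > ρ₁`), then `Φ z = c a + (t + ρ (1 - t / ρ₁)) e` with `e = (z - c a) / t`, whose
distance from `c a` is `ρ + t (ρ₁ - ρ) / ρ₁`, a number in `(ρ, ρ₁)`; so `Φ z ∈ dom c ρ`, and
conversely a point `w ∈ dom c ρ` with `ρ < ‖w - c a‖ < ρ₁` is the image of the point
`c a + t e`, `t = (‖w - c a‖ - ρ) ρ₁ / (ρ₁ - ρ)`, `e = (w - c a) / ‖w - c a‖`.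
(Any other proof is fine.)
-/

open Complex Set Metric Filter Topology MeasureTheory

namespace RSM

variable {ι : Type} {c : ι → ℂ} {ρ : ℝ}

/-- the factor of the radial stretching at the centre `c a` -/
noncomputable def a1w (c : ι → ℂ) (ρ ρ₁ : ℝ) (a : ι) (z : ℂ) : ℝ :=
  max 0 (ρ * (1 - ‖z - c a‖ / ρ₁)) / ‖z - c a‖

/-- the radial stretching -/
noncomputable def a1P [Fintype ι] (c : ι → ℂ) (ρ ρ₁ : ℝ) (z : ℂ) : ℂ :=
  z + ∑ a, (a1w c ρ ρ₁ a z : ℂ) * (z - c a)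

theorem a1w_zero {ρ₁ : ℝ} (hρ : 0 < ρ) (h1 : 0 < ρ₁) {a : ι} {z : ℂ} (h : ρ₁ ≤ ‖z - c a‖) :
    a1w c ρ ρ₁ a z = 0 := by
  unfold a1w
  have h2 : 1 ≤ ‖z - c a‖ / ρ₁ := by
    rw [one_le_div h1]
    exact h
  have h3 : ρ * (1 - ‖z - c a‖ / ρ₁) ≤ 0 := mul_nonpos_of_nonneg_of_nonpos hρ.le (by linarith)
  rw [max_eq_left h3, zero_div]

theorem a1w_eq {ρ₁ : ℝ} (hρ : 0 < ρ) (h1 : 0 < ρ₁) {a : ι} {z : ℂ} (h : ‖z - c a‖ ≤ ρ₁) :
    a1w c ρ ρ₁ a z = ρ * (1 - ‖z - c a‖ / ρ₁) / ‖z - c a‖ := by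
  unfold a1w
  have h2 : ‖z - c a‖ / ρ₁ ≤ 1 := by
    rw [div_le_one h1]
    exact h
  rw [max_eq_right (mul_nonneg hρ.le (by linarith))]

theorem a1_far {ρ₁ : ℝ} (hgap : ∀ a b, a ≠ b → 2 * ρ₁ < ‖c a - c b‖) {a b : ι} (hab : b ≠ a) {z : ℂ}
    (h : ‖z - c a‖ ≤ ρ₁) : ρ₁ < ‖z - c b‖ := by
  have h1 := hgap b a hab
  have h2 : ‖c b - c a‖ ≤ ‖z - c b‖ + ‖z - c a‖ := by
    rw [norm_sub_rev z (c b)]
    have h3 := norm_add_le (c b - z) (z - c a)
    rwa [sub_add_sub_cancel] at h3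
  linarith

theorem a1P_far [Fintype ι] {ρ₁ : ℝ} (hρ : 0 < ρ) (h1 : 0 < ρ₁) {z : ℂ}
    (h : ∀ a, ρ₁ ≤ ‖z - c a‖) : a1P c ρ ρ₁ z = z := by
  unfold a1P
  rw [Finset.sum_eq_zero, add_zero]
  intro a _
  rw [a1w_zero hρ h1 (h a), ofReal_zero, zero_mul]

theorem a1P_near [Fintype ι] {ρ₁ : ℝ} (hρ : 0 < ρ) (h1 : 0 < ρ₁)
    (hgap : ∀ a b, a ≠ b → 2 * ρ₁ < ‖c a - c b‖) {a : ι} {z : ℂ} (h0 : 0 < ‖z - c a‖)
    (h : ‖z - c a‖ ≤ ρ₁) :
    a1P c ρ ρ₁ z = c a +
      (((ρ + ‖z - c a‖ * (ρ₁ - ρ) / ρ₁) / ‖z - c a‖ : ℝ) : ℂ) * (z - c a) := by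
  unfold a1P
  rw [Finset.sum_eq_single a]
  · rw [a1w_eq hρ h1 h]
    have h2 : (ρ + ‖z - c a‖ * (ρ₁ - ρ) / ρ₁) / ‖z - c a‖ =
        1 + ρ * (1 - ‖z - c a‖ / ρ₁) / ‖z - c a‖ := by
      field_simp
      ring
    rw [h2, ofReal_add, ofReal_one]
    ring
  · intro b _ hb
    rw [a1w_zero hρ h1 (a1_far hgap hb h).le, ofReal_zero, zero_mul]
  · intro h2
    exact absurd (Finset.mem_univ a) h2

theorem a1_image [Fintype ι] {κ : ℝ} (hρ : 0 < ρ) (hκ : 0 < κ)
    (hgap : ∀ a b, a ≠ b → 2 * (ρ + κ) < ‖c a - c b‖) :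
    a1P c ρ (ρ + κ) '' (range c)ᶜ = dom c ρ := by
  have h1 : 0 < ρ + κ := by linarith
  have hr : ρ + κ - ρ = κ := by ring
  ext w
  constructor
  · rintro ⟨z, hz, rfl⟩
    have hz0 : ∀ a, 0 < ‖z - c a‖ := by
      intro a
      rw [norm_pos_iff, sub_ne_zero]
      rintro rfl
      exact hz ⟨a, rfl⟩
    by_cases hall : ∀ a, ρ + κ ≤ ‖z - c a‖
    · rw [a1P_far hρ h1 hall]
      intro a
      have := hall a
      linarith
    · push Not at hall
      obtain ⟨a, ha⟩ := hall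
      have hP := a1P_near hρ h1 hgap (hz0 a) ha.le
      rw [hr] at hP
      have hn : ‖a1P c ρ (ρ + κ) z - c a‖ = ρ + ‖z - c a‖ * κ / (ρ + κ) := by
        rw [hP, add_sub_cancel_left, norm_mul, norm_real, Real.norm_of_nonneg (by positivity)]
        have := (hz0 a).ne'
        field_simp
      have hlt : ‖z - c a‖ * κ / (ρ + κ) < κ := by
        rw [div_lt_iff₀ h1]
        nlinarith
      have hgt : 0 < ‖z - c a‖ * κ / (ρ + κ) := by
        have := hz0 a
        positivity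
      intro b
      rcases eq_or_ne b a with rfl | hb
      · rw [hn]
        linarith
      · have := a1_far (z := a1P c ρ (ρ + κ) z) hgap hb (by rw [hn]; linarith)
        linarith
  · intro hw
    by_cases hall : ∀ a, ρ + κ ≤ ‖w - c a‖
    · refine ⟨w, ?_, a1P_far hρ h1 hall⟩
      rintro ⟨a, rfl⟩
      have := hall a
      rw [sub_self, norm_zero] at this
      linarith
    · push Not at hall
      obtain ⟨a, ha⟩ := hall
      have hs := hw a
      set s := ‖w - c a‖ with hsdef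
      have hs0 : 0 < s := by linarith
      set t := (s - ρ) * (ρ + κ) / κ with ht
      have ht0 : 0 < t := by
        have : 0 < s - ρ := by linarith
        positivity
      have ht1 : t ≤ ρ + κ := by
        rw [ht, div_le_iff₀ hκ]
        nlinarith
      have hn : ‖c a + ((t / s : ℝ) : ℂ) * (w - c a) - c a‖ = t := by
        rw [add_sub_cancel_left, norm_mul, norm_real, Real.norm_of_nonneg (by positivity),
          ← hsdef]
        field_simp
      have hP := a1P_near (z := c a + ((t / s : ℝ) : ℂ) * (w - c a)) hρ h1 hgap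
        (by rw [hn]; exact ht0) (by rw [hn]; exact ht1)
      refine ⟨c a + ((t / s : ℝ) : ℂ) * (w - c a), ?_, ?_⟩
      · rintro ⟨b, hb⟩
        rcases eq_or_ne b a with rfl | hba
        · rw [← hb, sub_self, norm_zero] at hn
          linarith
        · have h3 := a1_far (z := c a + ((t / s : ℝ) : ℂ) * (w - c a)) hgap hba
            (by rw [hn]; exact ht1)
          rw [← hb, sub_self, norm_zero] at h3
          linarith
      · rw [hP, hn, hr, add_sub_cancel_left, ← mul_assoc, ← ofReal_mul]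
        have h3 : (ρ + t * κ / (ρ + κ)) / t * (t / s) = 1 := by
          have h4 : t * κ / (ρ + κ) = s - ρ := by
            rw [ht]
            field_simp
          rw [h4]
          field_simp
          ring
        rw [h3, ofReal_one, one_mul]
        ring

theorem a1_cont [Fintype ι] (c : ι → ℂ) (ρ ρ₁ : ℝ) :
    ContinuousOn (a1P c ρ ρ₁) (range c)ᶜ := by
  unfold a1P a1w
  refine continuousOn_id.add (continuousOn_finsetSum _ fun a _ => ?_)
  refine ContinuousOn.mul ?_ (by fun_prop)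
  refine Complex.continuous_ofReal.comp_continuousOn ?_
  refine ContinuousOn.div (by fun_prop) (by fun_prop) ?_
  intro z hz h
  rw [norm_eq_zero, sub_eq_zero] at h
  exact hz ⟨a, h.symm⟩

theorem isPreconnected_dom [Finite ι] (hρ : 0 < ρ)
    (hsep : ∀ a b, a ≠ b → 2 * ρ < ‖c a - c b‖) : IsPreconnected (dom c ρ) := by
  cases nonempty_fintype ι
  obtain ⟨κ, hκ, hgap⟩ := exists_gap hsep
  rw [← a1_image hρ hκ hgap]
  have hr : 1 < Module.rank ℝ ℂ := by
    rw [Complex.rank_real_complex]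
    exact_mod_cast Nat.one_lt_two
  have h1 : IsPathConnected (range c)ᶜ :=
    Set.Countable.isPathConnected_compl_of_one_lt_rank hr (Set.finite_range c).countable
  exact h1.isConnected.isPreconnected.image _ (a1_cont c ρ (ρ + κ))

end RSM
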