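import Pool.Agent.RSM.Defs

/-!
# RSM: radial cut-off functions
-/

open Complex Set Metric Filter Topology MeasureTheory

namespace RSM

/-- The radial cut-off function: `0` on `‖z - c‖ ≤ ρ`, `1` on `‖z - c‖ ≥ ρ + κ`. -/
noncomputable def cut (c : ℂ) (ρ κ : ℝ) (z : ℂ) : ℝ :=
  Real.smoothTransition ((‖z - c‖ - ρ) / κ)

theorem cut_nonneg (c : ℂ) (ρ κ : ℝ) (z : ℂ) : 0 ≤ cut c ρ κ z :=
  Real.smoothTransition.nonneg _

theorem cut_le_one (c : ℂ) (ρ κ : ℝ) (z : ℂ) : cut c ρ κ z ≤ 1 :=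
  Real.smoothTransition.le_one _

theorem cut_eq_zero {c : ℂ} {ρ κ : ℝ} (hκ : 0 < κ) {z : ℂ} (hz : ‖z - c‖ ≤ ρ) :
    cut c ρ κ z = 0 :=
  Real.smoothTransition.zero_of_nonpos (div_nonpos_of_nonpos_of_nonneg (by linarith) hκ.le)

theorem cut_eq_one {c : ℂ} {ρ κ : ℝ} (hκ : 0 < κ) {z : ℂ} (hz : ρ + κ ≤ ‖z - c‖) :
    cut c ρ κ z = 1 :=
  Real.smoothTransition.one_of_one_le ((one_le_div hκ).2 (by linarith))

theorem contDiff_cut {c : ℂ} {ρ κ : ℝ} (hρ : 0 < ρ) (hκ : 0 < κ) {n : ℕ∞} :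
    ContDiff ℝ n (cut c ρ κ) := by
  rw [contDiff_iff_contDiffAt]
  intro z
  by_cases hz : z = c
  · have : cut c ρ κ =ᶠ[𝓝 z] fun _ => 0 := by
      filter_upwards [Metric.ball_mem_nhds z hρ] with w hw
      rw [hz, mem_ball, dist_eq_norm] at hw
      exact cut_eq_zero hκ hw.le
    exact contDiffAt_const.congr_of_eventuallyEq this
  · have h1 : ContDiffAt ℝ n (fun w : ℂ => ‖w - c‖) z :=
      (contDiffAt_id.sub contDiffAt_const).norm ℝ (sub_ne_zero.2 hz)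
    exact (Real.smoothTransition.contDiff.contDiffAt).comp z ((h1.sub contDiffAt_const).div_const κ)

theorem contDiff_cut_ofReal {c : ℂ} {ρ κ : ℝ} (hρ : 0 < ρ) (hκ : 0 < κ) {n : ℕ∞} :
    ContDiff ℝ n (fun z => (cut c ρ κ z : ℂ)) :=
  Complex.ofRealCLM.contDiff.comp (contDiff_cut hρ hκ)

end RSM
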