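import Pool.Agent.RSM.Basic
import Pool.Agent.RSM.A0
import Pool.Agent.RSM.Cut

/-!
# RSM module A3: the boundary term of a radial cut-off

PROOF.  Outside the open annulus `ρ < ‖z - c‖ < ρ + κ` the factor `dbar (cut c ρ κ)` vanishes; on
the annulus, with `z = c + r e^{it}` and `σ = Real.smoothTransition`, by `dbar_comp_real` and
`dbar_norm_sub`, `dbar (cut c ρ κ) z = σ'((r - ρ)/κ) / κ * e^{it} / 2`.  Polar coordinates
(`Complex.integral_comp_polarCoord_symm` after a translation by `c`) give, for `κ ≤ κ0`,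
  `∫ g dbar(cut) = ∫ r in ρ..ρ+κ, (σ'((r-ρ)/κ)/κ) * (r/2) * A r`,
  `A r = ∫ t in 0..2π, g (c + r e^{it}) e^{it} dt`,
where `A` is continuous on `[ρ, ρ+κ0]` (and the integral over `(-π, π)` may be replaced by the
integral over `(0, 2π)` by periodicity).  Since `σ' ≥ 0` (monotone) and
`∫ r in ρ..ρ+κ, σ'((r-ρ)/κ)/κ = σ 1 - σ 0 = 1`, the integral differs from `ρ/2 * A ρ` by at most
`sup_{[ρ, ρ+κ]} |r/2 * A r - ρ/2 * A ρ|`, which tends to `0`.
-/

open Complex Set Metric Filter Topology MeasureTheory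

namespace RSM

private theorem a3_deriv_zero {x : ℝ} (hx : x ≤ 0 ∨ 1 ≤ x) :
    deriv Real.smoothTransition x = 0 := by
  rcases hx with hx | hx
  · have h : IsLocalMin Real.smoothTransition x := by
      filter_upwards with y
      rw [Real.smoothTransition.zero_of_nonpos hx]
      exact Real.smoothTransition.nonneg y
    exact h.deriv_eq_zero
  · have h : IsLocalMax Real.smoothTransition x := by
      filter_upwards with y
      rw [Real.smoothTransition.one_of_one_le hx]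
      exact Real.smoothTransition.le_one y
    exact h.deriv_eq_zero

private theorem a3_cont_deriv : Continuous (deriv Real.smoothTransition) :=
  (Real.smoothTransition.contDiff (n := 1)).continuous_deriv le_rfl

private theorem a3_hasDerivAt (x : ℝ) :
    HasDerivAt Real.smoothTransition (deriv Real.smoothTransition x) x :=
  ((Real.smoothTransition.contDiff (n := 1)).differentiable one_ne_zero x).hasDerivAt

/-- clamping to `[ρ, ρ + κ0]` -/
private noncomputable def a3R (ρ κ0 r : ℝ) : ℝ := max ρ (min r (ρ + κ0))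

private theorem a3R_mem {ρ κ0 : ℝ} (hκ0 : 0 < κ0) (r : ℝ) :
    ρ ≤ a3R ρ κ0 r ∧ a3R ρ κ0 r ≤ ρ + κ0 :=
  ⟨le_max_left _ _, max_le (by linarith) (min_le_right _ _)⟩

private theorem a3R_eq {ρ κ0 r : ℝ} (h1 : ρ ≤ r) (h2 : r ≤ ρ + κ0) : a3R ρ κ0 r = r := by
  unfold a3R
  rw [min_eq_left h2, max_eq_right h1]

private theorem a3_norm (r t : ℝ) (hr : 0 ≤ r) : ‖(r : ℂ) * exp (t * I)‖ = r := by
  rw [norm_mul, Complex.norm_exp_ofReal_mul_I, mul_one, Complex.norm_real, Real.norm_of_nonneg hr]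

private theorem a3_cont {c : ℂ} {ρ κ0 : ℝ} (hρ : 0 < ρ) (hκ0 : 0 < κ0) {g : ℂ → ℂ}
    (hg : ContinuousOn g {z | ρ ≤ ‖z - c‖ ∧ ‖z - c‖ ≤ ρ + κ0}) :
    Continuous (fun p : ℝ × ℝ => g (c + a3R ρ κ0 p.1 * exp (p.2 * I)) * exp (p.2 * I)) := by
  have h1 : Continuous (fun p : ℝ × ℝ => c + (a3R ρ κ0 p.1 : ℂ) * exp (p.2 * I)) := by
    unfold a3R
    fun_prop
  have h2 : Continuous (fun p : ℝ × ℝ => g (c + a3R ρ κ0 p.1 * exp (p.2 * I))) := by
    refine hg.comp_continuous h1 ?_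
    intro p
    have hm := a3R_mem hκ0 (ρ := ρ) p.1
    rw [mem_ofPred_eq, add_sub_cancel_left, a3_norm _ _ (hρ.le.trans hm.1)]
    exact hm
  have h3 : Continuous (fun p : ℝ × ℝ => exp ((p.2 : ℂ) * I)) := by fun_prop
  exact h2.mul h3

private noncomputable def a3A (g : ℂ → ℂ) (c : ℂ) (ρ κ0 r : ℝ) : ℂ :=
  ∫ t in (-Real.pi)..Real.pi, g (c + a3R ρ κ0 r * exp (t * I)) * exp (t * I)

private theorem a3A_cont {c : ℂ} {ρ κ0 : ℝ} (hρ : 0 < ρ) (hκ0 : 0 < κ0) {g : ℂ → ℂ}
    (hg : ContinuousOn g {z | ρ ≤ ‖z - c‖ ∧ ‖z - c‖ ≤ ρ + κ0}) :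
    Continuous (a3A g c ρ κ0) :=
  intervalIntegral.continuous_parametric_intervalIntegral_of_continuous'
    (f := fun r t => g (c + a3R ρ κ0 r * exp (t * I)) * exp (t * I)) (a3_cont hρ hκ0 hg) _ _

private theorem a3A_eq {c : ℂ} {ρ κ0 : ℝ} (hκ0 : 0 < κ0) {g : ℂ → ℂ} :
    a3A g c ρ κ0 ρ = ∫ t in (0 : ℝ)..(2 * Real.pi),
      g (c + ρ * exp (t * I)) * exp (t * I) := by
  unfold a3A
  rw [a3R_eq le_rfl (by linarith)]
  have hper : Function.Periodic
      (fun t : ℝ => g (c + ρ * exp (t * I)) * exp (t * I)) (2 * Real.pi) := by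
    intro t
    have h1 : exp (((t + 2 * Real.pi : ℝ) : ℂ) * I) = exp (t * I) := by
      push_cast
      rw [add_mul, Complex.exp_add, Complex.exp_two_pi_mul_I, mul_one]
    simp only [h1]
  have h := hper.intervalIntegral_add_eq (-Real.pi) 0
  rw [show -Real.pi + 2 * Real.pi = Real.pi by ring, zero_add] at h
  exact h

private theorem a3_dbar {c : ℂ} {ρ κ r : ℝ} (t : ℝ) (hr : 0 < r) :
    dbar (fun w => (cut c ρ κ w : ℂ)) (c + r * exp (t * I)) =
      ((deriv Real.smoothTransition ((r - ρ) / κ) / κ : ℝ) : ℂ) * (exp (t * I) / 2) := by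
  set z : ℂ := c + r * exp (t * I) with hz
  have hzc : z - c = r * exp (t * I) := by rw [hz]; ring
  have hn : ‖z - c‖ = r := by rw [hzc, a3_norm r t hr.le]
  have hne : z ≠ c := by
    intro h
    rw [h, sub_self, norm_zero] at hn
    linarith
  have h1 : HasDerivAt (fun x : ℝ => Real.smoothTransition ((x - ρ) / κ))
      (deriv Real.smoothTransition ((r - ρ) / κ) / κ) ‖z - c‖ := by
    rw [hn]
    have h2 : HasDerivAt (fun x : ℝ => (x - ρ) / κ) (1 / κ) r :=
      ((hasDerivAt_id r).sub_const ρ).div_const κ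
    have h3 := (a3_hasDerivAt ((r - ρ) / κ)).comp r h2
    have e : deriv Real.smoothTransition ((r - ρ) / κ) / κ =
        deriv Real.smoothTransition ((r - ρ) / κ) * (1 / κ) := by ring
    rw [e]
    exact h3
  have h2 : DifferentiableAt ℝ (fun w : ℂ => ‖w - c‖) z :=
    (differentiableAt_id.sub_const c).norm ℝ (sub_ne_zero.2 hne)
  have h3 := dbar_comp_real (σ := fun x : ℝ => Real.smoothTransition ((x - ρ) / κ))
    (v := fun w : ℂ => ‖w - c‖) h1 h2
  have h4 : (fun w => (cut c ρ κ w : ℂ)) =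
      fun w : ℂ => ((Real.smoothTransition ((‖w - c‖ - ρ) / κ) : ℝ) : ℂ) := rfl
  rw [h4, h3, dbar_norm_sub hne, hn, hzc]
  have hr' : (r : ℂ) ≠ 0 := by exact_mod_cast hr.ne'
  congr 1
  field_simp

private theorem a3_polar {c : ℂ} {ρ κ0 κ : ℝ} (hρ : 0 < ρ) (hκ0 : 0 < κ0) (hκ : 0 < κ)
    (hκκ : κ ≤ κ0) {g : ℂ → ℂ}
    (hg : ContinuousOn g {z | ρ ≤ ‖z - c‖ ∧ ‖z - c‖ ≤ ρ + κ0}) :
    ∫ z, g z * dbar (fun w => (cut c ρ κ w : ℂ)) z =
      ∫ r in ρ..(ρ + κ), ((deriv Real.smoothTransition ((r - ρ) / κ) / κ : ℝ) : ℂ) *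
        ((r : ℂ) / 2 * a3A g c ρ κ0 r) := by
  set h : ℝ × ℝ → ℂ := fun p => g (c + a3R ρ κ0 p.1 * exp (p.2 * I)) * exp (p.2 * I) with hh
  have hc : Continuous h := a3_cont hρ hκ0 hg
  set F : ℝ × ℝ → ℂ := fun p =>
    ((deriv Real.smoothTransition ((p.1 - ρ) / κ) / κ : ℝ) : ℂ) * ((p.1 : ℂ) / 2 * h p) with hF
  have hFc : Continuous F := by
    have h1 : Continuous (fun p : ℝ × ℝ =>
        ((deriv Real.smoothTransition ((p.1 - ρ) / κ) / κ : ℝ) : ℂ)) := by
      apply Complex.continuous_ofReal.comp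
      exact (a3_cont_deriv.comp (by fun_prop)).div_const κ
    have h2 : Continuous (fun p : ℝ × ℝ => (p.1 : ℂ) / 2) := by fun_prop
    exact h1.mul (h2.mul hc)
  have hFz : ∀ p : ℝ × ℝ, (p.1 < ρ ∨ ρ + κ < p.1) → F p = 0 := by
    intro p hp
    have h1 : deriv Real.smoothTransition ((p.1 - ρ) / κ) = 0 := by
      apply a3_deriv_zero
      rcases hp with hp | hp
      · left
        exact div_nonpos_of_nonpos_of_nonneg (by linarith) hκ.le
      · right
        rw [le_div_iff₀ hκ]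
        linarith
    simp only [hF, h1, zero_div, ofReal_zero, zero_mul]
  rw [← integral_add_left_eq_self (fun z => g z * dbar (fun w => (cut c ρ κ w : ℂ)) z) c,
    ← Complex.integral_comp_polarCoord_symm]
  have htar : polarCoord.target = Ioi (0 : ℝ) ×ˢ Ioo (-Real.pi) Real.pi := rfl
  have e1 : ∫ p in polarCoord.target, p.1 • (g (c + Complex.polarCoord.symm p) *
      dbar (fun w => (cut c ρ κ w : ℂ)) (c + Complex.polarCoord.symm p)) =
      ∫ p in polarCoord.target, F p := by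
    apply setIntegral_congr_fun polarCoord.open_target.measurableSet
    intro p hp
    rw [htar] at hp
    have hp1 : 0 < p.1 := hp.1
    have hP : Complex.polarCoord.symm p = (p.1 : ℂ) * exp (p.2 * I) := by
      rw [Complex.polarCoord_symm_apply, Complex.exp_mul_I, Complex.ofReal_cos,
        Complex.ofReal_sin]
    simp only
    rw [hP, a3_dbar p.2 hp1]
    by_cases hd : ρ ≤ p.1 ∧ p.1 ≤ ρ + κ
    · simp only [hF, hh]
      rw [a3R_eq hd.1 (by linarith [hd.2]), Complex.real_smul]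
      ring
    · have hd' : p.1 < ρ ∨ ρ + κ < p.1 := by
        by_contra hcon
        push Not at hcon
        exact hd hcon
      rw [hFz p hd']
      have h1 : deriv Real.smoothTransition ((p.1 - ρ) / κ) = 0 := by
        apply a3_deriv_zero
        rcases hd' with hp | hp
        · left
          exact div_nonpos_of_nonpos_of_nonneg (by linarith) hκ.le
        · right
          rw [le_div_iff₀ hκ]
          linarith
      rw [h1]
      simp
  rw [e1, htar]
  have e2 : ∫ p in Ioi (0 : ℝ) ×ˢ Ioo (-Real.pi) Real.pi, F p =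
      ∫ p in Icc ρ (ρ + κ) ×ˢ Ioo (-Real.pi) Real.pi, F p := by
    apply setIntegral_eq_of_subset_of_forall_sdiff_eq_zero
      (measurableSet_Ioi.prod measurableSet_Ioo)
    · apply prod_mono _ (subset_refl _)
      intro x hx
      exact lt_of_lt_of_le hρ hx.1
    · rintro p ⟨hp1, hp2⟩
      apply hFz
      by_contra hcon
      push Not at hcon
      exact hp2 ⟨hcon, hp1.2⟩
  rw [e2]
  have hint : IntegrableOn F (Icc ρ (ρ + κ) ×ˢ Ioo (-Real.pi) Real.pi) (volume.prod volume) := by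
    have h1 : IntegrableOn F (Icc ρ (ρ + κ) ×ˢ Icc (-Real.pi) Real.pi) (volume.prod volume) :=
      hFc.continuousOn.integrableOn_compact (isCompact_Icc.prod isCompact_Icc)
    exact h1.mono_set (prod_mono (subset_refl _) Ioo_subset_Icc_self)
  have e3 := setIntegral_prod F hint
  have e4 : ∫ p in Icc ρ (ρ + κ) ×ˢ Ioo (-Real.pi) Real.pi, F p =
      ∫ x in Icc ρ (ρ + κ), ∫ y in Ioo (-Real.pi) Real.pi, F (x, y) := e3
  rw [e4, intervalIntegral.integral_of_le (by linarith), ← integral_Icc_eq_integral_Ioc]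
  apply setIntegral_congr_fun measurableSet_Icc
  intro r _
  simp only [hF, hh]
  unfold a3A
  rw [intervalIntegral.integral_of_le (by linarith [Real.pi_pos]), integral_Ioc_eq_integral_Ioo,
    integral_const_mul, integral_const_mul]

private theorem a3_subst {c : ℂ} {ρ κ0 κ : ℝ} (hκ : 0 < κ) {g : ℂ → ℂ} :
    ∫ r in ρ..(ρ + κ), ((deriv Real.smoothTransition ((r - ρ) / κ) / κ : ℝ) : ℂ) *
        ((r : ℂ) / 2 * a3A g c ρ κ0 r) =
      ∫ x in (0 : ℝ)..1, ((deriv Real.smoothTransition x : ℝ) : ℂ) *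
        (((ρ + κ * x : ℝ) : ℂ) / 2 * a3A g c ρ κ0 (ρ + κ * x)) := by
  have h := intervalIntegral.smul_integral_comp_add_mul (a := (0 : ℝ)) (b := 1)
    (fun r : ℝ => ((deriv Real.smoothTransition ((r - ρ) / κ) / κ : ℝ) : ℂ) *
        ((r : ℂ) / 2 * a3A g c ρ κ0 r)) κ ρ
  rw [mul_zero, add_zero, mul_one] at h
  rw [← h, ← intervalIntegral.integral_smul]
  apply intervalIntegral.integral_congr
  intro x _
  simp only
  rw [show (ρ + κ * x - ρ) / κ = x by field_simp; ring, Complex.real_smul]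
  have hκ' : (κ : ℂ) ≠ 0 := by exact_mod_cast hκ.ne'
  push_cast
  field_simp

theorem tendsto_cut {c : ℂ} {ρ κ0 : ℝ} (hρ : 0 < ρ) (hκ0 : 0 < κ0) {g : ℂ → ℂ}
    (hg : ContinuousOn g {z | ρ ≤ ‖z - c‖ ∧ ‖z - c‖ ≤ ρ + κ0}) :
    Tendsto (fun κ : ℝ => ∫ z, g z * dbar (fun w => (cut c ρ κ w : ℂ)) z) (𝓝[>] 0)
      (𝓝 ((ρ : ℂ) / 2 * ∫ t in (0 : ℝ)..(2 * Real.pi),
        g (c + ρ * exp (t * I)) * exp (t * I))) := by
  have hA := a3A_cont hρ hκ0 hg
  have hcont : Continuous (fun κ : ℝ => ∫ x in (0 : ℝ)..1,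
      ((deriv Real.smoothTransition x : ℝ) : ℂ) *
        (((ρ + κ * x : ℝ) : ℂ) / 2 * a3A g c ρ κ0 (ρ + κ * x))) := by
    apply intervalIntegral.continuous_parametric_intervalIntegral_of_continuous'
    have h1 : Continuous (fun p : ℝ × ℝ => ((deriv Real.smoothTransition p.2 : ℝ) : ℂ)) :=
      Complex.continuous_ofReal.comp (a3_cont_deriv.comp continuous_snd)
    have h2 : Continuous (fun p : ℝ × ℝ => ρ + p.1 * p.2) := by fun_prop
    have h3 : Continuous (fun p : ℝ × ℝ => (((ρ + p.1 * p.2 : ℝ) : ℂ) / 2)) :=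
      (Complex.continuous_ofReal.comp h2).div_const 2
    exact h1.mul (h3.mul (hA.comp h2))
  have h0 := (hcont.tendsto 0).mono_left (nhdsWithin_le_nhds (s := Ioi (0 : ℝ)))
  have hval : ∫ x in (0 : ℝ)..1, ((deriv Real.smoothTransition x : ℝ) : ℂ) *
        (((ρ + 0 * x : ℝ) : ℂ) / 2 * a3A g c ρ κ0 (ρ + 0 * x)) =
      (ρ : ℂ) / 2 * ∫ t in (0 : ℝ)..(2 * Real.pi), g (c + ρ * exp (t * I)) * exp (t * I) := by
    rw [← a3A_eq hκ0]
    simp only [zero_mul, add_zero]
    rw [intervalIntegral.integral_mul_const]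
    have h1 : ∫ x in (0 : ℝ)..1, ((deriv Real.smoothTransition x : ℝ) : ℂ) = 1 := by
      rw [intervalIntegral.integral_ofReal]
      rw [intervalIntegral.integral_eq_sub_of_hasDerivAt (fun x _ => a3_hasDerivAt x)
        (a3_cont_deriv.intervalIntegrable _ _)]
      rw [Real.smoothTransition.one, Real.smoothTransition.zero]
      simp
    rw [h1, one_mul]
  rw [hval] at h0
  refine h0.congr' ?_
  filter_upwards [Ioc_mem_nhdsGT hκ0] with κ hκ
  rw [a3_polar hρ hκ0 hκ.1 hκ.2 hg, a3_subst hκ.1]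

end RSM
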