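import Pool.Agent.RSM.Basic

/-!
# RSM module A4: the boundary integral over one circle vanishes

PROOF.  Put `γ t = c + ρ e^{it}`, `s t = Re (exp (-iθ) H (γ t))`; both are continuously
differentiable (as `H` is holomorphic near the circle) and `2π`-periodic.  By `hb`,
`H (γ t) = exp (iθ) * (s t + i q)`, hence, differentiating, `H'(γ t) * (I ρ e^{it}) =
exp (iθ) s'(t)`, so the integrand equals `Ψ (s t) * exp (iθ) * s'(t) / (I ρ)`, and
`∫ Ψ (s t) s'(t) dt = ∫_{s 0}^{s (2π)} Ψ = 0` (`intervalIntegral.integral_comp_mul_deriv`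
or a primitive of `Ψ`).
-/

open Complex Set Metric Filter Topology MeasureTheory

namespace RSM

theorem circle_zero {c : ℂ} {ρ : ℝ} (hρ : 0 < ρ) {U : Set ℂ} (hU : IsOpen U)
    (hs : sphere c ρ ⊆ U) {H : ℂ → ℂ} (hH : DifferentiableOn ℂ H U) (θ q : ℝ)
    (hb : ∀ z ∈ sphere c ρ, (exp (-(θ : ℂ) * I) * H z).im = q) (Ψ : ℝ → ℂ)
    (hΨ : Continuous Ψ) :
    ∫ t in (0 : ℝ)..(2 * Real.pi),
      Ψ ((exp (-(θ : ℂ) * I) * H (c + ρ * exp (t * I))).re) *
        deriv H (c + ρ * exp (t * I)) * exp (t * I) = 0 := by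
  have hρ0 : (ρ : ℂ) ≠ 0 := by exact_mod_cast hρ.ne'
  obtain ⟨γ, hγ⟩ : ∃ γ : ℝ → ℂ, γ = fun t : ℝ => c + ρ * exp (t * I) := ⟨_, rfl⟩
  have hγs : ∀ t, γ t ∈ sphere c ρ := by
    intro t
    rw [hγ]
    simp only [mem_sphere_iff_norm, add_sub_cancel_left, norm_mul, norm_exp_ofReal_mul_I, mul_one,
      norm_real, Real.norm_of_nonneg hρ.le]
  have hγU : ∀ t, γ t ∈ U := fun t => hs (hγs t)
  have hexp : ∀ t : ℝ, HasDerivAt (fun t : ℝ => exp (t * I)) (exp (t * I) * I) t := by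
    intro t
    have h1 : HasDerivAt (fun t : ℝ => (t : ℂ) * I) (1 * I) t :=
      (HasDerivAt.ofReal_comp (hasDerivAt_id t)).mul_const I
    have h2 := h1.cexp
    rwa [one_mul] at h2
  have hγd : ∀ t : ℝ, HasDerivAt γ (ρ * (exp (t * I) * I)) t := by
    intro t
    rw [hγ]
    exact ((hexp t).const_mul (ρ : ℂ)).const_add c
  have hγc : Continuous γ := by
    rw [hγ]
    fun_prop
  obtain ⟨K, hK⟩ : ∃ K : ℝ → ℂ, K = fun t : ℝ => exp (-(θ : ℂ) * I) * H (γ t) := ⟨_, rfl⟩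
  obtain ⟨K', hK'⟩ : ∃ K' : ℝ → ℂ, K' = fun t : ℝ =>
    exp (-(θ : ℂ) * I) * (deriv H (γ t) * (ρ * (exp (t * I) * I))) := ⟨_, rfl⟩
  have hKd : ∀ t, HasDerivAt K (K' t) t := by
    intro t
    rw [hK, hK']
    have h1 : HasDerivAt H (deriv H (γ t)) (γ t) :=
      (hH.differentiableAt (hU.mem_nhds (hγU t))).hasDerivAt
    exact (HasDerivAt.comp t h1 (hγd t)).const_mul _
  have hK'c : Continuous K' := by
    rw [hK']
    have h1 : Continuous fun t => deriv H (γ t) :=
      (hH.deriv hU).continuousOn.comp_continuous hγc hγU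
    have h2 : Continuous fun t : ℝ => (ρ : ℂ) * (exp (t * I) * I) := by fun_prop
    exact continuous_const.mul (h1.mul h2)
  have him : ∀ t, (K' t).im = 0 := by
    intro t
    have h1 : HasDerivAt (fun t => (K t).im) ((K' t).im) t :=
      Complex.imCLM.hasFDerivAt.comp_hasDerivAt t (hKd t)
    have h2 : (fun t => (K t).im) = fun _ => q := by
      funext s
      rw [hK]
      exact hb _ (hγs s)
    rw [h2] at h1
    exact h1.unique (hasDerivAt_const t q)
  have hsd : ∀ t, HasDerivAt (fun t => (K t).re) ((K' t).re) t := fun t =>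
    Complex.reCLM.hasFDerivAt.comp_hasDerivAt t (hKd t)
  have hK're : ∀ t, K' t = ((K' t).re : ℂ) := by
    intro t
    apply Complex.ext <;> simp [him t]
  have key : ∫ t in (0 : ℝ)..(2 * Real.pi), (K' t).re • (Ψ ∘ fun t => (K t).re) t = 0 := by
    rw [intervalIntegral.integral_deriv_smul_comp (fun t _ => hsd t)
      (Complex.continuous_re.comp hK'c).continuousOn hΨ]
    have e : K (2 * Real.pi) = K 0 := by
      rw [hK, hγ]
      simp
    rw [e, intervalIntegral.integral_same]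
  have hθ : exp (-(θ : ℂ) * I) * exp ((θ : ℂ) * I) = 1 := by
    rw [← Complex.exp_add]
    simp
  have hI : ∀ t : ℝ, Ψ ((exp (-(θ : ℂ) * I) * H (c + ρ * exp (t * I))).re) *
        deriv H (c + ρ * exp (t * I)) * exp (t * I) =
      (exp ((θ : ℂ) * I) / (ρ * I)) * ((K' t).re • (Ψ ∘ fun t => (K t).re) t) := by
    intro t
    have e1 : Ψ ((exp (-(θ : ℂ) * I) * H (c + ρ * exp (t * I))).re) =
        (Ψ ∘ fun t => (K t).re) t := by
      rw [hK, hγ]
      rfl
    have e2 : ((K' t).re : ℂ) = exp (-(θ : ℂ) * I) * (deriv H (γ t) * (ρ * (exp (t * I) * I))) := by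
      rw [← hK're t, hK']
    rw [e1, Complex.real_smul, e2]
    have e3 : deriv H (c + ρ * exp (t * I)) = deriv H (γ t) := by rw [hγ]
    rw [e3]
    have e4 : exp ((θ : ℂ) * I) / (ρ * I) * (exp (-(θ : ℂ) * I) *
        (deriv H (γ t) * (ρ * (exp (t * I) * I))) * (Ψ ∘ fun t => (K t).re) t) =
        (exp (-(θ : ℂ) * I) * exp ((θ : ℂ) * I)) * ((ρ * I) / (ρ * I)) *
          ((Ψ ∘ fun t => (K t).re) t * deriv H (γ t) * exp (t * I)) := by
      ring
    rw [e4, hθ, div_self (mul_ne_zero hρ0 I_ne_zero), one_mul, one_mul]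
  simp only [hI]
  rw [intervalIntegral.integral_const_mul, key, mul_zero]

end RSM
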