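import Pool.Agent.RSM.Basic
import Pool.Agent.RSM.A3
import Pool.Agent.RSM.A4

/-!
# RSM module A5: the Stokes identity on a circle domain (the only integration by parts needed)

PROOF.  Let `κ0 > 0` be such that `2 * (ρ + κ0) < ‖c a - c b‖` for `a ≠ b` (`exists_gap`).  For
`0 < κ ≤ κ0` put `S_κ z = 1 - ∑ a, (1 - cut (c a) ρ κ z)`.  Since the annuli
`‖z - c a‖ < ρ + κ0` are pairwise disjoint, at every point at most one summand is non zero; so
`0 ≤ S_κ ≤ 1`, `S_κ = 0` on every closed disc `‖z - c a‖ ≤ ρ`, and `S_κ z → 1` as `κ → 0` for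
every `z ∈ dom c ρ`.  The function `g_κ = φ * H' * S_κ` (as `H' = deriv H` is holomorphic on
`dom c ρ'`) is `C¹` on the open set `dom c ρ'`, and it vanishes on the open set
`{z | ∃ a, ‖z - c a‖ < ρ}`; the two open sets cover the plane; so `g_κ` is `C¹` on `ℂ`; it
has compact support by `hR`.  By `integral_dbar_eq_zero`, `dbar_mul_holo`, `dbar_mul`,
`0 = ∫ dbar φ * H' * S_κ + ∑ a, ∫ φ * H' * dbar (cut (c a) ρ κ)`
(the functions are integrable: bounded, measurable, zero outside the compact set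
`cdom c ρ ∩ closedBall 0 R`).
As `κ → 0+`, the first integral tends to `∫ z in dom c ρ, dbar φ z * deriv H z` by dominated
convergence (the dominating function is a constant on `cdom c ρ ∩ closedBall 0 R`; `dbar φ * H'`
is continuous there), and the integral number `a` tends by `tendsto_cut` to
`ρ/2 * ∫ t in 0..2π, φ H' (c a + ρ e^{it}) e^{it} dt`, which is `0` by `circle_zero` since
`φ = Ψ a (Re (exp (-i θ a) H))` on the circle.
-/

open Complex Set Metric Filter Topology MeasureTheory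

namespace RSM

variable {ι : Type} {c : ι → ℂ} {ρ ρ' : ℝ} {θ : ι → ℝ} {H : ℂ → ℂ} {q : ι → ℝ}

/-- the cut-off of all the discs -/
private noncomputable def a5S [Fintype ι] (c : ι → ℂ) (ρ κ : ℝ) (z : ℂ) : ℝ :=
  1 - ∑ a, (1 - cut (c a) ρ κ z)

private theorem a5_far {κ0 : ℝ} (hgap : ∀ a b, a ≠ b → 2 * (ρ + κ0) < ‖c a - c b‖) {a b : ι}
    (hab : b ≠ a) {z : ℂ} (hz : ‖z - c a‖ ≤ ρ + κ0) : ρ + κ0 < ‖z - c b‖ := by
  have h1 := hgap a b hab.symm
  have h2 : ‖c a - c b‖ ≤ ‖z - c a‖ + ‖z - c b‖ := by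
    calc ‖c a - c b‖ = ‖(z - c b) - (z - c a)‖ := by congr 1; ring
      _ ≤ ‖z - c b‖ + ‖z - c a‖ := norm_sub_le _ _
      _ = _ := add_comm _ _
  linarith

private theorem a5S_eq [Fintype ι] {κ0 κ : ℝ} (hgap : ∀ a b, a ≠ b → 2 * (ρ + κ0) < ‖c a - c b‖)
    (hκ : 0 < κ) (hκκ : κ ≤ κ0) {a : ι} {z : ℂ} (hz : ‖z - c a‖ ≤ ρ + κ0) :
    a5S c ρ κ z = cut (c a) ρ κ z := by
  unfold a5S
  rw [Finset.sum_eq_single a]
  · ring
  · intro b _ hb
    rw [cut_eq_one hκ]
    · ring
    · have := a5_far hgap hb hz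
      linarith
  · intro h
    exact absurd (Finset.mem_univ a) h

private theorem a5S_zero [Fintype ι] {κ0 κ : ℝ}
    (hgap : ∀ a b, a ≠ b → 2 * (ρ + κ0) < ‖c a - c b‖)
    (hκ : 0 < κ) (hκκ : κ ≤ κ0) {a : ι} {z : ℂ} (hz : ‖z - c a‖ ≤ ρ) :
    a5S c ρ κ z = 0 := by
  rw [a5S_eq hgap hκ hκκ (a := a) (by linarith)]
  exact cut_eq_zero hκ hz

private theorem a5S_one [Fintype ι] {κ : ℝ} (hκ : 0 < κ) {z : ℂ}
    (hz : ∀ a, ρ + κ ≤ ‖z - c a‖) : a5S c ρ κ z = 1 := by
  unfold a5S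
  rw [Finset.sum_eq_zero, sub_zero]
  intro a _
  rw [cut_eq_one hκ (hz a), sub_self]

private theorem a5S_abs [Fintype ι] {κ0 κ : ℝ}
    (hgap : ∀ a b, a ≠ b → 2 * (ρ + κ0) < ‖c a - c b‖)
    (hκ : 0 < κ) (hκκ : κ ≤ κ0) (z : ℂ) : |a5S c ρ κ z| ≤ 1 := by
  by_cases h : ∃ a, ‖z - c a‖ ≤ ρ + κ0
  · obtain ⟨a, ha⟩ := h
    rw [a5S_eq hgap hκ hκκ ha, abs_le]
    exact ⟨by linarith [cut_nonneg (c a) ρ κ z], cut_le_one _ _ _ _⟩
  · push Not at h
    rw [a5S_one hκ (fun a => by linarith [h a]), abs_one]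

private theorem a5S_contDiff [Fintype ι] {κ : ℝ} (hρ : 0 < ρ) (hκ : 0 < κ) :
    ContDiff ℝ 1 (fun z => (a5S c ρ κ z : ℂ)) := by
  unfold a5S
  have h1 : ContDiff ℝ 1 (fun z => 1 - ∑ a, (1 - cut (c a) ρ κ z)) := by
    refine contDiff_const.sub ?_
    refine ContDiff.sum fun a _ => ?_
    exact contDiff_const.sub (contDiff_cut hρ hκ)
  exact Complex.ofRealCLM.contDiff.comp h1

private theorem a5_dbar_S [Fintype ι] {κ : ℝ} (hρ : 0 < ρ) (hκ : 0 < κ) (z : ℂ) :
    dbar (fun w => (a5S c ρ κ w : ℂ)) z = ∑ a, dbar (fun w => (cut (c a) ρ κ w : ℂ)) z := by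
  have hd : ∀ a, DifferentiableAt ℝ (fun w => (cut (c a) ρ κ w : ℂ)) z := fun a =>
    ((contDiff_cut_ofReal (n := 1) hρ hκ).differentiable (by norm_num)).differentiableAt
  have h1 : (fun w => (a5S c ρ κ w : ℂ)) =
      fun w => (1 : ℂ) - ∑ a, ((1 : ℂ) - (cut (c a) ρ κ w : ℂ)) := by
    funext w
    unfold a5S
    push_cast
    rfl
  have h2 : ∀ a ∈ (Finset.univ : Finset ι),
      DifferentiableAt ℝ (fun w => (1 : ℂ) - (cut (c a) ρ κ w : ℂ)) z := fun a _ =>
    (differentiableAt_const _).sub (hd a)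
  rw [h1, dbar_sub (differentiableAt_const _) (DifferentiableAt.fun_sum h2), dbar_const,
    dbar_sum _ h2]
  have h3 : ∀ a ∈ (Finset.univ : Finset ι), dbar (fun w => (1 : ℂ) - (cut (c a) ρ κ w : ℂ)) z =
      -dbar (fun w => (cut (c a) ρ κ w : ℂ)) z := by
    intro a _
    rw [dbar_sub (differentiableAt_const _) (hd a), dbar_const, zero_sub]
  rw [Finset.sum_congr rfl h3, Finset.sum_neg_distrib]
  ring

/-- near a point outside `dom c ρ'` -/
private theorem a5_near {z : ℂ} (hz : z ∉ dom c ρ') (hlt : ρ' < ρ) :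
    ∃ a, ∀ᶠ w in 𝓝 z, ‖w - c a‖ < ρ := by
  have h1 : ∃ a, ‖z - c a‖ ≤ ρ' := by
    by_contra hcon
    push Not at hcon
    exact hz hcon
  obtain ⟨a, ha⟩ := h1
  refine ⟨a, ?_⟩
  have hc : ContinuousAt (fun w : ℂ => ‖w - c a‖) z := by fun_prop
  exact hc.eventually_lt continuousAt_const (by simpa using lt_of_le_of_lt ha hlt)

/-- near a point outside `dom c ρ'` the derivative of each cut-off vanishes -/
private theorem a5_dbar_cut_near {κ0 κ : ℝ} (hgap : ∀ a b, a ≠ b → 2 * (ρ + κ0) < ‖c a - c b‖)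
    (hκ : 0 < κ) (hκκ : κ ≤ κ0) {z : ℂ} (hz : z ∉ dom c ρ') (hlt : ρ' < ρ) (b : ι) :
    ∀ᶠ w in 𝓝 z, dbar (fun w => (cut (c b) ρ κ w : ℂ)) w = 0 := by
  obtain ⟨a, ha⟩ := a5_near hz hlt
  have ha2 := ha.eventually_nhds
  filter_upwards [ha2] with w hw
  by_cases hab : b = a
  · subst hab
    have h1 : (fun w => (cut (c b) ρ κ w : ℂ)) =ᶠ[𝓝 w] fun _ => (0 : ℂ) := by
      filter_upwards [hw] with v hv
      rw [cut_eq_zero hκ hv.le, ofReal_zero]
    rw [Pool.Lib.dbar_congr h1, dbar_const]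
  · have h1 : (fun w => (cut (c b) ρ κ w : ℂ)) =ᶠ[𝓝 w] fun _ => (1 : ℂ) := by
      filter_upwards [hw] with v hv
      have := a5_far hgap hab (z := v) (by linarith)
      rw [cut_eq_one hκ (by linarith), ofReal_one]
    rw [Pool.Lib.dbar_congr h1, dbar_const]

/-- a product is continuous if one factor is continuous on an open set, and the other one is
continuous and vanishes near the other points -/
private theorem a5_cont {U : Set ℂ} (hU : IsOpen U) {f s : ℂ → ℂ} (hf : ContinuousOn f U)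
    (hs : Continuous s) (h0 : ∀ z, z ∉ U → ∀ᶠ w in 𝓝 z, s w = 0) :
    Continuous (fun z => f z * s z) := by
  rw [continuous_iff_continuousAt]
  intro z
  by_cases hz : z ∈ U
  · exact (hf.continuousAt (hU.mem_nhds hz)).mul hs.continuousAt
  · have h1 : (fun z => f z * s z) =ᶠ[𝓝 z] fun _ => (0 : ℂ) := by
      filter_upwards [h0 z hz] with w hw
      rw [hw, mul_zero]
    exact continuousAt_const.congr h1.symm

theorem stokes [Finite ι] (hH : Compat c ρ ρ' θ H q) {φ : ℂ → ℂ}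
    (hφ : ContDiffOn ℝ 1 φ (dom c ρ')) {R : ℝ} (hR : ∀ z, R ≤ ‖z‖ → φ z = 0)
    (Ψ : ι → ℝ → ℂ) (hΨ : ∀ a, Continuous (Ψ a))
    (hb : ∀ a z, ‖z - c a‖ = ρ → φ z = Ψ a ((exp (-(θ a : ℂ) * I) * H z).re)) :
    ∫ z in dom c ρ, dbar φ z * deriv H z = 0 := by
  cases nonempty_fintype ι
  have hρ : 0 < ρ := hH.pos'
  have hlt := hH.lt
  have hU : IsOpen (dom c ρ') := isOpen_dom c ρ'
  obtain ⟨κ0, hκ0, hgap⟩ := exists_gap hH.sep
  have hH' : DifferentiableOn ℂ (deriv H) (dom c ρ') := hH.diff.deriv hU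
  have hφc : ContinuousOn φ (dom c ρ') := hφ.continuousOn
  have hdφ : ContinuousOn (dbar φ) (dom c ρ') := by
    have h1 : ContinuousOn (fderiv ℝ φ) (dom c ρ') :=
      hφ.continuousOn_fderiv_of_isOpen hU le_rfl
    have h2 : ContinuousOn (fun z => (fderiv ℝ φ z 1 + I * fderiv ℝ φ z I) / 2) (dom c ρ') := by
      refine ContinuousOn.div_const ?_ 2
      exact (h1.clm_apply continuousOn_const).add
        (continuousOn_const.mul (h1.clm_apply continuousOn_const))
    exact h2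
  -- outside the disc of radius `R`
  have hdR : ∀ z, R < ‖z‖ → dbar φ z = 0 := by
    intro z hz
    have h1 : φ =ᶠ[𝓝 z] fun _ => (0 : ℂ) := by
      have hc : ContinuousAt (fun w : ℂ => ‖w‖) z := by fun_prop
      filter_upwards [continuousAt_const.eventually_lt hc (by simpa using hz)] with w hw
      exact hR w hw.le
    rw [Pool.Lib.dbar_congr h1, dbar_const]
  -- the cut-off vanishes near the points outside `dom c ρ'`
  have hS0 : ∀ κ, 0 < κ → κ ≤ κ0 → ∀ z, z ∉ dom c ρ' →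
      ∀ᶠ w in 𝓝 z, (a5S c ρ κ w : ℂ) = 0 := by
    intro κ hκ hκκ z hz
    obtain ⟨a, ha⟩ := a5_near hz hlt
    filter_upwards [ha] with w hw
    rw [a5S_zero hgap hκ hκκ (a := a) hw.le, ofReal_zero]
  -- smoothness and compact support
  have hsm : ∀ κ, 0 < κ → κ ≤ κ0 →
      ContDiff ℝ 1 (fun z => φ z * deriv H z * (a5S c ρ κ z : ℂ)) := by
    intro κ hκ hκκ
    rw [contDiff_iff_contDiffAt]
    intro z
    by_cases hz : z ∈ dom c ρ'
    · have h1 : ContDiffAt ℝ 1 φ z := hφ.contDiffAt (hU.mem_nhds hz)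
      have h2 : ContDiffAt ℂ 1 (deriv H) z := (hH'.contDiffOn hU).contDiffAt (hU.mem_nhds hz)
      exact (h1.mul (h2.restrict_scalars ℝ)).mul (a5S_contDiff hρ hκ).contDiffAt
    · have h1 : (fun z => φ z * deriv H z * (a5S c ρ κ z : ℂ)) =ᶠ[𝓝 z] fun _ => (0 : ℂ) := by
        filter_upwards [hS0 κ hκ hκκ z hz] with w hw
        rw [hw, mul_zero]
      exact contDiffAt_const.congr_of_eventuallyEq h1
  have hcs : ∀ κ, HasCompactSupport (fun z => φ z * deriv H z * (a5S c ρ κ z : ℂ)) := by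
    intro κ
    refine HasCompactSupport.intro (isCompact_closedBall (0 : ℂ) R) ?_
    intro z hz
    rw [mem_closedBall, dist_zero_right, not_le] at hz
    rw [hR z hz.le, zero_mul, zero_mul]
  -- the pointwise identity
  have hpt : ∀ κ, 0 < κ → κ ≤ κ0 → ∀ z,
      dbar (fun z => φ z * deriv H z * (a5S c ρ κ z : ℂ)) z =
        dbar φ z * deriv H z * (a5S c ρ κ z : ℂ) +
          ∑ a, φ z * deriv H z * dbar (fun w => (cut (c a) ρ κ w : ℂ)) z := by
    intro κ hκ hκκ z
    by_cases hz : z ∈ dom c ρ'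
    · have h1 : DifferentiableAt ℝ φ z :=
        (hφ.contDiffAt (hU.mem_nhds hz)).differentiableAt (by norm_num)
      have h2 : DifferentiableAt ℂ (deriv H) z := hH'.differentiableAt (hU.mem_nhds hz)
      have h3 : DifferentiableAt ℝ (fun w => (a5S c ρ κ w : ℂ)) z :=
        ((a5S_contDiff hρ hκ).differentiable (by norm_num)).differentiableAt
      rw [dbar_mul (h1.fun_mul (h2.restrictScalars ℝ)) h3, dbar_mul_holo h1 h2, a5_dbar_S hρ hκ,
        Finset.mul_sum]
    · have h1 : (fun z => φ z * deriv H z * (a5S c ρ κ z : ℂ)) =ᶠ[𝓝 z] fun _ => (0 : ℂ) := by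
        filter_upwards [hS0 κ hκ hκκ z hz] with w hw
        rw [hw, mul_zero]
      rw [Pool.Lib.dbar_congr h1, dbar_const, (hS0 κ hκ hκκ z hz).self_of_nhds, mul_zero, zero_add,
        Finset.sum_eq_zero]
      intro a _
      rw [(a5_dbar_cut_near hgap hκ hκκ hz hlt a).self_of_nhds, mul_zero]
  -- the annuli
  have hann : ∀ a, {z | ρ ≤ ‖z - c a‖ ∧ ‖z - c a‖ ≤ ρ + κ0} ⊆ dom c ρ' := by
    intro a z hz b
    by_cases hab : b = a
    · subst hab
      exact lt_of_lt_of_le hlt hz.1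
    · have := a5_far hgap hab hz.2
      linarith
  have hG : ContinuousOn (fun z => φ z * deriv H z) (dom c ρ') := hφc.mul hH'.continuousOn
  -- integrability
  have hi1 : ∀ κ, 0 < κ → κ ≤ κ0 →
      Integrable (fun z => dbar φ z * deriv H z * (a5S c ρ κ z : ℂ)) := by
    intro κ hκ hκκ
    refine Continuous.integrable_of_hasCompactSupport
      (a5_cont hU (hdφ.mul hH'.continuousOn) (a5S_contDiff hρ hκ).continuous
        (hS0 κ hκ hκκ)) ?_
    refine HasCompactSupport.intro (isCompact_closedBall (0 : ℂ) R) ?_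
    intro z hz
    rw [mem_closedBall, dist_zero_right, not_le] at hz
    rw [hdR z hz, zero_mul, zero_mul]
  have hi2 : ∀ κ, 0 < κ → κ ≤ κ0 → ∀ a,
      Integrable (fun z => φ z * deriv H z * dbar (fun w => (cut (c a) ρ κ w : ℂ)) z) := by
    intro κ hκ hκκ a
    refine Continuous.integrable_of_hasCompactSupport
      (a5_cont hU hG (Pool.Lib.continuous_dbar (contDiff_cut_ofReal (n := 1) hρ hκ)) ?_) ?_
    · intro z hz
      exact a5_dbar_cut_near hgap hκ hκκ hz hlt a
    · refine HasCompactSupport.intro (isCompact_closedBall (0 : ℂ) R) ?_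
      intro z hz
      rw [mem_closedBall, dist_zero_right, not_le] at hz
      rw [hR z hz.le, zero_mul, zero_mul]
  -- the identity for each `κ`
  have hid : ∀ κ, 0 < κ → κ ≤ κ0 →
      (∫ z, dbar φ z * deriv H z * (a5S c ρ κ z : ℂ)) +
        ∑ a, ∫ z, φ z * deriv H z * dbar (fun w => (cut (c a) ρ κ w : ℂ)) z = 0 := by
    intro κ hκ hκκ
    have h1 := integral_dbar_eq_zero (hsm κ hκ hκκ) (hcs κ)
    rw [integral_congr_ae (Filter.Eventually.of_forall (hpt κ hκ hκκ)),
      integral_add (hi1 κ hκ hκκ) (integrable_finsetSum _ fun a _ => hi2 κ hκ hκκ a),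
      integral_finsetSum _ fun a _ => hi2 κ hκ hκκ a] at h1
    exact h1
  -- the limits
  have hev : ∀ᶠ κ in 𝓝[>] (0 : ℝ), 0 < κ ∧ κ ≤ κ0 := by
    filter_upwards [Ioc_mem_nhdsGT hκ0] with κ hκ
    exact ⟨hκ.1, hκ.2⟩
  have hl1 : Tendsto (fun κ => ∫ z, dbar φ z * deriv H z * (a5S c ρ κ z : ℂ)) (𝓝[>] (0 : ℝ))
      (𝓝 (∫ z in dom c ρ, dbar φ z * deriv H z)) := by
    rw [← integral_indicator (isOpen_dom c ρ).measurableSet]
    have hK : IsCompact (cdom c ρ ∩ closedBall (0 : ℂ) R) :=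
      (isCompact_closedBall (0 : ℂ) R).inter_left (isClosed_cdom c ρ)
    have hKc : ContinuousOn (fun z => ‖dbar φ z * deriv H z‖) (cdom c ρ ∩ closedBall (0 : ℂ) R) :=
      ((hdφ.mul hH'.continuousOn).norm).mono
        (Set.inter_subset_left.trans (cdom_subset_dom c hlt))
    refine tendsto_integral_filter_of_dominated_convergence
      ((cdom c ρ ∩ closedBall (0 : ℂ) R).indicator (fun z => ‖dbar φ z * deriv H z‖)) ?_ ?_ ?_ ?_
    · filter_upwards [hev] with κ hκ
      exact (hi1 κ hκ.1 hκ.2).aestronglyMeasurable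
    · filter_upwards [hev] with κ hκ
      refine Filter.Eventually.of_forall fun z => ?_
      by_cases hz : z ∈ cdom c ρ ∩ closedBall (0 : ℂ) R
      · rw [Set.indicator_of_mem hz, norm_mul, Complex.norm_real, Real.norm_eq_abs]
        exact mul_le_of_le_one_right (norm_nonneg _) (a5S_abs hgap hκ.1 hκ.2 z)
      · rw [Set.indicator_of_notMem hz]
        by_cases hz1 : z ∈ cdom c ρ
        · have hz2 : R < ‖z‖ := by
            by_contra hcon
            push Not at hcon
            exact hz ⟨hz1, by rwa [mem_closedBall, dist_zero_right]⟩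
          rw [hdR z hz2, zero_mul, zero_mul, norm_zero]
        · have hz2 : ∃ a, ‖z - c a‖ < ρ := by
            by_contra hcon
            push Not at hcon
            exact hz1 hcon
          obtain ⟨a, ha⟩ := hz2
          rw [a5S_zero hgap hκ.1 hκ.2 (a := a) ha.le, ofReal_zero, mul_zero, norm_zero]
    · rw [integrable_indicator_iff hK.measurableSet]
      exact hKc.integrableOn_compact hK
    · refine Filter.Eventually.of_forall fun z => ?_
      by_cases hz : z ∈ dom c ρ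
      · rw [Set.indicator_of_mem hz]
        have h1 : ∀ᶠ κ in 𝓝[>] (0 : ℝ), ∀ a, ρ + κ ≤ ‖z - c a‖ := by
          rw [Filter.eventually_all]
          intro a
          have h2 : 0 < ‖z - c a‖ - ρ := by
            have := hz a
            linarith
          filter_upwards [Ioc_mem_nhdsGT h2] with κ hκ
          linarith [hκ.2]
        refine tendsto_const_nhds.congr' ?_
        filter_upwards [h1, hev] with κ h3 h4
        rw [a5S_one h4.1 h3, ofReal_one, mul_one]
      · rw [Set.indicator_of_notMem hz]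
        have hz2 : ∃ a, ‖z - c a‖ ≤ ρ := by
          by_contra hcon
          push Not at hcon
          exact hz hcon
        obtain ⟨a, ha⟩ := hz2
        refine tendsto_const_nhds.congr' ?_
        filter_upwards [hev] with κ h4
        rw [a5S_zero hgap h4.1 h4.2 (a := a) ha, ofReal_zero, mul_zero]
  have hl2 : ∀ a, Tendsto (fun κ => ∫ z, φ z * deriv H z *
      dbar (fun w => (cut (c a) ρ κ w : ℂ)) z) (𝓝[>] (0 : ℝ)) (𝓝 0) := by
    intro a
    have h1 := tendsto_cut (c := c a) hρ hκ0 (g := fun z => φ z * deriv H z)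
      (hG.mono (hann a))
    have h2 : ∫ t in (0 : ℝ)..(2 * Real.pi),
        φ (c a + ρ * exp (t * I)) * deriv H (c a + ρ * exp (t * I)) * exp (t * I) = 0 := by
      have h3 := circle_zero (c := c a) hρ hU (H := H) ?_ hH.diff (θ a) (q a) ?_ (Ψ a) (hΨ a)
      · rw [← h3]
        refine intervalIntegral.integral_congr fun t _ => ?_
        have h4 : ‖(c a + ρ * exp (t * I)) - c a‖ = ρ := by
          rw [add_sub_cancel_left, norm_mul, Complex.norm_exp_ofReal_mul_I, mul_one,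
            Complex.norm_real, Real.norm_of_nonneg hρ.le]
        rw [hb a _ h4]
      · intro z hz
        rw [mem_sphere, dist_eq_norm] at hz
        exact hann a ⟨hz.ge, by linarith⟩
      · intro z hz
        rw [mem_sphere, dist_eq_norm] at hz
        exact hH.bdry a z hz
    rw [h2, mul_zero] at h1
    exact h1
  have hl3 : Tendsto (fun κ => (∫ z, dbar φ z * deriv H z * (a5S c ρ κ z : ℂ)) +
        ∑ a, ∫ z, φ z * deriv H z * dbar (fun w => (cut (c a) ρ κ w : ℂ)) z) (𝓝[>] (0 : ℝ))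
      (𝓝 ((∫ z in dom c ρ, dbar φ z * deriv H z) + ∑ _a : ι, (0 : ℂ))) :=
    hl1.add (tendsto_finsetSum _ fun a _ => hl2 a)
  rw [Finset.sum_const_zero, add_zero] at hl3
  have hl4 : Tendsto (fun κ => (∫ z, dbar φ z * deriv H z * (a5S c ρ κ z : ℂ)) +
        ∑ a, ∫ z, φ z * deriv H z * dbar (fun w => (cut (c a) ρ κ w : ℂ)) z) (𝓝[>] (0 : ℝ))
      (𝓝 0) := by
    refine tendsto_const_nhds.congr' ?_
    filter_upwards [hev] with κ hκ
    exact (hid κ hκ.1 hκ.2).symm
  exact tendsto_nhds_unique hl3 hl4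

end RSM
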