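import Pool.Agent.RSM.Basic

/-!
# RSM module B1: exterior Cauchy integral of the conjugate of a holomorphic function (reflection)

PROOF.  With `w = c + ρ e^{it}`, `dw = I ρ e^{it} dt`, the definition says
`Cop c ρ u z = -(1/2πi) ∮ k * conj (g w) / (w - z) dw`.  Put
`z* = c + ρ² / conj (z - c)`, a point of the open disc.  On the circle
`conj (w - c) = ρ² / (w - c)` and `conj (ρ e^{it}) = ρ² / (w - c)`, so
`conj (ρ e^{it} / (w - z)) = (z* - c) / (w - z*)`
(because `conj w - conj z = ρ²/(w - c) - conj (z - c) = -conj (z - c) (w - z*)/(w - c)` and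
`z* - c = ρ²/conj (z - c)`; check the sign: `conj (ρ e^{it}/(w-z)) = (ρ²/(w-c)) * (w-c) /
(-conj (z-c) (w - z*)) = -(z* - c)/(w - z*)`).
Hence `conj (∫ conj (g w) ρ e^{it}/(w - z) dt) = -(z* - c) ∫ g w / (w - z*) dt
 = -∫ g w * (1/(w - z*) - 1/(w - c)) * (w - c) dt = -2π (g z* - g c)` by the Cauchy integral
formula (`(w - c) dt = dw / I`; `(z* - c)/((w - z*)(w - c)) = 1/(w - z*) - 1/(w - c)`).
Therefore `Cop c ρ u z = -(2π)⁻¹ * k * conj (-2π (g z* - g c)) = k (conj (g z*) - conj (g c))`.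
-/

open Complex Set Metric Filter Topology MeasureTheory

namespace RSM

private theorem reflect_aux {ρ : ℝ} (hρ : 0 < ρ) {E Z : ℂ} (hE : E ≠ 0) (hZ : Z ≠ 0)
    (h : (ρ : ℂ) - Z * E ≠ 0) (k G : ℂ) :
    k * G * (ρ * E⁻¹) / (ρ * E⁻¹ - Z) =
      k * I * ((ρ * E * I) * ((ρ * E - ρ ^ 2 / Z)⁻¹ * G - (ρ * E)⁻¹ * G)) := by
  have hρ0 : (ρ : ℂ) ≠ 0 := by exact_mod_cast hρ.ne'
  have h1 : (ρ : ℂ) * E⁻¹ - Z = (ρ - Z * E) / E := by
    field_simp
  have h2 : (ρ : ℂ) * E - ρ ^ 2 / Z = - ρ * (ρ - Z * E) / Z := by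
    field_simp
    ring
  rw [h1, h2]
  have hI : I * I = -1 := I_mul_I
  have h3 : (-(ρ : ℂ) * (ρ - Z * E) / Z)⁻¹ * G - (ρ * E)⁻¹ * G =
      - (ρ * G) / (ρ * E * (ρ - Z * E)) := by
    field_simp
    ring
  rw [h3]
  have h4 : k * I * ((ρ * E * I) * (-(ρ * G) / (ρ * E * (ρ - Z * E)))) =
      (I * I) * (k * (ρ * E) * (-(ρ * G) / (ρ * E * (ρ - Z * E)))) := by ring
  rw [h4, hI]
  field_simp

theorem Cop_reflect {c : ℂ} {ρ ρ₁ : ℝ} (hρ : 0 < ρ) (h1 : ρ < ρ₁) {g : ℂ → ℂ}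
    (hg : DifferentiableOn ℂ g (ball c ρ₁)) (k : ℂ) (u : C(Circle, ℂ))
    (hu : ∀ ζ : Circle, u ζ = k * (starRingEnd ℂ) (g (c + ρ * ζ))) {z : ℂ}
    (hz : ρ < ‖z - c‖) :
    Cop c ρ u z = k * ((starRingEnd ℂ) (g (c + ρ ^ 2 / (starRingEnd ℂ) (z - c))) -
      (starRingEnd ℂ) (g c)) := by
  have hρ0 : (ρ : ℂ) ≠ 0 := by exact_mod_cast hρ.ne'
  have hz0 : z - c ≠ 0 := by
    intro h
    rw [h, norm_zero] at hz
    linarith
  obtain ⟨Z, hZ⟩ : ∃ Z : ℂ, Z = (starRingEnd ℂ) (z - c) := ⟨_, rfl⟩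
  have hZnorm : ‖Z‖ = ‖z - c‖ := by rw [hZ, Complex.norm_conj]
  have hZ0 : Z ≠ 0 := by
    rw [← norm_pos_iff, hZnorm, norm_pos_iff]
    exact hz0
  rw [← hZ]
  obtain ⟨s, hs⟩ : ∃ s : ℂ, s = (ρ : ℂ) ^ 2 / Z := ⟨_, rfl⟩
  rw [← hs]
  have hs_norm : ‖s‖ < ρ := by
    rw [hs, norm_div, norm_pow, Complex.norm_real, Real.norm_of_nonneg hρ.le, hZnorm,
      div_lt_iff₀ (by linarith)]
    nlinarith
  have hs_mem : c + s ∈ ball c ρ := by
    rw [mem_ball, dist_eq_norm, add_sub_cancel_left]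
    exact hs_norm
  have hsub : closedBall c ρ ⊆ ball c ρ₁ := closedBall_subset_ball h1
  have hdiff : DiffContOnCl ℂ g (ball c ρ) := hg.diffContOnCl_ball hsub
  have h2 : (∮ w in C(c, ρ), (w - (c + s))⁻¹ • g w) = (2 * Real.pi * I : ℂ) • g (c + s) :=
    hdiff.circleIntegral_sub_inv_smul hs_mem
  have h3 : (∮ w in C(c, ρ), (w - c)⁻¹ • g w) = (2 * Real.pi * I : ℂ) • g c :=
    hdiff.circleIntegral_sub_inv_smul (mem_ball_self hρ)
  have hcont : ContinuousOn g (sphere c ρ) :=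
    hg.continuousOn.mono (sphere_subset_closedBall.trans hsub)
  have hint2 : CircleIntegrable (fun w => (w - (c + s))⁻¹ • g w) c ρ := by
    apply ContinuousOn.circleIntegrable hρ.le
    have hinv : ContinuousOn (fun w : ℂ => (w - (c + s))⁻¹) (sphere c ρ) := by
      apply ContinuousOn.inv₀ (by fun_prop)
      intro w hw h0
      rw [mem_sphere, dist_eq_norm] at hw
      have : w - c = s := by linear_combination h0
      rw [this] at hw
      linarith
    exact hinv.smul hcont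
  have hint3 : CircleIntegrable (fun w => (w - c)⁻¹ • g w) c ρ := by
    apply ContinuousOn.circleIntegrable hρ.le
    have hinv : ContinuousOn (fun w : ℂ => (w - c)⁻¹) (sphere c ρ) := by
      apply ContinuousOn.inv₀ (by fun_prop)
      intro w hw h0
      rw [mem_sphere, dist_eq_norm, h0, norm_zero] at hw
      linarith
    exact hinv.smul hcont
  have h4 : (∮ w in C(c, ρ), ((w - (c + s))⁻¹ • g w - (w - c)⁻¹ • g w)) =
      (2 * Real.pi * I : ℂ) * (g (c + s) - g c) := by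
    rw [circleIntegral.integral_sub hint2 hint3, h2, h3, smul_eq_mul, smul_eq_mul, mul_sub]
  have h5 : ∀ t : ℝ, (starRingEnd ℂ) (u (Circle.exp t) * (ρ * exp (t * I)) /
      (c + ρ * exp (t * I) - z)) = (starRingEnd ℂ) k * I * (deriv (circleMap c ρ) t •
        ((circleMap c ρ t - (c + s))⁻¹ • g (circleMap c ρ t) -
          (circleMap c ρ t - c)⁻¹ • g (circleMap c ρ t))) := by
    intro t
    have hE0 : exp (t * I) ≠ 0 := exp_ne_zero _
    have hEn : ‖exp (t * I)‖ = 1 := Complex.norm_exp_ofReal_mul_I t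
    have hEc : (starRingEnd ℂ) (exp (t * I)) = (exp (t * I))⁻¹ := by
      rw [← Complex.exp_conj, map_mul, conj_ofReal, conj_I, mul_neg, Complex.exp_neg]
    have hne : (ρ : ℂ) - Z * exp (t * I) ≠ 0 := by
      intro h0
      have h6 : (ρ : ℂ) = Z * exp (t * I) := by linear_combination h0
      have h7 := congrArg norm h6
      rw [norm_mul, hEn, mul_one, hZnorm, Complex.norm_real, Real.norm_of_nonneg hρ.le] at h7
      linarith
    have h8 := reflect_aux hρ hE0 hZ0 hne ((starRingEnd ℂ) k) (g (c + ρ * exp (t * I)))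
    rw [deriv_circleMap, hu, Circle.coe_exp, map_div₀, map_mul, map_mul, map_mul, conj_conj, hEc,
      conj_ofReal]
    have h9 : (starRingEnd ℂ) (c + ρ * exp (t * I) - z) = ρ * (exp (t * I))⁻¹ - Z := by
      rw [hZ, map_sub, map_add, map_mul, conj_ofReal, hEc, map_sub]
      ring
    rw [h9, h8]
    unfold circleMap
    rw [smul_eq_mul, smul_eq_mul, smul_eq_mul, zero_add, ← hs]
    congr 4
    · congr 1
      ring
    · congr 1
      ring
  have h10 : (starRingEnd ℂ) (∫ t in (0 : ℝ)..(2 * Real.pi),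
      u (Circle.exp t) * (ρ * exp (t * I)) / (c + ρ * exp (t * I) - z)) =
      (starRingEnd ℂ) k * I * ((2 * Real.pi * I : ℂ) * (g (c + s) - g c)) := by
    rw [← h4, circleIntegral]
    rw [intervalIntegral.integral_of_le (by positivity), intervalIntegral.integral_of_le (by positivity),
      ← integral_conj, ← integral_const_mul]
    congr 1
    funext t
    exact h5 t
  have h11 := congrArg (starRingEnd ℂ) h10
  rw [conj_conj] at h11
  unfold Cop
  rw [h11]
  have hpi : (Real.pi : ℂ) ≠ 0 := by exact_mod_cast Real.pi_ne_zero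
  simp only [map_mul, map_sub, conj_conj, conj_I, conj_ofReal, map_ofNat]
  field_simp
  linear_combination (-k * (starRingEnd ℂ (g (c + s)) - starRingEnd ℂ (g c))) * I_mul_I

end RSM
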