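import Pool.Agent.RSM.Basic

/-!
# RSM module B2: elementary properties of the exterior Cauchy integral `Cop`

PROOFS.  The integrand is continuous in `t` and `|c + ρ e^{it} - z| ≥ ‖z - c‖ - ρ`.
The difference bound: `1/(w - z) - 1/(w - z') = (z - z')/((w - z)(w - z'))`.
Holomorphy: differentiate under the integral sign (e.g.
`hasDerivAt_integral_of_dominated_loc_of_deriv_le`), or recognise a Cauchy transform.
-/

open Complex Set Metric Filter Topology MeasureTheory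

namespace RSM

private theorem den_le (c : ℂ) {ρ : ℝ} (hρ : 0 < ρ) (z : ℂ) (t : ℝ) :
    ‖z - c‖ - ρ ≤ ‖c + ρ * exp (t * I) - z‖ := by
  have h1 : ‖(ρ : ℂ) * exp (t * I)‖ = ρ := by
    rw [norm_mul, Complex.norm_exp_ofReal_mul_I, mul_one, Complex.norm_real, Real.norm_eq_abs,
      abs_of_pos hρ]
  have h2 : z - c = (ρ : ℂ) * exp (t * I) - (c + ρ * exp (t * I) - z) := by ring
  have h3 := norm_sub_le ((ρ : ℂ) * exp (t * I)) (c + ρ * exp (t * I) - z)
  rw [← h2, h1] at h3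
  linarith

private theorem den_ne (c : ℂ) {ρ : ℝ} (hρ : 0 < ρ) {z : ℂ} (hz : ρ < ‖z - c‖) (t : ℝ) :
    c + ρ * exp (t * I) - z ≠ 0 := by
  have h1 := den_le c hρ z t
  intro h
  rw [h, norm_zero] at h1
  linarith

private theorem num_cont (ρ : ℝ) (u : C(Circle, ℂ)) :
    Continuous (fun t : ℝ => u (Circle.exp t) * (ρ * exp (t * I))) := by
  have h1 : Continuous (fun t : ℝ => u (Circle.exp t)) :=
    u.continuous.comp (Circle.exp).continuous
  have h2 : Continuous (fun t : ℝ => (ρ : ℂ) * exp (t * I)) := by fun_prop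
  exact h1.mul h2

private theorem cont (c : ℂ) {ρ : ℝ} (hρ : 0 < ρ) (u : C(Circle, ℂ)) {z : ℂ}
    (hz : ρ < ‖z - c‖) :
    Continuous (fun t : ℝ => u (Circle.exp t) * (ρ * exp (t * I)) / (c + ρ * exp (t * I) - z)) := by
  have h3 : Continuous (fun t : ℝ => c + (ρ : ℂ) * exp (t * I) - z) := by fun_prop
  exact (num_cont ρ u).div h3 (den_ne c hρ hz)

private theorem num_le {ρ : ℝ} (hρ : 0 < ρ) (u : C(Circle, ℂ)) (t : ℝ) :
    ‖u (Circle.exp t) * (ρ * exp (t * I))‖ ≤ ρ * ‖u‖ := by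
  rw [norm_mul, norm_mul, Complex.norm_exp_ofReal_mul_I, mul_one, Complex.norm_real,
    Real.norm_eq_abs, abs_of_pos hρ, mul_comm]
  exact mul_le_mul_of_nonneg_left (u.norm_coe_le_norm _) hρ.le

private theorem pre_norm : ‖-(2 * (Real.pi : ℂ))⁻¹‖ = (2 * Real.pi)⁻¹ := by
  rw [norm_neg, norm_inv, norm_mul, Complex.norm_real, Real.norm_eq_abs, abs_of_pos Real.pi_pos]
  simp

private theorem fin_le {f : ℝ → ℂ} {C : ℝ} (hf : ∀ t, ‖f t‖ ≤ C) :
    ‖-(2 * (Real.pi : ℂ))⁻¹ * ∫ t in (0 : ℝ)..(2 * Real.pi), f t‖ ≤ C := by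
  have h1 := intervalIntegral.norm_integral_le_of_norm_le_const (a := 0) (b := 2 * Real.pi)
    (f := f) (C := C) (fun t _ => hf t)
  have hp := Real.pi_pos
  rw [norm_mul, pre_norm]
  rw [sub_zero, abs_of_pos (by positivity)] at h1
  calc (2 * Real.pi)⁻¹ * ‖∫ t in (0 : ℝ)..(2 * Real.pi), f t‖
      ≤ (2 * Real.pi)⁻¹ * (C * (2 * Real.pi)) := mul_le_mul_of_nonneg_left h1 (by positivity)
    _ = C := by field_simp

theorem Cop_add (c : ℂ) (ρ : ℝ) (u v : C(Circle, ℂ)) {z : ℂ} (hρ : 0 < ρ) (hz : ρ < ‖z - c‖) :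
    Cop c ρ (u + v) z = Cop c ρ u z + Cop c ρ v z := by
  unfold Cop
  have h1 : ∀ t : ℝ, (u + v) (Circle.exp t) * (ρ * exp (t * I)) / (c + ρ * exp (t * I) - z) =
      u (Circle.exp t) * (ρ * exp (t * I)) / (c + ρ * exp (t * I) - z) +
      v (Circle.exp t) * (ρ * exp (t * I)) / (c + ρ * exp (t * I) - z) := by
    intro t
    rw [ContinuousMap.add_apply]
    ring
  simp only [h1]
  rw [intervalIntegral.integral_add ((cont c hρ u hz).intervalIntegrable _ _)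
    ((cont c hρ v hz).intervalIntegrable _ _)]
  ring

theorem Cop_smul (c : ℂ) (ρ : ℝ) (s : ℝ) (u : C(Circle, ℂ)) (z : ℂ) :
    Cop c ρ (s • u) z = s * Cop c ρ u z := by
  unfold Cop
  have h1 : ∀ t : ℝ, (s • u) (Circle.exp t) * (ρ * exp (t * I)) / (c + ρ * exp (t * I) - z) =
      (s : ℂ) * (u (Circle.exp t) * (ρ * exp (t * I)) / (c + ρ * exp (t * I) - z)) := by
    intro t
    rw [ContinuousMap.smul_apply, Complex.real_smul]
    ring
  simp only [h1]
  rw [intervalIntegral.integral_const_mul]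
  ring

theorem norm_Cop_le (c : ℂ) {ρ : ℝ} (hρ : 0 < ρ) (u : C(Circle, ℂ)) {z : ℂ}
    (hz : ρ < ‖z - c‖) : ‖Cop c ρ u z‖ ≤ ρ * ‖u‖ / (‖z - c‖ - ρ) := by
  unfold Cop
  apply fin_le
  intro t
  rw [norm_div]
  have h1 := den_le c hρ z t
  have h2 : 0 < ‖z - c‖ - ρ := by linarith
  exact div_le_div₀ (mul_nonneg hρ.le (norm_nonneg _)) (num_le hρ u t) h2 h1

theorem norm_Cop_sub_le (c : ℂ) {ρ δ : ℝ} (hρ : 0 < ρ) (hδ : 0 < δ) (u : C(Circle, ℂ)) {z z' : ℂ}
    (hz : ρ + δ ≤ ‖z - c‖) (hz' : ρ + δ ≤ ‖z' - c‖) :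
    ‖Cop c ρ u z - Cop c ρ u z'‖ ≤ ρ * ‖u‖ / δ ^ 2 * ‖z - z'‖ := by
  have hz1 : ρ < ‖z - c‖ := by linarith
  have hz1' : ρ < ‖z' - c‖ := by linarith
  unfold Cop
  rw [← mul_sub, ← intervalIntegral.integral_sub ((cont c hρ u hz1).intervalIntegrable _ _)
    ((cont c hρ u hz1').intervalIntegrable _ _)]
  apply fin_le
  intro t
  have h1 := den_le c hρ z t
  have h2 := den_le c hρ z' t
  have e : u (Circle.exp t) * (ρ * exp (t * I)) / (c + ρ * exp (t * I) - z) -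
      u (Circle.exp t) * (ρ * exp (t * I)) / (c + ρ * exp (t * I) - z') =
      (u (Circle.exp t) * (ρ * exp (t * I))) * (z - z') /
        ((c + ρ * exp (t * I) - z) * (c + ρ * exp (t * I) - z')) := by
    have n1 := den_ne c hρ hz1 t
    have n2 := den_ne c hρ hz1' t
    field_simp
    ring
  rw [e, norm_div, norm_mul _ (z - z'), norm_mul (c + ρ * exp (t * I) - z)]
  have h3 : δ ^ 2 ≤ ‖c + ρ * exp (t * I) - z‖ * ‖c + ρ * exp (t * I) - z'‖ := by
    rw [pow_two]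
    exact mul_le_mul (by linarith) (by linarith) hδ.le (norm_nonneg _)
  have h4 : ρ * ‖u‖ / δ ^ 2 * ‖z - z'‖ = ρ * ‖u‖ * ‖z - z'‖ / δ ^ 2 := by ring
  rw [h4]
  exact div_le_div₀ (mul_nonneg (mul_nonneg hρ.le (norm_nonneg _)) (norm_nonneg _))
    (mul_le_mul_of_nonneg_right (num_le hρ u t) (norm_nonneg _)) (by positivity) h3

theorem differentiableOn_Cop (c : ℂ) {ρ : ℝ} (hρ : 0 < ρ) (u : C(Circle, ℂ)) :
    DifferentiableOn ℂ (Cop c ρ u) {z | ρ < ‖z - c‖} := by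
  intro x₀ hx₀
  have hx : ρ < ‖x₀ - c‖ := hx₀
  obtain ⟨δ, hδ⟩ : ∃ δ, δ = (‖x₀ - c‖ - ρ) / 2 := ⟨_, rfl⟩
  have hδ0 : 0 < δ := by
    rw [hδ]
    linarith
  have hball : ∀ x ∈ ball x₀ δ, ρ + δ ≤ ‖x - c‖ := by
    intro x hx'
    rw [mem_ball, dist_eq_norm] at hx'
    have h1 := norm_sub_le (x - c) (x - x₀)
    have h2 : x - c - (x - x₀) = x₀ - c := by ring
    rw [h2] at h1
    linarith
  have key := intervalIntegral.hasDerivAt_integral_of_dominated_loc_of_deriv_le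
    (μ := volume) (a := 0) (b := 2 * Real.pi) (bound := fun _ => ρ * ‖u‖ / δ ^ 2)
    (F := fun (z : ℂ) (t : ℝ) => u (Circle.exp t) * (ρ * exp (t * I)) / (c + ρ * exp (t * I) - z))
    (F' := fun (z : ℂ) (t : ℝ) =>
      u (Circle.exp t) * (ρ * exp (t * I)) / (c + ρ * exp (t * I) - z) ^ 2)
    (x₀ := x₀) (s := ball x₀ δ) (ball_mem_nhds x₀ hδ0) ?_ ?_ ?_ ?_ ?_ ?_
  · have h1 := key.2.const_mul (-(2 * (Real.pi : ℂ))⁻¹)
    have h2 : Cop c ρ u = fun z : ℂ => -(2 * (Real.pi : ℂ))⁻¹ * ∫ t in (0 : ℝ)..(2 * Real.pi),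
        u (Circle.exp t) * (ρ * exp (t * I)) / (c + ρ * exp (t * I) - z) := rfl
    rw [h2]
    exact h1.differentiableAt.differentiableWithinAt
  · filter_upwards [ball_mem_nhds x₀ hδ0] with x hx'
    exact (cont c hρ u (by linarith [hball x hx'])).aestronglyMeasurable
  · exact (cont c hρ u hx).intervalIntegrable _ _
  · have h3 : Continuous (fun t : ℝ => (c + (ρ : ℂ) * exp (t * I) - x₀) ^ 2) := by fun_prop
    exact ((num_cont ρ u).div h3 (fun t => pow_ne_zero 2 (den_ne c hρ hx t))).aestronglyMeasurable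
  · refine Eventually.of_forall fun t _ x hx' => ?_
    have h1 := den_le c hρ x t
    have h2 := hball x hx'
    rw [norm_div, norm_pow]
    exact div_le_div₀ (mul_nonneg hρ.le (norm_nonneg _)) (num_le hρ u t) (by positivity)
      (pow_le_pow_left₀ hδ0.le (by linarith) 2)
  · exact intervalIntegrable_const
  · refine Eventually.of_forall fun t _ x hx' => ?_
    have h2 := hball x hx'
    have hne := den_ne c hρ (z := x) (by linarith) t
    have h3 : HasDerivAt (fun z : ℂ => c + ρ * exp (t * I) - z) (-1) x := by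
      have := (hasDerivAt_id x).const_sub (c + ρ * exp (t * I))
      exact this
    have h4 := (h3.inv hne).const_mul (u (Circle.exp t) * (ρ * exp (t * I)))
    have h5 : u (Circle.exp t) * (ρ * exp (t * I)) * (-(-1) / (c + ρ * exp (t * I) - x) ^ 2) =
        u (Circle.exp t) * (ρ * exp (t * I)) / (c + ρ * exp (t * I) - x) ^ 2 := by
      ring
    rw [h5] at h4
    exact h4

theorem tendsto_Cop (c : ℂ) {ρ : ℝ} (hρ : 0 < ρ) (u : C(Circle, ℂ)) :
    Tendsto (Cop c ρ u) (cocompact ℂ) (𝓝 0) := by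
  have h1 : Tendsto (fun z : ℂ => ‖z‖) (cocompact ℂ) atTop := tendsto_norm_cocompact_atTop
  have h2 : Tendsto (fun z : ℂ => ‖z - c‖ - ρ) (cocompact ℂ) atTop := by
    have h3 : Tendsto (fun z : ℂ => ‖z‖ + (-(‖c‖ + ρ))) (cocompact ℂ) atTop :=
      tendsto_atTop_add_const_right _ _ h1
    refine tendsto_atTop_mono (fun z => ?_) h3
    have h4 := norm_sub_norm_le z c
    linarith
  have h3 : Tendsto (fun z : ℂ => ρ * ‖u‖ / (‖z - c‖ - ρ)) (cocompact ℂ) (𝓝 0) :=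
    tendsto_const_nhds.div_atTop h2
  refine squeeze_zero_norm' ?_ h3
  filter_upwards [h2.eventually_gt_atTop 0] with z hz
  exact norm_Cop_le c hρ u (by linarith)

end RSM
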