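import Pool.Agent.RSM.B2

/-!
# RSM module B3: the interaction operator of two discs is compact

PROOF.  For `ζ` on the unit circle the point `z = p + ρ ζ` satisfies
`‖z - c‖ ≥ ‖p - c‖ - ρ = ρ + δ` with `δ = ‖p - c‖ - 2ρ > 0`.  By `norm_Cop_le` and
`norm_Cop_sub_le`, the function `ζ ↦ k * conj (Cop c ρ u (p + ρ ζ))` is bounded by
`‖k‖ ρ ‖u‖ / δ` and Lipschitz with constant `‖k‖ ρ² ‖u‖ / δ²`.  So `T` is well defined, real
linear (`Cop_add`, `Cop_smul`), continuous, and the image of the unit ball is bounded and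
equicontinuous, hence relatively compact (Arzela-Ascoli,
`BoundedContinuousFunction.arzela_ascoli` or `ContinuousMap`-version; `Circle` is compact).
-/

open Complex Set Metric Filter Topology MeasureTheory

namespace RSM

theorem exists_compact {c p : ℂ} {ρ : ℝ} (hρ : 0 < ρ) (h : 2 * ρ < ‖p - c‖) (k : ℂ) :
    ∃ T : C(Circle, ℂ) →L[ℝ] C(Circle, ℂ), IsCompactOperator T ∧
      ∀ (u : C(Circle, ℂ)) (ζ : Circle), T u ζ = k * (starRingEnd ℂ) (Cop c ρ u (p + ρ * ζ)) := by
  set δ : ℝ := ‖p - c‖ - 2 * ρ with hδdef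
  have hδ : 0 < δ := by linarith
  have hρn : ∀ ζ : Circle, ‖(ρ : ℂ) * (ζ : ℂ)‖ = ρ := by
    intro ζ
    rw [norm_mul, Circle.norm_coe, mul_one, norm_real, Real.norm_of_nonneg hρ.le]
  have hz : ∀ ζ : Circle, ρ + δ ≤ ‖p + ρ * ζ - c‖ := by
    intro ζ
    have h1 := norm_sub_norm_le (p - c) (-((ρ : ℂ) * (ζ : ℂ)))
    rw [norm_neg, hρn ζ, sub_neg_eq_add] at h1
    have h2 : p + ρ * ζ - c = p - c + ρ * ζ := by ring
    rw [h2]
    linarith
  have hz' : ∀ ζ : Circle, ρ < ‖p + ρ * ζ - c‖ := fun ζ => by linarith [hz ζ]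
  have hcoe : Continuous fun ζ : Circle => (ζ : ℂ) := continuous_subtype_val
  have hc : ∀ u : C(Circle, ℂ),
      Continuous fun ζ : Circle => k * (starRingEnd ℂ) (Cop c ρ u (p + ρ * ζ)) := by
    intro u
    have h1 : Continuous fun ζ : Circle => Cop c ρ u (p + ρ * ζ) :=
      (differentiableOn_Cop c hρ u).continuousOn.comp_continuous
        (continuous_const.add (continuous_const.mul hcoe)) hz'
    exact continuous_const.mul (continuous_conj.comp h1)
  let T0 : C(Circle, ℂ) →ₗ[ℝ] C(Circle, ℂ) :=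
    { toFun := fun u => ⟨_, hc u⟩
      map_add' := by
        intro u v
        ext ζ
        show k * (starRingEnd ℂ) (Cop c ρ (u + v) (p + ρ * ζ)) =
          k * (starRingEnd ℂ) (Cop c ρ u (p + ρ * ζ)) + k * (starRingEnd ℂ) (Cop c ρ v (p + ρ * ζ))
        rw [Cop_add c ρ u v hρ (hz' ζ), map_add, mul_add]
      map_smul' := by
        intro s u
        ext ζ
        show k * (starRingEnd ℂ) (Cop c ρ (s • u) (p + ρ * ζ)) =
          s • (k * (starRingEnd ℂ) (Cop c ρ u (p + ρ * ζ)))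
        rw [Cop_smul, map_mul, conj_ofReal, real_smul]
        ring }
  have hT0 : ∀ (u : C(Circle, ℂ)) (ζ : Circle),
      T0 u ζ = k * (starRingEnd ℂ) (Cop c ρ u (p + ρ * ζ)) := fun _ _ => rfl
  have hval : ∀ (u : C(Circle, ℂ)) (ζ : Circle), ‖T0 u ζ‖ ≤ ‖k‖ * (ρ / δ) * ‖u‖ := by
    intro u ζ
    rw [hT0, norm_mul, RCLike.norm_conj, mul_assoc]
    apply mul_le_mul_of_nonneg_left _ (norm_nonneg k)
    refine (norm_Cop_le c hρ u (hz' ζ)).trans ?_
    rw [div_mul_eq_mul_div]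
    apply div_le_div_of_nonneg_left (by positivity) hδ
    linarith [hz ζ]
  have hb : ∀ u : C(Circle, ℂ), ‖T0 u‖ ≤ ‖k‖ * (ρ / δ) * ‖u‖ := by
    intro u
    exact (ContinuousMap.norm_le _ (by positivity)).2 (hval u)
  have hlip : ∀ (u : C(Circle, ℂ)) (ζ ξ : Circle),
      dist (T0 u ζ) (T0 u ξ) ≤ ‖k‖ * (ρ * ‖u‖ / δ ^ 2 * (ρ * dist ζ ξ)) := by
    intro u ζ ξ
    rw [dist_eq_norm, hT0, hT0, ← mul_sub, ← map_sub, norm_mul, RCLike.norm_conj]
    apply mul_le_mul_of_nonneg_left _ (norm_nonneg k)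
    refine (norm_Cop_sub_le c hρ hδ u (hz ζ) (hz ξ)).trans ?_
    apply mul_le_mul_of_nonneg_left _ (by positivity)
    have e : p + (ρ : ℂ) * (ζ : ℂ) - (p + ρ * ξ) = ρ * ((ζ : ℂ) - ξ) := by ring
    have e2 : dist ζ ξ = ‖(ζ : ℂ) - ξ‖ := by
      rw [← dist_eq_norm]
      exact Subtype.dist_eq _ _
    rw [e, norm_mul, norm_real, Real.norm_of_nonneg hρ.le, e2]
  refine ⟨T0.mkContinuous _ hb, ?_, fun u ζ => rfl⟩
  rw [isCompactOperator_iff_exists_mem_nhds_image_subset_compact]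
  set B : ℝ := ‖k‖ * (ρ / δ) with hB
  set L : ℝ := ‖k‖ * (ρ / δ ^ 2 * ρ) with hL
  let A : Set (BoundedContinuousFunction Circle ℂ) :=
    {f | (∀ x, ‖f x‖ ≤ B) ∧ ∀ x y, dist (f x) (f y) ≤ L * dist x y}
  have hA : IsCompact (closure A) := by
    refine BoundedContinuousFunction.arzela_ascoli (closedBall 0 B) (isCompact_closedBall 0 B) A
      ?_ ?_
    · intro f x hf
      rw [mem_closedBall, dist_zero_right]
      exact hf.1 x
    · refine Metric.equicontinuous_of_continuity_modulus (fun t => L * t) ?_ _ ?_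
      · have : Continuous fun t : ℝ => L * t := by fun_prop
        have h1 := this.tendsto 0
        rwa [mul_zero] at h1
      · intro x y f
        exact f.2.2 x y
  let E := ContinuousMap.isometryEquivBoundedOfCompact Circle ℂ
  refine ⟨closedBall 0 1, closedBall_mem_nhds _ one_pos, E.symm '' closure A,
    hA.image E.symm.continuous, ?_⟩
  rintro _ ⟨u, hu, rfl⟩
  rw [mem_closedBall, dist_zero_right] at hu
  refine ⟨E (T0 u), subset_closure ⟨?_, ?_⟩, E.symm_apply_apply _⟩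
  · intro x
    show ‖T0 u x‖ ≤ B
    refine (hval u x).trans ?_
    exact mul_le_of_le_one_right (by positivity) hu
  · intro x y
    show dist (T0 u x) (T0 u y) ≤ L * dist x y
    refine (hlip u x y).trans ?_
    have e : L * dist x y = ‖k‖ * (ρ * 1 / δ ^ 2 * (ρ * dist x y)) := by
      rw [hL]
      ring
    rw [e]
    gcongr

end RSM
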