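import Pool.Agent.RSM.Defs

/-!
# RSM module B4: Fredholm alternative for a finite system

PROOF.  Let `X = ι → Y` (a real Banach space) and `K : X →L[ℝ] X`,
`K u a = ∑ b, T a b (u b)`.  `K` is the finite sum of the operators
`(ContinuousLinearMap.single ℝ _ a) ∘ T a b ∘ (ContinuousLinearMap.proj b)`, each of which is
compact (`IsCompactOperator.clm_comp`, `IsCompactOperator.comp_clm`, `IsCompactOperator.add`).
By `hker`, `1` is not an eigenvalue of `K`; by
`IsCompactOperator.hasEigenvalue_or_mem_resolventSet` (Mathlib file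
`Analysis/Normed/Operator/Compact/FredholmAlternative.lean`), `1` is in the resolvent set,
so `1 - K` is invertible, in particular surjective.
-/

open Complex Set Metric Filter Topology MeasureTheory

namespace RSM

theorem fredholm_pi {ι : Type} [Fintype ι] {Y : Type} [NormedAddCommGroup Y]
    [NormedSpace ℝ Y] [CompleteSpace Y] (T : ι → ι → Y →L[ℝ] Y)
    (hT : ∀ a b, IsCompactOperator (T a b))
    (hker : ∀ u : ι → Y, (∀ a, u a = ∑ b, T a b (u b)) → u = 0) (v : ι → Y) :
    ∃ u : ι → Y, ∀ a, u a - ∑ b, T a b (u b) = v a := by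
  classical
  obtain ⟨K, hK⟩ : ∃ K : (ι → Y) →L[ℝ] (ι → Y), K = ∑ a, ∑ b,
      (ContinuousLinearMap.single ℝ (fun _ : ι => Y) a).comp
        ((T a b).comp (ContinuousLinearMap.proj (R := ℝ) (φ := fun _ : ι => Y) b)) := ⟨_, rfl⟩
  have hKv : ∀ u a, K u a = ∑ b, T a b (u b) := by
    intro u a
    rw [hK]
    simp only [ContinuousLinearMap.sum_apply, ContinuousLinearMap.comp_apply,
      ContinuousLinearMap.proj_apply, ContinuousLinearMap.single_apply, Finset.sum_apply]
    rw [Finset.sum_eq_single a]
    · refine Finset.sum_congr rfl fun b _ => ?_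
      rw [Pi.single_eq_same]
    · intro a' _ ha'
      refine Finset.sum_eq_zero fun b _ => ?_
      rw [Pi.single_eq_of_ne (Ne.symm ha')]
    · intro h
      exact absurd (Finset.mem_univ a) h
  have hKc : IsCompactOperator K := by
    rw [hK]
    refine Finset.sum_induction _ (fun K : (ι → Y) →L[ℝ] (ι → Y) => IsCompactOperator K)
      (fun _ _ h1 h2 => h1.add h2) isCompactOperator_zero fun a _ => ?_
    refine Finset.sum_induction _ (fun K : (ι → Y) →L[ℝ] (ι → Y) => IsCompactOperator K)
      (fun _ _ h1 h2 => h1.add h2) isCompactOperator_zero fun b _ => ?_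
    exact ((hT a b).comp_clm (ContinuousLinearMap.proj (R := ℝ) (φ := fun _ : ι => Y) b)).clm_comp
      (ContinuousLinearMap.single ℝ (fun _ : ι => Y) a)
  rcases hKc.hasEigenvalue_or_mem_resolventSet one_ne_zero with h | h
  · exfalso
    obtain ⟨u, hu⟩ := h.exists_hasEigenvector
    have h1 : K u = (1 : ℝ) • u := hu.apply_eq_smul
    rw [one_smul] at h1
    refine hu.2 (hker u fun a => ?_)
    rw [← hKv, h1]
  · rw [spectrum.mem_resolventSet_iff, ContinuousLinearMap.isUnit_iff_bijective] at h
    obtain ⟨u, hu⟩ := h.2 v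
    refine ⟨u, fun a => ?_⟩
    have h2 := congrFun hu a
    rw [← hKv, ← h2]
    simp

end RSM
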