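import Pool.Agent.RSM.Basic
import Pool.Agent.RSM.A1
import Pool.Agent.RSM.A5
import Pool.Agent.RSM.Cut
import Pool.Agent.RSM.A0

/-!
# RSM module B5: uniqueness

PROOF.  Let `R0 > 0` with `‖c a‖ + ρ < R0` for all `a` (`exists_inball`); `H` is holomorphic on
`‖z‖ > R0`.  For `R > R0` let `η_R z = 1 - cut 0 R R z` (it is `1` for `‖z‖ ≤ R`, `0` for
`‖z‖ ≥ 2R`, `C^∞`, with `‖dbar η_R‖ ≤ C / R` for a constant `C`, as
`Real.smoothTransition` has a bounded derivative: a continuous function, zero outside `[0,1]`).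
Apply `stokes` to `φ z = conj (H z) * η_R z`, with
`Ψ a s = exp (-iθ a) * (s - i q a)` (on the circle number `a`, `exp (-iθ a) H = s + i q a`,
so `conj H = exp (-iθ a) (s - i q a)`, and `η_R = 1` there).  `dbar φ = conj H' * η_R +
conj H * dbar η_R` on `dom c ρ'`.  So
  `∫_{dom c ρ} ‖H'‖² η_R = -∫_{dom c ρ} conj H * H' * dbar η_R`.
Let `m(R) = sup_{‖z‖ ≥ R/2} ‖H z‖`, which tends to `0`.  For `R ≤ ‖z‖ ≤ 2R` (`R ≥ 2 R0`) the
Cauchy estimate on the disc of radius `R/2` gives `‖H' z‖ ≤ 2 m(R) / R`.  So the right side is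
at most `m(R) * (2 m(R)/R) * (C/R) * π (2R)² → 0`.  For fixed `R1` and `R ≥ R1` the left side is
at least `∫_{dom c ρ ∩ ball 0 R1} ‖H'‖²`; so this integral is `0` and `H' = 0` on the open set
`dom c ρ`.  `dom c ρ'` is connected (A1) and contains the nonempty open set `dom c ρ`; by the
identity theorem `H' = 0` on `dom c ρ'`, so `H` is constant there, and the constant is the limit
`0` at infinity.
-/

open Complex Set Metric Filter Topology MeasureTheory

namespace RSM

variable {ι : Type} {c : ι → ℂ} {ρ ρ' : ℝ} {θ : ι → ℝ} {H : ℂ → ℂ} {q : ι → ℝ}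

private lemma deriv_smoothTransition_bound :
    ∃ C0 > 0, ∀ x, |deriv Real.smoothTransition x| ≤ C0 := by
  have hc : Continuous (deriv Real.smoothTransition) :=
    (Real.smoothTransition.contDiff (n := 1)).continuous_deriv le_rfl
  obtain ⟨C, hC⟩ := (isCompact_Icc (a := (0 : ℝ)) (b := 1)).exists_bound_of_continuousOn
    hc.continuousOn
  refine ⟨max C 1, by positivity, fun x => ?_⟩
  by_cases h0 : x < 0
  · have : Real.smoothTransition =ᶠ[𝓝 x] fun _ => 0 := by
      filter_upwards [Iio_mem_nhds h0] with y hy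
      exact Real.smoothTransition.zero_of_nonpos (le_of_lt hy)
    rw [this.deriv_eq]
    simp
  by_cases h1 : 1 < x
  · have : Real.smoothTransition =ᶠ[𝓝 x] fun _ => 1 := by
      filter_upwards [Ioi_mem_nhds h1] with y hy
      exact Real.smoothTransition.one_of_one_le (le_of_lt hy)
    rw [this.deriv_eq]
    simp
  · push Not at h0 h1
    exact (hC x ⟨h0, h1⟩).trans (le_max_left _ _)

private lemma dbar_cut_eq {R : ℝ} (hR : 0 < R) {z : ℂ} (hz : z ≠ 0) :
    dbar (fun w => (cut 0 R R w : ℂ)) z =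
      (deriv Real.smoothTransition ((‖z - 0‖ - R) / R) : ℝ) * ((1 / R : ℝ) * ((z - 0) / (2 * ‖z - 0‖))) := by
  have hdn : DifferentiableAt ℝ (fun w : ℂ => ‖w - 0‖) z := by
    have : DifferentiableAt ℝ (fun w : ℂ => ‖w‖) z :=
      (contDiffAt_norm ℝ (n := 1) hz).differentiableAt (by norm_num)
    simpa using this
  have hv : DifferentiableAt ℝ (fun w : ℂ => (‖w - 0‖ - R) / R) z := by
    simpa only [div_eq_mul_inv] using (hdn.sub_const R).mul_const R⁻¹
  have hσ : HasDerivAt Real.smoothTransition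
      (deriv Real.smoothTransition ((‖z - 0‖ - R) / R)) ((‖z - 0‖ - R) / R) :=
    ((Real.smoothTransition.contDiff (n := 1)).differentiable (by norm_num) _).hasDerivAt
  have h1 := dbar_comp_real (v := fun w : ℂ => (‖w - 0‖ - R) / R) hσ hv
  have h2 : dbar (fun w : ℂ => (((‖w - 0‖ - R) / R : ℝ) : ℂ)) z =
      (1 / R : ℝ) * ((z - 0) / (2 * ‖z - 0‖)) := by
    have e1 : (fun w : ℂ => (((‖w - 0‖ - R) / R : ℝ) : ℂ)) =
        fun w : ℂ => ((1 / R : ℝ) : ℂ) * ((((‖w - 0‖ : ℝ) : ℂ)) - ((R : ℝ) : ℂ)) := by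
      funext w
      push_cast
      field_simp
    have hdc : DifferentiableAt ℝ (fun w : ℂ => ((‖w - 0‖ : ℝ) : ℂ)) z :=
      Complex.ofRealCLM.differentiableAt.comp z hdn
    rw [e1, dbar_const_mul (hdc.sub_const _), dbar_sub hdc (differentiableAt_const _),
      dbar_const, sub_zero, dbar_norm_sub (c := 0) hz]
  rw [show (fun w => (cut 0 R R w : ℂ)) =
    fun w : ℂ => ((Real.smoothTransition ((‖w - 0‖ - R) / R) : ℝ) : ℂ) from rfl, h1, h2]

private lemma norm_dbar_cut {C0 : ℝ} (hC0 : ∀ x, |deriv Real.smoothTransition x| ≤ C0)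
    {R : ℝ} (hR : 0 < R) {z : ℂ} (hz : z ≠ 0) :
    ‖dbar (fun w => (cut 0 R R w : ℂ)) z‖ ≤ C0 / R := by
  rw [dbar_cut_eq hR hz]
  have hz' : 0 < ‖z - 0‖ := by simpa using hz
  have h1 := hC0 ((‖z - 0‖ - R) / R)
  have hC : 0 ≤ C0 := (abs_nonneg _).trans h1
  rw [norm_mul, norm_mul, norm_div, norm_mul]
  simp only [Complex.norm_real, Real.norm_eq_abs]
  rw [abs_of_pos (show 0 < 1 / R by positivity), abs_norm]
  have h2 : ‖z - 0‖ / (‖(2 : ℂ)‖ * ‖z - 0‖) = 1 / 2 := by
    rw [Complex.norm_ofNat]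
    field_simp
  rw [h2]
  have h3 : |deriv Real.smoothTransition ((‖z - 0‖ - R) / R)| * (1 / R * (1 / 2)) ≤
      C0 * (1 / R * (1 / 2)) := mul_le_mul_of_nonneg_right h1 (by positivity)
  have h4 : C0 * (1 / R * (1 / 2)) ≤ C0 / R := by
    rw [div_eq_mul_one_div C0 R]
    apply mul_le_mul_of_nonneg_left _ hC
    have : 0 < 1 / R := by positivity
    linarith
  exact h3.trans h4

/-- the cut-off function at infinity -/
private noncomputable def eta (R : ℝ) (z : ℂ) : ℂ := 1 - (cut 0 R R z : ℂ)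

private lemma eta_one {R : ℝ} (hR : 0 < R) {z : ℂ} (hz : ‖z‖ ≤ R) : eta R z = 1 := by
  unfold eta
  rw [cut_eq_zero hR (by simpa using hz)]
  simp

private lemma eta_zero {R : ℝ} (hR : 0 < R) {z : ℂ} (hz : 2 * R ≤ ‖z‖) : eta R z = 0 := by
  unfold eta
  rw [cut_eq_one hR (by rw [sub_zero]; linarith)]
  simp

private lemma contDiff_eta {R : ℝ} (hR : 0 < R) : ContDiff ℝ 1 (eta R) := by
  unfold eta
  exact contDiff_const.sub (contDiff_cut_ofReal (n := 1) hR hR)

private lemma eta_re {R : ℝ} (z : ℂ) : eta R z = ((1 - cut 0 R R z : ℝ) : ℂ) := by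
  unfold eta
  push_cast
  ring

private lemma dbar_eta {R : ℝ} (hR : 0 < R) (z : ℂ) :
    dbar (eta R) z = - dbar (fun w => (cut 0 R R w : ℂ)) z := by
  have hd : DifferentiableAt ℝ (fun w => (cut 0 R R w : ℂ)) z :=
    (contDiff_cut_ofReal (n := 1) hR hR).differentiable (by norm_num) z
  have := dbar_sub (f := fun _ => (1 : ℂ)) (g := fun w => (cut 0 R R w : ℂ)) (z := z)
    (differentiableAt_const _) hd
  rw [dbar_const, zero_sub] at this
  exact this

private lemma norm_dbar_eta {C0 : ℝ} (hC0 : ∀ x, |deriv Real.smoothTransition x| ≤ C0)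
    {R : ℝ} (hR : 0 < R) {z : ℂ} (hz : z ≠ 0) : ‖dbar (eta R) z‖ ≤ C0 / R := by
  rw [dbar_eta hR, norm_neg]
  exact norm_dbar_cut hC0 hR hz

private lemma dbar_eta_in {R : ℝ} (hR : 0 < R) {z : ℂ} (hz : ‖z‖ < R) : dbar (eta R) z = 0 := by
  have : eta R =ᶠ[𝓝 z] fun _ => 1 := by
    have hmem : {w : ℂ | ‖w‖ < R} ∈ 𝓝 z := (isOpen_lt continuous_norm continuous_const).mem_nhds hz
    filter_upwards [hmem] with w hw
    exact eta_one hR (le_of_lt hw)
  rw [Pool.Lib.dbar_congr this, dbar_const]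

private lemma dbar_eta_out {R : ℝ} (hR : 0 < R) {z : ℂ} (hz : 2 * R < ‖z‖) :
    dbar (eta R) z = 0 := by
  have : eta R =ᶠ[𝓝 z] fun _ => 0 := by
    have hmem : {w : ℂ | 2 * R < ‖w‖} ∈ 𝓝 z :=
      (isOpen_lt continuous_const continuous_norm).mem_nhds hz
    filter_upwards [hmem] with w hw
    exact eta_zero hR (le_of_lt hw)
  rw [Pool.Lib.dbar_congr this, dbar_const]

private lemma energy_identity [Finite ι] (hH : Compat c ρ ρ' θ H q) {R0 : ℝ}
    (hR0 : ∀ a, ‖c a‖ + ρ < R0) {R : ℝ} (hRp : 0 < R) (hR : R0 ≤ R) :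
    ∫ z in dom c ρ, dbar (fun w => (starRingEnd ℂ) (H w) * eta R w) z * deriv H z = 0 := by
  have hHo : ContDiffOn ℂ 1 H (dom c ρ') := hH.diff.contDiffOn (isOpen_dom c ρ')
  have hH1 : ContDiffOn ℝ 1 H (dom c ρ') := hHo.restrict_scalars ℝ
  have hHc : ContDiffOn ℝ 1 (fun w => (starRingEnd ℂ) (H w)) (dom c ρ') :=
    Complex.conjCLE.contDiff.comp_contDiffOn hH1
  refine stokes hH (hHc.mul (contDiff_eta hRp).contDiffOn) (R := 2 * R) ?_
    (fun a s => exp (-(θ a : ℂ) * I) * ((s : ℂ) - q a * I)) ?_ ?_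
  · intro z hz
    rw [eta_zero hRp hz, mul_zero]
  · intro a
    fun_prop
  · intro a z hz
    have hzR : ‖z‖ ≤ R := by
      have h1 : ‖z‖ ≤ ‖z - c a‖ + ‖c a‖ := by
        calc ‖z‖ = ‖(z - c a) + c a‖ := by rw [sub_add_cancel]
          _ ≤ _ := norm_add_le _ _
      have h2 := hR0 a
      linarith
    rw [eta_one hRp hzR, mul_one]
    have hb := hH.bdry a z hz
    have e1 : (exp (-(θ a : ℂ) * I) * H z) =
        (((exp (-(θ a : ℂ) * I) * H z).re : ℝ) : ℂ) + (q a : ℂ) * I := by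
      rw [← hb]
      exact (Complex.re_add_im _).symm
    set s : ℝ := (exp (-(θ a : ℂ) * I) * H z).re with hs
    have e2 : (starRingEnd ℂ) (exp (-(θ a : ℂ) * I) * H z) = (s : ℂ) - (q a : ℂ) * I := by
      rw [e1, map_add, map_mul, Complex.conj_ofReal, Complex.conj_ofReal, Complex.conj_I]
      ring
    rw [← e2, map_mul]
    have e3 : exp (-(θ a : ℂ) * I) * (starRingEnd ℂ) (exp (-(θ a : ℂ) * I)) = 1 := by
      rw [Complex.mul_conj, Complex.normSq_eq_norm_sq]
      have : ‖exp (-(θ a : ℂ) * I)‖ = 1 := by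
        rw [show (-(θ a : ℂ) * I) = (((-θ a : ℝ) : ℂ) * I) by push_cast; ring]
        exact Complex.norm_exp_ofReal_mul_I _
      rw [this]
      norm_num
    rw [← mul_assoc, e3, one_mul]

private lemma dbar_phi [Finite ι] (hH : Compat c ρ ρ' θ H q) {R : ℝ} (hRp : 0 < R) {z : ℂ}
    (hz : z ∈ dom c ρ') :
    dbar (fun w => (starRingEnd ℂ) (H w) * eta R w) z * deriv H z =
      ((‖deriv H z‖ ^ 2 : ℝ) : ℂ) * eta R z +
        (starRingEnd ℂ) (H z) * deriv H z * dbar (eta R) z := by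
  have hd := hH.differentiableAt hz
  have hdr : DifferentiableAt ℝ H z := hd.restrictScalars ℝ
  have hdc : DifferentiableAt ℝ (fun w => (starRingEnd ℂ) (H w)) z :=
    Complex.conjCLE.differentiableAt.comp z hdr
  have hde : DifferentiableAt ℝ (eta R) z := (contDiff_eta hRp).differentiable (by norm_num) z
  rw [dbar_mul hdc hde, dbar_conj_holo hd]
  have e : (starRingEnd ℂ) (deriv H z) * deriv H z = ((‖deriv H z‖ ^ 2 : ℝ) : ℂ) := by
    rw [mul_comm, Complex.mul_conj, Complex.normSq_eq_norm_sq]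
  rw [← e]
  ring

private lemma main_bound [Finite ι] (hH : Compat c ρ ρ' θ H q) {C0 : ℝ}
    (hC0 : ∀ x, |deriv Real.smoothTransition x| ≤ C0) {R0 : ℝ} (hR0p : 0 < R0)
    (hR0 : ∀ a, ‖c a‖ + ρ < R0) {ε : ℝ} (hε : 0 ≤ ε) {R : ℝ} (hR : 2 * R0 ≤ R)
    (hsmall : ∀ z : ℂ, R / 2 ≤ ‖z‖ → ‖H z‖ ≤ ε) {z₀ : ℂ} {r δ : ℝ} (hr : 0 < r) (hδ : 0 < δ)
    (hball : ball z₀ r ⊆ dom c ρ) (hballR : ball z₀ r ⊆ closedBall 0 R)
    (hlow : ∀ z ∈ ball z₀ r, δ ≤ ‖deriv H z‖ ^ 2) :
    δ * (Real.pi * r ^ 2) ≤ 8 * Real.pi * C0 * ε ^ 2 := by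
  have hRp : 0 < R := by linarith
  have hDo : IsOpen (dom c ρ) := isOpen_dom c ρ
  have hDU : dom c ρ ⊆ dom c ρ' := dom_anti c hH.lt.le
  have hCU : cdom c ρ ⊆ dom c ρ' := cdom_subset_dom c hH.lt
  have hC0n : 0 ≤ C0 := (abs_nonneg _).trans (hC0 0)
  set K : Set ℂ := cdom c ρ ∩ closedBall 0 (2 * R) with hK
  have hKc : IsCompact K := (isCompact_closedBall 0 (2 * R)).inter_left (isClosed_cdom c ρ)
  have hcd : ContinuousOn (deriv H) (dom c ρ') :=
    (hH.diff.deriv (isOpen_dom c ρ')).continuousOn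
  have hce : Continuous (eta R) := (contDiff_eta hRp).continuous
  have hcde : Continuous (dbar (eta R)) := Pool.Lib.continuous_dbar (contDiff_eta hRp)
  set F1 : ℂ → ℂ := fun z => ((‖deriv H z‖ ^ 2 : ℝ) : ℂ) * eta R z with hF1
  set F2 : ℂ → ℂ := fun z => (starRingEnd ℂ) (H z) * deriv H z * dbar (eta R) z with hF2
  have hF1c : ContinuousOn F1 (dom c ρ') := by
    refine ContinuousOn.mul ?_ hce.continuousOn
    exact Complex.continuous_ofReal.comp_continuousOn ((hcd.norm).pow 2)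
  have hF2c : ContinuousOn F2 (dom c ρ') := by
    refine ContinuousOn.mul (ContinuousOn.mul ?_ hcd) hcde.continuousOn
    exact Complex.continuous_conj.comp_continuousOn hH.diff.continuousOn
  have hKU : K ⊆ dom c ρ' := inter_subset_left.trans hCU
  have hout1 : ∀ z : ℂ, 2 * R < ‖z‖ → F1 z = 0 := by
    intro z hz
    simp only [hF1]
    rw [eta_zero hRp hz.le, mul_zero]
  have hout2 : ∀ z : ℂ, 2 * R < ‖z‖ → F2 z = 0 := by
    intro z hz
    simp only [hF2]
    rw [dbar_eta_out hRp hz, mul_zero]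
  have hdiff : ∀ z ∈ dom c ρ \ K, 2 * R < ‖z‖ := by
    intro z hz
    by_contra hcon
    push Not at hcon
    exact hz.2 ⟨dom_subset_cdom c ρ hz.1, by simpa using hcon⟩
  have hI1 : IntegrableOn F1 (dom c ρ) :=
    ((hF1c.mono hKU).integrableOn_compact hKc).of_forall_sdiff_eq_zero hDo.measurableSet
      (fun z hz => hout1 z (hdiff z hz))
  have hI2 : IntegrableOn F2 (dom c ρ) :=
    ((hF2c.mono hKU).integrableOn_compact hKc).of_forall_sdiff_eq_zero hDo.measurableSet
      (fun z hz => hout2 z (hdiff z hz))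
  have hid := energy_identity hH hR0 hRp (show R0 ≤ R by linarith)
  have hsum : ∫ z in dom c ρ, (F1 z + F2 z) = 0 := by
    rw [← hid]
    refine setIntegral_congr_fun hDo.measurableSet ?_
    intro z hz
    exact (dbar_phi hH hRp (hDU hz)).symm
  rw [integral_add hI1 hI2] at hsum
  have hnorm : ‖∫ z in dom c ρ, F1 z‖ = ‖∫ z in dom c ρ, F2 z‖ := by
    rw [eq_neg_of_add_eq_zero_left hsum, norm_neg]
  -- upper bound of F2
  have hF2b : ∀ z ∈ dom c ρ ∩ closedBall 0 (2 * R), ‖F2 z‖ ≤ ε * (ε / (R / 2)) * (C0 / R) := by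
    intro z hz
    by_cases hzR : ‖z‖ < R
    · simp only [hF2]
      rw [dbar_eta_in hRp hzR, mul_zero, norm_zero]
      positivity
    push Not at hzR
    have hz0 : z ≠ 0 := by
      intro h0
      rw [h0, norm_zero] at hzR
      linarith
    have h1 : ‖H z‖ ≤ ε := hsmall z (by linarith)
    have hpt : ∀ w ∈ closedBall z (R / 2), R / 2 ≤ ‖w‖ := by
      intro w hw
      rw [mem_closedBall, dist_eq_norm] at hw
      have : ‖z‖ ≤ ‖w - z‖ + ‖w‖ := by
        calc ‖z‖ = ‖w - (w - z)‖ := by congr 1; ring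
          _ ≤ ‖w‖ + ‖w - z‖ := norm_sub_le _ _
          _ = _ := add_comm _ _
      linarith
    have hdom : closedBall z (R / 2) ⊆ dom c ρ' := by
      intro w hw
      exact hDU (mem_dom_of_le_norm hR0 ((show R0 ≤ R / 2 by linarith).trans (hpt w hw)))
    have h2 : ‖deriv H z‖ ≤ ε / (R / 2) := by
      refine Complex.norm_deriv_le_of_forall_mem_sphere_norm_le (by positivity) ?_ ?_
      · exact (hH.diff.mono hdom).diffContOnCl_ball subset_rfl
      · intro w hw
        exact hsmall w (hpt w (sphere_subset_closedBall hw))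
    have h3 := norm_dbar_eta hC0 hRp hz0
    simp only [hF2]
    rw [norm_mul, norm_mul, RCLike.norm_conj]
    have h4 : ‖H z‖ * ‖deriv H z‖ ≤ ε * (ε / (R / 2)) :=
      mul_le_mul h1 h2 (norm_nonneg _) hε
    exact mul_le_mul h4 h3 (norm_nonneg _) (by positivity)
  have hF2int : ‖∫ z in dom c ρ, F2 z‖ ≤ 8 * Real.pi * C0 * ε ^ 2 := by
    have e1 : ∫ z in dom c ρ, F2 z = ∫ z in dom c ρ ∩ closedBall 0 (2 * R), F2 z := by
      refine setIntegral_eq_of_subset_of_forall_sdiff_eq_zero hDo.measurableSet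
        inter_subset_left ?_
      intro z hz
      apply hout2
      by_contra hcon
      push Not at hcon
      exact hz.2 ⟨hz.1, by simpa using hcon⟩
    rw [e1]
    have hvol : volume (dom c ρ ∩ closedBall 0 (2 * R)) < ⊤ :=
      (measure_mono inter_subset_right).trans_lt (isCompact_closedBall _ _).measure_lt_top
    refine (norm_setIntegral_le_of_norm_le_const hvol hF2b).trans ?_
    have hv2 : volume.real (dom c ρ ∩ closedBall 0 (2 * R)) ≤ Real.pi * (2 * R) ^ 2 := by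
      have hle : volume.real (dom c ρ ∩ closedBall 0 (2 * R)) ≤
          volume.real (closedBall (0 : ℂ) (2 * R)) :=
        measureReal_mono inter_subset_right (isCompact_closedBall _ _).measure_lt_top.ne
      refine hle.trans (le_of_eq ?_)
      rw [measureReal_def, Complex.volume_closedBall]
      rw [ENNReal.toReal_mul, ENNReal.toReal_pow, ENNReal.toReal_ofReal (by positivity)]
      simp only [ENNReal.coe_toReal, NNReal.coe_real_pi]
      ring
    have hcoef : 0 ≤ ε * (ε / (R / 2)) * (C0 / R) := by positivity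
    refine (mul_le_mul_of_nonneg_left hv2 hcoef).trans (le_of_eq ?_)
    field_simp
    ring
  -- lower bound of F1
  have hF1re : ∀ z, F1 z = ((‖deriv H z‖ ^ 2 * (1 - cut 0 R R z) : ℝ) : ℂ) := by
    intro z
    simp only [hF1]
    rw [eta_re]
    push_cast
    ring
  set f1 : ℂ → ℝ := fun z => ‖deriv H z‖ ^ 2 * (1 - cut 0 R R z) with hf1
  have hf1n : ∀ z, 0 ≤ f1 z := fun z =>
    mul_nonneg (by positivity) (by have := cut_le_one 0 R R z; linarith)
  have hI1r : IntegrableOn f1 (dom c ρ) := by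
    have := hI1.re
    refine this.congr ?_
    filter_upwards with z
    rw [hF1re z]
    exact Complex.ofReal_re _
  have hF1int : ∫ z in dom c ρ, F1 z = ((∫ z in dom c ρ, f1 z : ℝ) : ℂ) := by
    rw [← integral_complex_ofReal]
    congr 1
    funext z
    exact hF1re z
  have hlow2 : δ * (Real.pi * r ^ 2) ≤ ∫ z in dom c ρ, f1 z := by
    have hs1 : ∫ z in ball z₀ r, f1 z ≤ ∫ z in dom c ρ, f1 z := by
      refine setIntegral_mono_set hI1r ?_ (ae_of_all _ hball)
      exact ae_of_all _ hf1n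
    refine le_trans ?_ hs1
    have hs2 : ∫ z in ball z₀ r, δ ≤ ∫ z in ball z₀ r, f1 z := by
      refine setIntegral_mono_on ?_ (hI1r.mono_set hball) measurableSet_ball ?_
      · exact integrableOn_const (measure_ball_lt_top.ne)
      · intro z hz
        have hz1 : ‖z‖ ≤ R := by simpa using hballR hz
        simp only [hf1]
        rw [cut_eq_zero hRp (by simpa using hz1), sub_zero, mul_one]
        exact hlow z hz
    refine le_trans (le_of_eq ?_) hs2
    rw [setIntegral_const, measureReal_def, Complex.volume_ball]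
    rw [ENNReal.toReal_mul, ENNReal.toReal_pow, ENNReal.toReal_ofReal hr.le]
    simp only [ENNReal.coe_toReal, NNReal.coe_real_pi, smul_eq_mul]
    ring
  have hfin : ∫ z in dom c ρ, f1 z ≤ 8 * Real.pi * C0 * ε ^ 2 := by
    have h0 : 0 ≤ ∫ z in dom c ρ, f1 z := integral_nonneg hf1n
    have : ‖∫ z in dom c ρ, F1 z‖ = ∫ z in dom c ρ, f1 z := by
      rw [hF1int, Complex.norm_real, Real.norm_of_nonneg h0]
    rw [← this, hnorm]
    exact hF2int
  exact hlow2.trans hfin

private lemma deriv_zero [Finite ι] (hH : Compat c ρ ρ' θ H q)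
    (hlim : Tendsto H (cocompact ℂ) (𝓝 0)) {z₀ : ℂ} (hz₀ : z₀ ∈ dom c ρ) : deriv H z₀ = 0 := by
  by_contra hne
  have hDo : IsOpen (dom c ρ) := isOpen_dom c ρ
  have hDU : dom c ρ ⊆ dom c ρ' := dom_anti c hH.lt.le
  obtain ⟨C0, hC0p, hC0⟩ := deriv_smoothTransition_bound
  obtain ⟨R0, hR0p, hR0⟩ := exists_inball c ρ
  have hcd : ContinuousOn (deriv H) (dom c ρ') :=
    (hH.diff.deriv (isOpen_dom c ρ')).continuousOn
  have hca : ContinuousAt (fun z => ‖deriv H z‖ ^ 2) z₀ :=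
    ((hcd.continuousAt ((isOpen_dom c ρ').mem_nhds (hDU hz₀))).norm).pow 2
  set δ : ℝ := ‖deriv H z₀‖ ^ 2 / 2 with hδ
  have hpos : 0 < ‖deriv H z₀‖ := norm_pos_iff.2 hne
  have hδp : 0 < δ := by positivity
  have hev : ∀ᶠ z in 𝓝 z₀, δ < ‖deriv H z‖ ^ 2 :=
    hca.eventually (lt_mem_nhds (show δ < ‖deriv H z₀‖ ^ 2 by rw [hδ]; linarith [pow_pos hpos 2]))
  obtain ⟨r, hr, hrb⟩ := Metric.eventually_nhds_iff_ball.1 (hev.and (hDo.mem_nhds hz₀))
  set A : ℝ := δ * (Real.pi * r ^ 2) with hA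
  have hAp : 0 < A := by have := Real.pi_pos; positivity
  set B : ℝ := 8 * Real.pi * C0 with hB
  have hBp : 0 < B := by have := Real.pi_pos; positivity
  set ε : ℝ := min 1 (A / (2 * B)) with hε
  have hεp : 0 < ε := by positivity
  have hev2 : ∀ᶠ z in cocompact ℂ, ‖H z‖ < ε := by
    have := hlim.norm
    rw [norm_zero] at this
    exact this.eventually (gt_mem_nhds hεp)
  rw [← Metric.cobounded_eq_cocompact] at hev2
  obtain ⟨M, hM⟩ : ∃ M : ℝ, ∀ z : ℂ, M ≤ ‖z‖ → ‖H z‖ < ε := by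
    rw [← comap_norm_atTop, Filter.eventually_comap, Filter.eventually_atTop] at hev2
    obtain ⟨M, hM⟩ := hev2
    exact ⟨M, fun z hz => hM ‖z‖ hz z rfl⟩
  set R : ℝ := max (2 * R0) (max (2 * M) (‖z₀‖ + r)) with hR
  have hR1 : 2 * R0 ≤ R := le_max_left _ _
  have hR2 : 2 * M ≤ R := (le_max_left _ _).trans (le_max_right _ _)
  have hR3 : ‖z₀‖ + r ≤ R := (le_max_right _ _).trans (le_max_right _ _)
  have hmain := main_bound hH hC0 hR0p hR0 hεp.le hR1 (fun z hz => (hM z (by linarith)).le) hr hδp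
    (fun z hz => (hrb z hz).2) (fun z hz => by
      rw [mem_ball, dist_eq_norm] at hz
      rw [mem_closedBall, dist_zero_right]
      have : ‖z‖ ≤ ‖z - z₀‖ + ‖z₀‖ := by
        calc ‖z‖ = ‖(z - z₀) + z₀‖ := by rw [sub_add_cancel]
          _ ≤ _ := norm_add_le _ _
      linarith) (fun z hz => (hrb z hz).1.le)
  have h1 : ε ^ 2 ≤ ε := by
    have : ε ≤ 1 := min_le_left _ _
    nlinarith
  have h2 : ε ≤ A / (2 * B) := min_le_right _ _
  have h3 : B * ε ^ 2 ≤ A / 2 := by
    calc B * ε ^ 2 ≤ B * (A / (2 * B)) := mul_le_mul_of_nonneg_left (h1.trans h2) hBp.le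
      _ = A / 2 := by field_simp
  linarith

theorem Compat.eq_zero [Finite ι] (hH : Compat c ρ ρ' θ H q)
    (hlim : Tendsto H (cocompact ℂ) (𝓝 0)) {z : ℂ} (hz : z ∈ dom c ρ') : H z = 0 := by
  have hDU : dom c ρ ⊆ dom c ρ' := dom_anti c hH.lt.le
  have hUo : IsOpen (dom c ρ') := isOpen_dom c ρ'
  have hpre : IsPreconnected (dom c ρ') := isPreconnected_dom hH.pos hH.sep'
  obtain ⟨R0, hR0p, hR0⟩ := exists_inball c ρ
  have hw : ((R0 : ℂ)) ∈ dom c ρ := mem_dom_of_le_norm hR0 (by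
    rw [Complex.norm_real, Real.norm_of_nonneg hR0p.le])
  have hana : AnalyticOnNhd ℂ (deriv H) (dom c ρ') :=
    (hH.diff.deriv hUo).analyticOnNhd hUo
  have hzero : EqOn (deriv H) 0 (dom c ρ') := by
    refine hana.eqOn_zero_of_preconnected_of_eventuallyEq_zero hpre (hDU hw) ?_
    filter_upwards [(isOpen_dom c ρ).mem_nhds hw] with w hw'
    exact deriv_zero hH hlim hw'
  have hconst : ∀ w ∈ dom c ρ', H w = H z := fun w hw' =>
    hUo.is_const_of_deriv_eq_zero hpre hH.diff hzero hw' hz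
  have hlim2 : Tendsto H (cocompact ℂ) (𝓝 (H z)) := by
    refine tendsto_const_nhds.congr' ?_
    filter_upwards [eventually_mem_dom c ρ'] with w hw'
    exact (hconst w hw').symm
  exact tendsto_nhds_unique hlim2 hlim

end RSM
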