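import Pool.Agent.RSM.Basic
import Pool.Agent.RSM.B1
import Pool.Agent.RSM.B2

/-!
# RSM module B6: a solution of the integral equation gives a compatible function

PROOF.  Put `G a z = A * z + ∑ b ∈ univ.erase a, Cop (c b) ρ (u b) z`.  Let `κ > 0` with
`2 * (ρ + κ) < ‖c a - c b‖` for `a ≠ b` (`exists_gap`), `ρ₁ = ρ + κ`: if
`z ∈ ball (c a) ρ₁` and `b ≠ a` then `‖z - c b‖ > ρ₁ > ρ`, so `G a` is holomorphic on
`ball (c a) ρ₁` (`differentiableOn_Cop`).  The hypothesis says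
`u a ζ = exp (2iθ a) conj (G a (c a + ρ ζ))`, so by `Cop_reflect`
`Cop (c a) ρ (u a) z = exp (2iθ a) (conj (G a (c a + ρ²/conj (z - c a))) - conj (G a (c a)))`
for `‖z - c a‖ > ρ`.  Denote the right hand side by `Hx a z`; it is holomorphic for
`‖z - c a‖ > ρ²/ρ₁` (it is `conj ∘ (G a) ∘ conj`-type: `z ↦ conj (g (conj w(z)))` with
`w` holomorphic, use `DifferentiableAt` of `fun z => conj (g (conj z))`).
Put `ρ' = max (ρ²/ρ₁) (ρ/2)`, so `0 < ρ' < ρ`, and `F z = A * z + ∑ a, Hx a z`, holomorphic on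
`dom c ρ'`.  At infinity `c a + ρ²/conj (z - c a) → c a`, so `Hx a z → 0`, and
`F z - A z → 0`.  On the circle `‖z - c a‖ = ρ`: `c a + ρ²/conj (z - c a) = z`, and for `b ≠ a`,
`‖z - c b‖ > ρ`, `Hx b z = Cop (c b) ρ (u b) z`; so
`F z = G a z + exp (2iθ a) (conj (G a z) - conj (G a (c a)))`, and
`exp (-iθ a) F z = exp (-iθ a) G a z + conj (exp (-iθ a) G a z) - exp (iθ a) conj (G a (c a))`,
whose imaginary part is the constant
`q a = -Im (exp (iθ a) conj (G a (c a))) = Im (exp (-iθ a) G a (c a))`.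
-/

open Complex Set Metric Filter Topology MeasureTheory

namespace RSM

variable {ι : Type} [Fintype ι] [DecidableEq ι]

/-- The function `G a z = A z + ∑_{b ≠ a} Cop (c b) ρ (u b) z`. -/
noncomputable def Gfun (c : ι → ℂ) (ρ : ℝ) (A : ℂ) (u : ι → C(Circle, ℂ)) (a : ι) (z : ℂ) : ℂ :=
  A * z + ∑ b ∈ Finset.univ.erase a, Cop (c b) ρ (u b) z

theorem differentiableOn_Gfun {c : ι → ℂ} {ρ ρ₁ : ℝ} (hρ : 0 < ρ) (h1 : ρ < ρ₁)
    (hsep : ∀ a b, a ≠ b → 2 * ρ₁ ≤ ‖c a - c b‖) (A : ℂ) (u : ι → C(Circle, ℂ)) (a : ι) :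
    DifferentiableOn ℂ (Gfun c ρ A u a) (ball (c a) ρ₁) := by
  unfold Gfun
  refine ((differentiable_id.const_mul A).differentiableOn).add ?_
  refine DifferentiableOn.fun_sum fun b hb => ?_
  have hba : b ≠ a := (Finset.mem_erase.1 hb).1
  refine (differentiableOn_Cop (c b) hρ (u b)).mono fun z hz => ?_
  rw [mem_ball_iff_norm] at hz
  have h2 := hsep a b hba.symm
  have h3 : ‖c a - c b‖ ≤ ‖z - c a‖ + ‖z - c b‖ := by
    calc ‖c a - c b‖ = ‖(z - c b) - (z - c a)‖ := by congr 1; ring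
      _ ≤ ‖z - c b‖ + ‖z - c a‖ := norm_sub_le _ _
      _ = ‖z - c a‖ + ‖z - c b‖ := add_comm _ _
  show ρ < ‖z - c b‖
  linarith

/-- the reflected function -/
noncomputable def Hxf (c : ι → ℂ) (ρ : ℝ) (θ : ι → ℝ) (A : ℂ) (u : ι → C(Circle, ℂ)) (a : ι)
    (z : ℂ) : ℂ :=
  exp (2 * (θ a : ℂ) * I) *
    ((starRingEnd ℂ) (Gfun c ρ A u a (c a + ρ ^ 2 / (starRingEnd ℂ) (z - c a))) -
      (starRingEnd ℂ) (Gfun c ρ A u a (c a)))

theorem Hxf_diff {c : ι → ℂ} {ρ ρ₁ : ℝ} (hρ : 0 < ρ) (h1 : ρ < ρ₁)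
    (hsep : ∀ a b, a ≠ b → 2 * ρ₁ ≤ ‖c a - c b‖) (θ : ι → ℝ) (A : ℂ) (u : ι → C(Circle, ℂ)) (a : ι)
    {z : ℂ} (hz : ρ ^ 2 / ρ₁ < ‖z - c a‖) : DifferentiableAt ℂ (Hxf c ρ θ A u a) z := by
  have hρ1 : 0 < ρ₁ := hρ.trans h1
  have hpos : 0 < ‖z - c a‖ := lt_of_le_of_lt (by positivity) hz
  have hne : z - c a ≠ 0 := norm_pos_iff.1 hpos
  have hGd := differentiableOn_Gfun hρ h1 hsep A u a
  have hin : c a + ρ ^ 2 / (starRingEnd ℂ) (z - c a) ∈ ball (c a) ρ₁ := by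
    rw [mem_ball_iff_norm, add_sub_cancel_left, norm_div, RCLike.norm_conj, norm_pow,
      norm_real, Real.norm_of_nonneg hρ.le, div_lt_iff₀ hpos]
    rw [div_lt_iff₀ hρ1] at hz
    linarith
  have hGat : DifferentiableAt ℂ (Gfun c ρ A u a) (c a + ρ ^ 2 / (starRingEnd ℂ) (z - c a)) :=
    hGd.differentiableAt (isOpen_ball.mem_nhds hin)
  -- the inner function
  have hw : DifferentiableAt ℂ (fun z : ℂ => (starRingEnd ℂ) (c a) + (ρ : ℂ) ^ 2 / (z - c a)) z := by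
    refine (differentiableAt_const _).add ((differentiableAt_const _).div ?_ hne)
    exact differentiableAt_id.sub_const _
  have hconj : ∀ z : ℂ, (starRingEnd ℂ) ((starRingEnd ℂ) (c a) + (ρ : ℂ) ^ 2 / (z - c a)) =
      c a + ρ ^ 2 / (starRingEnd ℂ) (z - c a) := by
    intro z
    rw [map_add, Complex.conj_conj, map_div₀, map_pow, Complex.conj_ofReal]
  have h2 : DifferentiableAt ℂ ((starRingEnd ℂ) ∘ (Gfun c ρ A u a) ∘ (starRingEnd ℂ))
      ((starRingEnd ℂ) (c a) + (ρ : ℂ) ^ 2 / (z - c a)) := by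
    have h3 := hGat.conj_conj
    have h4 : (starRingEnd ℂ) (c a + ρ ^ 2 / (starRingEnd ℂ) (z - c a)) =
        (starRingEnd ℂ) (c a) + (ρ : ℂ) ^ 2 / (z - c a) := by
      rw [← hconj z, Complex.conj_conj]
    rw [h4] at h3
    exact h3
  have h5 : DifferentiableAt ℂ (fun z => (starRingEnd ℂ)
      (Gfun c ρ A u a (c a + ρ ^ 2 / (starRingEnd ℂ) (z - c a)))) z := by
    have h6 := DifferentiableAt.comp z h2 hw
    have e : (((starRingEnd ℂ) ∘ (Gfun c ρ A u a) ∘ (starRingEnd ℂ)) ∘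
        fun z : ℂ => (starRingEnd ℂ) (c a) + (ρ : ℂ) ^ 2 / (z - c a)) =
        fun z => (starRingEnd ℂ) (Gfun c ρ A u a (c a + ρ ^ 2 / (starRingEnd ℂ) (z - c a))) := by
      funext z
      simp only [Function.comp_apply]
      rw [hconj z]
    rw [e] at h6
    exact h6
  exact (h5.sub_const _).const_mul _

theorem Hxf_circle {c : ι → ℂ} {ρ : ℝ} (hρ : 0 < ρ) (θ : ι → ℝ) (A : ℂ) (u : ι → C(Circle, ℂ))
    (a : ι) {z : ℂ} (hz : ‖z - c a‖ = ρ) : Hxf c ρ θ A u a z = exp (2 * (θ a : ℂ) * I) *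
      ((starRingEnd ℂ) (Gfun c ρ A u a z) - (starRingEnd ℂ) (Gfun c ρ A u a (c a))) := by
  have hne : z - c a ≠ 0 := norm_pos_iff.1 (by rw [hz]; exact hρ)
  have hcne : (starRingEnd ℂ) (z - c a) ≠ 0 := (map_ne_zero _).2 hne
  have h1 : (ρ : ℂ) ^ 2 / (starRingEnd ℂ) (z - c a) = z - c a := by
    rw [div_eq_iff hcne, Complex.mul_conj, Complex.normSq_eq_norm_sq, hz]
    push_cast
    ring
  unfold Hxf
  rw [h1, add_sub_cancel]

theorem exists_compat_of_eq {c : ι → ℂ} {ρ : ℝ} (hρ : 0 < ρ)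
    (hsep : ∀ a b, a ≠ b → 2 * ρ < ‖c a - c b‖) (θ : ι → ℝ) (A : ℂ) (u : ι → C(Circle, ℂ))
    (hu : ∀ a (ζ : Circle), u a ζ =
      exp (2 * (θ a : ℂ) * I) * (starRingEnd ℂ) (Gfun c ρ A u a (c a + ρ * ζ))) :
    ∃ (ρ' : ℝ) (F : ℂ → ℂ) (q : ι → ℝ), Compat c ρ ρ' θ F q ∧
      Tendsto (fun z => F z - A * z) (cocompact ℂ) (𝓝 0) ∧
      ∀ a z, ‖z - c a‖ = ρ → F z = Gfun c ρ A u a z + exp (2 * (θ a : ℂ) * I) *
        ((starRingEnd ℂ) (Gfun c ρ A u a z) - (starRingEnd ℂ) (Gfun c ρ A u a (c a))) := by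
  obtain ⟨κ, hκ, hgap⟩ := exists_gap hsep
  obtain ⟨ρ₁, hρ₁⟩ : ∃ ρ₁ : ℝ, ρ₁ = ρ + κ := ⟨_, rfl⟩
  have h1 : ρ < ρ₁ := by rw [hρ₁]; linarith
  have hρ1 : 0 < ρ₁ := hρ.trans h1
  have hsep1 : ∀ a b, a ≠ b → 2 * ρ₁ ≤ ‖c a - c b‖ := by
    intro a b hab
    rw [hρ₁]
    exact (hgap a b hab).le
  have hrefl : ∀ a z, ρ < ‖z - c a‖ → Cop (c a) ρ (u a) z = Hxf c ρ θ A u a z := by
    intro a z hz
    exact Cop_reflect hρ h1 (differentiableOn_Gfun hρ h1 hsep1 A u a) _ (u a) (hu a) hz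
  have hlt : max (ρ ^ 2 / ρ₁) (ρ / 2) < ρ := by
    refine max_lt ?_ (by linarith)
    rw [div_lt_iff₀ hρ1]
    nlinarith
  have hF : ∀ a z, ‖z - c a‖ = ρ → A * z + ∑ b, Hxf c ρ θ A u b z =
      Gfun c ρ A u a z + exp (2 * (θ a : ℂ) * I) *
        ((starRingEnd ℂ) (Gfun c ρ A u a z) - (starRingEnd ℂ) (Gfun c ρ A u a (c a))) := by
    intro a z hz
    rw [← Hxf_circle hρ θ A u a hz, ← Finset.add_sum_erase Finset.univ _ (Finset.mem_univ a)]
    have e : ∑ b ∈ Finset.univ.erase a, Hxf c ρ θ A u b z =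
        ∑ b ∈ Finset.univ.erase a, Cop (c b) ρ (u b) z := by
      refine Finset.sum_congr rfl fun b hb => ?_
      have hba : b ≠ a := (Finset.mem_erase.1 hb).1
      refine (hrefl b z ?_).symm
      have h2 := hsep a b hba.symm
      have h3 : ‖c a - c b‖ ≤ ‖z - c b‖ + ‖z - c a‖ := by
        calc ‖c a - c b‖ = ‖(z - c b) - (z - c a)‖ := by congr 1; ring
          _ ≤ ‖z - c b‖ + ‖z - c a‖ := norm_sub_le _ _
      linarith
    rw [e]
    unfold Gfun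
    ring
  refine ⟨max (ρ ^ 2 / ρ₁) (ρ / 2), fun z => A * z + ∑ a, Hxf c ρ θ A u a z,
    fun a => (-(exp ((θ a : ℂ) * I) * (starRingEnd ℂ) (Gfun c ρ A u a (c a)))).im, ?_, ?_, hF⟩
  · refine ⟨lt_max_of_lt_right (by linarith), hlt, hsep, ?_, ?_⟩
    · intro z hz
      refine DifferentiableAt.differentiableWithinAt ?_
      refine (differentiableAt_id.const_mul A).add ?_
      refine DifferentiableAt.fun_sum fun a _ => ?_
      exact Hxf_diff hρ h1 hsep1 θ A u a (lt_of_le_of_lt (le_max_left _ _) (hz a))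
    · intro a z hz
      rw [hF a z hz]
      have e1 : exp (-(θ a : ℂ) * I) * (Gfun c ρ A u a z + exp (2 * (θ a : ℂ) * I) *
          ((starRingEnd ℂ) (Gfun c ρ A u a z) - (starRingEnd ℂ) (Gfun c ρ A u a (c a)))) =
          (exp (-(θ a : ℂ) * I) * Gfun c ρ A u a z +
            (starRingEnd ℂ) (exp (-(θ a : ℂ) * I) * Gfun c ρ A u a z)) +
          -(exp ((θ a : ℂ) * I) * (starRingEnd ℂ) (Gfun c ρ A u a (c a))) := by
        have e2 : exp (-(θ a : ℂ) * I) * exp (2 * (θ a : ℂ) * I) = exp ((θ a : ℂ) * I) := by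
          rw [← Complex.exp_add]
          congr 1
          ring
        have e3 : (starRingEnd ℂ) (exp (-(θ a : ℂ) * I)) = exp ((θ a : ℂ) * I) := by
          rw [← Complex.exp_conj]
          congr 1
          simp
        rw [map_mul, e3]
        linear_combination ((starRingEnd ℂ) (Gfun c ρ A u a z) -
          (starRingEnd ℂ) (Gfun c ρ A u a (c a))) * e2
      rw [e1, Complex.add_im, Complex.add_im, Complex.conj_im, add_neg_cancel, zero_add]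
  · have h2 : Tendsto (fun z => ∑ a, Hxf c ρ θ A u a z) (cocompact ℂ) (𝓝 (∑ _a : ι, (0 : ℂ))) := by
      refine tendsto_finsetSum _ fun a _ => ?_
      have h3 := tendsto_Cop (c a) hρ (u a)
      refine h3.congr' ?_
      filter_upwards [eventually_mem_dom c ρ] with z hz
      exact hrefl a z (hz a)
    rw [Finset.sum_const_zero] at h2
    refine h2.congr fun z => ?_
    ring

end RSM
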