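import Pool.Agent.RSM.B5
import Pool.Agent.RSM.B6

/-!
# RSM module B7: the homogeneous integral equation has only the zero solution

PROOF.  By `exists_compat_of_eq` with `A = 0` there are `ρ', F, q` with `Compat c ρ ρ' θ F q` and
`F → 0` at infinity; so `F = 0` on `dom c ρ'` by `Compat.eq_zero`, in particular on the circles.
Fix `a` and put `p z = exp (-iθ a) * G a z` (`G a = Gfun c ρ 0 u a`, holomorphic near the closed
disc, `differentiableOn_Gfun`).  The formula for `F` on the circle says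
`p z + conj (p z) = conj (p (c a))` for `‖z - c a‖ = ρ`.
Take the mean over the circle: by the mean value property
(`circleAverage`/`DiffContOnCl` Cauchy formula at the centre), mean of `p` is `p (c a)`, so
`p (c a) + conj (p (c a)) = conj (p (c a))`, i.e. `p (c a) = 0`.  So `conj (p z) = -p z` on the
circle, hence `‖p z‖² = -p z ^ 2`, and the mean of `p²` is `p (c a) ^ 2 = 0`; so
`∫ ‖p (c a + ρ e^{it})‖² dt = 0` and `p = 0` on the circle by continuity.  Hence
`u a ζ = exp (2iθ a) conj (G a (c a + ρ ζ)) = 0`.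
-/

open Complex Set Metric Filter Topology MeasureTheory

namespace RSM

variable {ι : Type} [Fintype ι] [DecidableEq ι]

theorem b7_key {w : ℂ} {ρ : ℝ} {p : ℂ → ℂ} (hp : DiffContOnCl ℂ p (ball w |ρ|))
    (hpc : ContinuousOn p (sphere w |ρ|))
    (hrel : ∀ z ∈ sphere w |ρ|, p z + (starRingEnd ℂ) (p z) = (starRingEnd ℂ) (p w)) :
    ∀ z ∈ sphere w |ρ|, p z = 0 := by
  have hi : CircleIntegrable p w ρ := hpc.circleIntegrable'
  have h1 : Real.circleAverage p w ρ = p w := hp.circleAverage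
  have h2 : Real.circleAverage ((conjCLE : ℂ →L[ℝ] ℂ) ∘ p) w ρ = (starRingEnd ℂ) (p w) := by
    rw [ContinuousLinearMap.circleAverage_comp_comm _ hi, h1]
    rfl
  have hi2 : CircleIntegrable ((conjCLE : ℂ →L[ℝ] ℂ) ∘ p) w ρ :=
    ((conjCLE : ℂ →L[ℝ] ℂ).continuous.comp_continuousOn hpc).circleIntegrable'
  have h3 : Real.circleAverage (p + (conjCLE : ℂ →L[ℝ] ℂ) ∘ p) w ρ = (starRingEnd ℂ) (p w) :=
    Real.circleAverage_const_on_circle fun z hz => hrel z hz
  rw [Real.circleAverage_add hi hi2, h1, h2] at h3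
  have h4 : p w = 0 := by
    have h5 : p w + (starRingEnd ℂ) (p w) = 0 + (starRingEnd ℂ) (p w) := by
      rw [zero_add]
      exact h3
    exact add_right_cancel h5
  have h5 : ∀ z ∈ sphere w |ρ|, (starRingEnd ℂ) (p z) = - p z := by
    intro z hz
    have h6 := hrel z hz
    rw [h4, map_zero] at h6
    exact eq_neg_of_add_eq_zero_right h6
  have hp2 : DiffContOnCl ℂ (fun z => p z * p z) (ball w |ρ|) := hp.smul hp
  have h6 : Real.circleAverage (fun z => p z * p z) w ρ = 0 := by
    rw [hp2.circleAverage, h4, zero_mul]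
  have hg : ContinuousOn (fun z => ‖p z‖ ^ 2) (sphere w |ρ|) := hpc.norm.pow 2
  have hig : CircleIntegrable (fun z => ‖p z‖ ^ 2) w ρ := hg.circleIntegrable'
  have h7 : Real.circleAverage (fun z => ‖p z‖ ^ 2) w ρ = 0 := by
    have h8 : Real.circleAverage ((ofRealCLM : ℝ →L[ℝ] ℂ) ∘ fun z => ‖p z‖ ^ 2) w ρ =
        Real.circleAverage (fun z => (-1 : ℂ) • (p z * p z)) w ρ := by
      apply Real.circleAverage_congr_sphere
      intro z hz
      show ((‖p z‖ ^ 2 : ℝ) : ℂ) = (-1 : ℂ) * (p z * p z)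
      have h9 := Complex.mul_conj' (p z)
      rw [h5 z hz] at h9
      push_cast
      rw [← h9]
      ring
    rw [ContinuousLinearMap.circleAverage_comp_comm _ hig, Real.circleAverage_fun_smul, h6,
      smul_zero] at h8
    have h9 : ((Real.circleAverage (fun z => ‖p z‖ ^ 2) w ρ : ℝ) : ℂ) = 0 := h8
    exact_mod_cast h9
  intro z hz
  by_contra hne
  rw [← image_circleMap_Ioc] at hz
  obtain ⟨t, ht, rfl⟩ := hz
  have hpos : 0 < ∫ t in (0 : ℝ)..(2 * Real.pi), ‖p (circleMap w ρ t)‖ ^ 2 := by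
    refine intervalIntegral.integral_pos Real.two_pi_pos ?_ ?_ ?_
    · have h8 : ContinuousOn (fun t => p (circleMap w ρ t)) (Icc 0 (2 * Real.pi)) :=
        hpc.comp (continuous_circleMap w ρ).continuousOn (fun t _ => circleMap_mem_sphere' w ρ t)
      exact h8.norm.pow 2
    · intro x _
      positivity
    · refine ⟨t, ⟨ht.1.le, ht.2⟩, ?_⟩
      have := norm_pos_iff.2 hne
      positivity
  rw [Real.circleAverage_def, smul_eq_mul] at h7
  have h8 : 0 < (2 * Real.pi)⁻¹ := inv_pos.2 Real.two_pi_pos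
  have h9 := mul_pos h8 hpos
  linarith

theorem ker_trivial {c : ι → ℂ} {ρ : ℝ} (hρ : 0 < ρ)
    (hsep : ∀ a b, a ≠ b → 2 * ρ < ‖c a - c b‖) (θ : ι → ℝ) (u : ι → C(Circle, ℂ))
    (hu : ∀ a (ζ : Circle), u a ζ =
      exp (2 * (θ a : ℂ) * I) * (starRingEnd ℂ) (Gfun c ρ 0 u a (c a + ρ * ζ))) :
    u = 0 := by
  obtain ⟨ρ', F, q, hF, hlim, hform⟩ := exists_compat_of_eq hρ hsep θ 0 u hu
  have hlim' : Tendsto F (cocompact ℂ) (𝓝 0) := by simpa using hlim
  obtain ⟨κ, hκ, hgap⟩ := exists_gap hsep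
  funext a
  have hsphere : ∀ z, ‖z - c a‖ = ρ → F z = 0 := by
    intro z hz
    apply hF.eq_zero hlim'
    intro b
    have hlt := hF.lt
    rcases eq_or_ne b a with rfl | hb
    · rw [hz]
      exact hlt
    · have h1 := hsep b a hb
      have h2 : ‖c b - c a‖ ≤ ‖z - c b‖ + ‖z - c a‖ := by
        rw [norm_sub_rev z (c b)]
        have h3 := norm_add_le (c b - z) (z - c a)
        rwa [sub_add_sub_cancel] at h3
      linarith
  have hG : DifferentiableOn ℂ (Gfun c ρ 0 u a) (ball (c a) (ρ + κ)) :=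
    differentiableOn_Gfun hρ (by linarith) (fun a b hab => (hgap a b hab).le) 0 u a
  have hpd : DifferentiableOn ℂ (fun z => exp (-(θ a : ℂ) * I) * Gfun c ρ 0 u a z)
      (ball (c a) (ρ + κ)) := (differentiableOn_const _).mul hG
  have hsub : closedBall (c a) |ρ| ⊆ ball (c a) (ρ + κ) := by
    rw [abs_of_pos hρ]
    exact closedBall_subset_ball (by linarith)
  have he : (starRingEnd ℂ) (exp (-(θ a : ℂ) * I)) = exp ((θ a : ℂ) * I) := by
    rw [← exp_conj]
    simp
  have he2 : exp (-(θ a : ℂ) * I) * exp (2 * (θ a : ℂ) * I) = exp ((θ a : ℂ) * I) := by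
    rw [← exp_add]
    congr 1
    ring
  have hz0 := b7_key (hpd.diffContOnCl_ball hsub)
    (hpd.continuousOn.mono (sphere_subset_closedBall.trans hsub)) (by
      intro z hz
      rw [mem_sphere, dist_eq_norm, abs_of_pos hρ] at hz
      have h1 := hform a z hz
      rw [hsphere z hz] at h1
      rw [map_mul, map_mul, he]
      have h2 : 0 = exp (-(θ a : ℂ) * I) * Gfun c ρ 0 u a z + exp (-(θ a : ℂ) * I) *
          exp (2 * (θ a : ℂ) * I) * ((starRingEnd ℂ) (Gfun c ρ 0 u a z) -
          (starRingEnd ℂ) (Gfun c ρ 0 u a (c a))) := by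
        linear_combination exp (-(θ a : ℂ) * I) * h1
      rw [he2] at h2
      linear_combination -h2)
  ext ζ
  have h1 : c a + ρ * (ζ : ℂ) ∈ sphere (c a) |ρ| := by
    rw [mem_sphere, dist_eq_norm, add_sub_cancel_left, norm_mul, norm_real, Circle.norm_coe,
      mul_one, Real.norm_eq_abs]
  have h2 := hz0 _ h1
  have h3 : Gfun c ρ 0 u a (c a + ρ * ζ) = 0 := by
    rcases mul_eq_zero.1 h2 with h4 | h4
    · exact absurd h4 (exp_ne_zero _)
    · exact h4
  rw [hu a ζ, h3, map_zero, mul_zero]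
  rfl

end RSM
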