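import Pool.Agent.RSM.B3
import Pool.Agent.RSM.B4
import Pool.Agent.RSM.B7

/-!
# RSM module B8: existence of the slit map of a circle domain

PROOF.  For `a ≠ b` let `T a b` be the compact operator of `exists_compact` with
`c := c b`, `p := c a`, `k := exp (2iθ a)`; `T a a = 0`.  So
`(∑ b, T a b (u b)) ζ = exp (2iθ a) conj (∑_{b ≠ a} Cop (c b) ρ (u b) (c a + ρ ζ))`.
The kernel condition of `fredholm_pi` is `ker_trivial`.  With
`v a ζ = exp (2iθ a) conj (c a + ρ ζ)` there is `u` with `u a - ∑ b, T a b (u b) = v a`, which is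
the hypothesis of `exists_compat_of_eq` with `A = 1`.
-/

open Complex Set Metric Filter Topology MeasureTheory

namespace RSM

theorem exists_isSlit {ι : Type} [Finite ι] (c : ι → ℂ) {ρ : ℝ} (hρ : 0 < ρ)
    (hsep : ∀ a b, a ≠ b → 2 * ρ < ‖c a - c b‖) (θ : ι → ℝ) :
    ∃ (ρ' : ℝ) (F : ℂ → ℂ) (q : ι → ℝ), IsSlit c ρ ρ' θ F q := by
  cases nonempty_fintype ι
  classical
  have hex : ∀ a b : ι, ∃ T : C(Circle, ℂ) →L[ℝ] C(Circle, ℂ), IsCompactOperator T ∧
      ∀ (u : C(Circle, ℂ)) (ζ : Circle), T u ζ = if b = a then 0 else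
        exp (2 * (θ a : ℂ) * I) * (starRingEnd ℂ) (Cop (c b) ρ u (c a + ρ * ζ)) := by
    intro a b
    by_cases hab : b = a
    · refine ⟨0, isCompactOperator_zero, fun u ζ => ?_⟩
      rw [if_pos hab]
      rfl
    · obtain ⟨T, hT, hTe⟩ := exists_compact hρ (hsep a b (Ne.symm hab)) (exp (2 * (θ a : ℂ) * I))
      refine ⟨T, hT, fun u ζ => ?_⟩
      rw [if_neg hab, hTe]
  choose T hT hTe using hex
  have hsum : ∀ (u : ι → C(Circle, ℂ)) (a : ι) (ζ : Circle), (∑ b, T a b (u b)) ζ =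
      exp (2 * (θ a : ℂ) * I) *
        (starRingEnd ℂ) (∑ b ∈ Finset.univ.erase a, Cop (c b) ρ (u b) (c a + ρ * ζ)) := by
    intro u a ζ
    rw [ContinuousMap.sum_apply, map_sum, Finset.mul_sum]
    rw [← Finset.add_sum_erase Finset.univ _ (Finset.mem_univ a), hTe, if_pos rfl, zero_add]
    apply Finset.sum_congr rfl
    intro b hb
    rw [hTe, if_neg (Finset.ne_of_mem_erase hb)]
  have hG : ∀ (A : ℂ) (u : ι → C(Circle, ℂ)) (a : ι) (ζ : Circle),
      exp (2 * (θ a : ℂ) * I) * (starRingEnd ℂ) (Gfun c ρ A u a (c a + ρ * ζ)) =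
        exp (2 * (θ a : ℂ) * I) * (starRingEnd ℂ) (A * (c a + ρ * ζ)) +
          (∑ b, T a b (u b)) ζ := by
    intro A u a ζ
    rw [hsum]
    unfold Gfun
    rw [map_add]
    ring
  obtain ⟨v, hv⟩ : ∃ v : ι → C(Circle, ℂ), ∀ a (ζ : Circle), v a ζ =
      exp (2 * (θ a : ℂ) * I) * (starRingEnd ℂ) (1 * (c a + ρ * ζ)) := by
    refine ⟨fun a => ⟨fun ζ => exp (2 * (θ a : ℂ) * I) * (starRingEnd ℂ) (1 * (c a + ρ * ζ)),
      ?_⟩, fun a ζ => rfl⟩
    refine continuous_const.mul (Complex.continuous_conj.comp ?_)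
    exact continuous_const.mul (continuous_const.add
      (continuous_const.mul continuous_subtype_val))
  obtain ⟨u, hu⟩ := fredholm_pi T hT (fun u hu => ker_trivial hρ hsep θ u (fun a ζ => by
    rw [hG, zero_mul, map_zero, mul_zero, zero_add, ← hu a])) v
  have hu' : ∀ a (ζ : Circle), u a ζ =
      exp (2 * (θ a : ℂ) * I) * (starRingEnd ℂ) (Gfun c ρ 1 u a (c a + ρ * ζ)) := by
    intro a ζ
    rw [hG, ← hv]
    have h1 : u a = v a + ∑ b, T a b (u b) := by
      rw [← hu a]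
      abel
    conv_lhs => rw [h1]
    rw [ContinuousMap.add_apply]
  obtain ⟨ρ', F, q, hc, hlim, _⟩ := exists_compat_of_eq hρ hsep θ 1 u hu'
  refine ⟨ρ', F, q, hc, ?_⟩
  simp only [one_mul] at hlim
  exact hlim

end RSM
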