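import Pool.Agent.RSM.Defs

/-!
# Project RSM: elementary facts on circle domains
-/

open Complex Set Metric Filter Topology MeasureTheory

namespace RSM

variable {ι : Type} {c : ι → ℂ} {ρ ρ' : ℝ}

theorem isOpen_dom [Finite ι] (c : ι → ℂ) (ρ : ℝ) : IsOpen (dom c ρ) := by
  have : dom c ρ = ⋂ a, {z | ρ < ‖z - c a‖} := by ext z; simp [dom]
  rw [this]
  exact isOpen_iInter_of_finite fun a => isOpen_lt continuous_const (by fun_prop)

theorem isClosed_cdom (c : ι → ℂ) (ρ : ℝ) : IsClosed (cdom c ρ) := by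
  have : cdom c ρ = ⋂ a, {z | ρ ≤ ‖z - c a‖} := by ext z; simp [cdom]
  rw [this]
  exact isClosed_iInter fun a => isClosed_le continuous_const (by fun_prop)

theorem dom_subset_cdom (c : ι → ℂ) (ρ : ℝ) : dom c ρ ⊆ cdom c ρ := fun _ hz a => (hz a).le

theorem cdom_subset_dom (c : ι → ℂ) (h : ρ' < ρ) : cdom c ρ ⊆ dom c ρ' :=
  fun _ hz a => h.trans_le (hz a)

theorem dom_anti (c : ι → ℂ) (h : ρ' ≤ ρ) : dom c ρ ⊆ dom c ρ' :=
  fun _ hz a => h.trans_lt (hz a)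

theorem mem_dom_of_le_norm {R : ℝ} (hR : ∀ a, ‖c a‖ + ρ < R) {z : ℂ} (hz : R ≤ ‖z‖) :
    z ∈ dom c ρ := by
  intro a
  have h1 := norm_sub_norm_le z (c a)
  have h2 := hR a
  linarith

theorem exists_inball [Finite ι] (c : ι → ℂ) (ρ : ℝ) : ∃ R > 0, ∀ a, ‖c a‖ + ρ < R := by
  obtain ⟨M, hM⟩ := (Set.finite_range fun a => ‖c a‖ + ρ).bddAbove
  refine ⟨max M 0 + 1, by positivity, fun a => ?_⟩
  have := hM ⟨a, rfl⟩
  simp only at this
  have := le_max_left M 0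
  linarith

/-- Eventually (at infinity) a point is in the circle domain. -/
theorem eventually_mem_dom [Finite ι] (c : ι → ℂ) (ρ : ℝ) : ∀ᶠ z in cocompact ℂ, z ∈ dom c ρ := by
  obtain ⟨R, hR0, hR⟩ := exists_inball c ρ
  have : (closedBall (0 : ℂ) R)ᶜ ∈ cocompact ℂ := (isCompact_closedBall 0 R).compl_mem_cocompact
  filter_upwards [this] with z hz
  simp only [mem_compl_iff, mem_closedBall, dist_zero_right, not_le] at hz
  exact mem_dom_of_le_norm hR hz.le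

/-- The closed discs are separated by a definite gap. -/
theorem exists_gap [Finite ι] (hsep : ∀ a b, a ≠ b → 2 * ρ < ‖c a - c b‖) :
    ∃ κ > 0, ∀ a b, a ≠ b → 2 * (ρ + κ) < ‖c a - c b‖ := by
  rcases Set.eq_empty_or_nonempty {p : ι × ι | p.1 ≠ p.2} with h | h
  · refine ⟨1, one_pos, fun a b hab => ?_⟩
    have : (a, b) ∈ ({p : ι × ι | p.1 ≠ p.2}) := hab
    rw [h] at this
    exact absurd this (notMem_empty _)
  · obtain ⟨p, hp, hmin⟩ := Set.exists_min_image {p : ι × ι | p.1 ≠ p.2}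
      (fun p => ‖c p.1 - c p.2‖) (Set.toFinite _) h
    have h1 := hsep p.1 p.2 hp
    refine ⟨(‖c p.1 - c p.2‖ - 2 * ρ) / 4, by linarith, fun a b hab => ?_⟩
    have h2 : ‖c p.1 - c p.2‖ ≤ ‖c a - c b‖ := hmin (a, b) hab
    linarith

/-- A point of the closed circle domain is a limit of points of the open circle domain. -/
theorem nonempty_inter_dom [Finite ι] (hρ : 0 < ρ) (hsep : ∀ a b, a ≠ b → 2 * ρ < ‖c a - c b‖)
    {z : ℂ} (hz : z ∈ cdom c ρ) {U : Set ℂ} (hU : IsOpen U) (hzU : z ∈ U) :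
    (U ∩ dom c ρ).Nonempty := by
  by_cases h : z ∈ dom c ρ
  · exact ⟨z, hzU, h⟩
  obtain ⟨a, ha⟩ : ∃ a, ‖z - c a‖ ≤ ρ := by
    by_contra hcon
    push Not at hcon
    exact h hcon
  have ha' : ‖z - c a‖ = ρ := le_antisymm ha (hz a)
  obtain ⟨κ, hκ, hgap⟩ := exists_gap hsep
  obtain ⟨ε, hε, hball⟩ := Metric.isOpen_iff.mp hU z hzU
  set s : ℝ := min (ε / 2) (κ / 2) / ρ with hs
  have hs0 : 0 < s := by positivity
  have hsρ : s * ρ = min (ε / 2) (κ / 2) := by rw [hs]; field_simp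
  have h1 : ‖z + s * (z - c a) - z‖ = s * ρ := by
    rw [add_sub_cancel_left, norm_mul, ha', norm_real, Real.norm_of_nonneg hs0.le]
  refine ⟨z + s * (z - c a), hball ?_, fun b => ?_⟩
  · rw [mem_ball, dist_eq_norm, h1, hsρ]
    exact (min_le_left _ _).trans_lt (by linarith)
  · rcases eq_or_ne b a with rfl | hb
    · have : z + s * (z - c b) - c b = ((1 + s : ℝ) : ℂ) * (z - c b) := by push_cast; ring
      rw [this, norm_mul, ha', norm_real, Real.norm_of_nonneg (by linarith)]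
      nlinarith
    · have h2 := hgap b a hb
      have h3 : ‖c b - c a‖ ≤ ‖c b - (z + s * (z - c a))‖ + ‖z + s * (z - c a) - z‖
          + ‖z - c a‖ := by
        calc ‖c b - c a‖ = ‖(c b - (z + s * (z - c a))) + (z + s * (z - c a) - z) + (z - c a)‖ := by
              congr 1; ring
          _ ≤ _ := (norm_add_le _ _).trans (add_le_add_left (norm_add_le _ _) _)
      rw [h1, ha', hsρ, norm_sub_rev (c b) (z + s * (z - c a))] at h3
      have h4 := min_le_right (ε / 2) (κ / 2)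
      linarith

theorem Compat.mono {θ : ι → ℝ} {H : ℂ → ℂ} {q : ι → ℝ} (h : Compat c ρ ρ' θ H q) {ρ'' : ℝ}
    (h1 : ρ' ≤ ρ'') (h2 : ρ'' < ρ) : Compat c ρ ρ'' θ H q :=
  ⟨h.pos.trans_le h1, h2, h.sep, h.diff.mono (dom_anti c h1), h.bdry⟩

theorem IsSlit.mono {θ : ι → ℝ} {H : ℂ → ℂ} {q : ι → ℝ} (h : IsSlit c ρ ρ' θ H q) {ρ'' : ℝ}
    (h1 : ρ' ≤ ρ'') (h2 : ρ'' < ρ) : IsSlit c ρ ρ'' θ H q :=
  ⟨h.toCompat.mono h1 h2, h.lim⟩

theorem Compat.pos' {θ : ι → ℝ} {H : ℂ → ℂ} {q : ι → ℝ} (h : Compat c ρ ρ' θ H q) : 0 < ρ :=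
  h.pos.trans h.lt

theorem Compat.sep' {θ : ι → ℝ} {H : ℂ → ℂ} {q : ι → ℝ} (h : Compat c ρ ρ' θ H q) :
    ∀ a b, a ≠ b → 2 * ρ' < ‖c a - c b‖ := fun a b hab => by
  have := h.sep a b hab
  have := h.lt
  linarith

theorem Compat.differentiableAt [Finite ι] {θ : ι → ℝ} {H : ℂ → ℂ} {q : ι → ℝ}
    (h : Compat c ρ ρ' θ H q) {z : ℂ} (hz : z ∈ dom c ρ') : DifferentiableAt ℂ H z :=
  h.diff.differentiableAt ((isOpen_dom c ρ').mem_nhds hz)

theorem Compat.differentiableAt_deriv [Finite ι] {θ : ι → ℝ} {H : ℂ → ℂ} {q : ι → ℝ}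
    (h : Compat c ρ ρ' θ H q) {z : ℂ} (hz : z ∈ dom c ρ') : DifferentiableAt ℂ (deriv H) z :=
  (h.diff.deriv (isOpen_dom c ρ')).differentiableAt ((isOpen_dom c ρ').mem_nhds hz)

end RSM
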