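import Pool.Agent.RSM.Defs

/-!
# RSM module C1: functions holomorphic near infinity

PROOFS.  `mul_deriv_tendsto`: Cauchy's estimate on the disc `ball z (‖z‖/2)`, `‖z‖ ≥ 2R+1`:
`‖h' z‖ ≤ sup_{‖w‖ ≥ ‖z‖/2} ‖h w‖ / (‖z‖/2)`, so `‖z‖ ‖h' z‖ ≤ 2 sup → 0`.
`mean_deriv_zero`: `∮_{|z|=r} h'(z)/z dz = i ∫ h'(r e^{it}) dt` does not depend on `r > R`
(`Complex.circleIntegral_sub_center_inv_smul_eq_of_differentiable_on_annulus_off_countable`
with centre `0` and `f = h'`), and it tends to `0` as `r → ∞` as `h' → 0` at infinity.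
`mean_exp_zero`: the same with `f z = h z / z`:
`∮ z⁻¹ (h z / z) dz = i/r ∫ h(r e^{it}) e^{-it} dt`, independent of `r` and tending to `0`.
`norm_le_of_sphere`: the function `k w = h (1/w)` (`k 0 = 0`) is continuous at `0` and holomorphic
on `0 < ‖w‖ < 1/R`, so holomorphic on `ball 0 (1/R)`
(`Complex.differentiableOn_compl_singleton_and_continuousAt_iff`); apply the maximum principle to
`dslope k 0` on `closedBall 0 (1/r)`: `‖k w / w‖ ≤ A r` for `‖w‖ ≤ 1/r`.
-/

open Complex Set Metric Filter Topology MeasureTheory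

namespace RSM

variable {h : ℂ → ℂ} {R : ℝ}

private theorem c1_ev {P : ℂ → Prop} :
    (∀ᶠ z in cocompact ℂ, P z) ↔ ∃ B : ℝ, ∀ z, B ≤ ‖z‖ → P z := by
  rw [← Metric.cobounded_eq_cocompact, ← comap_norm_atTop, Filter.eventually_comap,
    eventually_atTop]
  constructor
  · rintro ⟨a, ha⟩
    exact ⟨a, fun z hz => ha ‖z‖ hz z rfl⟩
  · rintro ⟨a, ha⟩
    exact ⟨a, fun b hb z hz => ha z (by rw [hz]; exact hb)⟩

private theorem c1_tend {g : ℂ → ℂ} :
    Tendsto g (cocompact ℂ) (𝓝 0) ↔ ∀ ε > 0, ∃ B : ℝ, ∀ z, B ≤ ‖z‖ → ‖g z‖ < ε := by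
  rw [Metric.tendsto_nhds]
  constructor
  · intro h ε hε
    have := h ε hε
    rw [c1_ev] at this
    obtain ⟨B, hB⟩ := this
    exact ⟨B, fun z hz => by
      have := hB z hz
      rwa [dist_zero_right] at this⟩
  · intro h ε hε
    rw [c1_ev]
    obtain ⟨B, hB⟩ := h ε hε
    exact ⟨B, fun z hz => by
      rw [dist_zero_right]
      exact hB z hz⟩

private theorem c1_open (R : ℝ) : IsOpen {z : ℂ | R < ‖z‖} :=
  isOpen_lt continuous_const continuous_norm

theorem mul_deriv_tendsto (hR : 0 < R) (hh : DifferentiableOn ℂ h {z | R < ‖z‖})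
    (h0 : Tendsto h (cocompact ℂ) (𝓝 0)) :
    Tendsto (fun z => z * deriv h z) (cocompact ℂ) (𝓝 0) := by
  rw [c1_tend] at h0 ⊢
  intro ε hε
  obtain ⟨B, hB⟩ := h0 (ε / 4) (by linarith)
  refine ⟨max (2 * B) (2 * R + 1), fun z hz => ?_⟩
  have h1 : 2 * B ≤ ‖z‖ := (le_max_left _ _).trans hz
  have h2 : 2 * R + 1 ≤ ‖z‖ := (le_max_right _ _).trans hz
  have hz0 : 0 < ‖z‖ := by linarith
  have hlow : ∀ w ∈ closedBall z (‖z‖ / 2), ‖z‖ / 2 ≤ ‖w‖ := by
    intro w hw
    rw [mem_closedBall, dist_eq_norm] at hw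
    have h3 : ‖z‖ ≤ ‖w‖ + ‖w - z‖ := by
      have := norm_sub_le w (w - z)
      rwa [sub_sub_cancel] at this
    linarith
  have hd : DiffContOnCl ℂ h (ball z (‖z‖ / 2)) := by
    refine DifferentiableOn.diffContOnCl ?_
    rw [closure_ball z (by linarith)]
    exact hh.mono fun w hw => by
      have := hlow w hw
      show R < ‖w‖
      linarith
  have h3 := Complex.norm_deriv_le_of_forall_mem_sphere_norm_le (C := ε / 4) (by linarith) hd
    (fun w hw => by
      have h4 := hlow w (sphere_subset_closedBall hw)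
      exact (hB w (by linarith)).le)
  rw [norm_mul]
  have h5 : ‖z‖ * ‖deriv h z‖ ≤ ‖z‖ * (ε / 4 / (‖z‖ / 2)) :=
    mul_le_mul_of_nonneg_left h3 hz0.le
  have h6 : ‖z‖ * (ε / 4 / (‖z‖ / 2)) = ε / 2 := by
    field_simp
    ring
  linarith

private theorem c1_mean (hR : 0 < R) (hh : DifferentiableOn ℂ h {z | R < ‖z‖})
    (h0 : Tendsto h (cocompact ℂ) (𝓝 0)) {r : ℝ} (hr : R < r) :
    ∫ t in (0 : ℝ)..(2 * Real.pi), h (r * exp (t * I)) = 0 := by
  have hr0 : 0 < r := hR.trans hr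
  have hcirc : ∀ ρ : ℝ, 0 < ρ → (∮ z in C(0, ρ), (z - 0)⁻¹ • h z) =
      I * ∫ t in (0 : ℝ)..(2 * Real.pi), h (ρ * exp (t * I)) := by
    intro ρ hρ
    unfold circleIntegral
    rw [← intervalIntegral.integral_const_mul]
    refine intervalIntegral.integral_congr fun t _ => ?_
    have e1 : circleMap 0 ρ t = ρ * exp (t * I) := by
      unfold circleMap
      rw [zero_add]
    have e2 : circleMap 0 ρ t ≠ 0 := by
      rw [e1]
      exact mul_ne_zero (by exact_mod_cast hρ.ne') (exp_ne_zero _)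
    simp only [deriv_circleMap, sub_zero, smul_eq_mul]
    rw [← mul_assoc, mul_assoc (circleMap 0 ρ t) I, mul_comm I, ← mul_assoc,
      mul_inv_cancel₀ e2, one_mul, e1]
  have hconst : ∀ ρ : ℝ, r ≤ ρ → ∫ t in (0 : ℝ)..(2 * Real.pi), h (ρ * exp (t * I)) =
      ∫ t in (0 : ℝ)..(2 * Real.pi), h (r * exp (t * I)) := by
    intro ρ hρ
    have h1 := circleIntegral_sub_center_inv_smul_eq_of_differentiable_on_annulus_off_countable
      (c := (0 : ℂ)) (f := h) (s := ∅) hr0 hρ countable_empty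
      (hh.continuousOn.mono fun z hz => by
        have h2 := hz.2
        rw [mem_ball, dist_zero_right, not_lt] at h2
        exact lt_of_lt_of_le hr h2)
      (fun z hz => by
        have h2 := hz.1.2
        rw [mem_closedBall, dist_zero_right, not_le] at h2
        exact (hh z (hr.trans h2)).differentiableAt ((c1_open R).mem_nhds (hr.trans h2)))
    rw [hcirc ρ (hr0.trans_le hρ), hcirc r hr0] at h1
    exact mul_left_cancel₀ I_ne_zero h1
  by_contra hne
  have hpos : 0 < ‖∫ t in (0 : ℝ)..(2 * Real.pi), h (r * exp (t * I))‖ := norm_pos_iff.mpr hne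
  set V := ∫ t in (0 : ℝ)..(2 * Real.pi), h (r * exp (t * I)) with hV
  have hpi := Real.pi_pos
  rw [c1_tend] at h0
  obtain ⟨B, hB⟩ := h0 (‖V‖ / (4 * Real.pi)) (by positivity)
  have h1 := hconst (max B r) (le_max_right _ _)
  have h2 : ‖∫ t in (0 : ℝ)..(2 * Real.pi), h ((max B r : ℝ) * exp (t * I))‖ ≤
      ‖V‖ / (4 * Real.pi) * |2 * Real.pi - 0| := by
    refine intervalIntegral.norm_integral_le_of_norm_le_const fun t _ => ?_
    refine (hB _ ?_).le
    rw [norm_mul, norm_exp_ofReal_mul_I, mul_one, Complex.norm_real, Real.norm_of_nonneg]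
    · exact le_max_left _ _
    · exact hr0.le.trans (le_max_right _ _)
  rw [h1, sub_zero, abs_of_pos (by positivity)] at h2
  have h3 : ‖V‖ / (4 * Real.pi) * (2 * Real.pi) = ‖V‖ / 2 := by
    field_simp
    ring
  rw [h3] at h2
  linarith

theorem mean_deriv_zero (hR : 0 < R) (hh : DifferentiableOn ℂ h {z | R < ‖z‖})
    (h0 : Tendsto h (cocompact ℂ) (𝓝 0)) {r : ℝ} (hr : R < r) :
    ∫ t in (0 : ℝ)..(2 * Real.pi), deriv h (r * exp (t * I)) = 0 := by
  refine c1_mean (h := deriv h) hR (hh.deriv (c1_open R)) ?_ hr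
  have h1 := mul_deriv_tendsto hR hh h0
  rw [c1_tend] at h1 ⊢
  intro ε hε
  obtain ⟨B, hB⟩ := h1 ε hε
  refine ⟨max B 1, fun z hz => ?_⟩
  have h2 := hB z ((le_max_left _ _).trans hz)
  have h3 : 1 ≤ ‖z‖ := (le_max_right _ _).trans hz
  rw [norm_mul] at h2
  have h4 := norm_nonneg (deriv h z)
  nlinarith

theorem mean_exp_zero (hR : 0 < R) (hh : DifferentiableOn ℂ h {z | R < ‖z‖})
    (h0 : Tendsto h (cocompact ℂ) (𝓝 0)) {r : ℝ} (hr : R < r) :
    ∫ t in (0 : ℝ)..(2 * Real.pi), h (r * exp (t * I)) * exp (-(t * I)) = 0 := by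
  have hr0 : 0 < r := hR.trans hr
  have h1 := c1_mean (h := fun z => h z / z) hR
    (hh.div differentiableOn_id fun z hz h0 => by
      have hz' : R < ‖z‖ := hz
      have h0' : z = 0 := h0
      rw [h0', norm_zero] at hz'
      linarith) (by
      rw [c1_tend] at h0 ⊢
      intro ε hε
      obtain ⟨B, hB⟩ := h0 ε hε
      refine ⟨max B 1, fun z hz => ?_⟩
      have h2 := hB z ((le_max_left _ _).trans hz)
      have h3 : 1 ≤ ‖z‖ := (le_max_right _ _).trans hz
      rw [norm_div]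
      exact lt_of_le_of_lt (div_le_self (norm_nonneg _) h3) h2) hr
  have h2 : ∀ t : ℝ, h (r * exp (t * I)) * exp (-(t * I)) =
      r * (h (r * exp (t * I)) / (r * exp (t * I))) := by
    intro t
    have e1 : (r : ℂ) ≠ 0 := by exact_mod_cast hr0.ne'
    have e2 := exp_ne_zero (t * I)
    rw [exp_neg]
    field_simp
  simp only [h2]
  rw [intervalIntegral.integral_const_mul, h1, mul_zero]

/-- Schwarz lemma at infinity. -/
theorem norm_le_of_sphere (hR : 0 < R) (hh : DifferentiableOn ℂ h {z | R < ‖z‖})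
    (h0 : Tendsto h (cocompact ℂ) (𝓝 0)) {r A : ℝ} (hr : R < r)
    (hA : ∀ z, ‖z‖ = r → ‖h z‖ ≤ A) {z : ℂ} (hz : r ≤ ‖z‖) : ‖h z‖ ≤ A * r / ‖z‖ := by
  classical
  have hr0 : 0 < r := hR.trans hr
  have hz0 : 0 < ‖z‖ := hr0.trans_le hz
  obtain ⟨k, hk⟩ : ∃ k : ℂ → ℂ, k = fun w => if w = 0 then 0 else h w⁻¹ := ⟨_, rfl⟩
  have hk0 : k 0 = 0 := by rw [hk]; simp
  have hk1 : ∀ w, w ≠ 0 → k w = h w⁻¹ := fun w hw => by rw [hk]; simp [hw]
  have hnhds : ball (0 : ℂ) R⁻¹ ∈ 𝓝 (0 : ℂ) := ball_mem_nhds _ (inv_pos.mpr hR)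
  have hd1 : DifferentiableOn ℂ k (ball 0 R⁻¹ \ {0}) := by
    intro w hw
    have hw0 : w ≠ 0 := hw.2
    have hw1 : R < ‖w⁻¹‖ := by
      have h1 := hw.1
      rw [mem_ball, dist_zero_right] at h1
      rw [norm_inv]
      exact (lt_inv_comm₀ hR (norm_pos_iff.mpr hw0)).mpr h1
    have h2 : DifferentiableAt ℂ (fun w => h w⁻¹) w :=
      ((hh w⁻¹ hw1).differentiableAt ((c1_open R).mem_nhds hw1)).comp w (differentiableAt_inv hw0)
    refine (h2.congr_of_eventuallyEq ?_).differentiableWithinAt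
    filter_upwards [isOpen_ne.mem_nhds hw0] with v hv
    exact hk1 v hv
  have hc1 : ContinuousAt k 0 := by
    rw [continuousAt_iff_punctured_nhds, hk0]
    have h1 : Tendsto (fun w : ℂ => h w⁻¹) (𝓝[≠] 0) (𝓝 0) := by
      have h2 := tendsto_inv₀_nhdsNE_zero (α := ℂ)
      rw [Metric.cobounded_eq_cocompact] at h2
      exact h0.comp h2
    refine h1.congr' ?_
    filter_upwards [self_mem_nhdsWithin] with w hw
    exact (hk1 w hw).symm
  have hd : DifferentiableOn ℂ k (ball 0 R⁻¹) :=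
    (Complex.differentiableOn_compl_singleton_and_continuousAt_iff hnhds).mp ⟨hd1, hc1⟩
  have hds : DifferentiableOn ℂ (dslope k 0) (ball 0 R⁻¹) :=
    (Complex.differentiableOn_dslope hnhds).mpr hd
  have hrinv : r⁻¹ < R⁻¹ := inv_strictAnti₀ hR hr
  have hrpos : 0 < r⁻¹ := inv_pos.mpr hr0
  have hcl : closure (ball (0 : ℂ) r⁻¹) ⊆ ball 0 R⁻¹ := by
    rw [closure_ball _ hrpos.ne']
    exact closedBall_subset_ball hrinv
  have hdc : DiffContOnCl ℂ (dslope k 0) (ball 0 r⁻¹) := (hds.mono hcl).diffContOnCl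
  have hval : ∀ w, w ≠ 0 → dslope k 0 w = h w⁻¹ / w := by
    intro w hw
    rw [dslope_of_ne _ hw, slope_def_field, hk0, hk1 w hw, sub_zero, sub_zero]
  have hfr : ∀ w ∈ frontier (ball (0 : ℂ) r⁻¹), ‖dslope k 0 w‖ ≤ A * r := by
    intro w hw
    rw [frontier_ball _ hrpos.ne', mem_sphere, dist_zero_right] at hw
    have hw0 : w ≠ 0 := by
      rw [← norm_pos_iff, hw]; exact hrpos
    rw [hval w hw0, norm_div, hw, div_inv_eq_mul]
    refine mul_le_mul_of_nonneg_right (hA _ ?_) hr0.le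
    rw [norm_inv, hw, inv_inv]
  have hz0' : z ≠ 0 := norm_pos_iff.mp hz0
  have hzi : z⁻¹ ∈ closure (ball (0 : ℂ) r⁻¹) := by
    rw [closure_ball _ hrpos.ne', mem_closedBall, dist_zero_right, norm_inv]
    exact inv_anti₀ hr0 hz
  have hfin := Complex.norm_le_of_forall_mem_frontier_norm_le isBounded_ball hdc hfr hzi
  rw [hval _ (inv_ne_zero hz0'), inv_inv, div_inv_eq_mul, norm_mul] at hfin
  rw [le_div_iff₀ hz0]
  exact hfin

end RSM
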