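import Pool.Agent.RSM.Basic
import Pool.Agent.RSM.A5
import Pool.Agent.RSM.C1

/-!
# RSM module C2: the energy identity

PROOF.  Write `F z = z + h z`, `h → 0` at infinity, `h` holomorphic on `‖z‖ > R0`; `F' = 1 + h'`.
Let `E z = η ‖z‖` (a `C¹` function of `z`, since it is `1` near `0`; it is `1` on
`‖z‖ ≤ R1`, in particular on all closed discs, and `0` for `‖z‖ ≥ R2`).
(1) `stokes` with `φ z = conj (F z) * E z`, `Ψ a s = exp (-iθ a) (s - i q a)`:
`dbar φ = conj F' * E + conj F * dbar E`, hence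
`∫_{dom} ‖F'‖² E + ∫_{dom} conj F * F' * dbar E = 0`, and the second integral is over
`R1 ≤ ‖z‖ ≤ R2`, where all functions are smooth.
(2) `conj F * F' = conj z + conj z * h' + conj h + conj h * h'` there, and
`dbar E z = η'(r) e^{it} / 2` for `z = r e^{it}`.
 * `∫ conj z * dbar E = -∫ E` by `integral_dbar_eq_zero` for `conj z * E z`
   (`dbar (conj z) = 1`).
 * `∫ conj z * h' * dbar E = ∫ r in R1..R2, η'(r) (r²/2) (∫ t, h'(r e^{it}) dt) dr = 0` by
   `mean_deriv_zero`.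
 * `∫ conj h * dbar E = ∫ r, η'(r) (r/2) (∫ t, conj (h (r e^{it})) e^{it} dt) dr = 0` by
   `mean_exp_zero` (conjugated).
 * `∫ conj h * h' * dbar E = ∫_{‖z‖>R0} ‖h'‖² (1 - E)`: with the outer cut-off
   `χ_R z = 1 - cut 0 R R z` apply `integral_dbar_eq_zero` to
   `conj h * h' * (1 - E) * χ_R` (extended by `0` to `‖z‖ ≤ R1`):
   `∫ ‖h'‖² (1 - E) χ_R = ∫ conj h h' dbar E χ_R - ∫ conj h h' (1 - E) dbar χ_R`;
   for `R ≥ R2` the first term on the right is `∫ conj h h' dbar E`, the second tends to `0` as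
   `R → ∞` (`‖h‖ → 0`, `‖z‖ ‖h'‖ → 0`, `‖dbar χ_R‖ ≤ C/R` on `R ≤ ‖z‖ ≤ 2R`); monotone
   convergence in `R` gives integrability of `‖h'‖² (1 - E)` on `‖z‖ > R0` and the identity.
Sum up: `∫_{dom} ‖F'‖² E - ∫ E + ∫_{‖z‖>R0} ‖h'‖² (1 - E) = 0`.
-/

open Complex Set Metric Filter Topology MeasureTheory

namespace RSM

namespace C2Aux

theorem polar_zero {G : ℂ → ℂ}
    (hG : ∀ r : ℝ, 0 < r → ∫ t in (0 : ℝ)..(2 * Real.pi), G (r * exp (t * I)) = 0) :
    ∫ z, G z = 0 := by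
  rw [← Complex.integral_comp_polarCoord_symm]
  by_cases hi : IntegrableOn (fun p : ℝ × ℝ => p.1 • G (Complex.polarCoord.symm p))
      polarCoord.target
  · rw [polarCoord_target] at hi ⊢
    rw [Measure.volume_eq_prod] at hi ⊢
    rw [setIntegral_prod _ hi]
    have h1 : ∀ r ∈ Ioi (0 : ℝ), ∫ t in Ioo (-Real.pi) Real.pi,
        (r, t).1 • G (Complex.polarCoord.symm (r, t)) = 0 := by
      intro r hr
      have h2 : ∀ t : ℝ, (r, t).1 • G (Complex.polarCoord.symm (r, t)) =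
          r • G (r * exp (t * I)) := by
        intro t
        rw [Complex.polarCoord_symm_apply, exp_mul_I]
        simp
      simp only [h2]
      rw [integral_smul, ← integral_Ioc_eq_integral_Ioo,
        ← intervalIntegral.integral_of_le (by linarith [Real.pi_pos])]
      have hper : Function.Periodic (fun t : ℝ => G (r * exp (t * I))) (2 * Real.pi) := by
        intro t
        show G (r * exp (((t + 2 * Real.pi : ℝ) : ℂ) * I)) = G (r * exp (t * I))
        congr 2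
        push_cast
        rw [add_mul, exp_add, exp_two_pi_mul_I, mul_one]
      have h3 := hper.intervalIntegral_add_eq (-Real.pi) 0
      rw [zero_add, show -Real.pi + 2 * Real.pi = Real.pi by ring] at h3
      rw [h3, hG r hr, smul_zero]
    rw [setIntegral_congr_fun measurableSet_Ioi h1]
    simp
  · exact integral_undef hi

theorem eventually_norm {P : ℂ → Prop} (h : ∀ᶠ z in cocompact ℂ, P z) :
    ∃ r : ℝ, ∀ z, r ≤ ‖z‖ → P z := by
  rw [← Metric.cobounded_eq_cocompact, ← comap_norm_atTop, eventually_comap,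
    eventually_atTop] at h
  obtain ⟨r, hr⟩ := h
  exact ⟨r, fun z hz => hr ‖z‖ hz z rfl⟩

variable {U : Set ℂ} {R1 : ℝ}

theorem glue_cont {E : Type*} [NormedAddCommGroup E] {f : ℂ → E} (hU : IsOpen U)
    (hUV : ∀ z, R1 ≤ ‖z‖ → z ∈ U) (hf : ContinuousOn f U) (h0 : ∀ z, ‖z‖ < R1 → f z = 0) :
    Continuous f := by
  rw [continuous_iff_continuousAt]
  intro z
  rcases lt_or_ge ‖z‖ R1 with hz | hz
  · have h1 : f =ᶠ[𝓝 z] fun _ => 0 := by
      have : {w : ℂ | ‖w‖ < R1} ∈ 𝓝 z := (isOpen_lt continuous_norm continuous_const).mem_nhds hz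
      filter_upwards [this] with w hw
      exact h0 w hw
    exact continuousAt_const.congr h1.symm
  · exact hf.continuousAt (hU.mem_nhds (hUV z hz))

theorem glue_diff {f : ℂ → ℂ} (hU : IsOpen U)
    (hUV : ∀ z, R1 ≤ ‖z‖ → z ∈ U) (hf : ContDiffOn ℝ 1 f U) (h0 : ∀ z, ‖z‖ < R1 → f z = 0) :
    ContDiff ℝ 1 f := by
  rw [contDiff_iff_contDiffAt]
  intro z
  rcases lt_or_ge ‖z‖ R1 with hz | hz
  · have h1 : f =ᶠ[𝓝 z] fun _ => 0 := by
      have : {w : ℂ | ‖w‖ < R1} ∈ 𝓝 z := (isOpen_lt continuous_norm continuous_const).mem_nhds hz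
      filter_upwards [this] with w hw
      exact h0 w hw
    exact contDiffAt_const.congr_of_eventuallyEq h1
  · exact hf.contDiffAt (hU.mem_nhds (hUV z hz))

theorem compact_supp {E : Type*} [NormedAddCommGroup E] {f : ℂ → E} {R : ℝ}
    (h : ∀ z, R < ‖z‖ → f z = 0) : HasCompactSupport f := by
  refine HasCompactSupport.intro (isCompact_closedBall (0 : ℂ) R) fun z hz => h z ?_
  rw [mem_closedBall_zero_iff, not_le] at hz
  exact hz

theorem integrable_of {E : Type*} [NormedAddCommGroup E] {f : ℂ → E} {R : ℝ}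
    (hf : Continuous f) (h : ∀ z, R < ‖z‖ → f z = 0) : Integrable f :=
  hf.integrable_of_hasCompactSupport (compact_supp h)

/-! the radial function -/

variable {η : ℝ → ℝ} {R2 : ℝ}

theorem contDiff_eta (h1 : 0 < R1) (hη : ContDiff ℝ 1 η) (hη1 : ∀ t ≤ R1, η t = 1) :
    ContDiff ℝ 1 (fun z : ℂ => η ‖z‖) := by
  rw [contDiff_iff_contDiffAt]
  intro z
  by_cases hz : z = 0
  · have h2 : (fun z : ℂ => η ‖z‖) =ᶠ[𝓝 z] fun _ => 1 := by
      have : {w : ℂ | ‖w‖ < R1} ∈ 𝓝 z :=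
        (isOpen_lt continuous_norm continuous_const).mem_nhds (by simpa [hz] using h1)
      filter_upwards [this] with w hw
      exact hη1 _ (le_of_lt hw)
    exact contDiffAt_const.congr_of_eventuallyEq h2
  · exact hη.contDiffAt.comp z (contDiffAt_id.norm ℝ hz)

theorem contDiff_etaC (h1 : 0 < R1) (hη : ContDiff ℝ 1 η) (hη1 : ∀ t ≤ R1, η t = 1) :
    ContDiff ℝ 1 (fun z : ℂ => ((η ‖z‖ : ℝ) : ℂ)) :=
  Complex.ofRealCLM.contDiff.comp (contDiff_eta h1 hη hη1)

theorem deriv_eta_left (hη01 : ∀ t, 0 ≤ η t ∧ η t ≤ 1)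
    (hη1 : ∀ t ≤ R1, η t = 1) {r : ℝ} (hr : r ≤ R1) : deriv η r = 0 := by
  apply IsLocalMax.deriv_eq_zero
  refine Eventually.of_forall fun t => ?_
  rw [hη1 r hr]
  exact (hη01 t).2

theorem deriv_eta_right (hη01 : ∀ t, 0 ≤ η t ∧ η t ≤ 1)
    (hη2 : ∀ t, R2 ≤ t → η t = 0) {r : ℝ} (hr : R2 ≤ r) : deriv η r = 0 := by
  apply IsLocalMin.deriv_eq_zero
  refine Eventually.of_forall fun t => ?_
  rw [hη2 r hr]
  exact (hη01 t).1

theorem dbar_eta (h1 : 0 < R1) (hη : ContDiff ℝ 1 η) (hη1 : ∀ t ≤ R1, η t = 1) (z : ℂ) :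
    dbar (fun w : ℂ => ((η ‖w‖ : ℝ) : ℂ)) z = deriv η ‖z‖ * (z / (2 * ‖z‖)) := by
  by_cases hz : z = 0
  · have h2 : (fun w : ℂ => ((η ‖w‖ : ℝ) : ℂ)) =ᶠ[𝓝 z] fun _ => 1 := by
      have : {w : ℂ | ‖w‖ < R1} ∈ 𝓝 z :=
        (isOpen_lt continuous_norm continuous_const).mem_nhds (by simpa [hz] using h1)
      filter_upwards [this] with w hw
      rw [hη1 _ (le_of_lt hw), ofReal_one]
    rw [Pool.Lib.dbar_congr h2, dbar_const, hz]
    simp
  · have h2 : HasDerivAt η (deriv η ‖z‖) ‖z‖ := (hη.differentiable one_ne_zero _).hasDerivAt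
    have h3 : DifferentiableAt ℝ (fun w : ℂ => ‖w‖) z := (contDiffAt_id.norm ℝ hz).differentiableAt
      (n := 1) one_ne_zero
    have h4 := dbar_comp_real (v := fun w : ℂ => ‖w‖) h2 h3
    have h5 := dbar_norm_sub (c := 0) hz
    simp only [sub_zero] at h5
    rw [h4, h5]

/-! the outer cut-off -/

/-- the outer cut-off -/
noncomputable def xx (z : ℂ) : ℝ := 1 - cut 0 1 1 z

theorem xx_nonneg (z : ℂ) : 0 ≤ xx z := by
  have := cut_le_one 0 1 1 z
  unfold xx
  linarith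

theorem xx_le_one (z : ℂ) : xx z ≤ 1 := by
  have := cut_nonneg 0 1 1 z
  unfold xx
  linarith

theorem xx_eq_one {z : ℂ} (hz : ‖z‖ ≤ 1) : xx z = 1 := by
  have := cut_eq_zero (c := 0) (ρ := 1) one_pos (z := z) (by simpa using hz)
  unfold xx
  rw [this, sub_zero]

theorem xx_eq_zero {z : ℂ} (hz : 2 ≤ ‖z‖) : xx z = 0 := by
  have := cut_eq_one (c := 0) (ρ := 1) one_pos (z := z) (by
    rw [sub_zero]
    linarith)
  unfold xx
  rw [this, sub_self]

theorem contDiff_xx : ContDiff ℝ 1 xx :=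
  contDiff_const.sub (contDiff_cut one_pos one_pos (n := 1))

theorem contDiff_xxC : ContDiff ℝ 1 (fun z => (xx z : ℂ)) :=
  Complex.ofRealCLM.contDiff.comp contDiff_xx

/-- scaled -/
noncomputable def xr (R : ℝ) (z : ℂ) : ℝ := xx ((R⁻¹ : ℝ) * z)

theorem norm_scale {R : ℝ} (hR : 0 < R) (z : ℂ) : ‖((R⁻¹ : ℝ) : ℂ) * z‖ = ‖z‖ / R := by
  rw [norm_mul, norm_real, Real.norm_of_nonneg (inv_nonneg.2 hR.le), div_eq_inv_mul]

theorem xr_eq_one {R : ℝ} (hR : 0 < R) {z : ℂ} (hz : ‖z‖ ≤ R) : xr R z = 1 := by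
  apply xx_eq_one
  rw [norm_scale hR]
  exact (div_le_one hR).2 hz

theorem xr_eq_zero {R : ℝ} (hR : 0 < R) {z : ℂ} (hz : 2 * R ≤ ‖z‖) : xr R z = 0 := by
  apply xx_eq_zero
  rw [norm_scale hR]
  exact (le_div_iff₀ hR).2 hz

theorem contDiff_xr (R : ℝ) : ContDiff ℝ 1 (fun z => (xr R z : ℂ)) :=
  contDiff_xxC.comp (contDiff_const.mul contDiff_id)

theorem dbar_xr_bound : ∃ C : ℝ, 0 ≤ C ∧ ∀ R : ℝ, 0 < R → ∀ z,
    ‖dbar (fun z => (xr R z : ℂ)) z‖ ≤ C / R := by
  have h1 : HasCompactSupport (fun z => (xx z : ℂ)) := compact_supp (R := 2) fun z hz => by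
    rw [xx_eq_zero hz.le, ofReal_zero]
  obtain ⟨C, hC⟩ := (contDiff_xxC.continuous_fderiv one_ne_zero).bounded_above_of_compact_support
    (h1.fderiv ℝ)
  refine ⟨C, (norm_nonneg _).trans (hC 0), fun R hR z => (norm_dbar_le _ _).trans ?_⟩
  have h2 : HasFDerivAt (fun z => (xx z : ℂ)) (fderiv ℝ (fun z => (xx z : ℂ))
      (((R⁻¹ : ℝ) : ℂ) * z)) (((R⁻¹ : ℝ) : ℂ) * z) :=
    (contDiff_xxC.differentiable one_ne_zero _).hasFDerivAt
  have h3 : HasFDerivAt (fun z : ℂ => ((R⁻¹ : ℝ) : ℂ) * z)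
      ((R⁻¹ : ℝ) • ContinuousLinearMap.id ℝ ℂ) z := by
    have h4 : (fun z : ℂ => ((R⁻¹ : ℝ) : ℂ) * z) = fun z => ((R⁻¹ : ℝ) • ContinuousLinearMap.id ℝ ℂ) z := by
      ext z
      simp
    rw [h4]
    exact ((R⁻¹ : ℝ) • ContinuousLinearMap.id ℝ ℂ).hasFDerivAt
  have h5 := (h2.comp z h3).fderiv
  have h6 : fderiv ℝ (fun z => (xr R z : ℂ)) z = (fderiv ℝ (fun z => (xx z : ℂ))
      (((R⁻¹ : ℝ) : ℂ) * z)).comp ((R⁻¹ : ℝ) • ContinuousLinearMap.id ℝ ℂ) := h5
  rw [h6]
  refine (ContinuousLinearMap.opNorm_comp_le _ _).trans ?_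
  rw [norm_smul, Real.norm_of_nonneg (inv_nonneg.2 hR.le), div_eq_mul_inv]
  have h7 : ‖ContinuousLinearMap.id ℝ ℂ‖ ≤ 1 := ContinuousLinearMap.norm_id_le
  have h8 := hC (((R⁻¹ : ℝ) : ℂ) * z)
  have h9 : 0 ≤ R⁻¹ := inv_nonneg.2 hR.le
  have h10 : R⁻¹ * ‖ContinuousLinearMap.id ℝ ℂ‖ ≤ R⁻¹ := by nlinarith
  exact mul_le_mul h8 h10 (by positivity) ((norm_nonneg _).trans (hC 0))

theorem outer {h : ℂ → ℂ} (hU : IsOpen U) (hh : DifferentiableOn ℂ h U) {R0 : ℝ} (h0 : 0 < R0)
    (h01 : R0 ≤ R1) (hUV : ∀ z, R0 ≤ ‖z‖ → z ∈ U) (hl : Tendsto h (cocompact ℂ) (𝓝 0))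
    (hη : ContDiff ℝ 1 η) (hη01 : ∀ t, 0 ≤ η t ∧ η t ≤ 1) (hη1 : ∀ t ≤ R1, η t = 1)
    (hη2 : ∀ t, R2 ≤ t → η t = 0) :
    Integrable (fun z => ‖deriv h z‖ ^ 2 * (1 - η ‖z‖)) ∧
    ∫ z, (starRingEnd ℂ) (h z) * deriv h z * dbar (fun w : ℂ => ((η ‖w‖ : ℝ) : ℂ)) z =
      ((∫ z, ‖deriv h z‖ ^ 2 * (1 - η ‖z‖) : ℝ) : ℂ) := by
  have hR1 : 0 < R1 := h0.trans_le h01
  have hUV' : ∀ z, R1 ≤ ‖z‖ → z ∈ U := fun z hz => hUV z (h01.trans hz)
  set E : ℂ → ℂ := fun z => ((η ‖z‖ : ℝ) : ℂ) with hEdef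
  have hE : ContDiff ℝ 1 E := contDiff_etaC hR1 hη hη1
  have hEd : ∀ z, dbar E z = deriv η ‖z‖ * (z / (2 * ‖z‖)) := dbar_eta hR1 hη hη1
  have hE1 : ∀ z, ‖z‖ ≤ R1 → E z = 1 := fun z hz => by
    show ((η ‖z‖ : ℝ) : ℂ) = 1
    rw [hη1 _ hz, ofReal_one]
  have hdE1 : ∀ z, ‖z‖ ≤ R1 → dbar E z = 0 := fun z hz => by
    rw [hEd, deriv_eta_left hη01 hη1 hz, ofReal_zero, zero_mul]
  have hdE2 : ∀ z, R2 ≤ ‖z‖ → dbar E z = 0 := fun z hz => by
    rw [hEd, deriv_eta_right hη01 hη2 hz, ofReal_zero, zero_mul]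
  have hhd : DifferentiableOn ℂ (deriv h) U := hh.deriv hU
  have hhr : ContDiffOn ℝ 1 h U := (hh.contDiffOn hU).restrict_scalars ℝ
  have hhdr : ContDiffOn ℝ 1 (deriv h) U := (hhd.contDiffOn hU).restrict_scalars ℝ
  have hcr : ContDiffOn ℝ 1 (fun z => (starRingEnd ℂ) (h z)) U :=
    Complex.conjCLE.contDiff.comp_contDiffOn hhr
  set w : ℂ → ℝ := fun z => ‖deriv h z‖ ^ 2 * (1 - η ‖z‖) with hwdef
  have hηc : Continuous (fun z : ℂ => η ‖z‖) := hη.continuous.comp continuous_norm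
  have hwc : Continuous w := by
    refine glue_cont (R1 := R1) hU hUV' ?_ ?_
    · exact ((hhdr.continuousOn.norm).pow 2).mul (continuous_const.sub hηc).continuousOn
    · intro z hz
      show ‖deriv h z‖ ^ 2 * (1 - η ‖z‖) = 0
      rw [hη1 _ hz.le, sub_self, mul_zero]
  have hw0 : ∀ z, 0 ≤ w z := fun z =>
    mul_nonneg (sq_nonneg _) (sub_nonneg.2 (hη01 _).2)
  set D : ℂ := ∫ z, (starRingEnd ℂ) (h z) * deriv h z * dbar E z with hD
  have hi4 : Integrable (fun z => (starRingEnd ℂ) (h z) * deriv h z * dbar E z) := by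
    refine integrable_of (R := R2) (glue_cont (R1 := R1) hU hUV' ?_ ?_) ?_
    · exact (hcr.continuousOn.mul hhdr.continuousOn).mul
        (Pool.Lib.continuous_dbar hE).continuousOn
    · intro z hz
      rw [hdE1 z hz.le, mul_zero]
    · intro z hz
      rw [hdE2 z hz.le, mul_zero]
  -- the identity at level `R`
  have hid : ∀ R : ℝ, 0 < R → R2 ≤ R → ((∫ z, w z * xr R z : ℝ) : ℂ) =
      D - ∫ z, (starRingEnd ℂ) (h z) * deriv h z * (1 - E z) *
        dbar (fun z => (xr R z : ℂ)) z := by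
    intro R hR hR2
    set X : ℂ → ℂ := fun z => (xr R z : ℂ) with hXdef
    have hX : ContDiff ℝ 1 X := contDiff_xr R
    have hX0 : ∀ z, 2 * R < ‖z‖ → X z = 0 := fun z hz => by
      show (xr R z : ℂ) = 0
      rw [xr_eq_zero hR hz.le, ofReal_zero]
    have hdX0 : ∀ z, 2 * R < ‖z‖ → dbar X z = 0 := fun z hz => by
      have h2 : X =ᶠ[𝓝 z] fun _ => 0 := by
        have : {w : ℂ | 2 * R < ‖w‖} ∈ 𝓝 z :=
          (isOpen_lt continuous_const continuous_norm).mem_nhds hz
        filter_upwards [this] with w hw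
        exact hX0 w hw
      rw [Pool.Lib.dbar_congr h2, dbar_const]
    have hgd : ContDiff ℝ 1 (fun z => (starRingEnd ℂ) (h z) * deriv h z * (1 - E z) * X z) := by
      refine glue_diff (R1 := R1) hU hUV' ?_ ?_
      · exact ((hcr.mul hhdr).mul (contDiff_const.sub hE).contDiffOn).mul hX.contDiffOn
      · intro z hz
        rw [hE1 z hz.le, sub_self, mul_zero, zero_mul]
    have hgc : HasCompactSupport
        (fun z => (starRingEnd ℂ) (h z) * deriv h z * (1 - E z) * X z) :=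
      compact_supp (R := 2 * R) fun z hz => by rw [hX0 z hz, mul_zero]
    have hz0 := integral_dbar_eq_zero hgd hgc
    have hpt : ∀ z, dbar (fun z => (starRingEnd ℂ) (h z) * deriv h z * (1 - E z) * X z) z =
        ((w z * xr R z : ℝ) : ℂ) - (starRingEnd ℂ) (h z) * deriv h z * dbar E z +
          (starRingEnd ℂ) (h z) * deriv h z * (1 - E z) * dbar X z := by
      intro z
      rcases lt_or_ge ‖z‖ R1 with hz | hz
      · have h2 : (fun z => (starRingEnd ℂ) (h z) * deriv h z * (1 - E z) * X z) =ᶠ[𝓝 z]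
            fun _ => 0 := by
          have : {w : ℂ | ‖w‖ < R1} ∈ 𝓝 z :=
            (isOpen_lt continuous_norm continuous_const).mem_nhds hz
          filter_upwards [this] with w hw
          rw [hE1 w (le_of_lt hw), sub_self, mul_zero, zero_mul]
        rw [Pool.Lib.dbar_congr h2, dbar_const, hdE1 z hz.le, hE1 z hz.le]
        have h3 : w z = 0 := by
          show ‖deriv h z‖ ^ 2 * (1 - η ‖z‖) = 0
          rw [hη1 _ hz.le, sub_self, mul_zero]
        rw [h3]
        simp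
      · have hzU : z ∈ U := hUV' z hz
        have hzn : U ∈ 𝓝 z := hU.mem_nhds hzU
        have d1 : DifferentiableAt ℂ h z := hh.differentiableAt hzn
        have d2 : DifferentiableAt ℂ (deriv h) z := hhd.differentiableAt hzn
        have d3 : DifferentiableAt ℝ (fun z => (starRingEnd ℂ) (h z)) z :=
          (hcr.contDiffAt hzn).differentiableAt one_ne_zero
        have d4 : DifferentiableAt ℝ (fun z => (starRingEnd ℂ) (h z) * deriv h z) z :=
          d3.mul (d2.restrictScalars ℝ)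
        have d5 : DifferentiableAt ℝ E z := hE.differentiable one_ne_zero z
        have d6 : DifferentiableAt ℝ (fun z => 1 - E z) z := (differentiableAt_const _).sub d5
        have d7 : DifferentiableAt ℝ X z := hX.differentiable one_ne_zero z
        have d8 : DifferentiableAt ℝ (fun z => (starRingEnd ℂ) (h z) * deriv h z * (1 - E z)) z :=
          d4.mul d6
        rw [dbar_mul d8 d7, dbar_mul d4 d6, dbar_mul_holo d3 d2, dbar_conj_holo d1,
          dbar_sub (differentiableAt_const _) d5, dbar_const]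
        have h5 : dbar E z * X z = dbar E z := by
          rcases le_or_gt R2 ‖z‖ with h6 | h6
          · rw [hdE2 z h6, zero_mul]
          · have : X z = 1 := by
              show (xr R z : ℂ) = 1
              rw [xr_eq_one hR (h6.le.trans hR2), ofReal_one]
            rw [this, mul_one]
        have h7 : ((w z * xr R z : ℝ) : ℂ) =
            (starRingEnd ℂ) (deriv h z) * deriv h z * (1 - E z) * X z := by
          show (((‖deriv h z‖ ^ 2 * (1 - η ‖z‖)) * xr R z : ℝ) : ℂ) = _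
          rw [Complex.conj_mul']
          push_cast
          rfl
        rw [h7]
        linear_combination (-(starRingEnd ℂ) (h z) * deriv h z) * h5
    have i1 : Integrable (fun z => ((w z * xr R z : ℝ) : ℂ)) := by
      refine integrable_of (R := 2 * R) ?_ ?_
      · have hXc : Continuous (xr R) :=
          contDiff_xx.continuous.comp (continuous_const.mul continuous_id)
        exact Complex.continuous_ofReal.comp (hwc.mul hXc)
      · intro z hz
        rw [xr_eq_zero hR hz.le, mul_zero, ofReal_zero]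
    have i5 : Integrable (fun z => (starRingEnd ℂ) (h z) * deriv h z * (1 - E z) * dbar X z) := by
      refine integrable_of (R := 2 * R) (glue_cont (R1 := R1) hU hUV' ?_ ?_) ?_
      · exact ((hcr.continuousOn.mul hhdr.continuousOn).mul
          (continuous_const.sub hE.continuous).continuousOn).mul
          (Pool.Lib.continuous_dbar hX).continuousOn
      · intro z hz
        rw [hE1 z hz.le, sub_self, mul_zero, zero_mul]
      · intro z hz
        rw [hdX0 z hz, mul_zero]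
    simp only [hpt] at hz0
    have i3 : Integrable (fun z => ((w z * xr R z : ℝ) : ℂ) -
        (starRingEnd ℂ) (h z) * deriv h z * dbar E z) := i1.sub hi4
    rw [integral_add i3 i5, integral_sub i1 hi4, integral_complex_ofReal] at hz0
    linear_combination hz0
  -- the error term
  obtain ⟨C, hC0, hC⟩ := dbar_xr_bound
  have herr : Tendsto (fun R : ℝ => ∫ z, (starRingEnd ℂ) (h z) * deriv h z * (1 - E z) *
        dbar (fun z => (xr R z : ℂ)) z) atTop (𝓝 0) := by
    rw [Metric.tendsto_atTop]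
    intro ε hε
    obtain ⟨δ, hδ0, hδ⟩ : ∃ δ : ℝ, 0 < δ ∧ 4 * Real.pi * C * δ ^ 2 < ε := by
      refine ⟨min 1 (ε / (4 * Real.pi * C + 1) / 2), by positivity, ?_⟩
      set δ := min 1 (ε / (4 * Real.pi * C + 1) / 2)
      have h1 : δ ≤ 1 := min_le_left _ _
      have h2 : δ ≤ ε / (4 * Real.pi * C + 1) / 2 := min_le_right _ _
      have h3 : 0 < δ := by positivity
      have h4 : 0 ≤ 4 * Real.pi * C := by positivity
      have h5 : (4 * Real.pi * C + 1) * δ ≤ ε / 2 := by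
        have := mul_le_mul_of_nonneg_left h2 (show (0:ℝ) ≤ 4 * Real.pi * C + 1 by linarith)
        have h6 : (4 * Real.pi * C + 1) * (ε / (4 * Real.pi * C + 1) / 2) = ε / 2 := by
          field_simp
        linarith
      have h7 : δ ^ 2 ≤ δ := by nlinarith
      have h8 : 4 * Real.pi * C * δ ^ 2 ≤ 4 * Real.pi * C * δ := mul_le_mul_of_nonneg_left h7 h4
      nlinarith
    have e1 : ∀ᶠ z in cocompact ℂ, ‖h z‖ < δ := by
      have := hl.eventually (Metric.ball_mem_nhds 0 hδ0)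
      filter_upwards [this] with z hz
      simpa using hz
    have e2 : ∀ᶠ z in cocompact ℂ, ‖z * deriv h z‖ < δ := by
      have h3 := mul_deriv_tendsto h0 (hh.mono fun z hz => hUV z (le_of_lt hz)) hl
      have := h3.eventually (Metric.ball_mem_nhds 0 hδ0)
      filter_upwards [this] with z hz
      simpa using hz
    obtain ⟨r, hr⟩ := eventually_norm (e1.and e2)
    refine ⟨max r 1, fun R hR => ?_⟩
    have hRr : r ≤ R := (le_max_left _ _).trans hR
    have hR0 : 0 < R := lt_of_lt_of_le one_pos ((le_max_right _ _).trans hR)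
    rw [dist_zero_right]
    have hk0 : ∀ z, z ∉ closedBall (0 : ℂ) (2 * R) → (starRingEnd ℂ) (h z) * deriv h z *
        (1 - E z) * dbar (fun z => (xr R z : ℂ)) z = 0 := by
      intro z hz
      rw [mem_closedBall_zero_iff, not_le] at hz
      have h2 : (fun z => (xr R z : ℂ)) =ᶠ[𝓝 z] fun _ => 0 := by
        have : {w : ℂ | 2 * R < ‖w‖} ∈ 𝓝 z :=
          (isOpen_lt continuous_const continuous_norm).mem_nhds hz
        filter_upwards [this] with w hw
        rw [xr_eq_zero hR0 (le_of_lt hw), ofReal_zero]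
      rw [Pool.Lib.dbar_congr h2, dbar_const, mul_zero]
    have hkb : ∀ z ∈ closedBall (0 : ℂ) (2 * R), ‖(starRingEnd ℂ) (h z) * deriv h z *
        (1 - E z) * dbar (fun z => (xr R z : ℂ)) z‖ ≤ δ * (δ / R) * (C / R) := by
      intro z _
      rcases lt_or_ge ‖z‖ R with hz | hz
      · have h2 : (fun z => (xr R z : ℂ)) =ᶠ[𝓝 z] fun _ => 1 := by
          have : {w : ℂ | ‖w‖ < R} ∈ 𝓝 z :=
            (isOpen_lt continuous_norm continuous_const).mem_nhds hz
          filter_upwards [this] with w hw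
          rw [xr_eq_one hR0 (le_of_lt hw), ofReal_one]
        rw [Pool.Lib.dbar_congr h2, dbar_const, mul_zero, norm_zero]
        positivity
      · obtain ⟨h2, h3⟩ := hr z (hRr.trans hz)
        rw [norm_mul] at h3
        have h4 : ‖deriv h z‖ ≤ δ / R := by
          rw [le_div_iff₀ hR0]
          have : R * ‖deriv h z‖ ≤ ‖z‖ * ‖deriv h z‖ :=
            mul_le_mul_of_nonneg_right hz (norm_nonneg _)
          linarith
        have h5 : ‖1 - E z‖ ≤ 1 := by
          have : (1 : ℂ) - E z = ((1 - η ‖z‖ : ℝ) : ℂ) := by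
            show (1 : ℂ) - ((η ‖z‖ : ℝ) : ℂ) = _
            push_cast
            rfl
          rw [this, norm_real, Real.norm_of_nonneg (sub_nonneg.2 (hη01 _).2)]
          linarith [(hη01 ‖z‖).1]
        have h6 := hC R hR0 z
        rw [norm_mul, norm_mul, norm_mul, RCLike.norm_conj]
        have h7 : ‖h z‖ * ‖deriv h z‖ ≤ δ * (δ / R) :=
          mul_le_mul h2.le h4 (norm_nonneg _) hδ0.le
        have h8 : ‖h z‖ * ‖deriv h z‖ * ‖1 - E z‖ ≤ δ * (δ / R) := by
          have : ‖h z‖ * ‖deriv h z‖ * ‖1 - E z‖ ≤ ‖h z‖ * ‖deriv h z‖ * 1 :=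
            mul_le_mul_of_nonneg_left h5 (by positivity)
          linarith
        exact mul_le_mul h8 h6 (norm_nonneg _) (by positivity)
    rw [← setIntegral_eq_integral_of_forall_compl_eq_zero hk0]
    have hvol : (volume : Measure ℂ) (closedBall (0 : ℂ) (2 * R)) < ⊤ :=
      (isCompact_closedBall _ _).measure_lt_top
    refine (norm_setIntegral_le_of_norm_le_const hvol hkb).trans_lt ?_
    have hv : (volume : Measure ℂ).real (closedBall (0 : ℂ) (2 * R)) = Real.pi * (2 * R) ^ 2 := by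
      rw [Measure.real, Complex.volume_closedBall]
      rw [ENNReal.toReal_mul, ENNReal.toReal_pow, ENNReal.toReal_ofReal (by positivity)]
      rw [mul_comm]
      rfl
    rw [hv]
    have : δ * (δ / R) * (C / R) * (Real.pi * (2 * R) ^ 2) = 4 * Real.pi * C * δ ^ 2 := by
      field_simp
      ring
    rw [this]
    exact hδ
  have hT : Tendsto (fun R : ℝ => ((∫ z, w z * xr R z : ℝ) : ℂ)) atTop (𝓝 D) := by
    have h1 : Tendsto (fun R : ℝ => D - ∫ z, (starRingEnd ℂ) (h z) * deriv h z * (1 - E z) *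
        dbar (fun z => (xr R z : ℂ)) z) atTop (𝓝 (D - 0)) := tendsto_const_nhds.sub herr
    rw [sub_zero] at h1
    refine h1.congr' ?_
    filter_upwards [eventually_gt_atTop 0, eventually_ge_atTop R2] with R hR hR2
    exact (hid R hR hR2).symm
  have hTr : Tendsto (fun R : ℝ => ∫ z, w z * xr R z) atTop (𝓝 D.re) := by
    have := (Complex.continuous_re.tendsto D).comp hT
    exact this
  have hint : Integrable w := by
    refine (aecover_closedBall (x := (0 : ℂ)) (tendsto_id (α := ℝ)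
      (x := atTop))).integrable_of_integral_bounded_of_nonneg_ae (D.re + 1) ?_
      (ae_of_all _ hw0) ?_
    · intro R
      exact hwc.continuousOn.integrableOn_compact (isCompact_closedBall _ _)
    · have h1 : ∀ᶠ R : ℝ in atTop, ∫ z, w z * xr R z < D.re + 1 :=
        hTr.eventually (Iio_mem_nhds (by linarith))
      filter_upwards [h1, eventually_gt_atTop 0] with R hR hR0
      have h2 : ∫ z in closedBall (0 : ℂ) (id R), w z =
          ∫ z in closedBall (0 : ℂ) (id R), w z * xr R z := by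
        refine setIntegral_congr_fun isClosed_closedBall.measurableSet fun z hz => ?_
        rw [id, mem_closedBall_zero_iff] at hz
        show w z = w z * xr R z
        rw [xr_eq_one hR0 hz, mul_one]
      rw [h2]
      have i1 : Integrable (fun z => w z * xr R z) := by
        refine integrable_of (R := 2 * R) ?_ ?_
        · exact hwc.mul (contDiff_xx.continuous.comp (continuous_const.mul continuous_id))
        · intro z hz
          rw [xr_eq_zero hR0 hz.le, mul_zero]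
      have h3 : ∫ z in closedBall (0 : ℂ) (id R), w z * xr R z ≤ ∫ z, w z * xr R z :=
        setIntegral_le_integral i1 (ae_of_all _ fun z => mul_nonneg (hw0 z) (xx_nonneg _))
      exact h3.trans hR.le
  refine ⟨hint, ?_⟩
  have hT2 : Tendsto (fun R : ℝ => ∫ z, w z * xr R z) atTop (𝓝 (∫ z, w z)) := by
    refine tendsto_integral_filter_of_dominated_convergence w ?_ ?_ hint ?_
    · refine Eventually.of_forall fun R => ?_
      exact (hwc.mul (contDiff_xx.continuous.comp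
        (continuous_const.mul continuous_id))).aestronglyMeasurable
    · refine Eventually.of_forall fun R => ae_of_all _ fun z => ?_
      have h1 : 0 ≤ w z * xr R z := mul_nonneg (hw0 z) (xx_nonneg _)
      rw [Real.norm_of_nonneg h1]
      exact mul_le_of_le_one_right (hw0 z) (xx_le_one _)
    · refine ae_of_all _ fun z => ?_
      refine tendsto_const_nhds.congr' ?_
      filter_upwards [eventually_gt_atTop 0, eventually_ge_atTop ‖z‖] with R hR hRz
      rw [xr_eq_one hR hRz, mul_one]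
  have hT3 : Tendsto (fun R : ℝ => ((∫ z, w z * xr R z : ℝ) : ℂ)) atTop
      (𝓝 ((∫ z, w z : ℝ) : ℂ)) := (Complex.continuous_ofReal.tendsto _).comp hT2
  exact tendsto_nhds_unique hT hT3

theorem polar_div {r : ℝ} (hr : 0 < r) (t : ℝ) :
    ‖(r : ℂ) * exp (t * I)‖ = r ∧ ((r : ℂ) * exp (t * I)) / (2 * (r : ℂ)) = exp (t * I) / 2 := by
  constructor
  · rw [norm_mul, norm_exp_ofReal_mul_I, mul_one, norm_real, Real.norm_of_nonneg hr.le]
  · have : (r : ℂ) ≠ 0 := by exact_mod_cast hr.ne'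
    field_simp

theorem meanB {h : ℂ → ℂ} {R0 : ℝ} (h0 : 0 < R0)
    (hh : DifferentiableOn ℂ h {z | R0 < ‖z‖}) (h01 : R0 ≤ R1)
    (hl : Tendsto h (cocompact ℂ) (𝓝 0))
    (hη : ContDiff ℝ 1 η) (hη01 : ∀ t, 0 ≤ η t ∧ η t ≤ 1) (hη1 : ∀ t ≤ R1, η t = 1) :
    ∫ z, (starRingEnd ℂ) z * deriv h z * dbar (fun w : ℂ => ((η ‖w‖ : ℝ) : ℂ)) z = 0 := by
  apply polar_zero
  intro r hr
  have h1 : ∀ t : ℝ, (starRingEnd ℂ) ((r : ℂ) * exp (t * I)) * deriv h (r * exp (t * I)) *
      dbar (fun w : ℂ => ((η ‖w‖ : ℝ) : ℂ)) (r * exp (t * I)) =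
      (deriv η r * r / 2 : ℝ) * deriv h (r * exp (t * I)) := by
    intro t
    obtain ⟨e1, e2⟩ := polar_div hr t
    rw [dbar_eta (h0.trans_le h01) hη hη1, e1, e2, map_mul, Complex.conj_ofReal, ← exp_conj,
      map_mul, Complex.conj_ofReal, conj_I]
    have h2 : exp ((t : ℂ) * -I) * exp (t * I) = 1 := by
      rw [← exp_add]
      simp
    push_cast
    linear_combination ((r : ℂ) * deriv h (r * exp (t * I)) * ((deriv η r : ℝ) : ℂ) / 2) * h2
  simp only [h1]
  rw [intervalIntegral.integral_const_mul]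
  rcases le_or_gt r R0 with hr0 | hr0
  · rw [deriv_eta_left hη01 hη1 (hr0.trans h01)]
    simp
  · rw [mean_deriv_zero h0 hh hl hr0, mul_zero]

theorem meanC {h : ℂ → ℂ} {R0 : ℝ} (h0 : 0 < R0)
    (hh : DifferentiableOn ℂ h {z | R0 < ‖z‖}) (h01 : R0 ≤ R1)
    (hl : Tendsto h (cocompact ℂ) (𝓝 0))
    (hη : ContDiff ℝ 1 η) (hη01 : ∀ t, 0 ≤ η t ∧ η t ≤ 1) (hη1 : ∀ t ≤ R1, η t = 1) :
    ∫ z, (starRingEnd ℂ) (h z) * dbar (fun w : ℂ => ((η ‖w‖ : ℝ) : ℂ)) z = 0 := by
  apply polar_zero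
  intro r hr
  have h1 : ∀ t : ℝ, (starRingEnd ℂ) (h ((r : ℂ) * exp (t * I))) *
      dbar (fun w : ℂ => ((η ‖w‖ : ℝ) : ℂ)) (r * exp (t * I)) =
      (deriv η r / 2 : ℝ) * (starRingEnd ℂ) (h (r * exp (t * I)) * exp (-(t * I))) := by
    intro t
    obtain ⟨e1, e2⟩ := polar_div hr t
    rw [dbar_eta (h0.trans_le h01) hη hη1, e1, e2, map_mul, ← exp_conj, map_neg,
      map_mul, Complex.conj_ofReal, conj_I]
    rw [show -((t : ℂ) * -I) = t * I by ring]
    push_cast
    ring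
  simp only [h1]
  rw [intervalIntegral.integral_const_mul]
  rcases le_or_gt r R0 with hr0 | hr0
  · rw [deriv_eta_left hη01 hη1 (hr0.trans h01)]
    simp
  · have h2 : ∫ t in (0 : ℝ)..(2 * Real.pi),
        (starRingEnd ℂ) (h (r * exp (t * I)) * exp (-(t * I))) =
        (starRingEnd ℂ) (∫ t in (0 : ℝ)..(2 * Real.pi), h (r * exp (t * I)) * exp (-(t * I))) := by
      rw [intervalIntegral.integral_of_le (by positivity),
        intervalIntegral.integral_of_le (by positivity)]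
      exact integral_conj
    rw [h2, mean_exp_zero h0 hh hl hr0, map_zero, mul_zero]

theorem idA (hR1 : 0 < R1) (hη : ContDiff ℝ 1 η) (hη1 : ∀ t ≤ R1, η t = 1)
    (hη01 : ∀ t, 0 ≤ η t ∧ η t ≤ 1) (hη2 : ∀ t, R2 ≤ t → η t = 0) :
    ∫ z, (starRingEnd ℂ) z * dbar (fun w : ℂ => ((η ‖w‖ : ℝ) : ℂ)) z =
      -((∫ z : ℂ, η ‖z‖ : ℝ) : ℂ) := by
  have hE := contDiff_etaC hR1 hη hη1
  have hc : ContDiff ℝ 1 (fun z : ℂ => (starRingEnd ℂ) z) := Complex.conjCLE.contDiff
  have h1 := integral_dbar_eq_zero (hc.mul hE) (compact_supp (R := R2) fun z hz => by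
    show (starRingEnd ℂ) z * ((η ‖z‖ : ℝ) : ℂ) = 0
    rw [hη2 _ hz.le, ofReal_zero, mul_zero])
  have h2 : ∀ z, dbar (fun z => (starRingEnd ℂ) z * ((η ‖z‖ : ℝ) : ℂ)) z =
      ((η ‖z‖ : ℝ) : ℂ) + (starRingEnd ℂ) z * dbar (fun w : ℂ => ((η ‖w‖ : ℝ) : ℂ)) z := by
    intro z
    rw [dbar_mul (hc.differentiable one_ne_zero z) (hE.differentiable one_ne_zero z)]
    have h3 := dbar_conj_holo (g := fun z => z) (z := z) differentiableAt_id
    rw [h3]
    simp
  have i1 : Integrable (fun z : ℂ => ((η ‖z‖ : ℝ) : ℂ)) :=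
    integrable_of (R := R2) hE.continuous fun z hz => by rw [hη2 _ hz.le, ofReal_zero]
  have i2 : Integrable (fun z : ℂ => (starRingEnd ℂ) z *
      dbar (fun w : ℂ => ((η ‖w‖ : ℝ) : ℂ)) z) :=
    integrable_of (R := R2) (hc.continuous.mul (Pool.Lib.continuous_dbar hE)) fun z hz => by
      rw [dbar_eta hR1 hη hη1, deriv_eta_right hη01 hη2 hz.le, ofReal_zero, zero_mul, mul_zero]
  have h4 : ∫ z, dbar (fun z => (starRingEnd ℂ) z * ((η ‖z‖ : ℝ) : ℂ)) z = 0 := h1
  simp only [h2] at h4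
  rw [integral_add i1 i2, integral_complex_ofReal] at h4
  linear_combination h4

end C2Aux

open C2Aux

variable {ι : Type} {c : ι → ℂ} {ρ ρ' : ℝ} {θ : ι → ℝ} {F : ℂ → ℂ} {q : ι → ℝ}

theorem energy_identity [Finite ι] (hF : IsSlit c ρ ρ' θ F q) {R0 R1 R2 : ℝ} (h0 : 0 < R0)
    (hR : ∀ a, ‖c a‖ + ρ < R0) (h01 : R0 ≤ R1) (h12 : R1 < R2) {η : ℝ → ℝ}
    (hη : ContDiff ℝ 1 η) (hη01 : ∀ t, 0 ≤ η t ∧ η t ≤ 1) (hη1 : ∀ t ≤ R1, η t = 1)
    (hη2 : ∀ t, R2 ≤ t → η t = 0) :
    IntegrableOn (fun z => ‖deriv F z - 1‖ ^ 2 * (1 - η ‖z‖)) {z | R0 < ‖z‖} ∧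
    (∫ z in dom c ρ, ‖deriv F z‖ ^ 2 * η ‖z‖) +
      ∫ z in {z : ℂ | R0 < ‖z‖}, ‖deriv F z - 1‖ ^ 2 * (1 - η ‖z‖) = ∫ z : ℂ, η ‖z‖ := by
  have hR1 : 0 < R1 := h0.trans_le h01
  set U : Set ℂ := dom c ρ' with hUdef
  have hU : IsOpen U := isOpen_dom c ρ'
  have hUV : ∀ z, R0 ≤ ‖z‖ → z ∈ U := fun z hz =>
    dom_anti c hF.lt.le (mem_dom_of_le_norm hR hz)
  have hUV' : ∀ z, R1 ≤ ‖z‖ → z ∈ U := fun z hz => hUV z (h01.trans hz)
  set h : ℂ → ℂ := fun z => F z - z with hh
  have hFd : DifferentiableOn ℂ F U := hF.diff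
  have hhd : DifferentiableOn ℂ h U := hFd.sub differentiableOn_id
  have hdh : ∀ z ∈ U, deriv h z = deriv F z - 1 := by
    intro z hz
    have h1 : DifferentiableAt ℂ F z := hFd.differentiableAt (hU.mem_nhds hz)
    have h2 := h1.hasDerivAt.sub (hasDerivAt_id z)
    exact h2.deriv
  have hl : Tendsto h (cocompact ℂ) (𝓝 0) := hF.lim
  have hhO : DifferentiableOn ℂ h {z | R0 < ‖z‖} := hhd.mono fun z hz => hUV z (le_of_lt hz)
  obtain ⟨hint, hD⟩ := outer (R1 := R1) (R2 := R2) hU hhd h0 h01 hUV hl hη hη01 hη1 hη2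
  -- the functions with `deriv F - 1`
  have hw : ∀ z, ‖deriv F z - 1‖ ^ 2 * (1 - η ‖z‖) = ‖deriv h z‖ ^ 2 * (1 - η ‖z‖) := by
    intro z
    rcases lt_or_ge ‖z‖ R1 with hz | hz
    · rw [hη1 _ hz.le, sub_self, mul_zero, mul_zero]
    · rw [hdh z (hUV' z hz)]
  simp only [hw]
  refine ⟨hint.integrableOn, ?_⟩
  have hS : ∫ z in {z : ℂ | R0 < ‖z‖}, ‖deriv h z‖ ^ 2 * (1 - η ‖z‖) =
      ∫ z, ‖deriv h z‖ ^ 2 * (1 - η ‖z‖) := by
    apply setIntegral_eq_integral_of_forall_compl_eq_zero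
    intro z hz
    have hz' : ‖z‖ ≤ R0 := not_lt.1 hz
    rw [hη1 _ (hz'.trans h01), sub_self, mul_zero]
  rw [hS]
  -- the Stokes identity
  set E : ℂ → ℂ := fun z => ((η ‖z‖ : ℝ) : ℂ) with hEdef
  have hE : ContDiff ℝ 1 E := contDiff_etaC hR1 hη hη1
  have hEd : ∀ z, dbar E z = deriv η ‖z‖ * (z / (2 * ‖z‖)) := dbar_eta hR1 hη hη1
  have hE1 : ∀ z, ‖z‖ ≤ R1 → E z = 1 := fun z hz => by
    show ((η ‖z‖ : ℝ) : ℂ) = 1
    rw [hη1 _ hz, ofReal_one]
  have hdE1 : ∀ z, ‖z‖ ≤ R1 → dbar E z = 0 := fun z hz => by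
    rw [hEd, deriv_eta_left hη01 hη1 hz, ofReal_zero, zero_mul]
  have hdE2 : ∀ z, R2 ≤ ‖z‖ → dbar E z = 0 := fun z hz => by
    rw [hEd, deriv_eta_right hη01 hη2 hz, ofReal_zero, zero_mul]
  have hFr : ContDiffOn ℝ 1 F U := (hFd.contDiffOn hU).restrict_scalars ℝ
  have hFdr : ContDiffOn ℝ 1 (deriv F) U := ((hFd.deriv hU).contDiffOn hU).restrict_scalars ℝ
  have hcF : ContDiffOn ℝ 1 (fun z => (starRingEnd ℂ) (F z)) U :=
    Complex.conjCLE.contDiff.comp_contDiffOn hFr
  have hhr : ContDiffOn ℝ 1 h U := (hhd.contDiffOn hU).restrict_scalars ℝ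
  have hhdr : ContDiffOn ℝ 1 (deriv h) U := ((hhd.deriv hU).contDiffOn hU).restrict_scalars ℝ
  have hcr : ContDiffOn ℝ 1 (fun z => (starRingEnd ℂ) (h z)) U :=
    Complex.conjCLE.contDiff.comp_contDiffOn hhr
  have hdEc : Continuous (dbar E) := Pool.Lib.continuous_dbar hE
  have hst := stokes (R := R2) hF.toCompat (φ := fun z => (starRingEnd ℂ) (F z) * E z)
    (hcF.mul hE.contDiffOn) (fun z hz => by
      show (starRingEnd ℂ) (F z) * ((η ‖z‖ : ℝ) : ℂ) = 0
      rw [hη2 _ hz, ofReal_zero, mul_zero])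
    (fun a s => exp (-(θ a : ℂ) * I) * (s - I * q a)) (fun a => by fun_prop)
    (fun a z hz => by
      have hzR : ‖z‖ ≤ R1 := by
        have h1 := norm_sub_norm_le z (c a)
        have h2 := hR a
        linarith
      show (starRingEnd ℂ) (F z) * E z =
        exp (-(θ a : ℂ) * I) * ((exp (-(θ a : ℂ) * I) * F z).re - I * q a)
      rw [hE1 z hzR, mul_one]
      have h1 := hF.bdry a z hz
      have h2 : (((exp (-(θ a : ℂ) * I) * F z).re : ℝ) : ℂ) - I * q a =
          (starRingEnd ℂ) (exp (-(θ a : ℂ) * I) * F z) := by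
        rw [← h1]
        apply Complex.ext
        · simp
        · simp
          ring
      rw [h2, map_mul, ← exp_conj, map_mul, map_neg, Complex.conj_ofReal, conj_I, ← mul_assoc,
        ← exp_add]
      rw [show -(θ a : ℂ) * I + -(θ a : ℂ) * -I = 0 by ring, exp_zero, one_mul])
  have hdomU : dom c ρ ⊆ U := dom_anti c hF.lt.le
  have hmeas : MeasurableSet (dom c ρ) := (isOpen_dom c ρ).measurableSet
  have hpt : ∀ z ∈ dom c ρ, dbar (fun z => (starRingEnd ℂ) (F z) * E z) z * deriv F z =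
      ((‖deriv F z‖ ^ 2 * η ‖z‖ : ℝ) : ℂ) +
        (starRingEnd ℂ) (F z) * deriv F z * dbar E z := by
    intro z hz
    have hzn : U ∈ 𝓝 z := hU.mem_nhds (hdomU hz)
    have d1 : DifferentiableAt ℂ F z := hFd.differentiableAt hzn
    have d3 : DifferentiableAt ℝ (fun z => (starRingEnd ℂ) (F z)) z :=
      (hcF.contDiffAt hzn).differentiableAt one_ne_zero
    rw [dbar_mul d3 (hE.differentiable one_ne_zero z), dbar_conj_holo d1]
    have h7 : ((‖deriv F z‖ ^ 2 * η ‖z‖ : ℝ) : ℂ) =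
        (starRingEnd ℂ) (deriv F z) * deriv F z * E z := by
      rw [Complex.conj_mul']
      push_cast
      rfl
    rw [h7]
    ring
  rw [setIntegral_congr_fun hmeas hpt] at hst
  have i1 : IntegrableOn (fun z => ((‖deriv F z‖ ^ 2 * η ‖z‖ : ℝ) : ℂ)) (dom c ρ) := by
    have hK : IsCompact (cdom c ρ ∩ closedBall (0 : ℂ) R2) :=
      (isCompact_closedBall _ _).inter_left (isClosed_cdom c ρ)
    have h1 : IntegrableOn (fun z => ((‖deriv F z‖ ^ 2 * η ‖z‖ : ℝ) : ℂ))
        (cdom c ρ ∩ closedBall (0 : ℂ) R2) := by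
      refine ContinuousOn.integrableOn_compact hK ?_
      refine Complex.continuous_ofReal.comp_continuousOn ?_
      refine ((hFdr.continuousOn.mono ?_).norm.pow 2).mul
        (hη.continuous.comp continuous_norm).continuousOn
      exact fun z hz => cdom_subset_dom c hF.lt hz.1
    refine IntegrableOn.of_forall_sdiff_eq_zero h1 hmeas ?_
    intro z hz
    have hzR : R2 < ‖z‖ := by
      by_contra hcon
      exact hz.2 ⟨dom_subset_cdom c ρ hz.1, mem_closedBall_zero_iff.2 (not_lt.1 hcon)⟩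
    rw [hη2 _ hzR.le, mul_zero, ofReal_zero]
  have ik : Integrable (fun z => (starRingEnd ℂ) (F z) * deriv F z * dbar E z) := by
    refine integrable_of (R := R2) (glue_cont (R1 := R1) hU hUV' ?_ ?_) ?_
    · exact (hcF.continuousOn.mul hFdr.continuousOn).mul hdEc.continuousOn
    · intro z hz
      rw [hdE1 z hz.le, mul_zero]
    · intro z hz
      rw [hdE2 z hz.le, mul_zero]
  rw [integral_add i1 ik.integrableOn] at hst
  have hk : ∫ z in dom c ρ, (starRingEnd ℂ) (F z) * deriv F z * dbar E z =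
      ∫ z, (starRingEnd ℂ) (F z) * deriv F z * dbar E z := by
    apply setIntegral_eq_integral_of_forall_compl_eq_zero
    intro z hz
    have hz' : ‖z‖ ≤ R1 := by
      by_contra hcon
      exact hz (mem_dom_of_le_norm hR (h01.trans (not_le.1 hcon).le))
    rw [hdE1 z hz', mul_zero]
  rw [hk] at hst
  -- splitting of the outer integral
  have j1 : Integrable (fun z => (starRingEnd ℂ) z * dbar E z) := by
    refine integrable_of (R := R2) (Complex.continuous_conj.mul hdEc) ?_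
    intro z hz
    rw [hdE2 z hz.le, mul_zero]
  have j2 : Integrable (fun z => (starRingEnd ℂ) z * deriv h z * dbar E z) := by
    refine integrable_of (R := R2) (glue_cont (R1 := R1) hU hUV' ?_ ?_) ?_
    · exact (Complex.continuous_conj.continuousOn.mul hhdr.continuousOn).mul hdEc.continuousOn
    · intro z hz
      rw [hdE1 z hz.le, mul_zero]
    · intro z hz
      rw [hdE2 z hz.le, mul_zero]
  have j3 : Integrable (fun z => (starRingEnd ℂ) (h z) * dbar E z) := by
    refine integrable_of (R := R2) (glue_cont (R1 := R1) hU hUV' ?_ ?_) ?_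
    · exact hcr.continuousOn.mul hdEc.continuousOn
    · intro z hz
      rw [hdE1 z hz.le, mul_zero]
    · intro z hz
      rw [hdE2 z hz.le, mul_zero]
  have j4 : Integrable (fun z => (starRingEnd ℂ) (h z) * deriv h z * dbar E z) := by
    refine integrable_of (R := R2) (glue_cont (R1 := R1) hU hUV' ?_ ?_) ?_
    · exact (hcr.continuousOn.mul hhdr.continuousOn).mul hdEc.continuousOn
    · intro z hz
      rw [hdE1 z hz.le, mul_zero]
    · intro z hz
      rw [hdE2 z hz.le, mul_zero]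
  have hsplit : ∀ z, (starRingEnd ℂ) (F z) * deriv F z * dbar E z =
      ((starRingEnd ℂ) z * dbar E z + (starRingEnd ℂ) z * deriv h z * dbar E z) +
      ((starRingEnd ℂ) (h z) * dbar E z + (starRingEnd ℂ) (h z) * deriv h z * dbar E z) := by
    intro z
    rcases lt_or_ge ‖z‖ R1 with hz | hz
    · rw [hdE1 z hz.le]
      ring
    · rw [hdh z (hUV' z hz)]
      show _ = ((starRingEnd ℂ) z * dbar E z + (starRingEnd ℂ) z * (deriv F z - 1) * dbar E z) +
        ((starRingEnd ℂ) (F z - z) * dbar E z +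
          (starRingEnd ℂ) (F z - z) * (deriv F z - 1) * dbar E z)
      rw [map_sub]
      ring
  simp only [hsplit] at hst
  have j12 : Integrable (fun z => (starRingEnd ℂ) z * dbar E z +
      (starRingEnd ℂ) z * deriv h z * dbar E z) := j1.add j2
  have j34 : Integrable (fun z => (starRingEnd ℂ) (h z) * dbar E z +
      (starRingEnd ℂ) (h z) * deriv h z * dbar E z) := j3.add j4
  rw [integral_add j12 j34, integral_add j1 j2, integral_add j3 j4,
    idA hR1 hη hη1 hη01 hη2, meanB h0 hhO h01 hl hη hη01 hη1, meanC h0 hhO h01 hl hη hη01 hη1,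
    hD, integral_complex_ofReal] at hst
  have hfin : ((∫ z in dom c ρ, ‖deriv F z‖ ^ 2 * η ‖z‖ : ℝ) : ℂ) +
      ((∫ z, ‖deriv h z‖ ^ 2 * (1 - η ‖z‖) : ℝ) : ℂ) = ((∫ z : ℂ, η ‖z‖ : ℝ) : ℂ) := by
    linear_combination hst
  exact_mod_cast hfin

end RSM
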