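import Pool.Agent.RSM.C2

/-!
# RSM module C3: energy bounds

PROOF.  Choose the cut-offs `η = η_{R1,R2}` with `R0 ≤ R1 < R2`, e.g.
`η t = 1 - smoothTransition ((t - R1)/(R2 - R1))`.  `∫ η ‖z‖ ≤ π R2²`
(`Complex.volume_ball`/`closedBall`).  Both summands of `energy_identity` are nonnegative.
`energy_in`: for `R ≥ R0` take `R1 = R`, `R2 → R`: `∫_{dom ∩ ball 0 R} ‖F'‖² ≤ π R2²` for all
`R2 > R` (integrability: `F'` is continuous on the compact set `cdom c ρ ∩ closedBall 0 R`).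
`energy_out`: the index set is finite, so there is `R0' < R0`, `R0' > 0`, with
`‖c a‖ + ρ < R0'` for all `a`.  For `R0' ≤ R1 < R2 < R0`:
`∫_{‖z‖ > R2} ‖F' - 1‖² ≤ π R2²`, with integrability, and `{‖z‖ > R0} ⊆ {‖z‖ > R2}`.
-/

open Complex Set Metric Filter Topology MeasureTheory

namespace RSM

variable {ι : Type} {c : ι → ℂ} {ρ ρ' : ℝ} {θ : ι → ℝ} {F : ℂ → ℂ} {q : ι → ℝ}

/-- the radial cut-off -/
private noncomputable def cutR (R1 R2 : ℝ) (t : ℝ) : ℝ :=
  1 - Real.smoothTransition ((t - R1) / (R2 - R1))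

private theorem cutR_contDiff (R1 R2 : ℝ) : ContDiff ℝ 1 (cutR R1 R2) := by
  unfold cutR
  exact contDiff_const.sub (Real.smoothTransition.contDiff.comp
    ((contDiff_id.sub contDiff_const).div_const _))

private theorem cutR_mem (R1 R2 t : ℝ) : 0 ≤ cutR R1 R2 t ∧ cutR R1 R2 t ≤ 1 := by
  unfold cutR
  have h1 := Real.smoothTransition.nonneg ((t - R1) / (R2 - R1))
  have h2 := Real.smoothTransition.le_one ((t - R1) / (R2 - R1))
  constructor <;> linarith

private theorem cutR_one {R1 R2 : ℝ} (h : R1 < R2) {t : ℝ} (ht : t ≤ R1) : cutR R1 R2 t = 1 := by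
  unfold cutR
  rw [Real.smoothTransition.zero_of_nonpos, sub_zero]
  exact div_nonpos_of_nonpos_of_nonneg (by linarith) (by linarith)

private theorem cutR_zero {R1 R2 : ℝ} (h : R1 < R2) {t : ℝ} (ht : R2 ≤ t) : cutR R1 R2 t = 0 := by
  unfold cutR
  rw [Real.smoothTransition.one_of_one_le, sub_self]
  rw [le_div_iff₀ (by linarith)]
  linarith

private theorem cutR_int {R1 R2 : ℝ} (h : R1 < R2) (h2 : 0 ≤ R2) :
    ∫ z : ℂ, cutR R1 R2 ‖z‖ ≤ Real.pi * R2 ^ 2 := by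
  have hvol : volume.real (closedBall (0 : ℂ) R2) = Real.pi * R2 ^ 2 := by
    rw [Measure.real, Complex.volume_closedBall, ENNReal.toReal_mul, ENNReal.toReal_pow,
      ENNReal.toReal_ofReal h2]
    simp [mul_comm]
  have hfin : volume (closedBall (0 : ℂ) R2) ≠ ⊤ := measure_closedBall_lt_top.ne
  have h3 : ∫ z : ℂ, (closedBall (0 : ℂ) R2).indicator (fun _ => (1 : ℝ)) z = Real.pi * R2 ^ 2 := by
    rw [integral_indicator measurableSet_closedBall, setIntegral_const, hvol, smul_eq_mul, mul_one]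
  rw [← h3]
  apply integral_mono_of_nonneg
  · exact Filter.Eventually.of_forall fun z => (cutR_mem R1 R2 ‖z‖).1
  · exact (integrable_indicator_iff measurableSet_closedBall).2 (integrableOn_const hfin)
  · refine Filter.Eventually.of_forall fun z => ?_
    by_cases hz : z ∈ closedBall (0 : ℂ) R2
    · rw [indicator_of_mem hz]
      exact (cutR_mem R1 R2 ‖z‖).2
    · rw [indicator_of_notMem hz]
      rw [mem_closedBall, dist_zero_right, not_le] at hz
      exact (cutR_zero h hz.le).le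

private theorem sq_integrable_compact [Finite ι] (hF : IsSlit c ρ ρ' θ F q) (R : ℝ) :
    IntegrableOn (fun z => ‖deriv F z‖ ^ 2) (cdom c ρ ∩ closedBall 0 R) := by
  have h1 : ContinuousOn (deriv F) (dom c ρ') := (hF.diff.deriv (isOpen_dom c ρ')).continuousOn
  have h2 : ContinuousOn (fun z => ‖deriv F z‖ ^ 2) (cdom c ρ ∩ closedBall 0 R) :=
    (h1.mono (inter_subset_left.trans (cdom_subset_dom c hF.lt))).norm.pow 2
  exact h2.integrableOn_compact ((isCompact_closedBall 0 R).inter_left (isClosed_cdom c ρ))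

theorem energy_out [Finite ι] (hF : IsSlit c ρ ρ' θ F q) {R0 : ℝ} (h0 : 0 < R0)
    (hR : ∀ a, ‖c a‖ + ρ < R0) :
    IntegrableOn (fun z => ‖deriv F z - 1‖ ^ 2) {z | R0 < ‖z‖} ∧
      ∫ z in {z : ℂ | R0 < ‖z‖}, ‖deriv F z - 1‖ ^ 2 ≤ Real.pi * R0 ^ 2 := by
  obtain ⟨R1, hR1, hR10, hR1'⟩ : ∃ R1 : ℝ, 0 < R1 ∧ R1 < R0 ∧ ∀ a, ‖c a‖ + ρ < R1 := by
    have e1 : ∀ᶠ x in 𝓝[<] R0, ∀ a, ‖c a‖ + ρ < x := by
      rw [Filter.eventually_all]
      intro a
      exact mem_nhdsWithin_of_mem_nhds (Ioi_mem_nhds (hR a))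
    have e2 : ∀ᶠ x in 𝓝[<] R0, 0 < x := mem_nhdsWithin_of_mem_nhds (Ioi_mem_nhds h0)
    have e3 : ∀ᶠ x in 𝓝[<] R0, x < R0 := self_mem_nhdsWithin
    obtain ⟨x, hx1, hx2, hx3⟩ := (e1.and (e2.and e3)).exists
    exact ⟨x, hx2, hx3, hx1⟩
  obtain ⟨R2, hR2, hR20⟩ := exists_between hR10
  obtain ⟨hint, hid⟩ := energy_identity hF hR1 hR1' le_rfl hR2 (cutR_contDiff R1 R2)
    (cutR_mem R1 R2) (fun t ht => cutR_one hR2 ht) (fun t ht => cutR_zero hR2 ht)
  have hsub : {z : ℂ | R0 < ‖z‖} ⊆ {z : ℂ | R1 < ‖z‖} := fun z hz => hR10.trans hz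
  have hmeas : MeasurableSet {z : ℂ | R0 < ‖z‖} := (isOpen_lt continuous_const continuous_norm).measurableSet
  have heq : EqOn (fun z => ‖deriv F z - 1‖ ^ 2 * (1 - cutR R1 R2 ‖z‖)) (fun z => ‖deriv F z - 1‖ ^ 2)
      {z : ℂ | R0 < ‖z‖} := by
    intro z hz
    have hz' : R2 ≤ ‖z‖ := (hR20.trans hz).le
    simp only [cutR_zero hR2 hz', sub_zero, mul_one]
  have hi1 := (hint.mono_set hsub)
  refine ⟨hi1.congr_fun heq hmeas, ?_⟩
  rw [← setIntegral_congr_fun hmeas heq]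
  have h1 : ∫ z in {z : ℂ | R0 < ‖z‖}, ‖deriv F z - 1‖ ^ 2 * (1 - cutR R1 R2 ‖z‖) ≤
      ∫ z in {z : ℂ | R1 < ‖z‖}, ‖deriv F z - 1‖ ^ 2 * (1 - cutR R1 R2 ‖z‖) := by
    apply setIntegral_mono_set hint
    · refine Filter.Eventually.of_forall fun z => ?_
      exact mul_nonneg (by positivity) (by linarith [(cutR_mem R1 R2 ‖z‖).2])
    · exact hsub.eventuallyLE
  have h2 : 0 ≤ ∫ z in dom c ρ, ‖deriv F z‖ ^ 2 * cutR R1 R2 ‖z‖ := by
    apply integral_nonneg
    intro z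
    exact mul_nonneg (by positivity) (cutR_mem R1 R2 ‖z‖).1
  have h3 := cutR_int hR2 (by linarith : 0 ≤ R2)
  have h4 : Real.pi * R2 ^ 2 ≤ Real.pi * R0 ^ 2 := by
    apply mul_le_mul_of_nonneg_left _ Real.pi_pos.le
    nlinarith
  linarith

theorem energy_in [Finite ι] (hF : IsSlit c ρ ρ' θ F q) {R0 : ℝ} (h0 : 0 < R0)
    (hR : ∀ a, ‖c a‖ + ρ < R0) {R : ℝ} (hRR : R0 ≤ R) :
    IntegrableOn (fun z => ‖deriv F z‖ ^ 2) (dom c ρ ∩ ball 0 R) ∧
      ∫ z in dom c ρ ∩ ball 0 R, ‖deriv F z‖ ^ 2 ≤ Real.pi * R ^ 2 := by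
  have hi : IntegrableOn (fun z => ‖deriv F z‖ ^ 2) (dom c ρ ∩ ball 0 R) :=
    (sq_integrable_compact hF R).mono_set (inter_subset_inter (dom_subset_cdom c ρ)
      ball_subset_closedBall)
  refine ⟨hi, ?_⟩
  have hmd : MeasurableSet (dom c ρ) := (isOpen_dom c ρ).measurableSet
  have key : ∀ R2, R < R2 → ∫ z in dom c ρ ∩ ball 0 R, ‖deriv F z‖ ^ 2 ≤ Real.pi * R2 ^ 2 := by
    intro R2 hR2
    obtain ⟨hint, hid⟩ := energy_identity hF h0 hR hRR hR2 (cutR_contDiff R R2)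
      (cutR_mem R R2) (fun t ht => cutR_one hR2 ht) (fun t ht => cutR_zero hR2 ht)
    have hcont : Continuous (fun z : ℂ => cutR R R2 ‖z‖) :=
      (cutR_contDiff R R2).continuous.comp continuous_norm
    have hK : IntegrableOn (fun z => ‖deriv F z‖ ^ 2 * cutR R R2 ‖z‖)
        (cdom c ρ ∩ closedBall 0 R2) := by
      have h1 : ContinuousOn (deriv F) (dom c ρ') := (hF.diff.deriv (isOpen_dom c ρ')).continuousOn
      have h2 : ContinuousOn (fun z => ‖deriv F z‖ ^ 2 * cutR R R2 ‖z‖)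
          (cdom c ρ ∩ closedBall 0 R2) :=
        ((h1.mono (inter_subset_left.trans (cdom_subset_dom c hF.lt))).norm.pow 2).mul
          hcont.continuousOn
      exact h2.integrableOn_compact ((isCompact_closedBall 0 R2).inter_left (isClosed_cdom c ρ))
    have hK2 : IntegrableOn (fun z => ‖deriv F z‖ ^ 2 * cutR R R2 ‖z‖)
        (dom c ρ ∩ (closedBall 0 R2)ᶜ) := by
      have h1 : EqOn (fun _ : ℂ => (0 : ℝ)) (fun z => ‖deriv F z‖ ^ 2 * cutR R R2 ‖z‖)
          (dom c ρ ∩ (closedBall 0 R2)ᶜ) := by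
        intro z hz
        have hz2 := hz.2
        rw [mem_compl_iff, mem_closedBall, dist_zero_right, not_le] at hz2
        simp only [cutR_zero hR2 hz2.le, mul_zero]
      exact (integrableOn_zero).congr_fun h1
        (hmd.inter measurableSet_closedBall.compl)
    have hD : IntegrableOn (fun z => ‖deriv F z‖ ^ 2 * cutR R R2 ‖z‖) (dom c ρ) := by
      apply (hK.union hK2).mono_set
      intro z hz
      by_cases h1 : z ∈ closedBall (0 : ℂ) R2
      · exact Or.inl ⟨dom_subset_cdom c ρ hz, h1⟩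
      · exact Or.inr ⟨hz, h1⟩
    have heq : EqOn (fun z => ‖deriv F z‖ ^ 2) (fun z => ‖deriv F z‖ ^ 2 * cutR R R2 ‖z‖)
        (dom c ρ ∩ ball 0 R) := by
      intro z hz
      have hz2 := hz.2
      rw [mem_ball, dist_zero_right] at hz2
      simp only [cutR_one hR2 hz2.le, mul_one]
    rw [setIntegral_congr_fun (hmd.inter measurableSet_ball) heq]
    have h1 : ∫ z in dom c ρ ∩ ball 0 R, ‖deriv F z‖ ^ 2 * cutR R R2 ‖z‖ ≤
        ∫ z in dom c ρ, ‖deriv F z‖ ^ 2 * cutR R R2 ‖z‖ := by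
      apply setIntegral_mono_set hD
      · refine Filter.Eventually.of_forall fun z => ?_
        exact mul_nonneg (by positivity) (cutR_mem R R2 ‖z‖).1
      · exact inter_subset_left.eventuallyLE
    have h2 : 0 ≤ ∫ z in {z : ℂ | R0 < ‖z‖}, ‖deriv F z - 1‖ ^ 2 * (1 - cutR R R2 ‖z‖) := by
      apply integral_nonneg
      intro z
      exact mul_nonneg (by positivity) (by linarith [(cutR_mem R R2 ‖z‖).2])
    have h3 := cutR_int hR2 (by linarith : 0 ≤ R2)
    linarith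
  have hlim : Tendsto (fun x : ℝ => Real.pi * x ^ 2) (𝓝[>] R) (𝓝 (Real.pi * R ^ 2)) := by
    apply Filter.Tendsto.mono_left _ nhdsWithin_le_nhds
    exact (continuous_const.mul (continuous_pow 2)).tendsto R
  apply ge_of_tendsto hlim
  filter_upwards [self_mem_nhdsWithin] with x hx
  exact key x hx

end RSM
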