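import Pool.Agent.RSM.C3
import Pool.Agent.Hhelper32.Area

/-!
# RSM module C4: bounds far away

PROOF.  `deriv_bound`: `h = F - id` is holomorphic on `‖z‖ > R0`.  For `0 < s < ‖z‖ - R0` the mean
value property over the disc gives `π s² h'(z) = ∫_{ball z s} h'`, so by Cauchy-Schwarz and
`energy_out`, `π s² ‖h' z‖ ≤ (π s²)^{1/2} (π R0²)^{1/2}`, i.e. `‖h' z‖ ≤ R0 / s`; let
`s → ‖z‖ - R0`.
`far_bound`: let `A = max_{‖z‖ = 3R0} ‖h z‖` (attained).  By `norm_le_of_sphere` with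
`r = 3R0`: `‖h z‖ ≤ 3 R0 A / ‖z‖` for `‖z‖ ≥ 3R0`.  For `‖w‖ = 3 R0`, integrate `h'` along the
segment from `w` to `3w` (where `‖h'‖ ≤ R0/(3R0 - R0) = 1/2`, length `6 R0`):
`‖h w‖ ≤ ‖h (3w)‖ + 3R0 ≤ A/3 + 3R0`.  So `A ≤ A/3 + 3R0`, `A ≤ 9R0/2 ≤ 6 R0`, and
`‖h z‖ ≤ 18 R0²/‖z‖`.
-/

open Complex Set Metric Filter Topology MeasureTheory

namespace RSM

variable {ι : Type} {c : ι → ℂ} {ρ ρ' : ℝ} {θ : ι → ℝ} {F : ℂ → ℂ} {q : ι → ℝ}

private theorem c4_diff [Finite ι] (hF : IsSlit c ρ ρ' θ F q) {R0 : ℝ}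
    (hR : ∀ a, ‖c a‖ + ρ < R0) {z : ℂ} (hz : R0 < ‖z‖) :
    DifferentiableAt ℂ F z ∧ DifferentiableAt ℂ (deriv F) z := by
  have h1 : z ∈ dom c ρ' := cdom_subset_dom c hF.lt
    (dom_subset_cdom c ρ (mem_dom_of_le_norm hR hz.le))
  exact ⟨hF.toCompat.differentiableAt h1, hF.toCompat.differentiableAt_deriv h1⟩

theorem deriv_bound [Finite ι] (hF : IsSlit c ρ ρ' θ F q) {R0 : ℝ} (h0 : 0 < R0)
    (hR : ∀ a, ‖c a‖ + ρ < R0) {z : ℂ} (hz : R0 < ‖z‖) :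
    ‖deriv F z - 1‖ ≤ R0 / (‖z‖ - R0) := by
  obtain ⟨hint, hle⟩ := energy_out hF h0 hR
  have hs : 0 < ‖z‖ - R0 := sub_pos.mpr hz
  have hsub : ball z (‖z‖ - R0) ⊆ {w : ℂ | R0 < ‖w‖} := by
    intro w hw
    rw [mem_ball, dist_comm, dist_eq_norm] at hw
    have := norm_sub_norm_le z w
    show R0 < ‖w‖
    linarith
  have hG : DifferentiableOn ℂ (fun w => deriv F w - 1) (ball z (‖z‖ - R0)) := fun w hw =>
    ((c4_diff hF hR (hsub hw)).2.sub_const 1).differentiableWithinAt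
  have h1 := Pool.Agent.Hhelper32.sq_le_lintegral_ball hs hG
  have h2 : ∫⁻ w in ball z (‖z‖ - R0), ‖deriv F w - 1‖ₑ ^ 2 ≤
      ∫⁻ w in {w : ℂ | R0 < ‖w‖}, ‖deriv F w - 1‖ₑ ^ 2 := lintegral_mono_set hsub
  have h3 : ∫⁻ w in {w : ℂ | R0 < ‖w‖}, ‖deriv F w - 1‖ₑ ^ 2 =
      ENNReal.ofReal (∫ w in {w : ℂ | R0 < ‖w‖}, ‖deriv F w - 1‖ ^ 2) := by
    rw [ofReal_integral_eq_lintegral_ofReal hint (Filter.Eventually.of_forall fun w => by
      positivity)]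
    refine lintegral_congr fun w => ?_
    rw [ENNReal.ofReal_pow (norm_nonneg _), ofReal_norm]
  have h4 := (h1.trans h2).trans (h3.le.trans (ENNReal.ofReal_le_ofReal hle))
  rw [← ofReal_norm, ← ENNReal.ofReal_pow (norm_nonneg _), ← ENNReal.ofReal_mul (by positivity),
    ENNReal.ofReal_le_ofReal_iff (by positivity)] at h4
  rw [le_div_iff₀ hs]
  have h5 : (‖deriv F z - 1‖ * (‖z‖ - R0)) ^ 2 ≤ R0 ^ 2 := by
    have h6 : Real.pi * (‖deriv F z - 1‖ * (‖z‖ - R0)) ^ 2 ≤ Real.pi * R0 ^ 2 := by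
      calc Real.pi * (‖deriv F z - 1‖ * (‖z‖ - R0)) ^ 2
          = Real.pi * (‖z‖ - R0) ^ 2 * ‖deriv F z - 1‖ ^ 2 := by ring
        _ ≤ Real.pi * R0 ^ 2 := h4
    exact le_of_mul_le_mul_left h6 Real.pi_pos
  exact (pow_le_pow_iff_left₀ (by positivity) h0.le two_ne_zero).mp h5

theorem far_bound [Finite ι] (hF : IsSlit c ρ ρ' θ F q) {R0 : ℝ} (h0 : 0 < R0)
    (hR : ∀ a, ‖c a‖ + ρ < R0) {z : ℂ} (hz : 3 * R0 ≤ ‖z‖) :
    ‖F z - z‖ ≤ 18 * R0 ^ 2 / ‖z‖ := by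
  obtain ⟨h, hh⟩ : ∃ h : ℂ → ℂ, h = fun z => F z - z := ⟨_, rfl⟩
  have hhz : ∀ z, h z = F z - z := fun z => by rw [hh]
  have hd : ∀ w : ℂ, R0 < ‖w‖ → HasDerivAt h (deriv F w - 1) w := by
    intro w hw
    rw [hh]
    exact (c4_diff hF hR hw).1.hasDerivAt.sub (hasDerivAt_id w)
  have hdiff : DifferentiableOn ℂ h {w | R0 < ‖w‖} := fun w hw =>
    (hd w hw).differentiableAt.differentiableWithinAt
  have hlim : Tendsto h (cocompact ℂ) (𝓝 0) := by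
    rw [hh]
    exact hF.lim
  have h3 : R0 < 3 * R0 := by linarith
  -- maximum on the sphere
  have hcomp : IsCompact (sphere (0 : ℂ) (3 * R0)) := isCompact_sphere 0 _
  have hne : (sphere (0 : ℂ) (3 * R0)).Nonempty := NormedSpace.sphere_nonempty.mpr (by positivity)
  have hcont : ContinuousOn (fun w => ‖h w‖) (sphere (0 : ℂ) (3 * R0)) := by
    refine (hdiff.continuousOn.mono fun w hw => ?_).norm
    rw [mem_sphere, dist_zero_right] at hw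
    show R0 < ‖w‖
    rw [hw]
    exact h3
  obtain ⟨w, hw, hmax⟩ := hcomp.exists_isMaxOn hne hcont
  have hwn : ‖w‖ = 3 * R0 := by rwa [mem_sphere, dist_zero_right] at hw
  have hA : ∀ v : ℂ, ‖v‖ = 3 * R0 → ‖h v‖ ≤ ‖h w‖ := by
    intro v hv
    exact hmax (by rw [mem_sphere, dist_zero_right, hv] : v ∈ sphere (0 : ℂ) (3 * R0))
  have hfar : ∀ v : ℂ, 3 * R0 ≤ ‖v‖ → ‖h v‖ ≤ ‖h w‖ * (3 * R0) / ‖v‖ := fun v hv =>
    norm_le_of_sphere h0 hdiff hlim h3 hA hv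
  -- the segment from `w` to `3 w`
  have h3w : ‖(3 : ℂ) * w‖ = 9 * R0 := by
    rw [norm_mul, hwn]
    norm_num
    ring
  have hseg : ∀ v ∈ segment ℝ w (3 * w), 3 * R0 ≤ ‖v‖ := by
    intro v hv
    rw [segment_eq_image'] at hv
    obtain ⟨t, ht, rfl⟩ := hv
    have h5 : w + t • (3 * w - w) = ((1 + 2 * t : ℝ) : ℂ) * w := by
      rw [Complex.real_smul]
      push_cast
      ring
    show 3 * R0 ≤ ‖w + t • (3 * w - w)‖
    rw [h5, norm_mul, Complex.norm_real, Real.norm_of_nonneg (by linarith [ht.1]), hwn]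
    nlinarith [ht.1]
  have hmv : ‖h (3 * w) - h w‖ ≤ 1 / 2 * ‖3 * w - w‖ := by
    refine (convex_segment w (3 * w)).norm_image_sub_le_of_norm_hasDerivWithin_le
      (f := h) (f' := fun v => deriv F v - 1) ?_ ?_ (left_mem_segment ℝ _ _)
      (right_mem_segment ℝ _ _)
    · intro v hv
      exact (hd v (h3.trans_le (hseg v hv))).hasDerivWithinAt
    · intro v hv
      have h5 := hseg v hv
      refine (deriv_bound hF h0 hR (h3.trans_le h5)).trans ?_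
      rw [div_le_iff₀ (by linarith)]
      linarith
  have h6 : ‖(3 : ℂ) * w - w‖ = 6 * R0 := by
    have : (3 : ℂ) * w - w = 2 * w := by ring
    rw [this, norm_mul, hwn]
    norm_num
    ring
  have h7 := hfar (3 * w) (by rw [h3w]; linarith)
  rw [h3w] at h7
  have h8 : ‖h w‖ * (3 * R0) / (9 * R0) = ‖h w‖ / 3 := by
    field_simp
    ring
  rw [h8] at h7
  have h9 : ‖h w‖ ≤ ‖h (3 * w)‖ + ‖h (3 * w) - h w‖ := by
    have := norm_sub_norm_le (h w) (h (3 * w))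
    rw [norm_sub_rev] at this
    linarith
  have h10 : ‖h w‖ ≤ 6 * R0 := by
    rw [h6] at hmv
    linarith
  rw [← hhz]
  refine (hfar z hz).trans ?_
  have hz0 : 0 < ‖z‖ := by linarith
  rw [div_le_div_iff_of_pos_right hz0]
  nlinarith

end RSM
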