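import Pool.Agent.RSM.Basic
import Pool.Agent.RSM.A1
import Pool.Agent.RSM.A5

/-!
# RSM module C5: the maximum principle for `Im (exp (-iα) F)`

PROOF.  Put `V z = Im (exp (-iα) F z)`, a smooth real function on `dom c ρ'`.  Let `m' > m`; we
show `V ≤ m'` on `cdom c ρ ∩ closedBall z0 r`, and let `m' → m`.
(1) Shrink the neighbourhood: there is `ρ'' ∈ [ρ', ρ)` such that `V < m'` on
`dom c ρ'' ∩ sphere z0 r`.  (Otherwise there are `ρ_n ↑ ρ` and points
`z_n ∈ dom c ρ_n ∩ sphere z0 r` with `V z_n ≥ m'`; a limit point `z` of the sequence lies in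
`cdom c ρ ∩ sphere z0 r`, where `V z ≤ m` by `h1`, and `V` is continuous at `z`: contradiction.)
Replace `F`'s domain by `dom c ρ''` (`IsSlit.mono`).  Similarly we may
assume that `V < m'` on `{z ∈ dom c ρ'' | ‖z - c a‖ ≤ ρ}` for every `a` whose closed disc meets
the sphere (by `h2`); not needed if you argue with (2) directly.
(2) Let `φ z = (max (V z - m') 0)²` for `‖z - z0‖ < r` and `φ z = 0` otherwise (as a complex
number).  `t ↦ (max t 0)²` is `C¹`; near a point of `dom c ρ'' ∩ sphere z0 r` we have `V < m'`, so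
`φ = 0` nearby; hence `φ` is `C¹` on `dom c ρ''`, and it vanishes for `‖z‖` large.
(3) Boundary values: on the circle number `a`, `exp (-iθ a) F = s + i q a`, so
`V = Im (exp (i(θ a - α)) (s + i q a)) = sin (θ a - α) s + cos (θ a - α) q a` is a continuous
function of `s`.  If the closed disc number `a` is contained in `ball z0 r`, put
`Ψ a s = (max (sin (θ a - α) s + cos (θ a - α) q a - m') 0)²`; if the closed disc does not meet
`closedBall z0 r`, `Ψ a = 0`; if the closed disc meets the sphere, `V ≤ m < m'` on the whole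
circle by `h2`, so `φ = 0` on the circle and `Ψ a = 0`.  (These are all the cases: a closed disc
which does not meet the sphere is either in the open ball or outside of the closed ball, being
connected.)
(4) `stokes`: `dbar φ = 2 (max (V - m') 0) * (i/2) * conj (exp (-iα) F')` on `dom c ρ ∩ ball z0 r`
(`dbar_im_holo`, `dbar_comp_real`), so `dbar φ * F' = i exp (iα) (max (V - m') 0) ‖F'‖²` and
`∫_{dom c ρ ∩ ball z0 r} (max (V - m') 0) ‖F'‖² = 0`.  The integrand is continuous and
nonnegative on an open set, so it vanishes identically.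
(5) If `V z1 > m'` for some `z1 ∈ dom c ρ ∩ ball z0 r` then `F' = 0` near `z1`, so `F` is constant
on the connected open set `dom c ρ` (A1 and the identity theorem), contradicting
`F z - z → 0` at infinity.  So `V ≤ m'` on `dom c ρ ∩ ball z0 r`, and on
`cdom c ρ ∩ ball z0 r` by continuity (`nonempty_inter_dom`); on the sphere use `h1`.
-/

open Complex Set Metric Filter Topology MeasureTheory

namespace RSM

variable {ι : Type} {c : ι → ℂ} {ρ ρ' : ℝ} {θ : ι → ℝ} {F : ℂ → ℂ} {q : ι → ℝ}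

theorem c5_sq (t : ℝ) : HasDerivAt (fun t : ℝ => (max t 0) ^ 2) (2 * max t 0) t := by
  rcases lt_trichotomy t 0 with h | rfl | h
  · have h1 : (fun t : ℝ => (max t 0) ^ 2) =ᶠ[𝓝 t] fun _ => 0 := by
      filter_upwards [Iio_mem_nhds h] with s hs
      rw [max_eq_right (le_of_lt hs)]
      ring
    rw [max_eq_right h.le, mul_zero]
    exact (hasDerivAt_const t (0 : ℝ)).congr_of_eventuallyEq h1
  · rw [max_self, mul_zero, hasDerivAt_iff_isLittleO]
    simp only [max_self, sub_zero, smul_zero]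
    refine (Asymptotics.IsBigO.of_bound 1 ?_).trans_isLittleO
      (Asymptotics.isLittleO_pow_id (𝕜 := ℝ) one_lt_two)
    filter_upwards with s
    rw [one_mul, zero_pow two_ne_zero, sub_zero, norm_pow, norm_pow]
    refine pow_le_pow_left₀ (norm_nonneg _) ?_ 2
    rw [Real.norm_eq_abs, Real.norm_eq_abs, abs_of_nonneg (le_max_right s 0)]
    exact max_le (le_abs_self s) (abs_nonneg s)
  · have h1 : (fun t : ℝ => (max t 0) ^ 2) =ᶠ[𝓝 t] fun t => t ^ 2 := by
      filter_upwards [Ioi_mem_nhds h] with s hs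
      rw [max_eq_left (le_of_lt hs)]
    rw [max_eq_left h.le]
    have h2 := (hasDerivAt_pow 2 t).congr_of_eventuallyEq h1
    simpa using h2

theorem c5_contDiff : ContDiff ℝ 1 (fun t : ℝ => (max t 0) ^ 2) := by
  rw [contDiff_one_iff_deriv]
  refine ⟨fun t => (c5_sq t).differentiableAt, ?_⟩
  have h : deriv (fun t : ℝ => (max t 0) ^ 2) = fun t => 2 * max t 0 := by
    funext t
    exact (c5_sq t).deriv
  rw [h]
  fun_prop

theorem c5_dbar_congr {f g : ℂ → ℂ} {z : ℂ} (h : f =ᶠ[𝓝 z] g) : dbar f z = dbar g z := by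
  unfold Pool.Lib.dbar
  rw [h.fderiv_eq]

/-- a closed disc which does not meet a circle is on one side of it -/
theorem c5_side {ca z0 : ℂ} {r : ℝ} (hno : ¬ ∃ w, ‖w - ca‖ ≤ ρ ∧ ‖w - z0‖ = r) {w w' : ℂ}
    (hw : ‖w - ca‖ ≤ ρ) (hw' : ‖w' - ca‖ ≤ ρ) (h : ‖w - z0‖ < r) : ‖w' - z0‖ < r := by
  by_contra hcon
  push Not at hcon
  have hpre : IsPreconnected (closedBall ca ρ) := (convex_closedBall ca ρ).isPreconnected
  have h1 := hpre.intermediate_value (f := fun x => ‖x - z0‖)
    (mem_closedBall_iff_norm.2 hw) (mem_closedBall_iff_norm.2 hw') (by fun_prop)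
  obtain ⟨x, hx, hxr⟩ := h1 ⟨h.le, hcon⟩
  exact hno ⟨x, mem_closedBall_iff_norm.1 hx, hxr⟩

theorem max_principle [Finite ι] (hF : IsSlit c ρ ρ' θ F q) {z0 : ℂ} {r : ℝ} (hr : 0 < r)
    (α m : ℝ)
    (h1 : ∀ z ∈ cdom c ρ, ‖z - z0‖ = r → (exp (-(α : ℂ) * I) * F z).im ≤ m)
    (h2 : ∀ a, (∃ w, ‖w - c a‖ ≤ ρ ∧ ‖w - z0‖ = r) →
      ∀ z, ‖z - c a‖ = ρ → (exp (-(α : ℂ) * I) * F z).im ≤ m)
    {z : ℂ} (hz : z ∈ cdom c ρ) (hzr : ‖z - z0‖ ≤ r) :
    (exp (-(α : ℂ) * I) * F z).im ≤ m := by
  by_contra hcon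
  push Not at hcon
  obtain ⟨m', hm1, hm2⟩ := exists_between hcon
  obtain ⟨E, hE⟩ : ∃ E : ℂ, E = exp (-(α : ℂ) * I) := ⟨_, rfl⟩
  have hE0 : E ≠ 0 := by
    rw [hE]
    exact exp_ne_zero _
  obtain ⟨V, hV⟩ : ∃ V : ℂ → ℝ, V = fun w => (E * F w).im := ⟨_, rfl⟩
  have hVz : ∀ w, (exp (-(α : ℂ) * I) * F w).im = V w := by
    intro w
    rw [hV, hE]
  simp only [hVz] at h1 h2 hm2
  have hUo : IsOpen (dom c ρ') := isOpen_dom c ρ'
  have hVd : ∀ w ∈ dom c ρ', ContDiffAt ℝ 1 V w := by
    intro w hw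
    have ha : AnalyticAt ℂ F w := hF.diff.analyticAt (hUo.mem_nhds hw)
    have hb : ContDiffAt ℝ 1 F w := (ha.contDiffAt (n := 1)).restrict_scalars ℝ
    rw [hV]
    exact (Complex.imCLM.contDiff.contDiffAt).comp w (contDiffAt_const.mul hb)
  have hzball : ‖z - z0‖ < r := by
    refine lt_of_le_of_ne hzr fun h => ?_
    have := h1 z hz h
    linarith
  -- a point of the open domain
  obtain ⟨z1, hz1m, hz1r, hz1d⟩ : ∃ z1, m' < V z1 ∧ ‖z1 - z0‖ < r ∧ z1 ∈ dom c ρ := by
    have hc1 : ContinuousAt V z := (hVd z (cdom_subset_dom c hF.lt hz)).continuousAt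
    have hc2 : ContinuousAt (fun w : ℂ => ‖w - z0‖) z := by fun_prop
    have hev : ∀ᶠ w in 𝓝 z, m' < V w ∧ ‖w - z0‖ < r :=
      (hc1.eventually_const_lt hm2).and (hc2.eventually_lt_const hzball)
    obtain ⟨U, hUsub, hUo', hzU⟩ := _root_.mem_nhds_iff.1 hev
    obtain ⟨z1, hz1U, hz1d⟩ := nonempty_inter_dom hF.pos' hF.sep hz hUo' hzU
    exact ⟨z1, (hUsub hz1U).1, (hUsub hz1U).2, hz1d⟩
  -- shrinking the neighbourhood
  obtain ⟨ρ'', hρ1, hρ2, hρV⟩ : ∃ ρ'', ρ' ≤ ρ'' ∧ ρ'' < ρ ∧
      ∀ w ∈ dom c ρ'', ‖w - z0‖ = r → V w < m' := by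
    by_contra hno
    push Not at hno
    have hlt := hF.lt
    have hstep : ∀ n : ℕ, ∃ w, w ∈ dom c (ρ - (ρ - ρ') * (1 / ((n : ℝ) + 1))) ∧
        ‖w - z0‖ = r ∧ m' ≤ V w := by
      intro n
      have hn : (0 : ℝ) < 1 / ((n : ℝ) + 1) := by positivity
      have hn1 : 1 / ((n : ℝ) + 1) ≤ 1 := by
        rw [div_le_one (by positivity)]
        linarith [Nat.cast_nonneg (α := ℝ) n]
      obtain ⟨w, hw1, hw2, hw3⟩ := hno (ρ - (ρ - ρ') * (1 / ((n : ℝ) + 1)))
        (by nlinarith) (by nlinarith)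
      exact ⟨w, hw1, hw2, hw3⟩
    choose w hw1 hw2 hw3 using hstep
    obtain ⟨y, hy, ψ, hψ, hlim⟩ := (isCompact_sphere z0 r).tendsto_subseq
      (fun n => mem_sphere_iff_norm.2 (hw2 n))
    have hycd : y ∈ cdom c ρ := by
      intro a
      have ht1 : Tendsto (fun n => ρ - (ρ - ρ') * (1 / (((ψ n : ℕ) : ℝ) + 1))) atTop (𝓝 ρ) := by
        have ht0 : Tendsto (fun n : ℕ => 1 / ((n : ℝ) + 1)) atTop (𝓝 0) :=
          tendsto_one_div_add_atTop_nhds_zero_nat
        have ht2 := (ht0.comp hψ.tendsto_atTop).const_mul (ρ - ρ')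
        have ht3 := ht2.const_sub ρ
        rw [mul_zero, sub_zero] at ht3
        exact ht3
      have ht4 : Tendsto (fun n => ‖w (ψ n) - c a‖) atTop (𝓝 ‖y - c a‖) :=
        (hlim.sub_const (c a)).norm
      exact le_of_tendsto_of_tendsto' ht1 ht4 fun n => (hw1 (ψ n) a).le
    have hcy : ContinuousAt V y := (hVd y (cdom_subset_dom c hlt hycd)).continuousAt
    have hge : m' ≤ V y := ge_of_tendsto' (hcy.tendsto.comp hlim) fun n => hw3 (ψ n)
    have := h1 y hycd (mem_sphere_iff_norm.1 hy)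
    linarith
  have hF' : IsSlit c ρ ρ'' θ F q := hF.mono hρ1 hρ2
  have hsub : dom c ρ'' ⊆ dom c ρ' := dom_anti c hρ1
  classical
  obtain ⟨φ, hφdef⟩ : ∃ φ : ℂ → ℂ, φ = fun w =>
    if ‖w - z0‖ < r then (((max (V w - m') 0) ^ 2 : ℝ) : ℂ) else 0 := ⟨_, rfl⟩
  have hnear_in : ∀ w, ‖w - z0‖ < r →
      φ =ᶠ[𝓝 w] fun w => (((max (V w - m') 0) ^ 2 : ℝ) : ℂ) := by
    intro w hw
    have hc2 : ContinuousAt (fun w : ℂ => ‖w - z0‖) w := by fun_prop
    filter_upwards [hc2.eventually_lt_const hw] with x hx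
    rw [hφdef]
    simp only
    rw [if_pos hx]
  have hev_out : ∀ w ∈ dom c ρ'', ¬ ‖w - z0‖ < r →
      ∀ᶠ x in 𝓝 w, ‖x - z0‖ < r → V x < m' := by
    intro w hwd hw
    push Not at hw
    rcases eq_or_lt_of_le hw with h | h
    · have hlt := hρV w hwd h.symm
      have hc1 : ContinuousAt V w := (hVd w (hsub hwd)).continuousAt
      filter_upwards [hc1.eventually_lt_const hlt] with x hx
      exact fun _ => hx
    · have hc2 : ContinuousAt (fun w : ℂ => ‖w - z0‖) w := by fun_prop
      filter_upwards [hc2.eventually_const_lt h] with x hx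
      intro h3
      exact absurd h3 (not_lt.2 hx.le)
  have hnear_out : ∀ w ∈ dom c ρ'', ¬ ‖w - z0‖ < r → φ =ᶠ[𝓝 w] fun _ => 0 := by
    intro w hwd hw
    filter_upwards [hev_out w hwd hw] with x hx
    rw [hφdef]
    simp only
    split_ifs with h3
    · rw [max_eq_right (by linarith [hx h3])]
      simp
    · rfl
  have hφC : ContDiffOn ℝ 1 φ (dom c ρ'') := by
    intro w hw
    refine ContDiffAt.contDiffWithinAt ?_
    by_cases hin : ‖w - z0‖ < r
    · refine ContDiffAt.congr_of_eventuallyEq ?_ (hnear_in w hin)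
      have h3 : ContDiffAt ℝ 1 (fun x => (max (V x - m') 0) ^ 2) w :=
        (c5_contDiff.contDiffAt).comp w ((hVd w (hsub hw)).sub contDiffAt_const)
      exact (Complex.ofRealCLM.contDiff.contDiffAt).comp w h3
    · exact ContDiffAt.congr_of_eventuallyEq contDiffAt_const (hnear_out w hw hin)
  have hR : ∀ w, ‖z0‖ + r ≤ ‖w‖ → φ w = 0 := by
    intro w hw
    rw [hφdef]
    simp only
    rw [if_neg]
    have := norm_sub_norm_le w z0
    intro h3
    linarith
  have hΨex : ∀ a, ∃ Ψ : ℝ → ℂ, Continuous Ψ ∧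
      ∀ w, ‖w - c a‖ = ρ → φ w = Ψ ((exp (-(θ a : ℂ) * I) * F w).re) := by
    intro a
    by_cases hmeet : ∃ w, ‖w - c a‖ ≤ ρ ∧ ‖w - z0‖ = r
    · refine ⟨fun _ => 0, continuous_const, fun w hw => ?_⟩
      have h3 := h2 a hmeet w hw
      rw [hφdef]
      simp only
      split_ifs with h4
      · rw [max_eq_right (by linarith)]
        simp
      · rfl
    · have hself : ‖c a - c a‖ ≤ ρ := by
        rw [sub_self, norm_zero]
        exact hF.pos'.le
      by_cases hin : ‖c a - z0‖ < r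
      · refine ⟨fun s => (((max (Real.sin (θ a - α) * s + Real.cos (θ a - α) * q a - m') 0) ^ 2 : ℝ) : ℂ),
          by fun_prop, fun w hw => ?_⟩
        have hwin : ‖w - z0‖ < r := c5_side hmeet hself hw.le hin
        rw [hφdef]
        simp only
        rw [if_pos hwin]
        have hb := hF.bdry a w hw
        have h5 : E * F w = exp (((θ a - α : ℝ) : ℂ) * I) * (exp (-(θ a : ℂ) * I) * F w) := by
          rw [hE, ← mul_assoc, ← exp_add]
          congr 2
          push_cast
          ring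
        have h6 : V w = Real.sin (θ a - α) * (exp (-(θ a : ℂ) * I) * F w).re +
            Real.cos (θ a - α) * q a := by
          rw [hV]
          simp only
          rw [h5, mul_im, exp_ofReal_mul_I_re, exp_ofReal_mul_I_im, hb]
          ring
        rw [h6]
      · refine ⟨fun _ => 0, continuous_const, fun w hw => ?_⟩
        rw [hφdef]
        simp only
        rw [if_neg]
        intro h4
        exact hin (c5_side hmeet hw.le hself h4)
  choose Ψ hΨc hΨ using hΨex
  have hst := stokes hF'.toCompat hφC hR Ψ hΨc hΨ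
  obtain ⟨G, hG⟩ : ∃ G : ℂ → ℝ, G = fun w =>
    if ‖w - z0‖ < r then max (V w - m') 0 * ‖deriv F w‖ ^ 2 else 0 := ⟨_, rfl⟩
  have hsub2 : cdom c ρ ⊆ dom c ρ'' := cdom_subset_dom c hρ2
  have hpt : ∀ w ∈ dom c ρ, dbar φ w * deriv F w = (I * (starRingEnd ℂ) E) * (G w : ℂ) := by
    intro w hw
    have hwd : w ∈ dom c ρ'' := hsub2 (dom_subset_cdom c ρ hw)
    have hFd : DifferentiableAt ℂ F w := hF'.toCompat.differentiableAt hwd
    rw [hG]
    simp only
    by_cases hin : ‖w - z0‖ < r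
    · rw [if_pos hin, c5_dbar_congr (hnear_in w hin)]
      have hσ : HasDerivAt (fun t : ℝ => (max (t - m') 0) ^ 2) (2 * max (V w - m') 0) (V w) :=
        HasDerivAt.comp_sub_const (V w) m' (c5_sq (V w - m'))
      have hvd : DifferentiableAt ℝ V w := (hVd w (hsub hwd)).differentiableAt one_ne_zero
      have h3 := dbar_comp_real hσ hvd
      have h4 : dbar (fun x => ((V x : ℝ) : ℂ)) w = I / 2 * (starRingEnd ℂ) (deriv (fun x => E * F x) w) := by
        rw [hV]
        exact dbar_im_holo (hFd.const_mul E)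
      have h5 : deriv (fun x => E * F x) w = E * deriv F w := deriv_const_mul E hFd
      rw [h3, h4, h5, map_mul]
      have h6 : (starRingEnd ℂ) (deriv F w) * deriv F w = ((‖deriv F w‖ ^ 2 : ℝ) : ℂ) := by
        rw [Complex.conj_mul']
        push_cast
        try rfl
      push_cast at h6 ⊢
      calc _ = I * (starRingEnd ℂ) E * (((max (V w - m') 0 : ℝ) : ℂ) *
            ((starRingEnd ℂ) (deriv F w) * deriv F w)) := by push_cast; ring
        _ = _ := by rw [h6]
    · rw [if_neg hin, c5_dbar_congr (hnear_out w hwd hin), dbar_const]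
      simp
  have hGint0 : ∫ w in dom c ρ, G w = 0 := by
    have h3 : ∫ w in dom c ρ, dbar φ w * deriv F w =
        ∫ w in dom c ρ, (I * (starRingEnd ℂ) E) * (G w : ℂ) :=
      setIntegral_congr_fun (isOpen_dom c ρ).measurableSet hpt
    have h6 : ∫ w in dom c ρ, ((G w : ℝ) : ℂ) = ((∫ w in dom c ρ, G w : ℝ) : ℂ) :=
      integral_ofReal
    rw [hst, integral_const_mul, h6] at h3
    have h4 : I * (starRingEnd ℂ) E ≠ 0 :=
      mul_ne_zero I_ne_zero ((map_ne_zero _).2 hE0)
    have h5 := (mul_eq_zero.1 h3.symm).resolve_left h4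
    exact_mod_cast h5
  have hGc : ∀ w ∈ dom c ρ'', ContinuousAt G w := by
    intro w hw
    by_cases hin : ‖w - z0‖ < r
    · have hev : G =ᶠ[𝓝 w] fun w => max (V w - m') 0 * ‖deriv F w‖ ^ 2 := by
        have hc2 : ContinuousAt (fun w : ℂ => ‖w - z0‖) w := by fun_prop
        filter_upwards [hc2.eventually_lt_const hin] with x hx
        rw [hG]
        simp only
        rw [if_pos hx]
      refine ContinuousAt.congr ?_ hev.symm
      have hc1 : ContinuousAt V w := (hVd w (hsub hw)).continuousAt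
      have hc3 : ContinuousAt (deriv F) w := (hF'.toCompat.differentiableAt_deriv hw).continuousAt
      exact ((hc1.sub continuousAt_const).max continuousAt_const).mul (hc3.norm.pow 2)
    · have hev : G =ᶠ[𝓝 w] fun _ => 0 := by
        filter_upwards [hev_out w hw hin] with x hx
        rw [hG]
        simp only
        split_ifs with h3
        · rw [max_eq_right (by linarith [hx h3]), zero_mul]
        · rfl
      exact ContinuousAt.congr continuousAt_const hev.symm
  have hG0 : ∀ w, 0 ≤ G w := by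
    intro w
    rw [hG]
    simp only
    split_ifs
    · exact mul_nonneg (le_max_right _ _) (by positivity)
    · exact le_refl 0
  have hGi : IntegrableOn G (dom c ρ) := by
    have h3 : IntegrableOn G (cdom c ρ ∩ closedBall z0 r) := by
      refine ContinuousOn.integrableOn_compact
        ((isCompact_closedBall z0 r).inter_left (isClosed_cdom c ρ)) ?_
      intro w hw
      exact (hGc w (hsub2 hw.1)).continuousWithinAt
    have h4 : IntegrableOn G (dom c ρ \ closedBall z0 r) := by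
      refine IntegrableOn.congr_fun (integrableOn_zero) ?_
        ((isOpen_dom c ρ).measurableSet.diff measurableSet_closedBall)
      intro w hw
      have h5 : ¬ ‖w - z0‖ < r := fun h6 => hw.2 (mem_closedBall_iff_norm.2 h6.le)
      rw [hG]
      simp only
      rw [if_neg h5]
    refine (h3.union h4).mono_set ?_
    intro w hw
    by_cases h5 : w ∈ closedBall z0 r
    · exact Or.inl ⟨dom_subset_cdom c ρ hw, h5⟩
    · exact Or.inr ⟨hw, h5⟩
  have hae : G =ᵐ[volume.restrict (dom c ρ)] 0 :=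
    (setIntegral_eq_zero_iff_of_nonneg_ae (ae_of_all _ hG0) hGi).1 hGint0
  have hzero : EqOn G 0 (dom c ρ) := by
    refine Measure.eqOn_open_of_ae_eq hae (isOpen_dom c ρ) ?_ continuousOn_const
    intro w hw
    exact (hGc w (hsub2 (dom_subset_cdom c ρ hw))).continuousWithinAt
  -- the derivative vanishes near `z1`
  have hdz : deriv F =ᶠ[𝓝 z1] 0 := by
    have hc1 : ContinuousAt V z1 :=
      (hVd z1 (cdom_subset_dom c hF.lt (dom_subset_cdom c ρ hz1d))).continuousAt
    have hc2 : ContinuousAt (fun w : ℂ => ‖w - z0‖) z1 := by fun_prop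
    filter_upwards [hc1.eventually_const_lt hz1m, hc2.eventually_lt_const hz1r,
      (isOpen_dom c ρ).mem_nhds hz1d] with x hx1 hx2 hx3
    have h3 := hzero hx3
    rw [hG] at h3
    simp only [Pi.zero_apply] at h3
    rw [if_pos hx2, max_eq_left (by linarith)] at h3
    have h4 := (mul_eq_zero.1 h3).resolve_left (by linarith)
    have h5 := pow_eq_zero_iff (two_ne_zero) |>.1 h4
    exact norm_eq_zero.1 h5
  have hFdom : DifferentiableOn ℂ F (dom c ρ) := hF'.diff.mono
    ((dom_subset_cdom c ρ).trans hsub2)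
  have hpre : IsPreconnected (dom c ρ) := isPreconnected_dom hF.pos' hF.sep
  have hall : EqOn (deriv F) 0 (dom c ρ) :=
    ((hFdom.deriv (isOpen_dom c ρ)).analyticOnNhd
      (isOpen_dom c ρ)).eqOn_zero_of_preconnected_of_eventuallyEq_zero hpre hz1d hdz
  have hconst : ∀ w ∈ dom c ρ, F w = F z1 := fun w hw =>
    (isOpen_dom c ρ).is_const_of_deriv_eq_zero hpre hFdom hall hw hz1d
  have hlim := hF.lim
  have hlim2 : Tendsto (fun w : ℂ => w) (cocompact ℂ) (𝓝 (F z1)) := by
    have h3 := hlim.const_sub (F z1)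
    rw [sub_zero] at h3
    refine h3.congr' ?_
    filter_upwards [eventually_mem_dom c ρ] with w hw
    rw [hconst w hw]
    ring
  exact not_tendsto_nhds_of_tendsto_atTop (tendsto_norm_cocompact_atTop (E := ℂ)) ‖F z1‖ hlim2.norm

end RSM
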