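import Pool.Agent.RSM.C4
import Pool.Agent.RSM.C5

/-!
# RSM module C6: uniform bound for the slit map

PROOF.  For `‖z‖ = 3R0`, `‖F z‖ ≤ 3R0 + 18R0²/(3R0) = 9R0` by `far_bound`.  No closed disc meets
the circle `‖w‖ = 3R0` (`‖w‖ ≤ ‖c a‖ + ρ < R0`).  So for every real `α`, `max_principle` with
`z0 = 0`, `r = 3R0`, `m = 9R0` gives `Im (exp (-iα) F z) ≤ 9R0` for `z ∈ cdom c ρ`, `‖z‖ ≤ 3R0`;
choose `α` with `exp (-iα) F z = i ‖F z‖`.
-/

open Complex Set Metric Filter Topology MeasureTheory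

namespace RSM

variable {ι : Type} {c : ι → ℂ} {ρ ρ' : ℝ} {θ : ι → ℝ} {F : ℂ → ℂ} {q : ι → ℝ}

theorem norm_le [Finite ι] (hF : IsSlit c ρ ρ' θ F q) {R0 : ℝ} (h0 : 0 < R0)
    (hR : ∀ a, ‖c a‖ + ρ < R0) {z : ℂ} (hz : z ∈ cdom c ρ) (hz3 : ‖z‖ ≤ 3 * R0) :
    ‖F z‖ ≤ 9 * R0 := by
  have hexp : ∀ (α : ℝ) (w : ℂ), ‖exp (-(α : ℂ) * I) * w‖ = ‖w‖ := by
    intro α w
    rw [norm_mul]
    have : ‖exp (-(α : ℂ) * I)‖ = 1 := by
      have := Complex.norm_exp_ofReal_mul_I (-α)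
      rwa [Complex.ofReal_neg] at this
    rw [this, one_mul]
  have h2 := max_principle hF (z0 := 0) (r := 3 * R0) (by positivity) (arg (F z) - Real.pi / 2)
    (9 * R0) (fun w _ hw => ?_) (fun a ha => ?_) hz (by rwa [sub_zero])
  · have e : exp (-((arg (F z) - Real.pi / 2 : ℝ) : ℂ) * I) * F z = (‖F z‖ : ℂ) * I := by
      conv_lhs => rw [← Complex.norm_mul_exp_arg_mul_I (F z)]
      rw [mul_left_comm, ← Complex.exp_add, Complex.norm_mul_exp_arg_mul_I]
      have e2 : -((arg (F z) - Real.pi / 2 : ℝ) : ℂ) * I + (arg (F z) : ℂ) * I =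
          (Real.pi / 2 : ℂ) * I := by
        push_cast
        ring
      rw [e2, Complex.exp_pi_div_two_mul_I]
    rw [e] at h2
    simpa using h2
  · rw [sub_zero] at hw
    refine (Complex.abs_im_le_norm _ |> (le_abs_self _).trans).trans ?_
    rw [hexp]
    have h3 := far_bound hF h0 hR (z := w) hw.ge
    rw [hw] at h3
    have h4 : 18 * R0 ^ 2 / (3 * R0) = 6 * R0 := by
      field_simp
      norm_num
    rw [h4] at h3
    have h5 : ‖F w‖ ≤ ‖F w - w‖ + ‖w‖ := by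
      have := norm_add_le (F w - w) w
      rwa [sub_add_cancel] at this
    rw [hw] at h5
    linarith
  · exfalso
    obtain ⟨w, hw1, hw2⟩ := ha
    rw [sub_zero] at hw2
    have h3 : ‖w‖ ≤ ‖w - c a‖ + ‖c a‖ := by
      have := norm_add_le (w - c a) (c a)
      rwa [sub_add_cancel] at this
    have h4 := hR a
    linarith

end RSM
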