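import Pool.Agent.RSM.Basic
import Pool.Agent.RSM.A5
import Pool.Agent.RSM.C1

/-!
# RSM module C7: the area formula (every value is taken once, on average)

PROOF.  Put `K s = ∫ t in 0..s, k t`: a `C¹` function, `K = 0` for `s ≤ T1`, `K = K∞ := ∫ t, k t`
for `s ≥ T2` (`k` vanishes outside `[T1, T2]`).  Put `Y w = K (‖w - w0‖²) / (w - w0)`
(`Y w0 = 0`); it is a `C¹` function on `ℂ`, zero near `w0`, equal to `K∞/(w - w0)` for
`‖w - w0‖² ≥ T2`, with `dbar Y w = k (‖w - w0‖²)` (as `dbar (‖w - w0‖²) = w - w0`).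
Let `χ_R z = 1 - cut 0 R R z`.  Apply `stokes` to `φ z = Y (F z) * χ_R z`, `R` larger than an `R0`
with `‖c a‖ + ρ < R0`, with `Ψ a s = Y (exp (iθ a) (s + i q a))`.  By `dbar_comp_holo`,
`dbar φ = k (‖F z - w0‖²) conj (F') χ_R + Y (F z) dbar χ_R`; so
  `∫_{dom} k (‖F - w0‖²) ‖F'‖² χ_R = -∫ Y (F z) F' dbar χ_R`.
As `F z - z → 0` at infinity, `k (‖F z - w0‖²) = 0` for `‖z‖` large; so for large `R` the left side
is `∫_{dom} k (‖F - w0‖²) ‖F'‖²`.  On the support of `dbar χ_R` (`R ≤ ‖z‖ ≤ 2R`, `R` large)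
`Y (F z) F' = K∞ F'/(F - w0) = K∞ (1/z + E z)` with `‖z‖ ‖E z‖ → 0` at infinity (as `F - z → 0` and
`z (F' - 1) → 0` by `mul_deriv_tendsto`).  In polar coordinates, `dbar χ_R = χ'(r) e^{it}/2`,
`-∫ (1/z) dbar χ_R = -∫ r, χ'(r) (1/2) (2π) dr = π`, and the error is at most
`K∞ sup (‖z‖ ‖E z‖) ∫ |χ'(r)| π dr → 0`.  So the left side is `π K∞`.
(Instead of computing with polar coordinates: `dbar (cut 0 R R)` against `1/z` is also given by
`Pool.Lib.integral_dbar_div` applied to `1 - cut 0 R R`, compactly supported and `= 1` at `0`: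
`∫ dbar χ_R z / z = -π χ_R 0 = -π`.)
-/

open Complex Set Metric Filter Topology MeasureTheory

namespace RSM

variable {ι : Type} {c : ι → ℂ} {ρ ρ' : ℝ} {θ : ι → ℝ} {F : ℂ → ℂ} {q : ι → ℝ}

namespace C7

/-- The primitive `K`. -/
noncomputable def KK (k : ℝ → ℝ) (s : ℝ) : ℝ := ∫ t in (0:ℝ)..s, k t

theorem hasDerivAt_KK {k : ℝ → ℝ} (hk : Continuous k) (s : ℝ) : HasDerivAt (KK k) (k s) s :=
  (hk.integral_hasStrictDerivAt 0 s).hasDerivAt

theorem contDiff_KK {k : ℝ → ℝ} (hk : Continuous k) : ContDiff ℝ 1 (KK k) := by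
  rw [contDiff_one_iff_deriv]
  refine ⟨fun s => (hasDerivAt_KK hk s).differentiableAt, ?_⟩
  have : deriv (KK k) = k := by
    ext s
    exact (hasDerivAt_KK hk s).deriv
  rw [this]
  exact hk

theorem KK_eq_zero {k : ℝ → ℝ} {T1 : ℝ} (hT1 : 0 < T1) (hk1 : ∀ t ≤ T1, k t = 0) {s : ℝ}
    (hs : s ≤ T1) : KK k s = 0 := by
  unfold KK
  rw [intervalIntegral.integral_congr (g := fun _ => (0 : ℝ))]
  · simp
  · intro t ht
    rw [uIcc, mem_Icc] at ht
    exact hk1 t (ht.2.trans (sup_le hT1.le hs))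

theorem KK_eq {k : ℝ → ℝ} {T1 T2 : ℝ} (hT1 : 0 < T1) (hk1 : ∀ t ≤ T1, k t = 0)
    (hk2 : ∀ t, T2 ≤ t → k t = 0) {s : ℝ} (hs : T2 ≤ s) : KK k s = ∫ t, k t := by
  unfold KK
  apply intervalIntegral.integral_eq_integral_of_support_subset
  intro t ht
  rw [Function.mem_support] at ht
  constructor
  · by_contra h
    exact ht (hk1 t (by linarith [not_lt.1 h]))
  · by_contra h
    exact ht (hk2 t (by linarith [not_le.1 h]))

/-- The function `Y`. -/
noncomputable def YY (k : ℝ → ℝ) (w0 w : ℂ) : ℂ := (KK k (‖w - w0‖ ^ 2) : ℂ) * (w - w0)⁻¹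

theorem contDiff_normsq (w0 : ℂ) : ContDiff ℝ 1 (fun w : ℂ => ‖w - w0‖ ^ 2) :=
  (contDiff_id.sub contDiff_const).norm_sq ℝ

theorem YY_ev_zero {k : ℝ → ℝ} {T1 : ℝ} (hT1 : 0 < T1) (hk1 : ∀ t ≤ T1, k t = 0) (w0 : ℂ) :
    YY k w0 =ᶠ[𝓝 w0] fun _ => 0 := by
  have h : ∀ᶠ w in 𝓝 w0, ‖w - w0‖ ^ 2 < T1 := by
    have hc : ContinuousAt (fun w : ℂ => ‖w - w0‖ ^ 2) w0 :=
      (contDiff_normsq w0).continuous.continuousAt
    exact hc.eventually_lt continuousAt_const (by simpa using hT1)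
  filter_upwards [h] with w hw
  rw [YY, KK_eq_zero hT1 hk1 hw.le]
  simp

theorem contDiff_YY {k : ℝ → ℝ} (hk : Continuous k) {T1 : ℝ} (hT1 : 0 < T1)
    (hk1 : ∀ t ≤ T1, k t = 0) (w0 : ℂ) : ContDiff ℝ 1 (YY k w0) := by
  rw [contDiff_iff_contDiffAt]
  intro w
  by_cases hw : w = w0
  · rw [hw]
    exact contDiffAt_const.congr_of_eventuallyEq (YY_ev_zero hT1 hk1 w0)
  · unfold YY
    refine ContDiffAt.mul ?_ ?_
    · exact (Complex.ofRealCLM.contDiff.comp ((contDiff_KK hk).comp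
        (contDiff_normsq w0))).contDiffAt
    · exact (contDiffAt_id.sub contDiffAt_const).inv (sub_ne_zero.2 hw)

theorem dbar_normsq (w0 z : ℂ) : dbar (fun w => ((‖w - w0‖ ^ 2 : ℝ) : ℂ)) z = z - w0 := by
  have h1 : (fun w : ℂ => ((‖w - w0‖ ^ 2 : ℝ) : ℂ))
      = fun w => (starRingEnd ℂ) (w - w0) * (w - w0) := by
    ext w
    rw [mul_comm, Complex.mul_conj, Complex.normSq_eq_norm_sq]
  have hd : DifferentiableAt ℂ (fun w : ℂ => w - w0) z := by fun_prop
  have hd' : DifferentiableAt ℝ (fun w : ℂ => (starRingEnd ℂ) (w - w0)) z := by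
    have : DifferentiableAt ℝ (fun w : ℂ => Complex.conjCLE (w - w0)) z := by fun_prop
    exact this
  rw [h1, dbar_mul_holo hd' hd, dbar_conj_holo hd]
  simp

theorem dbar_YY {k : ℝ → ℝ} (hk : Continuous k) {T1 : ℝ} (hT1 : 0 < T1)
    (hk1 : ∀ t ≤ T1, k t = 0) (w0 w : ℂ) : dbar (YY k w0) w = (k (‖w - w0‖ ^ 2) : ℂ) := by
  by_cases hw : w = w0
  · rw [hw, Pool.Lib.dbar_congr (YY_ev_zero hT1 hk1 w0), dbar_const]
    simp [hk1 0 hT1.le]
  · have h1 : DifferentiableAt ℂ (fun w : ℂ => (w - w0)⁻¹) w :=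
      (differentiableAt_id.sub (differentiableAt_const _)).inv (sub_ne_zero.2 hw)
    have h2 : DifferentiableAt ℝ (fun w : ℂ => ‖w - w0‖ ^ 2) w :=
      (contDiff_normsq w0).differentiable one_ne_zero w
    have h3 : DifferentiableAt ℝ (fun w : ℂ => (KK k (‖w - w0‖ ^ 2) : ℂ)) w :=
      (Complex.ofRealCLM.contDiff.comp ((contDiff_KK hk).comp
        (contDiff_normsq w0))).differentiable one_ne_zero w
    unfold YY
    rw [dbar_mul_holo h3 h1, dbar_comp_real (hasDerivAt_KK hk _) h2, dbar_normsq]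
    have := sub_ne_zero.2 hw
    field_simp

/-! ### the cut-off at infinity -/

noncomputable def chi (R : ℝ) (z : ℂ) : ℂ := 1 - (cut 0 R R z : ℂ)

theorem contDiff_chi {R : ℝ} (hR : 0 < R) : ContDiff ℝ 1 (chi R) :=
  contDiff_const.sub (contDiff_cut_ofReal (n := 1) hR hR)

theorem chi_one {R : ℝ} (hR : 0 < R) {z : ℂ} (hz : ‖z‖ ≤ R) : chi R z = 1 := by
  rw [chi, cut_eq_zero hR (by simpa using hz)]; simp

theorem chi_zero {R : ℝ} (hR : 0 < R) {z : ℂ} (hz : 2 * R ≤ ‖z‖) : chi R z = 0 := by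
  rw [chi, cut_eq_one hR (by simpa [two_mul] using hz)]; simp

theorem hasCompactSupport_chi {R : ℝ} (hR : 0 < R) : HasCompactSupport (chi R) := by
  refine HasCompactSupport.of_support_subset_isCompact (isCompact_closedBall (0:ℂ) (2*R)) ?_
  intro z hz
  rw [Function.mem_support] at hz
  rw [mem_closedBall, dist_zero_right]
  by_contra h
  exact hz (chi_zero hR (by linarith [not_le.1 h]))

theorem chi_scale {R : ℝ} (hR : 0 < R) (z : ℂ) : chi R z = chi 1 (((R⁻¹ : ℝ) : ℂ) * z) := by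
  unfold chi cut
  congr 3
  rw [sub_zero, sub_zero, norm_mul, norm_real, Real.norm_of_nonneg (by positivity)]
  field_simp

theorem hasCompactSupport_dbar_chi {R : ℝ} (hR : 0 < R) : HasCompactSupport (dbar (chi R)) :=
  (hasCompactSupport_chi hR).isCompact.of_isClosed_subset (isClosed_tsupport _)
    (Pool.Lib.tsupport_dbar_subset _)

theorem dbar_chi_bound : ∃ C, 0 ≤ C ∧ ∀ R > 0, ∀ z, ‖dbar (chi R) z‖ ≤ C / R := by
  have h1 := contDiff_chi one_pos
  have h2 := Pool.Lib.continuous_dbar h1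
  obtain ⟨C, hC⟩ := h2.bounded_above_of_compact_support (hasCompactSupport_dbar_chi one_pos)
  refine ⟨C, (norm_nonneg _).trans (hC 0), fun R hR z => ?_⟩
  have h4 : chi R = fun w => chi 1 (((R⁻¹:ℝ):ℂ) * w) := funext fun w => chi_scale hR w
  rw [h4, dbar_comp_holo (Y := chi 1) (F := fun w => ((R⁻¹:ℝ):ℂ) * w)
    (h1.differentiable one_ne_zero _) (by fun_prop)]
  rw [norm_mul, RCLike.norm_conj, deriv_const_mul _ differentiableAt_id, norm_mul, norm_real,
    Real.norm_of_nonneg (by positivity), div_eq_mul_inv]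
  have h5 : ‖deriv (fun w : ℂ => w) z‖ = 1 := by simp
  rw [h5, mul_one]
  exact mul_le_mul_of_nonneg_right (hC _) (by positivity)

theorem dbar_chi_zero {R : ℝ} (hR : 0 < R) {z : ℂ} (hz : ‖z‖ < R ∨ 2 * R < ‖z‖) :
    dbar (chi R) z = 0 := by
  rcases hz with hz | hz
  · have : chi R =ᶠ[𝓝 z] fun _ => 1 := by
      filter_upwards [(isOpen_lt continuous_norm continuous_const).mem_nhds hz] with w hw
      exact chi_one hR (le_of_lt hw)
    rw [Pool.Lib.dbar_congr this, dbar_const]
  · have : chi R =ᶠ[𝓝 z] fun _ => 0 := by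
      filter_upwards [(isOpen_lt continuous_const continuous_norm).mem_nhds hz] with w hw
      exact chi_zero hR (le_of_lt hw)
    rw [Pool.Lib.dbar_congr this, dbar_const]

theorem integral_dbar_chi {R : ℝ} (hR : 0 < R) : ∫ z, z⁻¹ * dbar (chi R) z = -Real.pi := by
  have := Pool.Lib.integral_dbar_div (chi R) (contDiff_chi hR) (hasCompactSupport_chi hR)
  rw [chi_one hR (by simpa using hR.le), mul_one] at this
  rw [← this]
  congr 1
  ext z
  rw [div_eq_mul_inv, mul_comm]

theorem continuous_mul_dbar_chi {f : ℂ → ℂ} {R' R : ℝ} (hR : 0 < R) (hR' : R' < R)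
    (hf : ContinuousOn f {z | R' < ‖z‖}) : Continuous (fun z => f z * dbar (chi R) z) := by
  rw [continuous_iff_continuousAt]
  intro z
  by_cases hz : ‖z‖ < R
  · have : (fun z => f z * dbar (chi R) z) =ᶠ[𝓝 z] fun _ => 0 := by
      filter_upwards [(isOpen_lt continuous_norm continuous_const).mem_nhds hz] with w hw
      rw [dbar_chi_zero hR (Or.inl hw), mul_zero]
    exact continuousAt_const.congr this.symm
  · have h1 : ContinuousAt f z := hf.continuousAt
      ((isOpen_lt continuous_const continuous_norm).mem_nhds (by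
        show R' < ‖z‖
        linarith [not_lt.1 hz]))
    exact h1.mul (Pool.Lib.continuous_dbar (contDiff_chi hR)).continuousAt

theorem integrable_mul_dbar_chi {f : ℂ → ℂ} {R' R : ℝ} (hR : 0 < R) (hR' : R' < R)
    (hf : ContinuousOn f {z | R' < ‖z‖}) : Integrable (fun z => f z * dbar (chi R) z) :=
  (continuous_mul_dbar_chi hR hR' hf).integrable_of_hasCompactSupport
    ((hasCompactSupport_dbar_chi hR).mul_left)

/-! ### behaviour at infinity -/

theorem tendsto_inv_cocompact : Tendsto (fun z : ℂ => z⁻¹) (cocompact ℂ) (𝓝 0) := by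
  rw [← Metric.cobounded_eq_cocompact]
  exact Filter.tendsto_inv₀_cobounded

theorem tendsto_deriv [Finite ι] (hF : IsSlit c ρ ρ' θ F q) :
    Tendsto (fun z => deriv F z) (cocompact ℂ) (𝓝 1) := by
  obtain ⟨R, hR0, hR⟩ := exists_inball c ρ'
  have hd : DifferentiableOn ℂ (fun z => F z - z) {z | R < ‖z‖} := by
    refine DifferentiableOn.sub (hF.diff.mono ?_) differentiableOn_id
    intro z hz
    exact mem_dom_of_le_norm hR (le_of_lt hz)
  have h1 := mul_deriv_tendsto hR0 hd hF.lim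
  have h2 : Tendsto (fun z => z⁻¹ * (z * deriv (fun z => F z - z) z) + 1) (cocompact ℂ)
      (𝓝 (0 * 0 + 1)) := (tendsto_inv_cocompact.mul h1).add_const 1
  rw [zero_mul, zero_add] at h2
  refine h2.congr' ?_
  have h3 : ∀ᶠ z in cocompact ℂ, z ∈ dom c ρ' := eventually_mem_dom c ρ'
  have h4 : ∀ᶠ z : ℂ in cocompact ℂ, z ≠ 0 := by
    have : ({0} : Set ℂ)ᶜ ∈ cocompact ℂ := isCompact_singleton.compl_mem_cocompact
    filter_upwards [this] with z hz using hz
  filter_upwards [h3, h4] with z hz hz0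
  have h5 : deriv (fun z => F z - z) z = deriv F z - 1 := by
    have h6 : HasDerivAt (fun z => F z - z) (deriv F z - 1) z :=
      (hF.toCompat.differentiableAt hz).hasDerivAt.sub (hasDerivAt_id z)
    exact h6.deriv
  rw [h5]
  field_simp
  ring

theorem tendsto_E [Finite ι] (hF : IsSlit c ρ ρ' θ F q) (w0 : ℂ) :
    Tendsto (fun z => z * (deriv F z / (F z - w0)) - 1) (cocompact ℂ) (𝓝 0) := by
  have h4 : ∀ᶠ z : ℂ in cocompact ℂ, z ≠ 0 := by
    have : ({0} : Set ℂ)ᶜ ∈ cocompact ℂ := isCompact_singleton.compl_mem_cocompact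
    filter_upwards [this] with z hz using hz
  have h1 : Tendsto (fun z => 1 + (F z - z) * z⁻¹ - w0 * z⁻¹) (cocompact ℂ)
      (𝓝 (1 + 0 * 0 - w0 * 0)) :=
    (tendsto_const_nhds.add (hF.lim.mul tendsto_inv_cocompact)).sub
      (tendsto_inv_cocompact.const_mul w0)
  have h2 : Tendsto (fun z => (F z - w0) * z⁻¹) (cocompact ℂ) (𝓝 1) := by
    have : (1 : ℂ) + 0 * 0 - w0 * 0 = 1 := by ring
    rw [this] at h1
    refine h1.congr' ?_
    filter_upwards [h4] with z hz
    field_simp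
    ring
  have h3 := ((tendsto_deriv hF).mul (h2.inv₀ one_ne_zero)).sub_const 1
  have : (1 : ℂ) * 1⁻¹ - 1 = 0 := by norm_num
  rw [this] at h3
  refine h3.congr fun z => ?_
  rw [mul_inv, inv_inv, div_eq_mul_inv]
  ring

theorem tendsto_norm [Finite ι] (hF : IsSlit c ρ ρ' θ F q) (w0 : ℂ) :
    Tendsto (fun z => ‖F z - w0‖) (cocompact ℂ) atTop := by
  have h1 : Tendsto (fun z : ℂ => ‖z‖) (cocompact ℂ) atTop := tendsto_norm_cocompact_atTop
  have h2 : Tendsto (fun z => ‖F z - z‖) (cocompact ℂ) (𝓝 0) := by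
    simpa using hF.lim.norm
  have h3 : ∀ᶠ z in cocompact ℂ, ‖F z - z‖ < 1 := h2.eventually_lt_const one_pos
  refine tendsto_atTop_mono' _ ?_ (tendsto_atTop_add_const_right _ (-1 - ‖w0‖) h1)
  filter_upwards [h3] with z hz
  have h5 : ‖z‖ ≤ ‖F z - w0‖ + ‖F z - z‖ + ‖w0‖ := by
    calc ‖z‖ = ‖(F z - w0) - (F z - z) + w0‖ := by congr 1; ring
      _ ≤ ‖(F z - w0) - (F z - z)‖ + ‖w0‖ := norm_add_le _ _
      _ ≤ _ := by gcongr; exact norm_sub_le _ _
  linarith

end C7

open C7

theorem area_formula [Finite ι] (hF : IsSlit c ρ ρ' θ F q) (w0 : ℂ) {T1 T2 : ℝ} (hT1 : 0 < T1)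
    (hT : T1 < T2) {k : ℝ → ℝ} (hk : Continuous k) (hk1 : ∀ t ≤ T1, k t = 0)
    (hk2 : ∀ t, T2 ≤ t → k t = 0) :
    ∫ z in dom c ρ, k (‖F z - w0‖ ^ 2) * ‖deriv F z‖ ^ 2 = Real.pi * ∫ t, k t := by
  have hρ : 0 < ρ := hF.toCompat.pos'
  have hsub : cdom c ρ ⊆ dom c ρ' := cdom_subset_dom c hF.lt
  have hsub' : dom c ρ ⊆ dom c ρ' := dom_anti c hF.lt.le
  obtain ⟨C, hC0, hC⟩ := dbar_chi_bound
  obtain ⟨R0, hR00, hR0⟩ := exists_inball c ρ
  have hFd : ∀ z ∈ dom c ρ', DifferentiableAt ℂ F z := fun z hz => hF.toCompat.differentiableAt hz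
  have hFc : ContinuousOn F (dom c ρ') := hF.diff.continuousOn
  have hF'c : ContinuousOn (deriv F) (dom c ρ') := fun z hz =>
    (hF.toCompat.differentiableAt_deriv hz).continuousAt.continuousWithinAt
  set Kinf : ℂ := ((∫ t, k t : ℝ) : ℂ) with hKinf
  -- a radius beyond which everything is as at infinity
  have hT20 : 0 < T2 := hT1.trans hT
  have hev : ∀ᶠ z in cocompact ℂ, T2 ≤ ‖F z - w0‖ ^ 2 := by
    have h1 := (tendsto_norm hF w0).eventually_ge_atTop (max T2 1)
    filter_upwards [h1] with z hz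
    have h2 : T2 ≤ ‖F z - w0‖ := (le_max_left _ _).trans hz
    have h3 : 1 ≤ ‖F z - w0‖ := (le_max_right _ _).trans hz
    nlinarith
  have key : ∀ ε > 0, ‖(∫ z in dom c ρ, ((k (‖F z - w0‖ ^ 2) * ‖deriv F z‖ ^ 2 : ℝ) : ℂ))
      - Real.pi * Kinf‖ ≤ ‖Kinf‖ * (4 * Real.pi * C) * ε := by
    intro ε hε
    have hE : ∀ᶠ z in cocompact ℂ, ‖z * (deriv F z / (F z - w0)) - 1‖ ≤ ε := by
      have := (tendsto_E hF w0).norm
      rw [norm_zero] at this
      exact this.eventually_le_const hε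
    obtain ⟨R1, hR1⟩ : ∃ R1 : ℝ, ∀ z : ℂ, R1 ≤ ‖z‖ → T2 ≤ ‖F z - w0‖ ^ 2 ∧
        ‖z * (deriv F z / (F z - w0)) - 1‖ ≤ ε := by
      have h1 := hev.and hE
      rw [← Metric.cobounded_eq_cocompact] at h1
      obtain ⟨R1, -, h2⟩ := Filter.hasBasis_cobounded_norm.eventually_iff.1 h1
      exact ⟨R1, fun z hz => h2 hz⟩
    set R' : ℝ := max R0 (max R1 1) with hR'
    set R : ℝ := R' + 1 with hR
    have hR'0 : 0 < R' := lt_max_of_lt_right (lt_max_of_lt_right one_pos)
    have hRpos : 0 < R := by linarith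
    have hR'R : R' < R := by linarith
    have hRR0 : R0 < R := (le_max_left _ _).trans_lt hR'R
    have hRR1 : R1 ≤ R' := (le_max_left _ _).trans (le_max_right _ _)
    have hmem : ∀ z : ℂ, R' < ‖z‖ → z ∈ dom c ρ := fun z hz =>
      mem_dom_of_le_norm hR0 ((le_max_left _ _).trans hz.le)
    have hbig : ∀ z : ℂ, R' < ‖z‖ → T2 ≤ ‖F z - w0‖ ^ 2 ∧
        ‖z * (deriv F z / (F z - w0)) - 1‖ ≤ ε := fun z hz => hR1 z (hRR1.trans hz.le)
    have hne : ∀ z : ℂ, R' < ‖z‖ → F z - w0 ≠ 0 := by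
      intro z hz h0
      have := (hbig z hz).1
      rw [h0] at this
      simp at this
      linarith
    -- the function B
    have hfc : ContinuousOn (fun z => deriv F z / (F z - w0)) {z | R' < ‖z‖} := by
      have hs : {z : ℂ | R' < ‖z‖} ⊆ dom c ρ' := fun z hz => hsub' (hmem z hz)
      exact (hF'c.mono hs).div ((hFc.mono hs).sub continuousOn_const) fun z hz => hne z hz
    have hic : ContinuousOn (fun z : ℂ => z⁻¹) {z | R' < ‖z‖} :=
      continuousOn_inv₀.mono fun z hz => by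
        rw [mem_compl_iff, mem_singleton_iff]
        rintro rfl
        rw [Set.mem_ofPred_eq, norm_zero] at hz
        linarith
    have hI1 := integrable_mul_dbar_chi hRpos hR'R hfc
    have hI2 := integrable_mul_dbar_chi hRpos hR'R hic
    -- the Stokes identity
    have hstokes : ∫ z in dom c ρ, dbar (fun z => YY k w0 (F z) * chi R z) z * deriv F z = 0 := by
      refine stokes hF.toCompat (φ := fun z => YY k w0 (F z) * chi R z) ?_ (R := 2 * R) ?_
        (fun a s => YY k w0 (exp ((θ a : ℂ) * I) * ((s : ℂ) + I * (q a : ℂ)))) ?_ ?_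
      · have h1 : ContDiffOn ℝ 1 F (dom c ρ') :=
          (hF.diff.contDiffOn (isOpen_dom c ρ')).restrict_scalars ℝ
        exact ((contDiff_YY hk hT1 hk1 w0).comp_contDiffOn h1).mul (contDiff_chi hRpos).contDiffOn
      · intro z hz
        rw [chi_zero hRpos hz, mul_zero]
      · intro a
        exact (contDiff_YY hk hT1 hk1 w0).continuous.comp (by fun_prop)
      · intro a z hz
        have h1 : ‖z‖ ≤ R := by
          have := norm_sub_norm_le z (c a)
          have := hR0 a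
          linarith
        rw [chi_one hRpos h1, mul_one]
        congr 1
        have h2 := hF.bdry a z hz
        have h3 : exp (-(θ a : ℂ) * I) * F z
            = ((exp (-(θ a : ℂ) * I) * F z).re : ℂ) + I * (q a : ℂ) := by
          rw [← h2, mul_comm I, re_add_im]
        rw [← h3, ← mul_assoc, ← exp_add]
        simp
    have hG : ∀ z ∈ dom c ρ, dbar (fun z => YY k w0 (F z) * chi R z) z * deriv F z
        = ((k (‖F z - w0‖ ^ 2) * ‖deriv F z‖ ^ 2 : ℝ) : ℂ)
          + Kinf * (deriv F z / (F z - w0) * dbar (chi R) z) := by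
      intro z hz
      have hz' := hsub' hz
      have hY : DifferentiableAt ℝ (YY k w0) (F z) :=
        (contDiff_YY hk hT1 hk1 w0).differentiable one_ne_zero _
      have hYF : DifferentiableAt ℝ (fun z => YY k w0 (F z)) z :=
        hY.comp z ((hFd z hz').restrictScalars ℝ)
      have hχ : DifferentiableAt ℝ (chi R) z := (contDiff_chi hRpos).differentiable one_ne_zero _
      rw [dbar_mul hYF hχ, dbar_comp_holo hY (hFd z hz'), dbar_YY hk hT1 hk1]
      have hnorm : (starRingEnd ℂ) (deriv F z) * deriv F z = ((‖deriv F z‖ ^ 2 : ℝ) : ℂ) := by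
        rw [mul_comm, Complex.mul_conj, Complex.normSq_eq_norm_sq]
      rcases lt_or_ge ‖z‖ R with h | h
      · rw [chi_one hRpos h.le, dbar_chi_zero hRpos (Or.inl h)]
        push_cast
        rw [mul_zero, mul_zero, mul_zero, add_zero, add_zero, mul_one, mul_assoc, hnorm]
        push_cast
        rfl
      · have h' : R' < ‖z‖ := by linarith
        rw [hk2 _ (hbig z h').1, YY, KK_eq hT1 hk1 hk2 (hbig z h').1, ← hKinf]
        push_cast
        rw [zero_mul, zero_mul, zero_mul, zero_add, zero_add]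
        ring
    -- integrability of G
    have hGi : IntegrableOn (fun z => ((k (‖F z - w0‖ ^ 2) * ‖deriv F z‖ ^ 2 : ℝ) : ℂ))
        (dom c ρ) := by
      have hK : IsCompact (cdom c ρ ∩ closedBall (0 : ℂ) R) :=
        (isCompact_closedBall (0 : ℂ) R).inter_left (isClosed_cdom c ρ)
      have hcont : ContinuousOn (fun z => ((k (‖F z - w0‖ ^ 2) * ‖deriv F z‖ ^ 2 : ℝ) : ℂ))
          (dom c ρ') := by
        refine Complex.continuous_ofReal.comp_continuousOn ?_
        refine (hk.comp_continuousOn ?_).mul (hF'c.norm.pow 2)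
        exact (hFc.sub continuousOn_const).norm.pow 2
      refine IntegrableOn.of_forall_sdiff_eq_zero
        ((hcont.mono (inter_subset_left.trans hsub)).integrableOn_compact hK)
        (isOpen_dom c ρ).measurableSet ?_
      intro z hz
      have h1 : R' < ‖z‖ := by
        by_contra hcon
        apply hz.2
        refine ⟨dom_subset_cdom c ρ hz.1, ?_⟩
        rw [mem_closedBall, dist_zero_right]
        linarith [not_lt.1 hcon]
      rw [hk2 _ (hbig z h1).1]
      simp
    have hsplit : (∫ z in dom c ρ, ((k (‖F z - w0‖ ^ 2) * ‖deriv F z‖ ^ 2 : ℝ) : ℂ))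
        = -(Kinf * ∫ z, deriv F z / (F z - w0) * dbar (chi R) z) := by
      have h1 : ∫ z in dom c ρ, dbar (fun z => YY k w0 (F z) * chi R z) z * deriv F z
          = ∫ z in dom c ρ, (((k (‖F z - w0‖ ^ 2) * ‖deriv F z‖ ^ 2 : ℝ) : ℂ)
          + Kinf * (deriv F z / (F z - w0) * dbar (chi R) z)) :=
        setIntegral_congr_fun (isOpen_dom c ρ).measurableSet hG
      rw [hstokes, integral_add hGi (hI1.const_mul Kinf).integrableOn,
        setIntegral_eq_integral_of_forall_compl_eq_zero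
          (f := fun z => Kinf * (deriv F z / (F z - w0) * dbar (chi R) z)), integral_const_mul] at h1
      · exact eq_neg_of_add_eq_zero_left h1.symm
      · intro z hz
        rw [dbar_chi_zero hRpos (Or.inl ?_), mul_zero, mul_zero]
        by_contra hcon
        exact hz (hmem z (by linarith [not_lt.1 hcon]))
    have hdiff : ‖(∫ z, deriv F z / (F z - w0) * dbar (chi R) z) + Real.pi‖
        ≤ 4 * Real.pi * C * ε := by
      have h1 : (∫ z, deriv F z / (F z - w0) * dbar (chi R) z) + Real.pi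
          = ∫ z in closedBall (0 : ℂ) (2 * R),
            (deriv F z / (F z - w0) * dbar (chi R) z - z⁻¹ * dbar (chi R) z) := by
        rw [setIntegral_eq_integral_of_forall_compl_eq_zero, integral_sub hI1 hI2,
          integral_dbar_chi hRpos, sub_neg_eq_add]
        intro z hz
        rw [dbar_chi_zero hRpos (Or.inr ?_), mul_zero, mul_zero, sub_zero]
        rw [mem_closedBall, dist_zero_right, not_le] at hz
        exact hz
      rw [h1]
      have hfin : volume (closedBall (0 : ℂ) (2 * R)) < ⊤ := measure_closedBall_lt_top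
      have h2 := norm_setIntegral_le_of_norm_le_const (C := ε / R * (C / R)) hfin
        (f := fun z => deriv F z / (F z - w0) * dbar (chi R) z - z⁻¹ * dbar (chi R) z) ?_
      · refine h2.trans ?_
        have h3 : volume.real (closedBall (0 : ℂ) (2 * R)) = (2 * R) ^ 2 * Real.pi := by
          rw [Measure.real, Complex.volume_closedBall, ENNReal.toReal_mul, ENNReal.toReal_pow,
            ENNReal.toReal_ofReal (by positivity)]
          rfl
        rw [h3]
        apply le_of_eq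
        field_simp
        ring
      · intro z _
        rcases lt_or_ge ‖z‖ R with h | h
        · rw [dbar_chi_zero hRpos (Or.inl h), mul_zero, mul_zero, sub_zero, norm_zero]
          positivity
        · have h' : R' < ‖z‖ := by linarith
          have hz0 : z ≠ 0 := by
            rintro rfl
            rw [norm_zero] at h'
            linarith
          have h4 : deriv F z / (F z - w0) * dbar (chi R) z - z⁻¹ * dbar (chi R) z
              = (z * (deriv F z / (F z - w0)) - 1) * z⁻¹ * dbar (chi R) z := by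
            field_simp
          rw [h4, norm_mul, norm_mul, norm_inv]
          have h5 : ‖z‖⁻¹ ≤ R⁻¹ := inv_anti₀ hRpos h
          rw [div_eq_mul_inv ε R]
          gcongr
          · exact (hbig z h').2
          · exact hC R hRpos z
    have hfinal : (∫ z in dom c ρ, ((k (‖F z - w0‖ ^ 2) * ‖deriv F z‖ ^ 2 : ℝ) : ℂ))
        - Real.pi * Kinf
        = -(Kinf * ((∫ z, deriv F z / (F z - w0) * dbar (chi R) z) + Real.pi)) := by
      rw [hsplit]; ring
    rw [hfinal, norm_neg, norm_mul, mul_assoc]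
    gcongr
  have hzero : ‖(∫ z in dom c ρ, ((k (‖F z - w0‖ ^ 2) * ‖deriv F z‖ ^ 2 : ℝ) : ℂ))
      - Real.pi * Kinf‖ ≤ 0 := by
    apply le_of_forall_pos_le_add
    intro δ hδ
    rw [zero_add]
    set M := ‖Kinf‖ * (4 * Real.pi * C) with hM
    have hM0 : 0 ≤ M := by positivity
    have := key (δ / (M + 1)) (by positivity)
    refine this.trans ?_
    rw [← mul_div_assoc, div_le_iff₀ (by positivity)]
    nlinarith
  have heq : (∫ z in dom c ρ, ((k (‖F z - w0‖ ^ 2) * ‖deriv F z‖ ^ 2 : ℝ) : ℂ))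
      = Real.pi * Kinf := by
    rw [← sub_eq_zero]
    exact norm_le_zero_iff.1 hzero
  rw [integral_complex_ofReal, hKinf] at heq
  exact_mod_cast heq

end RSM
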