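import Pool.Agent.RSM.A1
import Pool.Agent.RSM.C7

/-!
# RSM module C8: the slit map is injective

PROOF.  `dom c ρ` is open and connected, `F` is holomorphic and not constant on it (as
`F z - z → 0` at infinity).  Suppose `F z1 = F z2 = w`, `z1 ≠ z2` in `dom c ρ`.
(1) We may assume `F' z1 ≠ 0 ≠ F' z2`: take disjoint balls `U1 ∋ z1`, `U2 ∋ z2` with compact
closures in `dom c ρ`; `F '' U1 ∩ F '' U2` is an open neighbourhood of `w` (open mapping), hence
infinite; the zeros of `F'` in the closures are finite in number (`F'` is not identically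
zero near any point, by the identity theorem), so some point of `F '' U1 ∩ F '' U2` is
the image of two points `z1 ∈ U1`, `z2 ∈ U2` with non vanishing derivative.
(2) Put `w0 = F z1 = F z2`.  By the inverse function theorem (`HasStrictDerivAt.toOpenPartialHomeomorph`
or a local inverse) there are `ε > 0` and disjoint open (measurable) sets `V1 ∋ z1`, `V2 ∋ z2` in
`dom c ρ` such that `F` maps `V_i` bijectively onto `ball w0 ε`.
(3) Let `k ≥ 0` be continuous, supported in `[ε²/4, ε²/2]`, `∫ k > 0`.  The change of variables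
formula (`integral_image_eq_integral_abs_det_fderiv_smul`, the real Jacobian determinant of a
holomorphic map is `‖F'‖²`) gives `∫_{V_i} k (‖F - w0‖²) ‖F'‖² = ∫_{ball w0 ε} k (‖w - w0‖²) =
π ∫ k` (polar coordinates: `2π ∫ k (r²) r dr = π ∫ k`).  So
`2π ∫ k ≤ ∫_{dom c ρ} k (‖F - w0‖²) ‖F'‖² = π ∫ k` by `area_formula` (the integrand is nonnegative
and integrable: continuous, zero off a bounded set), a contradiction.
-/

open Complex Set Metric Filter Topology MeasureTheory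

namespace RSM

variable {ι : Type} {c : ι → ℂ} {ρ ρ' : ℝ} {θ : ι → ℝ} {F : ℂ → ℂ} {q : ι → ℝ}

theorem c8_fderiv {F : ℂ → ℂ} {z : ℂ} (h : DifferentiableAt ℂ F z) :
    HasFDerivAt F ((ContinuousLinearMap.toSpanSingleton ℂ (deriv F z)).restrictScalars ℝ) z :=
  (h.hasDerivAt.hasFDerivAt).restrictScalars ℝ

theorem c8_det (a : ℂ) :
    ((ContinuousLinearMap.toSpanSingleton ℂ a : ℂ →L[ℂ] ℂ).restrictScalars ℝ).det = ‖a‖ ^ 2 := by
  simp [ContinuousLinearMap.det, LinearMap.det_restrictScalars, Algebra.norm_complex_eq,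
    Complex.normSq_eq_norm_sq]

/-- local injectivity at points with non vanishing derivative -/
theorem c8_local {F : ℂ → ℂ} {z : ℂ} {U : Set ℂ} (hU : IsOpen U) (hz : z ∈ U)
    (hd : DifferentiableOn ℂ F U) (hz' : deriv F z ≠ 0) :
    ∃ V ⊆ U, IsOpen V ∧ z ∈ V ∧ InjOn F V ∧ F '' V ∈ 𝓝 (F z) := by
  have han : AnalyticAt ℂ F z := hd.analyticAt (hU.mem_nhds hz)
  have hs : HasStrictDerivAt F (deriv F z) z := han.hasStrictDerivAt
  have hs' := hs.hasStrictFDerivAt_equiv hz'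
  let e := hs'.toOpenPartialHomeomorph F
  have hze : z ∈ e.source := hs'.mem_toOpenPartialHomeomorph_source
  have hco : (e : ℂ → ℂ) = F := hs'.toOpenPartialHomeomorph_coe
  refine ⟨e.source ∩ U, inter_subset_right, e.open_source.inter hU, ⟨hze, hz⟩, ?_, ?_⟩
  · rw [← hco]
    exact e.injOn.mono inter_subset_left
  · rw [← hco]
    exact (e.isOpen_image_of_subset_source (e.open_source.inter hU) inter_subset_left).mem_nhds
      ⟨z, ⟨hze, hz⟩, rfl⟩

theorem c8_change {F : ℂ → ℂ} {V : Set ℂ} (hV : IsOpen V) (hd : DifferentiableOn ℂ F V)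
    (hi : InjOn F V) (g : ℂ → ℝ) :
    ∫ w in F '' V, g w = ∫ z in V, g (F z) * ‖deriv F z‖ ^ 2 := by
  rw [integral_image_eq_integral_abs_det_fderiv_smul volume hV.measurableSet
    (fun x hx => (c8_fderiv (hd.differentiableAt (hV.mem_nhds hx))).hasFDerivWithinAt) hi g]
  refine setIntegral_congr_fun hV.measurableSet fun z _ => ?_
  simp only [c8_det, smul_eq_mul]
  rw [abs_of_nonneg (by positivity), mul_comm]

theorem c8_crit {F : ℂ → ℂ} {U : Set ℂ} (hU : IsOpen U) (hd : DifferentiableOn ℂ F U) :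
    volume (F '' {z ∈ U | deriv F z = 0}) = 0 := by
  refine addHaar_image_eq_zero_of_det_fderivWithin_eq_zero volume
    (f' := fun z => (ContinuousLinearMap.toSpanSingleton ℂ (deriv F z)).restrictScalars ℝ)
    (fun x hx => (c8_fderiv (hd.differentiableAt (hU.mem_nhds hx.1))).hasFDerivWithinAt) ?_
  intro x hx
  rw [c8_det, hx.2]
  simp

theorem c8_polar {k : ℝ → ℝ} (hk : ∀ t ≤ 0, k t = 0) (w0 : ℂ) :
    ∫ w : ℂ, k (‖w - w0‖ ^ 2) = Real.pi * ∫ t, k t := by
  have h1 : ∫ w : ℂ, k (‖w - w0‖ ^ 2) = ∫ w : ℂ, k (‖w‖ ^ 2) :=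
    integral_sub_right_eq_self (fun w : ℂ => k (‖w‖ ^ 2)) w0
  have h2 := integral_fun_norm_addHaar (volume : Measure ℂ) (fun r => k (r ^ 2))
  have h3 := integral_comp_rpow_Ioi_of_pos (g := k) (show (0 : ℝ) < 2 by norm_num)
  have h4 : ∫ t, k t = ∫ t in Ioi (0 : ℝ), k t := by
    symm
    refine setIntegral_eq_integral_of_forall_compl_eq_zero fun t ht => hk t ?_
    simpa using ht
  have h5 : (volume : Measure ℂ).real (ball 0 1) = Real.pi := by
    simp [Measure.real, Complex.volume_ball]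
  rw [h1, h2, h4, ← h3, Complex.finrank_real_complex, h5]
  simp only [smul_eq_mul, nsmul_eq_mul]
  have h6 : ∫ x in Ioi (0 : ℝ), 2 * x ^ ((2 : ℝ) - 1) * k (x ^ (2 : ℝ)) =
      2 * ∫ x in Ioi (0 : ℝ), x ^ (2 - 1) * k (x ^ 2) := by
    rw [← integral_const_mul]
    refine setIntegral_congr_fun measurableSet_Ioi fun x _ => ?_
    have e1 : x ^ ((2 : ℝ) - 1) = x := by
      rw [show (2 : ℝ) - 1 = 1 by norm_num, Real.rpow_one]
    have e2 : x ^ (2 : ℝ) = x ^ 2 := Real.rpow_two x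
    simp only [e1, e2]
    ring
  rw [h6]
  push_cast
  ring

theorem IsSlit.injOn [Finite ι] (hF : IsSlit c ρ ρ' θ F q) : InjOn F (dom c ρ) := by
  classical
  have hopen : IsOpen (dom c ρ) := isOpen_dom c ρ
  have hρ : 0 < ρ := hF.pos'
  have hsub : dom c ρ ⊆ dom c ρ' := dom_anti c hF.lt.le
  have hd : DifferentiableOn ℂ F (dom c ρ) := hF.diff.mono hsub
  have hpre : IsPreconnected (dom c ρ) := isPreconnected_dom hρ hF.sep
  -- `F` is not constant
  have hnc : ¬ ∃ w, ∀ z ∈ dom c ρ, F z = w := by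
    rintro ⟨w, hw⟩
    have h1 : ∀ᶠ z in cocompact ℂ, F z = w := (eventually_mem_dom c ρ).mono hw
    have h2 : Tendsto (fun z : ℂ => z) (cocompact ℂ) (𝓝 w) := by
      have h3 := (tendsto_const_nhds (x := w) (f := cocompact ℂ)).sub hF.lim
      rw [sub_zero] at h3
      refine h3.congr' ?_
      filter_upwards [h1] with z hz
      rw [hz]; ring
    exact (not_tendsto_nhds_of_tendsto_atTop (tendsto_norm_cocompact_atTop (E := ℂ)) ‖w‖) h2.norm
  have hmap : ∀ s ⊆ dom c ρ, IsOpen s → IsOpen (F '' s) :=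
    ((hd.analyticOnNhd hopen).is_constant_or_isOpen hpre).resolve_left hnc
  intro a ha b hb hab
  by_contra hne
  -- disjoint neighbourhoods
  obtain ⟨A, B, hA, hB, haA, hbB, hAB⟩ := t2_separation hne
  have hA' : IsOpen (A ∩ dom c ρ) := hA.inter hopen
  have hB' : IsOpen (B ∩ dom c ρ) := hB.inter hopen
  have hW : IsOpen (F '' (A ∩ dom c ρ) ∩ F '' (B ∩ dom c ρ)) :=
    (hmap _ inter_subset_right hA').inter (hmap _ inter_subset_right hB')
  have hWne : (F '' (A ∩ dom c ρ) ∩ F '' (B ∩ dom c ρ)).Nonempty :=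
    ⟨F a, ⟨a, ⟨haA, ha⟩, rfl⟩, ⟨b, ⟨hbB, hb⟩, hab.symm⟩⟩
  have hpos : 0 < volume (F '' (A ∩ dom c ρ) ∩ F '' (B ∩ dom c ρ)) := hW.measure_pos _ hWne
  obtain ⟨w0, hw0, hw0'⟩ : ∃ w ∈ F '' (A ∩ dom c ρ) ∩ F '' (B ∩ dom c ρ),
      w ∉ F '' {z ∈ dom c ρ | deriv F z = 0} := by
    by_contra hcon
    push Not at hcon
    have := measure_mono (μ := volume) hcon
    rw [c8_crit hopen hd] at this
    exact absurd (le_antisymm this zero_le) hpos.ne'
  obtain ⟨⟨z1, hz1, hz1w⟩, ⟨z2, hz2, hz2w⟩⟩ := hw0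
  have hd1 : deriv F z1 ≠ 0 := fun h => hw0' ⟨z1, ⟨hz1.2, h⟩, hz1w⟩
  have hd2 : deriv F z2 ≠ 0 := fun h => hw0' ⟨z2, ⟨hz2.2, h⟩, hz2w⟩
  obtain ⟨V1, hV1, oV1, -, iV1, nV1⟩ :=
    c8_local hA' hz1 (hd.mono inter_subset_right) hd1
  obtain ⟨V2, hV2, oV2, -, iV2, nV2⟩ :=
    c8_local hB' hz2 (hd.mono inter_subset_right) hd2
  rw [hz1w] at nV1
  rw [hz2w] at nV2
  obtain ⟨ε, hε, hball⟩ := Metric.mem_nhds_iff.1 (Filter.inter_mem nV1 nV2)
  -- the test function
  let k : ℝ → ℝ := fun t => max 0 ((t - ε ^ 2 / 4) * (ε ^ 2 / 2 - t))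
  have hε2 : 0 < ε ^ 2 := by positivity
  have hkc : Continuous k := by fun_prop
  have hk0 : ∀ t, 0 ≤ k t := fun t => le_max_left _ _
  have hk1 : ∀ t ≤ ε ^ 2 / 4, k t = 0 := fun t ht => max_eq_left
    (mul_nonpos_of_nonpos_of_nonneg (by linarith) (by linarith))
  have hk2 : ∀ t, ε ^ 2 / 2 ≤ t → k t = 0 := fun t ht => max_eq_left
    (mul_nonpos_of_nonneg_of_nonpos (by linarith) (by linarith))
  have hkpos : 0 < ∫ t, k t := by
    have hcs : HasCompactSupport k := by
      refine HasCompactSupport.intro (isCompact_Icc (a := ε ^ 2 / 4) (b := ε ^ 2 / 2)) ?_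
      intro t ht
      rw [mem_Icc, not_and_or, not_le, not_le] at ht
      rcases ht with h | h
      · exact hk1 t h.le
      · exact hk2 t h.le
    refine hkc.integral_pos_of_hasCompactSupport_nonneg_nonzero hcs hk0 (x := 3 * ε ^ 2 / 8) ?_
    have : 0 < (3 * ε ^ 2 / 8 - ε ^ 2 / 4) * (ε ^ 2 / 2 - 3 * ε ^ 2 / 8) := by
      apply mul_pos <;> linarith
    show max 0 _ ≠ 0
    rw [max_eq_right this.le]
    exact this.ne'
  have harea := area_formula hF w0 (by positivity) (show ε ^ 2 / 4 < ε ^ 2 / 2 by linarith) hkc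
    hk1 hk2
  have hint : IntegrableOn (fun z => k (‖F z - w0‖ ^ 2) * ‖deriv F z‖ ^ 2) (dom c ρ) := by
    refine Integrable.of_integral_ne_zero ?_
    rw [harea]
    exact (mul_pos Real.pi_pos hkpos).ne'
  -- the integrals over the two sheets
  have hsheet : ∀ V : Set ℂ, IsOpen V → V ⊆ dom c ρ → InjOn F V → ball w0 ε ⊆ F '' V →
      ∫ z in V, k (‖F z - w0‖ ^ 2) * ‖deriv F z‖ ^ 2 = Real.pi * ∫ t, k t := by
    intro V oV sV iV bV
    rw [← c8_change oV (hd.mono sV) iV (fun w => k (‖w - w0‖ ^ 2)),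
      ← c8_polar (fun t ht => hk1 t (by linarith)) w0]
    refine setIntegral_eq_integral_of_forall_compl_eq_zero fun w hw => ?_
    refine hk2 _ ?_
    have h1 : ε ≤ ‖w - w0‖ := by
      by_contra hlt
      exact hw (bV (by rw [mem_ball, dist_eq_norm]; linarith))
    nlinarith [norm_nonneg (w - w0)]
  have hV1' : V1 ⊆ dom c ρ := hV1.trans inter_subset_right
  have hV2' : V2 ⊆ dom c ρ := hV2.trans inter_subset_right
  have e1 := hsheet V1 oV1 hV1' iV1 (hball.trans inter_subset_left)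
  have e2 := hsheet V2 oV2 hV2' iV2 (hball.trans inter_subset_right)
  have hdisj : Disjoint V1 V2 := hAB.mono (hV1.trans inter_subset_left) (hV2.trans inter_subset_left)
  have h12 := setIntegral_union hdisj oV2.measurableSet (hint.mono_set hV1') (hint.mono_set hV2')
  have hle : ∫ z in V1 ∪ V2, k (‖F z - w0‖ ^ 2) * ‖deriv F z‖ ^ 2 ≤
      ∫ z in dom c ρ, k (‖F z - w0‖ ^ 2) * ‖deriv F z‖ ^ 2 := by
    refine setIntegral_mono_set hint ?_ (union_subset hV1' hV2').eventuallyLE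
    exact Eventually.of_forall fun z => mul_nonneg (hk0 _) (by positivity)
  rw [h12, e1, e2, harea] at hle
  have := mul_pos Real.pi_pos hkpos
  linarith

end RSM
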