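import Pool.Agent.RSM.Basic

/-!
# RSM module D1: the function `QQ` is continuous

PROOF.  `QQ_of_mem`: the closed discs are disjoint, so the index chosen in the definition is `a`.
`QQ_of_cdom`: if moreover `‖z - c a‖ ≤ ρ` for some `a` then `‖z - c a‖ = ρ`, `Θ z = θ a`, and the
value is `q a` by `bdry`.
Continuity: the plane is the union of the closed sets `cdom c ρ` and the closed discs
(finitely many); on `cdom c ρ` the function is `Im (exp (-iΘ) F)`, continuous there since
`cdom c ρ ⊆ dom c ρ'`; on each closed disc it is constant (`ContinuousOn` on a finite closed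
cover, e.g. `IsClosed`-gluing `LocallyFinite.continuous` or `ContinuousOn.union_of_isClosed`).
-/

open Complex Set Metric Filter Topology MeasureTheory

namespace RSM

variable {ι : Type} {c : ι → ℂ} {ρ ρ' : ℝ} {θ : ι → ℝ} {F : ℂ → ℂ} {q : ι → ℝ} {Θ : ℂ → ℝ}
  {R : ℝ}

/-- the closed discs are pairwise disjoint -/
private theorem disc_unique (hA : Adm c ρ ρ' θ F q Θ R) {a b : ι} {z : ℂ} (ha : ‖z - c a‖ ≤ ρ)
    (hb : ‖z - c b‖ ≤ ρ) : a = b := by
  by_contra hne
  have h1 := hA.sep a b hne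
  have h2 : ‖c a - c b‖ ≤ ‖z - c b‖ + ‖z - c a‖ := by
    calc ‖c a - c b‖ = ‖(z - c b) - (z - c a)‖ := by congr 1; ring
      _ ≤ _ := norm_sub_le _ _
  linarith

theorem QQ_of_mem (hA : Adm c ρ ρ' θ F q Θ R) {a : ι} {z : ℂ} (hz : ‖z - c a‖ ≤ ρ) :
    QQ c ρ F q Θ z = q a := by
  have h : ∃ a, ‖z - c a‖ ≤ ρ := ⟨a, hz⟩
  rw [QQ, dif_pos h]
  rw [disc_unique hA h.choose_spec hz]

theorem QQ_of_cdom (hA : Adm c ρ ρ' θ F q Θ R) {z : ℂ} (hz : z ∈ cdom c ρ) :
    QQ c ρ F q Θ z = (exp (-(Θ z : ℂ) * I) * F z).im := by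
  by_cases h : ∃ a, ‖z - c a‖ ≤ ρ
  · obtain ⟨a, ha⟩ := h
    rw [QQ_of_mem hA ha, hA.slope a z ha, hA.bdry a z (le_antisymm ha (hz a))]
  · rw [QQ, dif_neg h]

theorem continuous_QQ [Finite ι] (hA : Adm c ρ ρ' θ F q Θ R) : Continuous (QQ c ρ F q Θ) := by
  have h1 : ContinuousOn (QQ c ρ F q Θ) (cdom c ρ) := by
    have h2 : ContinuousOn (fun z => (exp (-(Θ z : ℂ) * I) * F z).im) (cdom c ρ) := by
      have hF : ContinuousOn F (cdom c ρ) := hA.diff.continuousOn.mono (cdom_subset_dom c hA.lt)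
      have hT : Continuous Θ := hA.smooth.continuous
      exact Complex.continuous_im.comp_continuousOn
        ((Continuous.continuousOn (by fun_prop)).mul hF)
    exact h2.congr fun z hz => QQ_of_cdom hA hz
  have h3 : ∀ a, ContinuousOn (QQ c ρ F q Θ) (closedBall (c a) ρ) := by
    intro a
    refine (continuousOn_const (c := q a)).congr fun z hz => QQ_of_mem hA ?_
    rwa [mem_closedBall, dist_eq_norm] at hz
  have h4 : ContinuousOn (QQ c ρ F q Θ) (⋃ a, closedBall (c a) ρ) :=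
    (locallyFinite_of_finite _).continuousOn_iUnion (fun a => isClosed_closedBall) h3
  have h5 := h1.union_of_isClosed h4 (isClosed_cdom c ρ)
    (isClosed_iUnion_of_finite fun a => isClosed_closedBall)
  rw [← continuousOn_univ]
  refine h5.mono fun z _ => ?_
  by_cases h : ∃ a, ‖z - c a‖ ≤ ρ
  · obtain ⟨a, ha⟩ := h
    exact Or.inr (mem_iUnion.2 ⟨a, by rwa [mem_closedBall, dist_eq_norm]⟩)
  · push Not at h
    exact Or.inl fun a => (h a).le

end RSM
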