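import Pool.Agent.RSM.C6
import Pool.Agent.RSM.D1

/-!
# RSM module D2: the oscillation of `QQ` on a disc is controlled by the circle

PROOF.  Let `M = 9R`; `‖F z‖ ≤ M` on `cdom c ρ ∩ closedBall 0 (3R)` (`norm_le`), in particular on all
circles `‖z - c a‖ = ρ`.  `abs_QQ_le` is immediate (on the closed disc number `a` the value `q a`
is also the value at the points of its circle).
`QQ_le_of_sphere`: put `α = Θ z0`, `V z = Im (exp (-iα) F z)`.  For `z ∈ cdom c ρ`,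
`‖z - z0‖ ≤ r`: `|QQ z - V z| ≤ |exp (-iΘ z) - exp (-iα)| M ≤ M ω`.  If the closed disc number `a`
meets the sphere `‖w - z0‖ = r` in a point `w`, then `q a = QQ w ≤ m` and `|θ a - α| =
|Θ w - Θ z0| ≤ ω`, so on its circle `V ≤ Im (exp (-iθ a) F) + M ω = q a + M ω ≤ m + M ω`.
On `cdom c ρ ∩ sphere z0 r`: `V ≤ QQ + M ω ≤ m + M ω`.  By `max_principle`, `V ≤ m + M ω` on
`cdom c ρ ∩ closedBall z0 r`, so `QQ ≤ m + 2 M ω` there.  Let `z` be in the closed disc number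
`a` and `‖z - z0‖ ≤ r`: if the closed disc meets the sphere, `QQ z = q a ≤ m`
(and `0 ≤ ω`, as `|Θ z0 - Θ z0| ≤ ω`); otherwise the closed disc (connected) is contained in
`ball z0 r`, and `QQ z = q a` is the value of `QQ` at a point of its circle, which is in
`cdom c ρ ∩ ball z0 r`.  `2 M ω = 18 R ω`.
`le_QQ_of_sphere`: the same with `max_principle` for `α + π` (`exp (-i(α+π)) = -exp (-iα)`), i.e.
for `-V`.
-/

open Complex Set Metric Filter Topology MeasureTheory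

namespace RSM

variable {ι : Type} {c : ι → ℂ} {ρ ρ' : ℝ} {θ : ι → ℝ} {F : ℂ → ℂ} {q : ι → ℝ} {Θ : ℂ → ℝ}
  {R : ℝ}

/-- difference of two rotated imaginary parts -/
private theorem im_rot_sub (x y : ℝ) (w : ℂ) :
    |(exp (-(x : ℂ) * I) * w).im - (exp (-(y : ℂ) * I) * w).im| ≤ |x - y| * ‖w‖ := by
  have e1 : exp (-(x : ℂ) * I) * w - exp (-(y : ℂ) * I) * w =
      exp (-(y : ℂ) * I) * ((exp (I * ((y - x : ℝ) : ℂ)) - 1) * w) := by
    have : exp (-(x : ℂ) * I) = exp (-(y : ℂ) * I) * exp (I * ((y - x : ℝ) : ℂ)) := by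
      rw [← Complex.exp_add]
      congr 1
      push_cast
      ring
    rw [this]
    ring
  have e2 : ‖exp (-(y : ℂ) * I)‖ = 1 := by
    have : -(y : ℂ) * I = ((-y : ℝ) : ℂ) * I := by push_cast; ring
    rw [this]
    exact norm_exp_ofReal_mul_I _
  rw [← Complex.sub_im, e1]
  refine (Complex.abs_im_le_norm _).trans ?_
  rw [norm_mul, norm_mul, e2, one_mul]
  refine mul_le_mul_of_nonneg_right ?_ (norm_nonneg _)
  have := Real.norm_exp_I_mul_ofReal_sub_one_le (x := y - x)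
  rw [Real.norm_eq_abs, abs_sub_comm] at this
  exact this

private theorem norm_rot (x : ℝ) (w : ℂ) : |(exp (-(x : ℂ) * I) * w).im| ≤ ‖w‖ := by
  refine (Complex.abs_im_le_norm _).trans ?_
  have e2 : ‖exp (-(x : ℂ) * I)‖ = 1 := by
    have : -(x : ℂ) * I = ((-x : ℝ) : ℂ) * I := by push_cast; ring
    rw [this]
    exact norm_exp_ofReal_mul_I _
  rw [norm_mul, e2, one_mul]

/-- the boundary circles are in the closed circle domain -/
private theorem circle_cdom (hA : Adm c ρ ρ' θ F q Θ R) {a : ι} {w : ℂ} (hw : ‖w - c a‖ = ρ) :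
    w ∈ cdom c ρ := by
  intro b
  by_cases hab : a = b
  · rw [← hab, hw]
  · have h1 := hA.sep a b hab
    have h2 : ‖c a - c b‖ ≤ ‖w - c a‖ + ‖w - c b‖ := by
      have : c a - c b = (w - c b) - (w - c a) := by ring
      rw [this, add_comm]
      exact norm_sub_le _ _
    rw [hw] at h2
    linarith

private theorem circle_norm (hA : Adm c ρ ρ' θ F q Θ R) {a : ι} {w : ℂ} (hw : ‖w - c a‖ ≤ ρ) :
    ‖w‖ < R := by
  have h1 := hA.inball a
  have h2 : ‖w‖ ≤ ‖w - c a‖ + ‖c a‖ := by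
    have := norm_add_le (w - c a) (c a)
    rwa [sub_add_cancel] at this
  linarith

private theorem exists_circle (hA : Adm c ρ ρ' θ F q Θ R) (a : ι) : ∃ w, ‖w - c a‖ = ρ := by
  refine ⟨c a + (ρ : ℂ), ?_⟩
  rw [add_sub_cancel_left, Complex.norm_real, Real.norm_eq_abs,
    abs_of_pos (hA.toCompat.pos')]

theorem abs_QQ_le [Finite ι] (hA : Adm c ρ ρ' θ F q Θ R) (hR : 0 < R) {z : ℂ}
    (hz : ‖z‖ ≤ 3 * R) : |QQ c ρ F q Θ z| ≤ 9 * R := by
  by_cases h : z ∈ cdom c ρ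
  · rw [QQ_of_cdom hA h]
    exact (norm_rot _ _).trans (norm_le hA.toIsSlit hR hA.inball h hz)
  · simp only [cdom, mem_setOf_eq, not_forall, not_le] at h
    obtain ⟨a, ha⟩ := h
    rw [QQ_of_mem hA ha.le]
    obtain ⟨w, hw⟩ := exists_circle hA a
    rw [← hA.bdry a w hw]
    have := circle_norm hA hw.le
    exact (norm_rot _ _).trans (norm_le hA.toIsSlit hR hA.inball (circle_cdom hA hw)
      (by linarith))

private theorem QQ_core [Finite ι] (hA : Adm c ρ ρ' θ F q Θ R) (hR : 0 < R) {z0 : ℂ} {r : ℝ}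
    (hr : 0 < r) (hzr : ‖z0‖ + r ≤ 3 * R) {ω m : ℝ}
    (hω : ∀ z, ‖z - z0‖ ≤ r → |Θ z - Θ z0| ≤ ω) {σ β : ℝ} (hσ : |σ| = 1)
    (hβ : ∀ w : ℂ, (exp (-(β : ℂ) * I) * w).im = σ * (exp (-(Θ z0 : ℂ) * I) * w).im)
    (hm : ∀ z, ‖z - z0‖ = r → σ * QQ c ρ F q Θ z ≤ m) {z : ℂ} (hz : ‖z - z0‖ ≤ r) :
    σ * QQ c ρ F q Θ z ≤ m + 18 * R * ω := by
  have hω0 : 0 ≤ ω := by
    have := hω z0 (by rw [sub_self, norm_zero]; exact hr.le)
    exact (abs_nonneg _).trans this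
  -- comparison
  have hcmp : ∀ x : ℝ, |x - Θ z0| ≤ ω → ∀ w : ℂ, ‖w‖ ≤ 9 * R →
      |(exp (-(β : ℂ) * I) * w).im - σ * (exp (-(x : ℂ) * I) * w).im| ≤ 9 * R * ω := by
    intro x hx w hw
    rw [hβ, ← mul_sub, abs_mul, hσ, one_mul]
    refine (im_rot_sub _ _ _).trans ?_
    rw [abs_sub_comm]
    calc |x - Θ z0| * ‖w‖ ≤ ω * (9 * R) := by
          exact mul_le_mul hx hw (norm_nonneg _) hω0
      _ = 9 * R * ω := by ring
  have hnF : ∀ w ∈ cdom c ρ, ‖w - z0‖ ≤ r → ‖F w‖ ≤ 9 * R := by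
    intro w hw hwr
    refine norm_le hA.toIsSlit hR hA.inball hw ?_
    have : ‖w‖ ≤ ‖w - z0‖ + ‖z0‖ := by
      have := norm_add_le (w - z0) z0
      rwa [sub_add_cancel] at this
    linarith
  have hdom : ∀ w ∈ cdom c ρ, ‖w - z0‖ ≤ r →
      |(exp (-(β : ℂ) * I) * F w).im - σ * QQ c ρ F q Θ w| ≤ 9 * R * ω := by
    intro w hw hwr
    rw [QQ_of_cdom hA hw]
    exact hcmp _ (hω w hwr) _ (hnF w hw hwr)
  have hmax : ∀ w ∈ cdom c ρ, ‖w - z0‖ ≤ r →
      (exp (-(β : ℂ) * I) * F w).im ≤ m + 9 * R * ω := by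
    intro w hw hwr
    refine max_principle hA.toIsSlit hr β _ ?_ ?_ hw hwr
    · intro v hv hvr
      have h1 := (abs_le.1 (hdom v hv hvr.le)).2
      have h2 := hm v hvr
      linarith
    · rintro a ⟨v, hva, hvr⟩ x hx
      have h1 := hm v hvr
      rw [QQ_of_mem hA hva] at h1
      have h2 : |θ a - Θ z0| ≤ ω := by
        rw [← hA.slope a v hva]
        exact hω v hvr.le
      have h3 : ‖F x‖ ≤ 9 * R := by
        have := circle_norm hA hx.le
        exact norm_le hA.toIsSlit hR hA.inball (circle_cdom hA hx) (by linarith)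
      have h4 := (abs_le.1 (hcmp _ h2 _ h3)).2
      rw [hA.bdry a x hx] at h4
      linarith
  have hfirst : ∀ w ∈ cdom c ρ, ‖w - z0‖ ≤ r → σ * QQ c ρ F q Θ w ≤ m + 18 * R * ω := by
    intro w hw hwr
    have h1 := (abs_le.1 (hdom w hw hwr)).1
    have h2 := hmax w hw hwr
    linarith
  by_cases h : z ∈ cdom c ρ
  · exact hfirst z h hz
  · simp only [cdom, mem_setOf_eq, not_forall, not_le] at h
    obtain ⟨a, ha⟩ := h
    have hRω : 0 ≤ 18 * R * ω := by positivity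
    rw [QQ_of_mem hA ha.le]
    by_cases hmeet : ∃ w, ‖w - c a‖ ≤ ρ ∧ ‖w - z0‖ = r
    · obtain ⟨w, hwa, hwr⟩ := hmeet
      have := hm w hwr
      rw [QQ_of_mem hA hwa] at this
      linarith
    · obtain ⟨w, hw⟩ := exists_circle hA a
      have hwr : ‖w - z0‖ ≤ r := by
        by_contra hcon
        push Not at hcon
        apply hmeet
        have hpre := (convex_closedBall (c a) ρ).isPreconnected.intermediate_value
          (a := z) (b := w) (f := fun x => ‖x - z0‖)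
          (by rw [mem_closedBall, dist_eq_norm]; exact ha.le)
          (by rw [mem_closedBall, dist_eq_norm]; exact hw.le)
          (by fun_prop)
        obtain ⟨v, hv, hv'⟩ := hpre ⟨hz, hcon.le⟩
        rw [mem_closedBall, dist_eq_norm] at hv
        exact ⟨v, hv, hv'⟩
      have := hfirst w (circle_cdom hA hw) hwr
      rwa [QQ_of_mem hA hw.le] at this

theorem QQ_le_of_sphere [Finite ι] (hA : Adm c ρ ρ' θ F q Θ R) (hR : 0 < R) {z0 : ℂ} {r : ℝ}
    (hr : 0 < r) (hzr : ‖z0‖ + r ≤ 3 * R) {ω m : ℝ}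
    (hω : ∀ z, ‖z - z0‖ ≤ r → |Θ z - Θ z0| ≤ ω)
    (hm : ∀ z, ‖z - z0‖ = r → QQ c ρ F q Θ z ≤ m) {z : ℂ} (hz : ‖z - z0‖ ≤ r) :
    QQ c ρ F q Θ z ≤ m + 18 * R * ω := by
  have := QQ_core hA hR hr hzr hω (σ := 1) (β := Θ z0) (m := m) (by simp)
    (fun w => by rw [one_mul]) (fun v hv => by rw [one_mul]; exact hm v hv) hz
  rwa [one_mul] at this

theorem le_QQ_of_sphere [Finite ι] (hA : Adm c ρ ρ' θ F q Θ R) (hR : 0 < R) {z0 : ℂ} {r : ℝ}
    (hr : 0 < r) (hzr : ‖z0‖ + r ≤ 3 * R) {ω m : ℝ}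
    (hω : ∀ z, ‖z - z0‖ ≤ r → |Θ z - Θ z0| ≤ ω)
    (hm : ∀ z, ‖z - z0‖ = r → m ≤ QQ c ρ F q Θ z) {z : ℂ} (hz : ‖z - z0‖ ≤ r) :
    m - 18 * R * ω ≤ QQ c ρ F q Θ z := by
  have := QQ_core hA hR hr hzr hω (σ := -1) (β := Θ z0 + Real.pi) (m := -m) (by simp)
    (fun w => by
      have e : exp (-((Θ z0 + Real.pi : ℝ) : ℂ) * I) = -exp (-(Θ z0 : ℂ) * I) := by
        have e1 : -((Θ z0 + Real.pi : ℝ) : ℂ) * I = -(Θ z0 : ℂ) * I - Real.pi * I := by
          push_cast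
          ring
        rw [e1, Complex.exp_sub_pi_mul_I]
      rw [e, neg_mul, Complex.neg_im, neg_one_mul])
    (fun v hv => by have := hm v hv; linarith) hz
  linarith

end RSM
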