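import Pool.Agent.RSM.C6
import Pool.Agent.RSM.D1

/-!
# RSM module D3: variation of `QQ` along a circle

PROOF.  Since `r ≠ ρ`, the circle `‖z - z0‖ = r` is different from each of the finitely many
circles `‖z - c a‖ = ρ`, so it meets each of them in at most two points.  So the set `S` of
`t ∈ ℝ` with `z0 + r e^{it}` on one of these circles is countable (finite modulo `2π`).  The
function `G t = QQ (z0 + r e^{it})` is continuous (`continuous_QQ`), and for `t ∉ S`:
if `z0 + r e^{it}` is in an open disc number `a`, `G` is locally constant, derivative `0`;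
if it is in `dom c ρ`, `G` is differentiable with derivative of absolute value at most
`r (‖F'‖ + ‖F‖ ‖fderiv Θ‖) ≤ r (‖F'‖ + 9R ‖fderiv Θ‖)` (`norm_le`: `‖F‖ ≤ 9R` on
`cdom c ρ ∩ closedBall 0 (3R)`), as `QQ = Im (exp (-iΘ) F)` near the point.  So
`|G'(t)| ≤ r gg (z0 + r e^{it})` off `S`, both sides are bounded measurable functions of `t`, and
`|G t1 - G t2| ≤ ∫ t in t1..t2, r gg(...) dt ≤ ∫ over a full period`, for `t1 ≤ t2 ≤ t1 + 2π`
(`intervalIntegral.integral_eq_of_hasDerivAt_off_countable_of_le`).  Every point of the circle is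
`z0 + r e^{it}` with `t ∈ [0, 2π]`.
-/

set_option linter.all false

open Complex Set Metric Filter Topology MeasureTheory

namespace RSM

variable {ι : Type} {c : ι → ℂ} {ρ ρ' : ℝ} {θ : ι → ℝ} {F : ℂ → ℂ} {q : ι → ℝ} {Θ : ℂ → ℝ}
  {R : ℝ}

/-- The bound for the gradient of `QQ`. -/
noncomputable def gg (c : ι → ℂ) (ρ : ℝ) (F : ℂ → ℂ) (Θ : ℂ → ℝ) (R : ℝ) (z : ℂ) : ℝ :=
  (dom c ρ).indicator (fun z => ‖deriv F z‖ + 9 * R * ‖fderiv ℝ Θ z‖) z

theorem D3_sq (k : ℂ) (r t : ℝ) : ‖k + r * exp (t * I)‖ ^ 2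
    = ‖k‖ ^ 2 + r ^ 2 + 2 * r * ‖k‖ * Real.cos (t - arg k) := by
  have hk1 : k.re = ‖k‖ * Real.cos (arg k) := (Complex.norm_mul_cos_arg k).symm
  have hk2 : k.im = ‖k‖ * Real.sin (arg k) := (Complex.norm_mul_sin_arg k).symm
  rw [← Complex.normSq_eq_norm_sq, Complex.normSq_apply, Real.cos_sub]
  have h1 : (k + r * exp (t * I)).re = k.re + r * Real.cos t := by
    rw [add_re, re_ofReal_mul, exp_ofReal_mul_I_re]
  have h2 : (k + r * exp (t * I)).im = k.im + r * Real.sin t := by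
    rw [add_im, im_ofReal_mul, exp_ofReal_mul_I_im]
  rw [h1, h2, hk1, hk2]
  have e1 := Real.sin_sq_add_cos_sq t
  have e2 := Real.sin_sq_add_cos_sq (arg k)
  linear_combination r ^ 2 * e1 + ‖k‖ ^ 2 * e2

theorem D3_countable (z0 p : ℂ) {r ρ : ℝ} (hr : 0 < r) (hρ : 0 < ρ) (hne : r ≠ ρ) :
    {t : ℝ | ‖z0 + r * exp (t * I) - p‖ = ρ}.Countable := by
  set k := z0 - p with hk
  have hform : ∀ t : ℝ, z0 + r * exp (t * I) - p = k + r * exp (t * I) := fun t => by
    rw [hk]; ring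
  by_cases hk0 : k = 0
  · have : {t : ℝ | ‖z0 + r * exp (t * I) - p‖ = ρ} = ∅ := by
      ext t
      simp only [mem_setOf_eq, mem_empty_iff_false, iff_false]
      rw [hform, hk0, zero_add, norm_mul, norm_exp_ofReal_mul_I, mul_one, norm_real,
        Real.norm_of_nonneg hr.le]
      exact hne
    rw [this]
    exact countable_empty
  rcases ({t : ℝ | ‖z0 + r * exp (t * I) - p‖ = ρ}).eq_empty_or_nonempty with hE | ⟨t0, ht0⟩
  · rw [hE]
    exact countable_empty
  have hkn : 0 < ‖k‖ := norm_pos_iff.2 hk0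
  have hsub : {t : ℝ | ‖z0 + r * exp (t * I) - p‖ = ρ} ⊆
      (range fun n : ℤ => 2 * (n : ℝ) * Real.pi + (t0 - arg k) + arg k) ∪
      (range fun n : ℤ => 2 * (n : ℝ) * Real.pi - (t0 - arg k) + arg k) := by
    intro t ht
    simp only [mem_setOf_eq] at ht ht0
    have h1 := D3_sq k r t
    have h2 := D3_sq k r t0
    rw [← hform, ht] at h1
    rw [← hform, ht0] at h2
    have h3 : 2 * r * ‖k‖ * Real.cos (t0 - arg k) = 2 * r * ‖k‖ * Real.cos (t - arg k) := by
      linarith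
    have h4 : Real.cos (t0 - arg k) = Real.cos (t - arg k) :=
      mul_left_cancel₀ (by positivity) h3
    rw [Real.cos_eq_cos_iff] at h4
    obtain ⟨n, hn | hn⟩ := h4
    · left
      exact ⟨n, by simp only; linarith⟩
    · right
      exact ⟨n, by simp only; linarith⟩
  exact ((countable_range _).union (countable_range _)).mono hsub

theorem D3_param (z0 : ℂ) {r : ℝ} (hr : 0 < r) {z : ℂ} (hz : ‖z - z0‖ = r) :
    ∃ t ∈ Icc (0 : ℝ) (2 * Real.pi), z = z0 + r * exp (t * I) := by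
  have hpi := Real.pi_pos
  have h1 : z = z0 + r * exp (arg (z - z0) * I) := by
    rw [← hz, Complex.norm_mul_exp_arg_mul_I]
    ring
  by_cases h : 0 ≤ arg (z - z0)
  · exact ⟨arg (z - z0), ⟨h, by have := Complex.arg_le_pi (z - z0); linarith⟩, h1⟩
  · push Not at h
    refine ⟨arg (z - z0) + 2 * Real.pi, ⟨?_, by linarith⟩, ?_⟩
    · have := Complex.neg_pi_lt_arg (z - z0)
      linarith
    · have h2 : ((arg (z - z0) + 2 * Real.pi : ℝ) : ℂ) * I = arg (z - z0) * I + 2 * Real.pi * I := by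
        push_cast; ring
      rw [h2, Complex.exp_add, Complex.exp_two_pi_mul_I, mul_one]
      exact h1

theorem gg_nonneg (hR : 0 < R) (z : ℂ) : 0 ≤ gg c ρ F Θ R z := by
  unfold gg
  refine indicator_nonneg (fun w _ => ?_) z
  positivity

theorem D3_deriv [Finite ι] (hA : Adm c ρ ρ' θ F q Θ R) (hR : 0 < R) {z0 : ℂ} {r : ℝ}
    (hr : 0 < r) (hzr : ‖z0‖ + r ≤ 3 * R) {t : ℝ}
    (ht : ∀ a, ‖z0 + r * exp (t * I) - c a‖ ≠ ρ) :
    ∃ D : ℝ, HasDerivAt (fun t : ℝ => QQ c ρ F q Θ (z0 + r * exp (t * I))) D t ∧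
      |D| ≤ gg c ρ F Θ R (z0 + r * exp (t * I)) * r := by
  set γ : ℝ → ℂ := fun t => z0 + r * exp (t * I) with hγ
  have hγc : Continuous γ := by
    simp only [hγ]
    fun_prop
  by_cases hd : γ t ∈ dom c ρ
  · have hnhds : ∀ᶠ z in 𝓝 (γ t), z ∈ dom c ρ := (isOpen_dom c ρ).mem_nhds hd
    have hev : (fun s : ℝ => QQ c ρ F q Θ (γ s)) =ᶠ[𝓝 t]
        fun s : ℝ => (exp (-(Θ (γ s) : ℂ) * I) * F (γ s)).im := by
      filter_upwards [hγc.continuousAt.eventually hnhds] with s hs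
      exact QQ_of_cdom hA (dom_subset_cdom c ρ hs)
    have hγd : HasDerivAt γ (r * (exp (t * I) * I)) t := by
      have h1 : HasDerivAt (fun s : ℝ => exp ((s : ℂ) * I)) (exp (t * I) * I) t := by
        have := (((Complex.ofRealCLM.hasDerivAt (x := t)).mul_const I).cexp)
        simpa using this
      exact (h1.const_mul (r : ℂ)).const_add z0
    have hnγ : ‖(r : ℂ) * (exp (t * I) * I)‖ = r := by
      rw [norm_mul, norm_mul, norm_I, norm_exp_ofReal_mul_I, norm_real,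
        Real.norm_of_nonneg hr.le]
      ring
    set v : ℂ := r * (exp (t * I) * I) with hv
    have hΘd : HasDerivAt (fun s => Θ (γ s)) (fderiv ℝ Θ (γ t) v) t :=
      ((hA.smooth.differentiable one_ne_zero).differentiableAt.hasFDerivAt).comp_hasDerivAt t hγd
    have hFd : HasDerivAt (fun s => F (γ s)) (deriv F (γ t) * v) t := by
      have h1 : HasDerivAt F (deriv F (γ t)) (γ t) :=
        (hA.toCompat.differentiableAt (dom_anti c hA.lt.le hd)).hasDerivAt
      exact HasDerivAt.comp_of_eq t h1 hγd rfl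
    have hE : HasDerivAt (fun s => exp (-(Θ (γ s) : ℂ) * I))
        (exp (-(Θ (γ t) : ℂ) * I) * (-((fderiv ℝ Θ (γ t) v : ℝ) : ℂ) * I)) t :=
      ((hΘd.ofReal_comp.neg).mul_const I).cexp
    have hP := hE.mul hFd
    have hIm := (Complex.imCLM.hasFDerivAt (x := exp (-(Θ (γ t) : ℂ) * I) * F (γ t))).comp_hasDerivAt
      t hP
    refine ⟨_, HasDerivAt.congr_of_eventuallyEq hIm hev, ?_⟩
    have hgg : gg c ρ F Θ R (γ t) = ‖deriv F (γ t)‖ + 9 * R * ‖fderiv ℝ Θ (γ t)‖ := by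
      unfold gg
      rw [indicator_of_mem hd]
    show _ ≤ gg c ρ F Θ R (γ t) * r
    rw [hgg]
    have hFb : ‖F (γ t)‖ ≤ 9 * R := by
      refine norm_le hA.toIsSlit hR hA.inball (dom_subset_cdom c ρ hd) ?_
      refine le_trans ?_ hzr
      simp only [hγ]
      refine (norm_add_le _ _).trans ?_
      rw [norm_mul, norm_exp_ofReal_mul_I, norm_real, Real.norm_of_nonneg hr.le, mul_one]
    have hun : ‖exp (-(Θ (γ t) : ℂ) * I)‖ = 1 := by
      have : -(Θ (γ t) : ℂ) * I = ((-Θ (γ t) : ℝ) : ℂ) * I := by push_cast; ring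
      rw [this, norm_exp_ofReal_mul_I]
    have hΘb : |fderiv ℝ Θ (γ t) v| ≤ ‖fderiv ℝ Θ (γ t)‖ * r := by
      have := (fderiv ℝ Θ (γ t)).le_opNorm v
      rwa [hnγ, Real.norm_eq_abs] at this
    rw [Complex.imCLM_apply]
    refine (Complex.abs_im_le_norm _).trans ?_
    refine (norm_add_le _ _).trans ?_
    have e1 : ‖exp (-(Θ (γ t) : ℂ) * I) * (-((fderiv ℝ Θ (γ t) v : ℝ) : ℂ) * I) * F (γ t)‖
        ≤ ‖fderiv ℝ Θ (γ t)‖ * r * (9 * R) := by
      rw [norm_mul, norm_mul, norm_mul, hun, one_mul, norm_neg, norm_real, norm_I, mul_one,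
        Real.norm_eq_abs]
      exact mul_le_mul hΘb hFb (norm_nonneg _) (by positivity)
    have e2 : ‖exp (-(Θ (γ t) : ℂ) * I) * (deriv F (γ t) * v)‖ = ‖deriv F (γ t)‖ * r := by
      rw [norm_mul, norm_mul, hun, hnγ, one_mul]
    rw [e2]
    have e3 : (‖deriv F (γ t)‖ + 9 * R * ‖fderiv ℝ Θ (γ t)‖) * r
        = ‖fderiv ℝ Θ (γ t)‖ * r * (9 * R) + ‖deriv F (γ t)‖ * r := by ring
    rw [e3]
    linarith
  · obtain ⟨a, ha⟩ : ∃ a, ‖γ t - c a‖ ≤ ρ := by
      by_contra hc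
      push Not at hc
      exact hd hc
    have ha' : ‖γ t - c a‖ < ρ := lt_of_le_of_ne ha (ht a)
    have hev : (fun s : ℝ => QQ c ρ F q Θ (γ s)) =ᶠ[𝓝 t] fun _ => q a := by
      have hopen : IsOpen {s : ℝ | ‖γ s - c a‖ < ρ} :=
        isOpen_lt ((hγc.sub continuous_const).norm) continuous_const
      filter_upwards [hopen.mem_nhds ha'] with s hs
      exact QQ_of_mem hA (le_of_lt hs)
    refine ⟨0, HasDerivAt.congr_of_eventuallyEq (hasDerivAt_const t (q a)) hev, ?_⟩
    rw [abs_zero]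
    exact mul_nonneg (gg_nonneg hR _) hr.le

theorem gg_measurable [Finite ι] (hA : Adm c ρ ρ' θ F q Θ R) :
    Measurable (gg c ρ F Θ R) := by
  unfold gg
  have h1 : Measurable (fun z => ‖deriv F z‖) := (measurable_deriv F).norm
  have h2 : Measurable (fun z => ‖fderiv ℝ Θ z‖) :=
    (hA.smooth.continuous_fderiv one_ne_zero).norm.measurable
  exact (h1.add (h2.const_mul (9 * R))).indicator (isOpen_dom c ρ).measurableSet

theorem gg_bounded [Finite ι] (hA : Adm c ρ ρ' θ F q Θ R) (hR : 0 < R) (r0 : ℝ) :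
    ∃ M : ℝ, 0 ≤ M ∧ ∀ z, ‖z‖ ≤ r0 → gg c ρ F Θ R z ≤ M := by
  have hK : IsCompact (cdom c ρ ∩ closedBall (0 : ℂ) r0) :=
    (isCompact_closedBall 0 r0).inter_left (isClosed_cdom c ρ)
  have hF : ContinuousOn (fun z => ‖deriv F z‖) (cdom c ρ ∩ closedBall (0 : ℂ) r0) := by
    intro z hz
    exact ((hA.toCompat.differentiableAt_deriv (cdom_subset_dom c hA.lt hz.1)).continuousAt.norm
      ).continuousWithinAt
  have hΘ : Continuous (fun z => ‖fderiv ℝ Θ z‖) :=
    (hA.smooth.continuous_fderiv one_ne_zero).norm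
  have hsum : ContinuousOn (fun z => ‖deriv F z‖ + 9 * R * ‖fderiv ℝ Θ z‖)
      (cdom c ρ ∩ closedBall (0 : ℂ) r0) := hF.add (continuous_const.mul hΘ).continuousOn
  obtain ⟨M, hM⟩ := (hK.image_of_continuousOn hsum).bddAbove
  refine ⟨max M 0, le_max_right _ _, fun z hz => ?_⟩
  unfold gg
  by_cases hd : z ∈ dom c ρ
  · rw [indicator_of_mem hd]
    refine le_trans (hM ⟨z, ⟨dom_subset_cdom c ρ hd, ?_⟩, rfl⟩) (le_max_left _ _)
    simpa using hz
  · rw [indicator_of_notMem hd]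
    exact le_max_right _ _

theorem arc_bound [Finite ι] (hA : Adm c ρ ρ' θ F q Θ R) (hR : 0 < R) {z0 : ℂ} {r : ℝ}
    (hr : 0 < r) (hne : r ≠ ρ) (hzr : ‖z0‖ + r ≤ 3 * R) {z w : ℂ} (hz : ‖z - z0‖ = r)
    (hw : ‖w - z0‖ = r) :
    |QQ c ρ F q Θ z - QQ c ρ F q Θ w| ≤
      ∫ t in (0 : ℝ)..(2 * Real.pi), gg c ρ F Θ R (z0 + r * exp (t * I)) * r := by
  set γ : ℝ → ℂ := fun t => z0 + r * exp (t * I) with hγ
  have hγc : Continuous γ := by
    simp only [hγ]
    fun_prop
  set G : ℝ → ℝ := fun t => QQ c ρ F q Θ (γ t) with hG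
  have hGc : Continuous G := (continuous_QQ hA).comp hγc
  set S : Set ℝ := ⋃ a, {t : ℝ | ‖γ t - c a‖ = ρ} with hS
  have hSc : S.Countable :=
    countable_iUnion fun a => D3_countable z0 (c a) hr hA.toCompat.pos' hne
  have hder : ∀ t ∉ S, HasDerivAt G (deriv G t) t ∧ |deriv G t| ≤ gg c ρ F Θ R (γ t) * r := by
    intro t ht
    have ht2 : ∀ a, ‖γ t - c a‖ ≠ ρ := fun a hc => ht (mem_iUnion.2 ⟨a, hc⟩)
    obtain ⟨D, hD, hDb⟩ := D3_deriv hA hR hr hzr ht2
    have : deriv G t = D := hD.deriv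
    rw [this]
    exact ⟨hD, hDb⟩
  set g : ℝ → ℝ := fun t => gg c ρ F Θ R (γ t) * r with hg
  have hg0 : ∀ t, 0 ≤ g t := fun t => mul_nonneg (gg_nonneg hR _) hr.le
  obtain ⟨M, hM0, hM⟩ := gg_bounded hA hR (3 * R)
  have hγb : ∀ t, ‖γ t‖ ≤ 3 * R := by
    intro t
    refine le_trans ?_ hzr
    simp only [hγ]
    refine (norm_add_le _ _).trans ?_
    rw [norm_mul, norm_exp_ofReal_mul_I, norm_real, Real.norm_of_nonneg hr.le, mul_one]
  have hgM : ∀ t, g t ≤ M * r := fun t => mul_le_mul_of_nonneg_right (hM _ (hγb t)) hr.le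
  have hgmeas : Measurable g := ((gg_measurable hA).comp hγc.measurable).mul_const r
  have hgint : ∀ a b : ℝ, IntervalIntegrable g volume a b := by
    intro a b
    refine (intervalIntegrable_const (c := M * r)).mono_fun hgmeas.aestronglyMeasurable ?_
    refine Filter.Eventually.of_forall fun t => ?_
    show ‖g t‖ ≤ ‖M * r‖
    rw [Real.norm_of_nonneg (hg0 t), Real.norm_of_nonneg (by positivity)]
    exact hgM t
  have hae : ∀ᵐ t : ℝ, ‖deriv G t‖ ≤ g t := by
    have : ∀ᵐ t : ℝ, t ∉ S := by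
      rw [ae_iff]
      simp only [not_not]
      exact hSc.measure_zero _
    filter_upwards [this] with t ht
    exact (hder t ht).2
  have hdint : ∀ a b : ℝ, IntervalIntegrable (deriv G) volume a b := by
    intro a b
    refine (hgint a b).mono_fun (measurable_deriv G).aestronglyMeasurable ?_
    refine ae_restrict_of_ae ?_
    filter_upwards [hae] with t ht
    rw [Real.norm_of_nonneg (hg0 t)]
    exact ht
  have key : ∀ a b : ℝ, 0 ≤ a → a ≤ b → b ≤ 2 * Real.pi →
      |G b - G a| ≤ ∫ t in (0 : ℝ)..(2 * Real.pi), g t := by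
    intro a b ha hab hb
    have h1 : ∫ t in a..b, deriv G t = G b - G a := by
      refine integral_eq_of_hasDerivAt_off_countable_of_le G (deriv G) hab hSc hGc.continuousOn
        (fun x hx => (hder x hx.2).1) (hdint a b)
    rw [← h1, ← Real.norm_eq_abs]
    refine (intervalIntegral.norm_integral_le_integral_norm hab).trans ?_
    refine le_trans (intervalIntegral.integral_mono_ae hab (hdint a b).norm (hgint a b) hae) ?_
    exact intervalIntegral.integral_mono_interval ha hab hb (Filter.Eventually.of_forall hg0)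
      (hgint _ _)
  obtain ⟨s, hs, hzs⟩ := D3_param z0 hr hz
  obtain ⟨t, ht, hwt⟩ := D3_param z0 hr hw
  have e1 : QQ c ρ F q Θ z = G s := by rw [hzs]
  have e2 : QQ c ρ F q Θ w = G t := by rw [hwt]
  rw [e1, e2]
  rcases le_total s t with h | h
  · rw [abs_sub_comm]
    exact key s t hs.1 h ht.2
  · exact key t s ht.1 h hs.2

end RSM
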