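import Pool.Agent.RSM.Defs

/-!
# RSM module D4: the Courant-Lebesgue lemma

PROOF.  Let `A` be the annulus `δ < ‖z - z0‖ < √δ` and `I = ∫_A g²`.  By Cauchy-Schwarz
`(∫ t in 0..2π, g r dt)² ≤ 2π ∫ t in 0..2π, g² r² dt =: 2π r² a(r)`,
`a(r) = ∫ t in 0..2π, g(z0 + r e^{it})² dt`.  In polar coordinates
`I = ∫ r in δ..√δ, a(r) r dr = ∫ r in δ..√δ, (r² a(r)) (1/r) dr`.  If `r² a(r) > 2 I / log (1/δ)` for
all `r ∈ (δ, √δ)` except `r = s`, then `I > (2 I/log(1/δ)) ∫ r in δ..√δ, dr/r =
(2 I/log(1/δ)) (log (1/δ)/2) = I`, a contradiction (strictly larger integrand almost everywhere on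
an interval of positive length; all functions are bounded and measurable).  So there
is `r ≠ s` in `(δ, √δ)` with `r² a(r) ≤ 2 I/log(1/δ)`, and then
`(∫ g r dt)² ≤ 4π I / log (1/δ)`.
-/

open Complex Set Metric Filter Topology MeasureTheory

namespace RSM

/-- Cauchy-Schwarz on an interval -/
private theorem cs_sq {h : ℝ → ℝ} {a b : ℝ} (hab : a < b) (h1 : IntervalIntegrable h volume a b)
    (h2 : IntervalIntegrable (fun t => h t ^ 2) volume a b) :
    (∫ t in a..b, h t) ^ 2 ≤ (b - a) * ∫ t in a..b, h t ^ 2 := by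
  have hba : 0 < b - a := sub_pos.2 hab
  set m := (∫ t in a..b, h t) / (b - a) with hm
  have h0 : 0 ≤ ∫ t in a..b, (h t - m) ^ 2 :=
    intervalIntegral.integral_nonneg hab.le (fun t _ => sq_nonneg _)
  have e : ∫ t in a..b, (h t - m) ^ 2 =
      (∫ t in a..b, h t ^ 2) - 2 * m * (∫ t in a..b, h t) + m ^ 2 * (b - a) := by
    have e1 : ∀ t, (h t - m) ^ 2 = h t ^ 2 - 2 * m * h t + m ^ 2 := fun t => by ring
    simp_rw [e1]
    rw [intervalIntegral.integral_add (h2.sub (h1.const_mul _)) intervalIntegrable_const,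
      intervalIntegral.integral_sub h2 (h1.const_mul _), intervalIntegral.integral_const_mul,
      intervalIntegral.integral_const, smul_eq_mul]
    ring
  have hm' : (∫ t in a..b, h t) = m * (b - a) := by
    rw [hm]
    field_simp
  rw [e, hm'] at h0
  rw [hm']
  have h3 : m ^ 2 * (b - a) ≤ ∫ t in a..b, h t ^ 2 := by nlinarith
  calc (m * (b - a)) ^ 2 = (b - a) * (m ^ 2 * (b - a)) := by ring
    _ ≤ (b - a) * ∫ t in a..b, h t ^ 2 := mul_le_mul_of_nonneg_left h3 hba.le

private theorem ii_of_bdd {h : ℝ → ℝ} {a b M : ℝ} (hm : Measurable h) (hb : ∀ t, |h t| ≤ M) :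
    IntervalIntegrable h volume a b := by
  rw [intervalIntegrable_iff]
  refine Measure.integrableOn_of_bounded (M := M) ?_ hm.aestronglyMeasurable ?_
  · rw [uIoc]
    exact measure_Ioc_lt_top.ne
  · exact Filter.Eventually.of_forall fun t => by
      rw [Real.norm_eq_abs]
      exact hb t

private theorem polar_int {g : ℂ → ℝ} (hg : Measurable g) {z0 : ℂ} {δ B : ℝ}
    (hδ : 0 < δ) (hlt : δ < √δ) (h0 : ∀ z, 0 ≤ g z) (hB : ∀ z, ‖z - z0‖ ≤ √δ → g z ≤ B) :
    IntervalIntegrable (fun r : ℝ => r * ∫ t in (-Real.pi)..Real.pi, g (z0 + r * exp (t * I)) ^ 2)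
      volume δ (√δ) ∧
    ∫ z in {z : ℂ | δ < ‖z - z0‖ ∧ ‖z - z0‖ < √δ}, g z ^ 2 =
      ∫ r in δ..(√δ), r * ∫ t in (-Real.pi)..Real.pi, g (z0 + r * exp (t * I)) ^ 2 := by
  have hpi : -Real.pi ≤ Real.pi := by linarith [Real.pi_pos]
  set S : Set ℂ := {z : ℂ | δ < ‖z - z0‖ ∧ ‖z - z0‖ < √δ} with hS
  have hnc : Continuous fun z : ℂ => ‖z - z0‖ := by fun_prop
  have hSm : MeasurableSet S :=
    ((isOpen_lt continuous_const hnc).inter (isOpen_lt hnc continuous_const)).measurableSet
  set ψ : ℝ × ℝ → ℂ := fun p => z0 + p.1 * exp (p.2 * I) with hψ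
  have hψc : Continuous ψ := by
    rw [hψ]
    fun_prop
  have hψeq : ∀ p : ℝ × ℝ, z0 + Complex.polarCoord.symm p = ψ p := by
    intro p
    rw [Complex.polarCoord_symm_apply, hψ]
    simp only [Complex.exp_mul_I, Complex.ofReal_cos, Complex.ofReal_sin]
  have hnorm : ∀ p : ℝ × ℝ, ‖ψ p - z0‖ = |p.1| := by
    intro p
    rw [← hψeq, add_sub_cancel_left, Complex.norm_polarCoord_symm]
  set G : ℝ × ℝ → ℝ := fun p => p.1 * g (ψ p) ^ 2 with hG
  set T : Set (ℝ × ℝ) := Ioo δ (√δ) ×ˢ Ioo (-Real.pi) Real.pi with hT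
  have hTm : MeasurableSet T := measurableSet_Ioo.prod measurableSet_Ioo
  have hGm : Measurable G := by
    apply Measurable.mul measurable_fst
    exact (hg.comp hψc.measurable).pow_const 2
  have hB0 : 0 ≤ B := le_trans (h0 z0) (hB z0 (by
    rw [sub_self, norm_zero]
    exact Real.sqrt_nonneg _))
  have hGi : IntegrableOn G T (volume.prod volume) := by
    refine Measure.integrableOn_of_bounded (M := √δ * B ^ 2) ?_ hGm.aestronglyMeasurable ?_
    · rw [hT, Measure.prod_prod]
      exact ENNReal.mul_ne_top measure_Ioo_lt_top.ne measure_Ioo_lt_top.ne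
    · refine (ae_restrict_iff' hTm).2 (Filter.Eventually.of_forall fun p hp => ?_)
      have hp1 : p.1 ∈ Ioo δ (√δ) := hp.1
      have hp0 : 0 < p.1 := lt_trans hδ hp1.1
      have hgB : g (ψ p) ≤ B := hB _ (by
        rw [hnorm, abs_of_pos hp0]
        exact hp1.2.le)
      have hg0 := h0 (ψ p)
      rw [Real.norm_eq_abs, abs_of_nonneg (mul_nonneg hp0.le (sq_nonneg _))]
      exact mul_le_mul hp1.2.le (pow_le_pow_left₀ hg0 hgB 2) (sq_nonneg _) (Real.sqrt_nonneg _)
  have hinner : ∀ r : ℝ, ∫ y in Ioo (-Real.pi) Real.pi, G (r, y) =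
      r * ∫ t in (-Real.pi)..Real.pi, g (z0 + r * exp (t * I)) ^ 2 := by
    intro r
    rw [intervalIntegral.integral_of_le hpi, integral_Ioc_eq_integral_Ioo]
    simp only [hG, hψ]
    rw [integral_const_mul]
  refine ⟨?_, ?_⟩
  · rw [intervalIntegrable_iff_integrableOn_Ioo_of_le hlt.le]
    have h1 : Integrable G ((volume.restrict (Ioo δ (√δ))).prod
        (volume.restrict (Ioo (-Real.pi) Real.pi))) := by
      rw [Measure.prod_restrict]
      exact hGi
    have h2 := h1.integral_prod_left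
    simp only [hinner] at h2
    exact h2
  · rw [← integral_indicator hSm, ← integral_add_left_eq_self _ z0,
      ← Complex.integral_comp_polarCoord_symm]
    have hsub : T ⊆ polarCoord.target := by
      intro p hp
      rw [polarCoord_target]
      exact ⟨lt_trans hδ hp.1.1, hp.2⟩
    rw [setIntegral_eq_of_subset_of_forall_sdiff_eq_zero polarCoord.open_target.measurableSet hsub]
    · have e1 : ∫ p in T, p.1 • S.indicator (fun z => g z ^ 2) (z0 + Complex.polarCoord.symm p) =
          ∫ p in T, G p := by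
        refine setIntegral_congr_fun hTm fun p hp => ?_
        have hp1 : p.1 ∈ Ioo δ (√δ) := hp.1
        have hp0 : 0 < p.1 := lt_trans hδ hp1.1
        rw [hψeq, indicator_of_mem, smul_eq_mul]
        rw [hS, mem_ofPred_eq, hnorm, abs_of_pos hp0]
        exact hp1
      rw [e1, Measure.volume_eq_prod, hT, setIntegral_prod _ hGi,
        intervalIntegral.integral_of_le hlt.le, integral_Ioc_eq_integral_Ioo]
      exact setIntegral_congr_fun measurableSet_Ioo fun r _ => hinner r
    · intro p hp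
      have hp0 : 0 < p.1 := by
        have := hp.1
        rw [polarCoord_target] at this
        exact this.1
      have hp2 : p.2 ∈ Ioo (-Real.pi) Real.pi := by
        have := hp.1
        rw [polarCoord_target] at this
        exact this.2
      rw [hψeq, indicator_of_notMem, smul_zero]
      intro h
      rw [hS, mem_ofPred_eq, hnorm, abs_of_pos hp0] at h
      exact hp.2 ⟨h, hp2⟩

theorem courant_lebesgue {g : ℂ → ℝ} (hg : Measurable g) (h0 : ∀ z, 0 ≤ g z) {z0 : ℂ} {δ B : ℝ}
    (hδ : 0 < δ) (hδ1 : δ < 1) (hB : ∀ z, ‖z - z0‖ ≤ √δ → g z ≤ B) (s : ℝ) :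
    ∃ r, δ < r ∧ r < √δ ∧ r ≠ s ∧
      (∫ t in (0 : ℝ)..(2 * Real.pi), g (z0 + r * exp (t * I)) * r) ^ 2 ≤
        4 * Real.pi / Real.log (1 / δ) *
          ∫ z in {z : ℂ | δ < ‖z - z0‖ ∧ ‖z - z0‖ < √δ}, g z ^ 2 := by
  have hpi := Real.pi_pos
  have hlt : δ < √δ := by
    rw [Real.lt_sqrt hδ.le]
    nlinarith
  set L := Real.log (1 / δ) with hL
  have hLeq : L = - Real.log δ := by
    rw [hL, one_div, Real.log_inv]
  have hLpos : 0 < L := by
    rw [hLeq]
    linarith [Real.log_neg hδ hδ1]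
  obtain ⟨hint, heq⟩ := polar_int hg hδ hlt h0 hB
  set J := ∫ z in {z : ℂ | δ < ‖z - z0‖ ∧ ‖z - z0‖ < √δ}, g z ^ 2 with hJ
  by_contra hcon
  push Not at hcon
  have hB0 : 0 ≤ B := le_trans (h0 z0) (hB z0 (by
    rw [sub_self, norm_zero]
    exact Real.sqrt_nonneg _))
  have key : ∀ r, δ < r → r < √δ → r ≠ s →
      2 * J / L * r⁻¹ < r * ∫ t in (-Real.pi)..Real.pi, g (z0 + r * exp (t * I)) ^ 2 := by
    intro r h1 h2 h3
    have hr : 0 < r := lt_trans hδ h1
    have hc := hcon r h1 h2 h3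
    have hmeas : Measurable fun t : ℝ => g (z0 + r * exp (t * I)) := by
      apply hg.comp
      apply Continuous.measurable
      fun_prop
    have hnorm : ∀ t : ℝ, ‖z0 + r * exp (t * I) - z0‖ = r := by
      intro t
      rw [add_sub_cancel_left, norm_mul, Complex.norm_exp_ofReal_mul_I, mul_one,
        Complex.norm_real, Real.norm_eq_abs, abs_of_pos hr]
    have hgB : ∀ t : ℝ, g (z0 + r * exp (t * I)) ≤ B := fun t => hB _ (by rw [hnorm]; exact h2.le)
    have hi1 : IntervalIntegrable (fun t : ℝ => g (z0 + r * exp (t * I)) * r) volume 0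
        (2 * Real.pi) := by
      refine ii_of_bdd (M := B * r) (hmeas.mul_const r) fun t => ?_
      rw [abs_of_nonneg (mul_nonneg (h0 _) hr.le)]
      exact mul_le_mul_of_nonneg_right (hgB t) hr.le
    have hi2 : IntervalIntegrable (fun t : ℝ => (g (z0 + r * exp (t * I)) * r) ^ 2) volume 0
        (2 * Real.pi) := by
      refine ii_of_bdd (M := (B * r) ^ 2) ((hmeas.mul_const r).pow_const 2) fun t => ?_
      rw [abs_of_nonneg (sq_nonneg _)]
      exact pow_le_pow_left₀ (mul_nonneg (h0 _) hr.le)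
        (mul_le_mul_of_nonneg_right (hgB t) hr.le) 2
    have hcs := cs_sq (by linarith : (0 : ℝ) < 2 * Real.pi) hi1 hi2
    rw [sub_zero] at hcs
    have e1 : ∫ t in (0 : ℝ)..(2 * Real.pi), (g (z0 + r * exp (t * I)) * r) ^ 2 =
        r ^ 2 * ∫ t in (-Real.pi)..Real.pi, g (z0 + r * exp (t * I)) ^ 2 := by
      have hper : Function.Periodic (fun t : ℝ => g (z0 + r * exp (t * I)) ^ 2)
          (2 * Real.pi) := by
        intro t
        have : exp (((t + 2 * Real.pi : ℝ) : ℂ) * I) = exp (t * I) := by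
          push_cast
          rw [add_mul]
          exact Complex.exp_periodic _
        simp only [this]
      have e2 := hper.intervalIntegral_add_eq 0 (-Real.pi)
      rw [zero_add, show -Real.pi + 2 * Real.pi = Real.pi by ring] at e2
      rw [← e2, ← intervalIntegral.integral_const_mul]
      congr 1
      funext t
      ring
    rw [e1] at hcs
    set A := ∫ t in (-Real.pi)..Real.pi, g (z0 + r * exp (t * I)) ^ 2 with hA
    have h4 : 4 * Real.pi / L * J < 2 * Real.pi * (r ^ 2 * A) := lt_of_lt_of_le hc hcs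
    have h5 : 2 * J / L < r ^ 2 * A := by
      have e3 : 4 * Real.pi / L * J = 2 * Real.pi * (2 * J / L) := by ring
      rw [e3] at h4
      exact lt_of_mul_lt_mul_left h4 (by linarith)
    have h6 : 2 * J / L * r⁻¹ < r ^ 2 * A * r⁻¹ := mul_lt_mul_of_pos_right h5 (inv_pos.2 hr)
    have e4 : r ^ 2 * A * r⁻¹ = r * A := by
      field_simp
    rw [e4] at h6
    exact h6
  have hinv : ∫ r in δ..(√δ), 2 * J / L * r⁻¹ = J := by
    rw [intervalIntegral.integral_const_mul,
      integral_inv_of_pos hδ (lt_trans hδ hlt), Real.log_div (lt_trans hδ hlt).ne' hδ.ne',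
      Real.log_sqrt hδ.le]
    have : Real.log δ / 2 - Real.log δ = L / 2 := by
      rw [hLeq]
      ring
    rw [this]
    field_simp
  have hint2 : IntervalIntegrable (fun r : ℝ => 2 * J / L * r⁻¹) volume δ (√δ) := by
    apply IntervalIntegrable.const_mul
    refine ContinuousOn.intervalIntegrable ?_
    rw [uIcc_of_le hlt.le]
    apply ContinuousOn.inv₀ continuousOn_id
    intro x hx
    exact (lt_of_lt_of_le hδ hx.1).ne'
  have hlt2 := intervalIntegral.integral_lt_integral_of_ae_le_of_measure_setOfPred_lt_ne_zero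
    hlt.le hint2 hint ?_ ?_
  · rw [hinv, ← heq] at hlt2
    exact lt_irrefl _ hlt2
  · have hae : ∀ᵐ r ∂(volume.restrict (Ioc δ (√δ))), r ≠ s ∧ r ≠ √δ := by
      have e1 : ∀ᵐ r ∂(volume : Measure ℝ), r ≠ s ∧ r ≠ √δ := by
        have h1 : ∀ᵐ r ∂(volume : Measure ℝ), r ≠ s := Measure.ae_ne volume s
        have h2 : ∀ᵐ r ∂(volume : Measure ℝ), r ≠ √δ := Measure.ae_ne volume (√δ)
        filter_upwards [h1, h2] with r a b using ⟨a, b⟩
      exact ae_restrict_of_ae e1
    filter_upwards [hae, ae_restrict_mem measurableSet_Ioc] with r hr hr2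
    exact (key r hr2.1 (lt_of_le_of_ne hr2.2 hr.2) hr.1).le
  · have hsub : Ioo δ (√δ) \ {s} ⊆ {r : ℝ | 2 * J / L * r⁻¹ <
        r * ∫ t in (-Real.pi)..Real.pi, g (z0 + r * exp (t * I)) ^ 2} := by
      intro r hr
      exact key r hr.1.1 hr.1.2 hr.2
    intro hzero
    have h1 := measure_mono_null hsub hzero
    rw [Measure.restrict_apply' measurableSet_Ioc] at h1
    have h2 : (Ioo δ (√δ) \ {s}) ∩ Ioc δ (√δ) = Ioo δ (√δ) \ {s} := by
      apply inter_eq_left.2
      intro r hr
      exact ⟨hr.1.1, hr.1.2.le⟩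
    rw [h2, measure_sdiff_null (Real.volume_singleton), Real.volume_Ioo,
      ENNReal.ofReal_eq_zero] at h1
    linarith

end RSM
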