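import Pool.Agent.RSM.C3
import Pool.Agent.RSM.D2
import Pool.Agent.RSM.D3
import Pool.Agent.RSM.D4

/-!
# RSM module D5: quantitative oscillation of `QQ`

PROOF.  `g = gg c ρ F Θ R` is measurable (`measurable_deriv`, `measurable_fderiv`, `dom c ρ` open),
nonnegative, and bounded on `closedBall z0 √δ ⊆ closedBall 0 (3R)`: `F'` is continuous on the compact
set `cdom c ρ ∩ closedBall 0 (3R)`, `fderiv ℝ Θ` is continuous.  Take `r` from
`courant_lebesgue` with `s = ρ`.  By `arc_bound`, for `z, w` on the circle `‖· - z0‖ = r`: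
`(QQ z - QQ w)² ≤ 4π/log(1/δ) ∫_A g²`, and `g² ≤ 2 ‖F'‖² 1_dom + 162 R² ‖fderiv Θ‖²`, so by
`energy_in` (with `3R` in place of `R`; `A ⊆ ball 0 (3R)`) `∫_A g² ≤ 18 π R² + 162 R² D`.  So the
oscillation of `QQ` on the circle is at most `X = √(4π/log(1/δ) (18πR² + 162 R² D))`.
Let `w` be a point of the circle; then `QQ ≤ QQ w + X` and `QQ ≥ QQ w - X` on the circle; more
precisely let `m₊`, `m₋` be the maximum and minimum of `QQ` on the circle, `m₊ - m₋ ≤ X`.
By `QQ_le_of_sphere` and `le_QQ_of_sphere`, `m₋ - 18Rω ≤ QQ ≤ m₊ + 18Rω` on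
`closedBall z0 r`, which contains `z` and `z0`; so `|QQ z - QQ z0| ≤ X + 36 R ω`.
-/

open Complex Set Metric Filter Topology MeasureTheory

namespace RSM

variable {ι : Type} {c : ι → ℂ} {ρ ρ' : ℝ} {θ : ι → ℝ} {F : ℂ → ℂ} {q : ι → ℝ} {Θ : ℂ → ℝ}
  {R : ℝ}

theorem QQ_osc [Finite ι] (hA : Adm c ρ ρ' θ F q Θ R) (hR : 0 < R) {z0 : ℂ} {δ : ℝ}
    (hδ : 0 < δ) (hδ1 : δ < 1) (hz0 : ‖z0‖ + √δ ≤ 3 * R) {ω D : ℝ}
    (hω : ∀ z, ‖z - z0‖ ≤ √δ → |Θ z - Θ z0| ≤ ω)
    (hD : ∫ z in {z : ℂ | δ < ‖z - z0‖ ∧ ‖z - z0‖ < √δ}, ‖fderiv ℝ Θ z‖ ^ 2 ≤ D) {z : ℂ}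
    (hz : ‖z - z0‖ ≤ δ) :
    |QQ c ρ F q Θ z - QQ c ρ F q Θ z0| ≤
      √(4 * Real.pi / Real.log (1 / δ) * (18 * Real.pi * R ^ 2 + 162 * R ^ 2 * D)) +
        36 * R * ω := by
  have hgm : Measurable (gg c ρ F Θ R) :=
    (((measurable_deriv F).norm).add (((measurable_fderiv ℝ Θ).norm).const_mul _)).indicator
      (isOpen_dom c ρ).measurableSet
  have hg0 : ∀ z, 0 ≤ gg c ρ F Θ R z := fun z =>
    Set.indicator_nonneg (fun z _ => by positivity) z
  have hsub : ∀ z, ‖z - z0‖ ≤ √δ → z ∈ closedBall (0 : ℂ) (3 * R) := by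
    intro z hz
    rw [mem_closedBall_zero_iff]
    calc ‖z‖ = ‖z0 + (z - z0)‖ := by ring_nf
      _ ≤ ‖z0‖ + ‖z - z0‖ := norm_add_le _ _
      _ ≤ 3 * R := by linarith
  have hcd : Continuous fun z => fderiv ℝ Θ z := hA.smooth.continuous_fderiv (by norm_num)
  obtain ⟨B, hB⟩ : ∃ B, ∀ z, ‖z - z0‖ ≤ √δ → gg c ρ F Θ R z ≤ B := by
    have hK : IsCompact (cdom c ρ ∩ closedBall (0 : ℂ) (3 * R)) :=
      (isCompact_closedBall _ _).inter_left (isClosed_cdom c ρ)
    have h1 : ContinuousOn (deriv F) (cdom c ρ ∩ closedBall (0 : ℂ) (3 * R)) :=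
      ((hA.diff.deriv (isOpen_dom c ρ')).continuousOn).mono
        (inter_subset_left.trans (cdom_subset_dom c hA.lt))
    obtain ⟨B1, hB1⟩ := hK.exists_bound_of_continuousOn h1
    obtain ⟨B2, hB2⟩ := (isCompact_closedBall (0 : ℂ) (3 * R)).exists_bound_of_continuousOn
      hcd.continuousOn
    refine ⟨|B1| + 9 * R * |B2|, fun z hz => ?_⟩
    unfold gg
    by_cases hzd : z ∈ dom c ρ
    · rw [Set.indicator_of_mem hzd]
      have e1 := hB1 z ⟨dom_subset_cdom c ρ hzd, hsub z hz⟩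
      have e2 := hB2 z (hsub z hz)
      have e3 : 9 * R * ‖fderiv ℝ Θ z‖ ≤ 9 * R * |B2| :=
        mul_le_mul_of_nonneg_left (e2.trans (le_abs_self _)) (by positivity)
      linarith [le_abs_self B1]
    · rw [Set.indicator_of_notMem hzd]
      positivity
  obtain ⟨r, hr1, hr2, hrne, hr⟩ := courant_lebesgue hgm hg0 hδ hδ1 hB ρ
  have hr0 : 0 < r := hδ.trans hr1
  have hzr : ‖z0‖ + r ≤ 3 * R := by linarith
  have hωr : ∀ z, ‖z - z0‖ ≤ r → |Θ z - Θ z0| ≤ ω := fun z hz => hω z (hz.trans hr2.le)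
  -- the energy on the annulus
  have hE : ∫ z in {z : ℂ | δ < ‖z - z0‖ ∧ ‖z - z0‖ < √δ}, gg c ρ F Θ R z ^ 2 ≤
      18 * Real.pi * R ^ 2 + 162 * R ^ 2 * D := by
    set A : Set ℂ := {z : ℂ | δ < ‖z - z0‖ ∧ ‖z - z0‖ < √δ} with hAdef
    have hcn : Continuous fun z : ℂ => ‖z - z0‖ := by fun_prop
    have hAo : IsOpen A := (isOpen_lt continuous_const hcn).inter (isOpen_lt hcn continuous_const)
    have hAb : A ⊆ ball (0 : ℂ) (3 * R) := by
      intro z hz
      rw [mem_ball_zero_iff]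
      calc ‖z‖ = ‖z0 + (z - z0)‖ := by ring_nf
        _ ≤ ‖z0‖ + ‖z - z0‖ := norm_add_le _ _
        _ < 3 * R := by linarith [hz.2]
    obtain ⟨i1, i2⟩ := energy_in hA.toIsSlit hR hA.inball (R := 3 * R) (by linarith)
    have j1 : IntegrableOn (fun z => (dom c ρ).indicator (fun z => ‖deriv F z‖ ^ 2) z) A := by
      have : IntegrableOn (fun z => (dom c ρ).indicator (fun z => ‖deriv F z‖ ^ 2) z)
          (ball (0 : ℂ) (3 * R)) := by
        unfold IntegrableOn at i1 ⊢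
        have := (integrable_indicator_iff (μ := volume.restrict (ball (0 : ℂ) (3 * R)))
          (f := fun z => ‖deriv F z‖ ^ 2) (isOpen_dom c ρ).measurableSet).2 (by
            unfold IntegrableOn
            rwa [Measure.restrict_restrict (isOpen_dom c ρ).measurableSet])
        exact this
      exact this.mono_set hAb
    have j2 : IntegrableOn (fun z => ‖fderiv ℝ Θ z‖ ^ 2) A :=
      ((hcd.norm.pow 2).continuousOn.integrableOn_compact
        (isCompact_closedBall (0 : ℂ) (3 * R))).mono_set (hAb.trans ball_subset_closedBall)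
    have k1 : ∫ z in A, (dom c ρ).indicator (fun z => ‖deriv F z‖ ^ 2) z ≤
        Real.pi * (3 * R) ^ 2 := by
      rw [setIntegral_indicator (isOpen_dom c ρ).measurableSet]
      refine le_trans (setIntegral_mono_set i1 ?_ ?_) i2
      · exact Filter.Eventually.of_forall fun z => by positivity
      · exact Filter.Eventually.of_forall fun z hz => ⟨hz.2, hAb hz.1⟩
    have k2 : ∫ z in A, gg c ρ F Θ R z ^ 2 ≤
        ∫ z in A, (2 * (dom c ρ).indicator (fun z => ‖deriv F z‖ ^ 2) z +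
          162 * R ^ 2 * ‖fderiv ℝ Θ z‖ ^ 2) := by
      refine integral_mono_of_nonneg (Filter.Eventually.of_forall fun z => by positivity)
        ((j1.const_mul 2).add (j2.const_mul (162 * R ^ 2)))
        (Filter.Eventually.of_forall fun z => ?_)
      change gg c ρ F Θ R z ^ 2 ≤ 2 * (dom c ρ).indicator (fun z => ‖deriv F z‖ ^ 2) z +
          162 * R ^ 2 * ‖fderiv ℝ Θ z‖ ^ 2
      unfold gg
      by_cases hzd : z ∈ dom c ρ
      · rw [Set.indicator_of_mem hzd, Set.indicator_of_mem hzd]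
        nlinarith [sq_nonneg (‖deriv F z‖ - 9 * R * ‖fderiv ℝ Θ z‖)]
      · rw [Set.indicator_of_notMem hzd, Set.indicator_of_notMem hzd]
        have : 0 ≤ 162 * R ^ 2 * ‖fderiv ℝ Θ z‖ ^ 2 := by positivity
        linarith
    refine k2.trans ?_
    rw [integral_add (j1.const_mul 2) (j2.const_mul (162 * R ^ 2)), integral_const_mul,
      integral_const_mul]
    have k3 : 162 * R ^ 2 * ∫ z in A, ‖fderiv ℝ Θ z‖ ^ 2 ≤ 162 * R ^ 2 * D :=
      mul_le_mul_of_nonneg_left hD (by positivity)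
    nlinarith [k1, k3]
  -- the oscillation on the circle
  have hlog : 0 < Real.log (1 / δ) := Real.log_pos (by rw [lt_div_iff₀ hδ]; linarith)
  have hc0 : 0 ≤ 4 * Real.pi / Real.log (1 / δ) := by positivity
  have hosc : ∀ u v : ℂ, ‖u - z0‖ = r → ‖v - z0‖ = r →
      |QQ c ρ F q Θ u - QQ c ρ F q Θ v| ≤
        √(4 * Real.pi / Real.log (1 / δ) * (18 * Real.pi * R ^ 2 + 162 * R ^ 2 * D)) := by
    intro u v hu hv
    refine (arc_bound hA hR hr0 hrne hzr hu hv).trans ?_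
    refine (le_abs_self _).trans (Real.abs_le_sqrt (hr.trans ?_))
    exact mul_le_mul_of_nonneg_left hE hc0
  have hS : IsCompact (sphere z0 r) := isCompact_sphere z0 r
  have hSn : (sphere z0 r).Nonempty := NormedSpace.sphere_nonempty.2 hr0.le
  have hcQ : ContinuousOn (QQ c ρ F q Θ) (sphere z0 r) := (continuous_QQ hA).continuousOn
  obtain ⟨u, hu, humax⟩ := hS.exists_isMaxOn hSn hcQ
  obtain ⟨v, hv, hvmin⟩ := hS.exists_isMinOn hSn hcQ
  rw [mem_sphere_iff_norm] at hu hv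
  have hmax : ∀ z, ‖z - z0‖ = r → QQ c ρ F q Θ z ≤ QQ c ρ F q Θ u := fun z hz =>
    humax (mem_sphere_iff_norm.2 hz)
  have hmin : ∀ z, ‖z - z0‖ = r → QQ c ρ F q Θ v ≤ QQ c ρ F q Θ z := fun z hz =>
    hvmin (mem_sphere_iff_norm.2 hz)
  have huv := hosc u v hu hv
  have huv' := (abs_le.1 huv).2
  have hzr' : ‖z - z0‖ ≤ r := hz.trans hr1.le
  have hz0r : ‖z0 - z0‖ ≤ r := by simpa using hr0.le
  have a1 := QQ_le_of_sphere hA hR hr0 hzr hωr hmax hzr'
  have a2 := le_QQ_of_sphere hA hR hr0 hzr hωr hmin hzr'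
  have a3 := QQ_le_of_sphere hA hR hr0 hzr hωr hmax hz0r
  have a4 := le_QQ_of_sphere hA hR hr0 hzr hωr hmin hz0r
  rw [abs_le]
  constructor <;> linarith

end RSM
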