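import Pool.Agent.RSM.D5

/-!
# RSM module D6: uniform equicontinuity of the functions `QQ`

PROOF.  Given `ε > 0`, choose `δ₁ > 0` from `heq` for `ε / (72 R)`; then `δ > 0` so small that
`δ < 1`, `√δ ≤ min R δ₁` and `√(4π/log(1/δ) (18πR² + 162R² C)) ≤ ε/2` (as `log (1/δ) → ∞`;
note `C ≥ 0` automatically).  For `‖z‖ ≤ 2R` apply `QQ_osc` with `z0 = z`, `ω = ε/(72R)`, `D = C`
(the annulus is contained in `closedBall 0 (3R)`, monotonicity of the integral of a nonnegative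
continuous function).
-/

open Complex Set Metric Filter Topology MeasureTheory

namespace RSM

theorem QQ_equicont {R C : ℝ} (hR : 0 < R) {T : ℕ → ℂ → ℝ} (hT : ∀ n, ContDiff ℝ 1 (T n))
    (hE : ∀ n, ∫ z in closedBall (0 : ℂ) (3 * R), ‖fderiv ℝ (T n) z‖ ^ 2 ≤ C)
    (heq : ∀ ε > 0, ∃ δ > 0, ∀ n z w, ‖z‖ ≤ 3 * R → ‖w‖ ≤ 3 * R → ‖z - w‖ ≤ δ →
      |T n z - T n w| ≤ ε) {ε : ℝ} (hε : 0 < ε) :
    ∃ δ > 0, ∀ (n : ℕ) (ι : Type) (_ : Finite ι) (c : ι → ℂ) (ρ ρ' : ℝ) (θ : ι → ℝ) (F : ℂ → ℂ)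
      (q : ι → ℝ), Adm c ρ ρ' θ F q (T n) R → ∀ z w, ‖z‖ ≤ 2 * R → ‖z - w‖ ≤ δ →
        |QQ c ρ F q (T n) z - QQ c ρ F q (T n) w| ≤ ε := by
  obtain ⟨δ₁, hδ₁, h1⟩ := heq (ε / (72 * R)) (by positivity)
  set K : ℝ := 18 * Real.pi * R ^ 2 + 162 * R ^ 2 * C with hK
  have hlim : Tendsto (fun δ : ℝ => √(4 * Real.pi / Real.log (1 / δ) * K)) (𝓝[>] 0) (𝓝 0) := by
    have h2 : Tendsto (fun δ : ℝ => Real.log (1 / δ)) (𝓝[>] 0) atTop := by
      have h3 : Tendsto (fun δ : ℝ => 1 / δ) (𝓝[>] 0) atTop := by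
        simpa [one_div] using (tendsto_inv_nhdsGT_zero (𝕜 := ℝ))
      exact Real.tendsto_log_atTop.comp h3
    have h4 : Tendsto (fun δ : ℝ => 4 * Real.pi / Real.log (1 / δ) * K) (𝓝[>] 0) (𝓝 (0 * K)) :=
      (h2.const_div_atTop (4 * Real.pi)).mul_const K
    rw [zero_mul] at h4
    have h5 := (Real.continuous_sqrt.tendsto 0).comp h4
    rw [Real.sqrt_zero] at h5
    exact h5
  have hlim2 : Tendsto (fun δ : ℝ => √δ) (𝓝[>] 0) (𝓝 0) := by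
    have h5 := (Real.continuous_sqrt.tendsto 0)
    rw [Real.sqrt_zero] at h5
    exact h5.mono_left nhdsWithin_le_nhds
  have e1 : ∀ᶠ δ : ℝ in 𝓝[>] 0, √(4 * Real.pi / Real.log (1 / δ) * K) < ε / 2 :=
    hlim.eventually (gt_mem_nhds (by positivity))
  have e2 : ∀ᶠ δ : ℝ in 𝓝[>] 0, √δ < min R δ₁ :=
    hlim2.eventually (gt_mem_nhds (lt_min hR hδ₁))
  have e3 : ∀ᶠ δ : ℝ in 𝓝[>] 0, δ < 1 :=
    (gt_mem_nhds one_pos).filter_mono nhdsWithin_le_nhds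
  have e4 : ∀ᶠ δ : ℝ in 𝓝[>] 0, 0 < δ := eventually_mem_nhdsWithin
  obtain ⟨δ, ⟨⟨hd1, hd2⟩, hd3⟩, hd4⟩ := (((e1.and e2).and e3).and e4).exists
  refine ⟨δ, hd4, ?_⟩
  intro n ι hι c ρ ρ' θ F q hA z w hz hzw
  have hs1 : √δ < R := hd2.trans_le (min_le_left _ _)
  have hs2 : √δ < δ₁ := hd2.trans_le (min_le_right _ _)
  have hsub : {y : ℂ | δ < ‖y - z‖ ∧ ‖y - z‖ < √δ} ⊆ closedBall (0 : ℂ) (3 * R) := by
    intro y hy
    have h6 : ‖y‖ ≤ ‖y - z‖ + ‖z‖ := by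
      have := norm_add_le (y - z) z
      rwa [sub_add_cancel] at this
    rw [mem_closedBall, dist_zero_right]
    have := hy.2
    linarith
  have hcont : Continuous fun y => ‖fderiv ℝ (T n) y‖ ^ 2 :=
    (((hT n).continuous_fderiv (by norm_num)).norm).pow 2
  have hD : ∫ y in {y : ℂ | δ < ‖y - z‖ ∧ ‖y - z‖ < √δ}, ‖fderiv ℝ (T n) y‖ ^ 2 ≤ C := by
    refine le_trans ?_ (hE n)
    refine setIntegral_mono_set ?_ ?_ ?_
    · exact hcont.continuousOn.integrableOn_compact (isCompact_closedBall _ _)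
    · exact Eventually.of_forall fun y => by positivity
    · exact Eventually.of_forall hsub
  have hω : ∀ y, ‖y - z‖ ≤ √δ → |T n y - T n z| ≤ ε / (72 * R) := by
    intro y hy
    have h6 : ‖y‖ ≤ ‖y - z‖ + ‖z‖ := by
      have := norm_add_le (y - z) z
      rwa [sub_add_cancel] at this
    exact h1 n y z (by linarith) (by linarith) (by linarith)
  have hw : ‖w - z‖ ≤ δ := by rwa [norm_sub_rev]
  have h7 := QQ_osc hA hR hd4 hd3 (z0 := z) (by linarith) hω hD hw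
  rw [abs_sub_comm]
  refine h7.trans ?_
  have h8 : 36 * R * (ε / (72 * R)) = ε / 2 := by
    field_simp
    norm_num
  rw [h8]
  have h9 : √(4 * Real.pi / Real.log (1 / δ) *
      (18 * Real.pi * R ^ 2 + 162 * R ^ 2 * C)) < ε / 2 := hd1
  linarith

end RSM
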