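import Mathlib
import Pool.Agent.Lib.CauchyPompeiu

/-!
# Rectilinear slit maps of circle domains: basic definitions (project RSM, MP_373296_an)

Overview.  Let `E` be a compact subset of the plane with connected complement and let `Θ` be a
continuous function on the plane, constant on the components of `E`, of locally finite Dirichlet
energy.  We prove that there is a rectilinear slit map `f` of `Eᶜ` which realises `Θ`.

The approximating domains are circle domains `dom c ρ` (the plane minus finitely many pairwise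
disjoint closed discs of the same radius `ρ` and centres `c a`).  On a circle domain, a slit map
with slopes `θ a` is a holomorphic function `F` on the slightly larger domain `dom c ρ'`
(`ρ' < ρ`), with `F z - z → 0` at infinity, with `Im (exp (-i θ a) F) = q a` on the circle
`‖z - c a‖ = ρ`.
-/

open Complex Set Metric Filter Topology MeasureTheory

namespace RSM

export Pool.Lib (dbar)

variable {ι : Type}

/-- The complement of the union of the closed discs with centres `c a` and radius `ρ`. -/
def dom (c : ι → ℂ) (ρ : ℝ) : Set ℂ := {z | ∀ a, ρ < ‖z - c a‖}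

/-- The complement of the union of the open discs with centres `c a` and radius `ρ`. -/
def cdom (c : ι → ℂ) (ρ : ℝ) : Set ℂ := {z | ∀ a, ρ ≤ ‖z - c a‖}

/-- `H` is holomorphic on a neighbourhood `dom c ρ'` of the closed circle domain `cdom c ρ`, the
closed discs are pairwise disjoint, and `H` maps the circle number `a` into a straight line of
direction `θ a`: the line `Im (exp (-i θ a) w) = q a`. -/
structure Compat (c : ι → ℂ) (ρ ρ' : ℝ) (θ : ι → ℝ) (H : ℂ → ℂ) (q : ι → ℝ) : Prop where
  pos : 0 < ρ'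
  lt : ρ' < ρ
  sep : ∀ a b, a ≠ b → 2 * ρ < ‖c a - c b‖
  diff : DifferentiableOn ℂ H (dom c ρ')
  bdry : ∀ a z, ‖z - c a‖ = ρ → (exp (-(θ a : ℂ) * I) * H z).im = q a

/-- `F` is the slit map of the circle domain with slopes `θ a`, normalised by
`F z - z → 0` at infinity. -/
structure IsSlit (c : ι → ℂ) (ρ ρ' : ℝ) (θ : ι → ℝ) (F : ℂ → ℂ) (q : ι → ℝ) : Prop
    extends Compat c ρ ρ' θ F q where
  lim : Tendsto (fun z => F z - z) (cocompact ℂ) (𝓝 0)

/-- The situation in which the estimates are proved: a slit map of a circle domain all of whose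
closed discs lie in the open disc of radius `R`, and a `C¹` function `Θ` on the plane which is
equal to the constant `θ a` on the closed disc number `a`. -/
structure Adm (c : ι → ℂ) (ρ ρ' : ℝ) (θ : ι → ℝ) (F : ℂ → ℂ) (q : ι → ℝ) (Θ : ℂ → ℝ) (R : ℝ) :
    Prop extends IsSlit c ρ ρ' θ F q where
  inball : ∀ a, ‖c a‖ + ρ < R
  smooth : ContDiff ℝ 1 Θ
  slope : ∀ a z, ‖z - c a‖ ≤ ρ → Θ z = θ a

open Classical in
/-- The function `Im (exp (-i Θ) F)` on `cdom c ρ`, extended by the constant `q a` to the closed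
disc number `a`. -/
noncomputable def QQ (c : ι → ℂ) (ρ : ℝ) (F : ℂ → ℂ) (q : ι → ℝ) (Θ : ℂ → ℝ) (z : ℂ) : ℝ :=
  if h : ∃ a, ‖z - c a‖ ≤ ρ then q h.choose else (exp (-(Θ z : ℂ) * I) * F z).im

/-- Exterior Cauchy integral of a continuous function `u` on the unit circle, transplanted to the
circle with centre `c` and radius `ρ`:
`Cop c ρ u z = -(1 / 2πi) ∮ u((w - c) / ρ) / (w - z) dw` over `‖w - c‖ = ρ`. -/
noncomputable def Cop (c : ℂ) (ρ : ℝ) (u : C(Circle, ℂ)) (z : ℂ) : ℂ :=
  -(2 * (Real.pi : ℂ))⁻¹ * ∫ t in (0 : ℝ)..(2 * Real.pi),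
    u (Circle.exp t) * (ρ * exp (t * I)) / (c + ρ * exp (t * I) - z)

/-- `Θ` is (a continuous function) of locally finite Dirichlet energy: on every disc it is a
uniform limit of `C¹` functions with bounded Dirichlet integrals. -/
def FiniteDirichlet (Θ : ℂ → ℝ) : Prop :=
  ∀ R : ℝ, ∃ C : ℝ, ∀ ε > 0, ∃ T : ℂ → ℝ, ContDiff ℝ 1 T ∧
    (∀ z, ‖z‖ ≤ R → |T z - Θ z| ≤ ε) ∧ ∫ z in closedBall (0 : ℂ) R, ‖fderiv ℝ T z‖ ^ 2 ≤ C

/-- The sets `K` (near `E`) and `K'` (in the image plane) correspond to each other under the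
conformal map `f` of `Eᶜ`: a sequence in `Eᶜ` accumulates only on `K` if and only if its image
accumulates only on `K'`. -/
def Corr (E : Set ℂ) (f : ℂ → ℂ) (K K' : Set ℂ) : Prop :=
  ∀ u : ℕ → ℂ, (∀ n, u n ∉ E) →
    (Tendsto (fun n => infDist (u n) K) atTop (𝓝 0) ↔
      Tendsto (fun n => infDist (f (u n)) K') atTop (𝓝 0))

/-- `f` is a rectilinear slit map of `Eᶜ` (normalised at infinity) which realises the slopes `θ`:
`f` is holomorphic and injective on `Eᶜ`, `f z - z → 0` at infinity, the components of `E`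
and the components of the complement of the image `f '' Eᶜ` correspond to each other, and the
component of `(f '' Eᶜ)ᶜ` which corresponds to the component of `E` containing `x` is a compact
straight line segment (possibly a point) in the direction `exp (i θ(x))`. -/
structure IsSlitMap (E : Set ℂ) (θ : ℂ → ℝ) (f : ℂ → ℂ) : Prop where
  diff : DifferentiableOn ℂ f Eᶜ
  inj : InjOn f Eᶜ
  lim : Tendsto (fun z => f z - z) (cocompact ℂ) (𝓝 0)
  exists_right : ∀ x ∈ E, ∃ p ∈ (f '' Eᶜ)ᶜ,
    Corr E f (connectedComponentIn E x) (connectedComponentIn (f '' Eᶜ)ᶜ p)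
  exists_left : ∀ p ∈ (f '' Eᶜ)ᶜ, ∃ x ∈ E,
    Corr E f (connectedComponentIn E x) (connectedComponentIn (f '' Eᶜ)ᶜ p)
  slit : ∀ x ∈ E, ∀ p ∈ (f '' Eᶜ)ᶜ,
    Corr E f (connectedComponentIn E x) (connectedComponentIn (f '' Eᶜ)ᶜ p) →
    ∃ (w : ℂ) (t : ℝ), 0 ≤ t ∧
      connectedComponentIn (f '' Eᶜ)ᶜ p = segment ℝ w (w + t * exp (θ x * I))

end RSM
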