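import Pool.Agent.RSM.Defs

/-!
# RSM module FD: Lipschitz functions have locally finite Dirichlet energy

PROOF.  Let `Θ` be `K`-Lipschitz and `R` given; take `C = K² * volume (closedBall 0 R)` (as a real
number).  For `ε > 0` let `T = (φ.normed volume) ⋆ Θ` be the convolution with a normalised
`ContDiffBump φ` at `0` of outer radius `≤ ε/(K+1)`: it is `C^∞`
(`HasCompactSupport.contDiff_convolution_left`), `|T z - Θ z| ≤ K ε/(K+1) ≤ ε`
(`ContDiffBump.dist_normed_convolution_le`), and it is `K`-Lipschitz, so `‖fderiv ℝ T z‖ ≤ K`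
(`norm_fderiv_le_of_lipschitz`).
-/

open Complex Set Metric Filter Topology MeasureTheory
open scoped NNReal Convolution

namespace RSM

theorem finiteDirichlet_of_lipschitz {K : ℝ≥0} {Θ : ℂ → ℝ} (h : LipschitzWith K Θ) :
    FiniteDirichlet Θ := by
  intro R
  refine ⟨∫ _ in closedBall (0 : ℂ) R, (K : ℝ) ^ 2, fun ε hε => ?_⟩
  have hr : 0 < ε / ((K : ℝ) + 1) := by positivity
  let φ : ContDiffBump (0 : ℂ) := ⟨ε / ((K : ℝ) + 1) / 2, ε / ((K : ℝ) + 1), by positivity,
    half_lt_self hr⟩
  have hcont : Continuous Θ := h.continuous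
  have hT : ContDiff ℝ 1 (φ.normed volume ⋆[ContinuousLinearMap.lsmul ℝ ℝ, volume] Θ) :=
    φ.hasCompactSupport_normed.contDiff_convolution_left _ φ.contDiff_normed
      hcont.locallyIntegrable
  have hint : ∀ z : ℂ, Integrable (fun t => φ.normed volume t * Θ (z - t)) volume := by
    intro z
    refine Continuous.integrable_of_hasCompactSupport ?_ ?_
    · exact φ.continuous_normed.mul (hcont.comp (continuous_const.sub continuous_id))
    · exact φ.hasCompactSupport_normed.mul_right
  have hval : ∀ z : ℂ, (φ.normed volume ⋆[ContinuousLinearMap.lsmul ℝ ℝ, volume] Θ) z =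
      ∫ t, φ.normed volume t * Θ (z - t) := fun z => rfl
  have hlip : LipschitzWith K (φ.normed volume ⋆[ContinuousLinearMap.lsmul ℝ ℝ, volume] Θ) := by
    refine LipschitzWith.of_dist_le_mul fun z w => ?_
    rw [Real.dist_eq, hval, hval, ← integral_sub (hint z) (hint w)]
    have h1 : |∫ t, (φ.normed volume t * Θ (z - t) - φ.normed volume t * Θ (w - t))| ≤
        ∫ t, φ.normed volume t * (K * dist z w) := by
      rw [← Real.norm_eq_abs]
      refine norm_integral_le_of_norm_le (φ.integrable_normed.mul_const _)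
        (Eventually.of_forall fun t => ?_)
      rw [← mul_sub, Real.norm_eq_abs, abs_mul, abs_of_nonneg (φ.nonneg_normed t)]
      refine mul_le_mul_of_nonneg_left ?_ (φ.nonneg_normed t)
      have := h.dist_le_mul (z - t) (w - t)
      rw [Real.dist_eq] at this
      simpa [dist_sub_right] using this
    rw [integral_mul_const, φ.integral_normed, one_mul] at h1
    exact h1
  refine ⟨_, hT, fun z _ => ?_, ?_⟩
  · have hd : dist ((φ.normed volume ⋆[ContinuousLinearMap.lsmul ℝ ℝ, volume] Θ) z) (Θ z) ≤ ε := by
      refine φ.dist_normed_convolution_le hcont.aestronglyMeasurable fun x hx => ?_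
      have h1 := h.dist_le_mul x z
      have h2 : dist x z < ε / ((K : ℝ) + 1) := hx
      have h3 : (K : ℝ) * dist x z ≤ (K : ℝ) * (ε / ((K : ℝ) + 1)) :=
        mul_le_mul_of_nonneg_left h2.le K.coe_nonneg
      have h4 : (K : ℝ) * (ε / ((K : ℝ) + 1)) ≤ ε := by
        rw [mul_div_assoc', div_le_iff₀ (by positivity)]
        nlinarith
      linarith
    rwa [Real.dist_eq] at hd
  · have hc : Continuous fun z =>
        fderiv ℝ (φ.normed volume ⋆[ContinuousLinearMap.lsmul ℝ ℝ, volume] Θ) z :=
      hT.continuous_fderiv one_ne_zero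
    refine setIntegral_mono ?_ ?_ fun z => ?_
    · exact ((hc.norm.pow 2).continuousOn).integrableOn_compact (isCompact_closedBall 0 R)
    · exact (continuous_const.continuousOn).integrableOn_compact (isCompact_closedBall 0 R)
    · exact pow_le_pow_left₀ (norm_nonneg _) (norm_fderiv_le_of_lipschitz ℝ hlip) 2

end RSM
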