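import Pool.Agent.RSM.Defs

/-!
# RSM module S1: chains of lattice points along a connected set

`lat r p` is the point number `p ∈ ℤ × ℤ` of the lattice `2r ℤ²`; `Cell r p x` says that `x` is in the
closed square of side `2r` centred at `lat r p`.

PROOF of `chain`.  Let `A = {a | ∃ z ∈ K, Cell r a z}`, a finite set (K is bounded).  Let `A₁`
be the set of `b ∈ A` which are reachable from `p` and `A₂ = A \ A₁`.  The closed sets
`K₁ = K ∩ ⋃_{a ∈ A₁} cell a` and `K₂ = K ∩ ⋃_{a ∈ A₂} cell a` cover `K`; if `p'` is not reachable,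
both are nonempty (`x ∈ K₁`, `y ∈ K₂`), so by connectedness there is `z ∈ K₁ ∩ K₂`:
`z ∈ cell a ∩ cell b`, `a ∈ A₁`, `b ∈ A₂`.  Then the coordinates of `a` and `b` differ by at
most `1`.  `a ≠ b`.  If they differ in one coordinate only, `‖lat r a - lat r b‖ = 2r` and `b` is
reachable, contradiction.  If they differ in both coordinates, `z` is the common corner of the
two squares, and it is also in the cell of `e = (a.1, b.2)`; so `e ∈ A` and `a → e → b` are two
steps, so `b` is reachable, contradiction.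
`potential_bound`: a shortest chain from `a` to `b` has no repetition, so at most
`card ι` steps (e.g. use `SimpleGraph.fromRel`/`SimpleGraph.Reachable` and
`SimpleGraph.Walk.IsPath.length_lt`, or an induction on the number of elements reached).
-/

open Complex Set Metric Filter Topology MeasureTheory

namespace RSM

/-- The lattice point number `p` of the lattice `2r ℤ²`. -/
noncomputable def lat (r : ℝ) (p : ℤ × ℤ) : ℂ := 2 * r * (p.1 + p.2 * I)

/-- The closed square of side `2r` centred at `lat r p`. -/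
def Cell (r : ℝ) (p : ℤ × ℤ) (x : ℂ) : Prop := |(x - lat r p).re| ≤ r ∧ |(x - lat r p).im| ≤ r

private theorem s1_re (r : ℝ) (p : ℤ × ℤ) (x : ℂ) : (x - lat r p).re = x.re - 2 * r * p.1 := by
  unfold lat
  simp

private theorem s1_im (r : ℝ) (p : ℤ × ℤ) (x : ℂ) : (x - lat r p).im = x.im - 2 * r * p.2 := by
  unfold lat
  simp

private theorem s1_cell {r : ℝ} {p : ℤ × ℤ} {x : ℂ} :
    Cell r p x ↔ |x.re - 2 * r * p.1| ≤ r ∧ |x.im - 2 * r * p.2| ≤ r := by
  unfold Cell
  rw [s1_re, s1_im]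

private theorem s1_round {r : ℝ} (hr : 0 < r) (t : ℝ) :
    |t - 2 * r * (round (t / (2 * r)) : ℤ)| ≤ r := by
  have h := abs_sub_round (t / (2 * r))
  have h2 : t - 2 * r * (round (t / (2 * r)) : ℤ) =
      (2 * r) * (t / (2 * r) - (round (t / (2 * r)) : ℤ)) := by
    field_simp
  rw [h2, abs_mul, abs_of_pos (by linarith : (0 : ℝ) < 2 * r)]
  nlinarith

theorem exists_cell {r : ℝ} (hr : 0 < r) (x : ℂ) : ∃ p, Cell r p x := by
  refine ⟨(round (x.re / (2 * r)), round (x.im / (2 * r))), s1_cell.2 ⟨?_, ?_⟩⟩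
  · exact s1_round hr x.re
  · exact s1_round hr x.im

theorem Cell.norm_le {r : ℝ} {p : ℤ × ℤ} {x : ℂ} (h : Cell r p x) : ‖x - lat r p‖ ≤ 2 * r := by
  refine (Complex.norm_le_abs_re_add_abs_im _).trans ?_
  linarith [h.1, h.2]

theorem le_norm_lat_sub {r : ℝ} (hr : 0 < r) {p p' : ℤ × ℤ} (h : p ≠ p') :
    2 * r ≤ ‖lat r p - lat r p'‖ := by
  have hint : ∀ a b : ℤ, a ≠ b → 2 * r ≤ |2 * r * a - 2 * r * b| := by
    intro a b hab
    rw [← mul_sub, abs_mul, abs_of_pos (by linarith : (0 : ℝ) < 2 * r)]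
    have h1 : (1 : ℤ) ≤ |a - b| := Int.one_le_abs (sub_ne_zero.2 hab)
    have h2 : (1 : ℝ) ≤ |(a : ℝ) - b| := by exact_mod_cast h1
    nlinarith
  have hre : (lat r p).re = 2 * r * p.1 := by unfold lat; simp
  have him : (lat r p).im = 2 * r * p.2 := by unfold lat; simp
  by_cases h1 : p.1 = p'.1
  · have h2 : p.2 ≠ p'.2 := fun h2 => h (Prod.ext h1 h2)
    refine le_trans ?_ (Complex.abs_im_le_norm _)
    rw [s1_im, him]
    exact hint _ _ h2
  · refine le_trans ?_ (Complex.abs_re_le_norm _)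
    rw [s1_re, hre]
    exact hint _ _ h1

theorem finite_cells {r : ℝ} (hr : 0 < r) {K : Set ℂ} (hK : IsCompact K) :
    {p | ∃ z ∈ K, Cell r p z}.Finite := by
  obtain ⟨R, hR⟩ := hK.isBounded.exists_norm_le
  have key : ∀ (t : ℝ) (n : ℤ), |t| ≤ R → |t - 2 * r * n| ≤ r →
      n ∈ Icc (-⌈(R + r) / (2 * r)⌉) ⌈(R + r) / (2 * r)⌉ := by
    intro t n ht hn
    have h1 : |2 * r * (n : ℝ)| ≤ R + r := by
      have h2 : 2 * r * (n : ℝ) = t - (t - 2 * r * n) := by ring
      rw [h2]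
      exact (abs_sub _ _).trans (add_le_add ht hn)
    rw [abs_mul, abs_of_pos (by linarith : (0 : ℝ) < 2 * r)] at h1
    have h3 : |(n : ℝ)| ≤ (R + r) / (2 * r) := by
      rw [le_div_iff₀ (by linarith)]
      linarith
    have h4 : |(n : ℝ)| ≤ (⌈(R + r) / (2 * r)⌉ : ℤ) := h3.trans (Int.le_ceil _)
    have h5 : |n| ≤ ⌈(R + r) / (2 * r)⌉ := by exact_mod_cast h4
    exact abs_le.1 h5
  refine ((Set.finite_Icc (-⌈(R + r) / (2 * r)⌉) ⌈(R + r) / (2 * r)⌉).prod
    (Set.finite_Icc (-⌈(R + r) / (2 * r)⌉) ⌈(R + r) / (2 * r)⌉)).subset ?_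
  rintro p ⟨z, hz, hc⟩
  have hc' := s1_cell.1 hc
  exact ⟨key z.re p.1 ((Complex.abs_re_le_norm z).trans (hR z hz)) hc'.1,
    key z.im p.2 ((Complex.abs_im_le_norm z).trans (hR z hz)) hc'.2⟩

theorem chain {r : ℝ} (hr : 0 < r) {K : Set ℂ} (hKc : IsCompact K) (hK : IsPreconnected K)
    {x y : ℂ} (hx : x ∈ K) (hy : y ∈ K) {p p' : ℤ × ℤ} (hp : Cell r p x) (hp' : Cell r p' y) :
    Relation.ReflTransGen (fun a b => (∃ z ∈ K, Cell r a z) ∧ (∃ z ∈ K, Cell r b z) ∧
      ‖lat r a - lat r b‖ = 2 * r) p p' := by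
  classical
  set Rel : ℤ × ℤ → ℤ × ℤ → Prop := fun a b => (∃ z ∈ K, Cell r a z) ∧ (∃ z ∈ K, Cell r b z) ∧
      ‖lat r a - lat r b‖ = 2 * r with hRel
  by_contra hcon
  have hfin := finite_cells hr hKc
  have hcl : ∀ P : ℤ × ℤ → Prop,
      IsClosed (⋃ a ∈ {a | (∃ z ∈ K, Cell r a z) ∧ P a}, {z | Cell r a z}) := by
    intro P
    apply Set.Finite.isClosed_biUnion
    · exact hfin.subset (fun a ha => ha.1)
    · intro a _
      have h1 : {z | Cell r a z} = {z : ℂ | |z.re - 2 * r * a.1| ≤ r} ∩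
          {z : ℂ | |z.im - 2 * r * a.2| ≤ r} := by
        ext z
        exact s1_cell
      rw [h1]
      refine IsClosed.inter (isClosed_le ?_ continuous_const) (isClosed_le ?_ continuous_const)
      · exact (Complex.continuous_re.sub continuous_const).abs
      · exact (Complex.continuous_im.sub continuous_const).abs
  obtain ⟨z, hzK, hz1, hz2⟩ := (isPreconnected_closed_iff.1 hK)
    (⋃ a ∈ {a | (∃ z ∈ K, Cell r a z) ∧ Relation.ReflTransGen Rel p a}, {z | Cell r a z})
    (⋃ a ∈ {a | (∃ z ∈ K, Cell r a z) ∧ ¬ Relation.ReflTransGen Rel p a}, {z | Cell r a z})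
    (hcl _) (hcl _)
    (by
      intro z hz
      obtain ⟨a, ha⟩ := exists_cell hr z
      by_cases h : Relation.ReflTransGen Rel p a
      · left
        exact Set.mem_biUnion (show a ∈ {a | (∃ z ∈ K, Cell r a z) ∧
          Relation.ReflTransGen Rel p a} from ⟨⟨z, hz, ha⟩, h⟩) ha
      · right
        exact Set.mem_biUnion (show a ∈ {a | (∃ z ∈ K, Cell r a z) ∧
          ¬ Relation.ReflTransGen Rel p a} from ⟨⟨z, hz, ha⟩, h⟩) ha)
    ⟨x, hx, Set.mem_biUnion (show p ∈ {a | (∃ z ∈ K, Cell r a z) ∧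
          Relation.ReflTransGen Rel p a} from ⟨⟨x, hx, hp⟩, Relation.ReflTransGen.refl⟩) hp⟩
    ⟨y, hy, Set.mem_biUnion (show p' ∈ {a | (∃ z ∈ K, Cell r a z) ∧
          ¬ Relation.ReflTransGen Rel p a} from ⟨⟨y, hy, hp'⟩, hcon⟩) hp'⟩
  rw [Set.mem_iUnion₂] at hz1 hz2
  obtain ⟨a, ⟨haK, hpa⟩, haz⟩ := hz1
  obtain ⟨b, ⟨hbK, hpb⟩, hbz⟩ := hz2
  have haz' := s1_cell.1 haz
  have hbz' := s1_cell.1 hbz
  have hez : Cell r (a.1, b.2) z := s1_cell.2 ⟨haz'.1, hbz'.2⟩
  have heK : ∃ z ∈ K, Cell r (a.1, b.2) z := ⟨z, hzK, hez⟩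
  have hclose : ∀ (t : ℝ) (m n : ℤ), |t - 2 * r * m| ≤ r → |t - 2 * r * n| ≤ r → m ≠ n →
      |(m : ℝ) - n| = 1 := by
    intro t m n hm hn hmn
    have h1 : |2 * r * ((m : ℝ) - n)| ≤ 2 * r := by
      have h2 : 2 * r * ((m : ℝ) - n) = (t - 2 * r * n) - (t - 2 * r * m) := by ring
      rw [h2]
      refine (abs_sub _ _).trans ?_
      linarith
    rw [abs_mul, abs_of_pos (by linarith : (0 : ℝ) < 2 * r)] at h1
    have h3 : |(m : ℝ) - n| ≤ 1 := by
      by_contra hc
      push Not at hc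
      nlinarith
    have h4 : (1 : ℤ) ≤ |m - n| := Int.one_le_abs (sub_ne_zero.2 hmn)
    have h5 : (1 : ℝ) ≤ |(m : ℝ) - n| := by exact_mod_cast h4
    exact le_antisymm h3 h5
  have hpe : Relation.ReflTransGen Rel p (a.1, b.2) := by
    by_cases h : a.2 = b.2
    · have : (a.1, b.2) = a := Prod.ext rfl h.symm
      rw [this]
      exact hpa
    · refine hpa.tail ⟨haK, heK, ?_⟩
      have h1 := hclose z.im a.2 b.2 haz'.2 hbz'.2 h
      have h2 : lat r a - lat r (a.1, b.2) = ((2 * r * ((a.2 : ℝ) - b.2) : ℝ) : ℂ) * I := by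
        unfold lat
        push_cast
        ring
      rw [h2, norm_mul, Complex.norm_I, mul_one, Complex.norm_real, Real.norm_eq_abs, abs_mul, h1,
        abs_of_pos (by linarith : (0 : ℝ) < 2 * r), mul_one]
  apply hpb
  by_cases h : a.1 = b.1
  · have : (a.1, b.2) = b := Prod.ext h rfl
    rw [this] at hpe
    exact hpe
  · refine hpe.tail ⟨heK, hbK, ?_⟩
    have h1 := hclose z.re a.1 b.1 haz'.1 hbz'.1 h
    have h2 : lat r (a.1, b.2) - lat r b = ((2 * r * ((a.1 : ℝ) - b.1) : ℝ) : ℂ) := by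
      unfold lat
      push_cast
      ring
    rw [h2, Complex.norm_real, Real.norm_eq_abs, abs_mul, h1,
      abs_of_pos (by linarith : (0 : ℝ) < 2 * r), mul_one]

theorem potential_bound {ι : Type} [Fintype ι] {Rel : ι → ι → Prop} {q : ι → ℝ} {ε : ℝ}
    (hε : 0 ≤ ε) (h : ∀ a b, Rel a b → |q a - q b| ≤ ε) {a b : ι}
    (hab : Relation.ReflTransGen Rel a b) : |q a - q b| ≤ Fintype.card ι * ε := by
  classical
  set G : SimpleGraph ι := SimpleGraph.fromRel Rel with hG
  have hreach : G.Reachable a b := by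
    induction hab with
    | refl => exact SimpleGraph.Reachable.refl a
    | @tail b' c' _ hbc ih =>
      by_cases hne : b' = c'
      · rw [← hne]; exact ih
      · refine ih.trans (SimpleGraph.Adj.reachable ?_)
        rw [hG, SimpleGraph.fromRel_adj]
        exact ⟨hne, Or.inl hbc⟩
  have hwalk : ∀ {u v : ι} (w : G.Walk u v), |q u - q v| ≤ w.length * ε := by
    intro u v w
    induction w with
    | nil => simp
    | cons hadj w ih =>
      rename_i u' v' w'
      rw [hG, SimpleGraph.fromRel_adj] at hadj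
      have h1 : |q u' - q v'| ≤ ε := by
        rcases hadj.2 with h2 | h2
        · exact h _ _ h2
        · rw [abs_sub_comm]; exact h _ _ h2
      have h3 : q u' - q w' = (q u' - q v') + (q v' - q w') := by ring
      rw [h3, SimpleGraph.Walk.length_cons]
      refine (abs_add_le _ _).trans ?_
      push_cast
      linarith
  obtain ⟨w⟩ := hreach
  have hp := w.toPath.2.length_lt
  refine (hwalk (w.toPath : G.Walk a b)).trans ?_
  apply mul_le_mul_of_nonneg_right _ hε
  exact_mod_cast hp.le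

end RSM
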