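import Pool.Agent.RSM.B8
import Pool.Agent.RSM.D6
import Pool.Agent.RSM.S1

/-!
# RSM module S3: one stage of the construction

PROOF.  If `P = ∅` take `ι = Empty` (a slit map exists by `exists_isSlit`, or `F = id`).  Apply
`QQ_equicont` to the constant sequence `T n = T` (its hypotheses hold: `T` is `C¹`, the Dirichlet
integral over the ball is some finite number, `T` is uniformly continuous on
`closedBall 0 (3R)`): for every `η > 0` there is `δ(η) > 0` such that
`|QQ z - QQ w| ≤ η` for `‖z‖ ≤ 2R`, `‖z - w‖ ≤ δ(η)`, for all admissible data (all circle domains).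
Choose `r > 0` with `2r ≤ δ(ε/3)`, `4r ≤ r0`, `4r < ε`, and `‖x‖ + 4r < R` for `x ∈ P` (compact).
Let `A = {p | ∃ z ∈ P, Cell r p z}` (finite, `finite_cells`), `ι = A` as a type, `N = card ι`,
`c a = lat r a`, `ρ < r` with `ρ > 0` and `2 (r - ρ) ≤ δ(ε/(3(N+1)))`, `θ a = T (c a)`.
Separation: `2ρ < 2r ≤ ‖c a - c b‖` (`le_norm_lat_sub`).  For `‖z - c a‖ ≤ ρ` there is `x ∈ P` with
`Cell r a x`, `‖x - c a‖ ≤ 2r`, `‖z - x‖ ≤ 3r < ε`; and `T z = T x = T (c a) = θ a` by `hloc`.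
`exists_isSlit` gives `ρ', F, q`; so `Adm c ρ ρ' θ F q T R` holds.
Let `K ⊆ P` be compact connected, `x, y ∈ K`, `Cell r p x`, `Cell r p' y` (`exists_cell`; `p, p' ∈ A`).
By `chain`, `p'` is reachable from `p` by steps `a → b` in `A` with `‖c a - c b‖ = 2r`; for such a
step the points `z = c a + (ρ/(2r)) (c b - c a)` and `w = c b + (ρ/(2r)) (c a - c b)` are in the
closed discs `a`, `b` and `‖z - w‖ = 2r - 2ρ`, so
`|q a - q b| = |QQ z - QQ w| ≤ ε/(3(N+1))` (`QQ_of_mem`).  By `potential_bound`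
`|q p - q p'| ≤ N ε/(3(N+1)) ≤ ε/3`.  Moreover `|QQ x - q p| = |QQ x - QQ (c p)| ≤ ε/3` since
`‖x - c p‖ ≤ 2r`, and the same for `y`.  Total: `≤ ε`.
-/

open Complex Set Metric Filter Topology MeasureTheory

namespace RSM

/-- uniform equicontinuity for a fixed function `T` -/
private theorem QQ_eq_fixed {R : ℝ} (hR : 0 < R) {T : ℂ → ℝ} (hT : ContDiff ℝ 1 T) {η : ℝ}
    (hη : 0 < η) :
    ∃ δ > 0, ∀ (ι : Type) (_ : Finite ι) (c : ι → ℂ) (ρ ρ' : ℝ) (θ : ι → ℝ) (F : ℂ → ℂ)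
      (q : ι → ℝ), Adm c ρ ρ' θ F q T R → ∀ z w, ‖z‖ ≤ 2 * R → ‖z - w‖ ≤ δ →
        |QQ c ρ F q T z - QQ c ρ F q T w| ≤ η := by
  obtain ⟨δ, hδ, h⟩ := QQ_equicont (C := ∫ z in closedBall (0 : ℂ) (3 * R), ‖fderiv ℝ T z‖ ^ 2) hR
    (T := fun _ => T) (fun _ => hT) (fun _ => le_refl _) (by
      intro e he
      have huc : UniformContinuousOn T (closedBall (0 : ℂ) (3 * R)) :=
        (isCompact_closedBall 0 (3 * R)).uniformContinuousOn_of_continuous
          hT.continuous.continuousOn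
      rw [Metric.uniformContinuousOn_iff_le] at huc
      obtain ⟨δ, hδ, h⟩ := huc e he
      refine ⟨δ, hδ, fun _ z w hz hw hzw => ?_⟩
      have := h z (by simpa using hz) w (by simpa using hw) (by rw [dist_eq_norm]; exact hzw)
      rw [Real.dist_eq] at this
      exact this) hη
  exact ⟨δ, hδ, fun ι hι => h 0 ι hι⟩

theorem stage {R : ℝ} (hR : 0 < R) {T : ℂ → ℝ} (hT : ContDiff ℝ 1 T) {P : Set ℂ}
    (hP : IsCompact P) (hPR : ∀ x ∈ P, ‖x‖ < R) {r0 : ℝ} (hr0 : 0 < r0)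
    (hloc : ∀ x ∈ P, ∀ z, ‖z - x‖ ≤ r0 → T z = T x) {ε : ℝ} (hε : 0 < ε) :
    ∃ (ι : Type) (_ : Finite ι) (c : ι → ℂ) (ρ ρ' : ℝ) (θ : ι → ℝ) (F : ℂ → ℂ) (q : ι → ℝ),
      Adm c ρ ρ' θ F q T R ∧ (∀ a z, ‖z - c a‖ ≤ ρ → ∃ x ∈ P, ‖z - x‖ < ε) ∧
      ∀ K ⊆ P, IsCompact K → IsPreconnected K → ∀ x ∈ K, ∀ y ∈ K,
        |QQ c ρ F q T x - QQ c ρ F q T y| ≤ ε := by
  obtain ⟨δ, hδ, hQ⟩ := QQ_eq_fixed hR hT (η := ε / 3) (by positivity)
  -- a bound for the norms
  obtain ⟨M, hMR, hM⟩ : ∃ M < R, ∀ x ∈ P, ‖x‖ ≤ M := by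
    rcases P.eq_empty_or_nonempty with h | h
    · exact ⟨0, hR, by simp [h]⟩
    · obtain ⟨x, hx, hmax⟩ := hP.exists_isMaxOn h continuous_norm.continuousOn
      exact ⟨‖x‖, hPR x hx, fun y hy => hmax hy⟩
  -- the mesh
  obtain ⟨r, hr, hrδ, hrr0, hrε, hrR⟩ : ∃ r > 0, 2 * r ≤ δ ∧ 4 * r ≤ r0 ∧ 4 * r < ε ∧
      M + 4 * r < R := by
    have hRM : 0 < R - M := by linarith
    refine ⟨min (δ / 2) (min (r0 / 4) (min (ε / 8) ((R - M) / 8))), by positivity, ?_, ?_, ?_, ?_⟩
    · have := min_le_left (δ / 2) (min (r0 / 4) (min (ε / 8) ((R - M) / 8)))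
      linarith
    · have := (min_le_right (δ / 2) (min (r0 / 4) (min (ε / 8) ((R - M) / 8)))).trans
        (min_le_left _ _)
      linarith
    · have := ((min_le_right (δ / 2) (min (r0 / 4) (min (ε / 8) ((R - M) / 8)))).trans
        (min_le_right _ _)).trans (min_le_left _ _)
      linarith
    · have := ((min_le_right (δ / 2) (min (r0 / 4) (min (ε / 8) ((R - M) / 8)))).trans
        (min_le_right _ _)).trans (min_le_right _ _)
      linarith
  obtain ⟨A, hAdef⟩ : ∃ A : Set (ℤ × ℤ), A = {p | ∃ z ∈ P, Cell r p z} := ⟨_, rfl⟩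
  have hAfin : A.Finite := by
    rw [hAdef]
    exact finite_cells hr hP
  have hAmem' : ∀ a ∈ A, ∃ x ∈ P, Cell r a x := by
    intro a ha
    rw [hAdef] at ha
    exact ha
  have hAmem : ∀ a : A, ∃ x ∈ P, Cell r a x := fun a => hAmem' a a.2
  have : Finite A := hAfin
  have := Fintype.ofFinite A
  obtain ⟨N, hN⟩ : ∃ N : ℕ, N = Fintype.card A := ⟨_, rfl⟩
  obtain ⟨η, hηdef⟩ : ∃ η : ℝ, η = ε / (3 * (N + 1)) := ⟨_, rfl⟩
  have hη : 0 < η := by rw [hηdef]; positivity
  have hNη : N * η ≤ ε / 3 := by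
    have hN1 : (0 : ℝ) < N + 1 := by positivity
    have e : (N + 1) * η = ε / 3 := by
      rw [hηdef]
      field_simp
    nlinarith
  obtain ⟨δ', hδ', hQ'⟩ := QQ_eq_fixed hR hT hη
  obtain ⟨ρ, hρ0, hρr, hρδ⟩ : ∃ ρ > 0, ρ < r ∧ 2 * (r - ρ) ≤ δ' := by
    refine ⟨r - min (r / 2) (δ' / 2), ?_, ?_, ?_⟩
    · have := min_le_left (r / 2) (δ' / 2)
      have : 0 < r - r / 2 := by linarith
      linarith
    · have : 0 < min (r / 2) (δ' / 2) := by positivity
      linarith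
    · have := min_le_right (r / 2) (δ' / 2)
      linarith
  have hsep : ∀ a b : A, a ≠ b → 2 * ρ < ‖lat r a - lat r b‖ := by
    intro a b hab
    have := le_norm_lat_sub hr (p := a) (p' := b) (fun h => hab (Subtype.ext h))
    linarith
  obtain ⟨ρ', F, q, hS⟩ := exists_isSlit (fun a : A => lat r a) hρ0 hsep (fun a => T (lat r a))
  have hnear : ∀ (a : A) (z : ℂ), ‖z - lat r a‖ ≤ ρ → ∃ x ∈ P, ‖x - lat r a‖ ≤ 2 * r ∧
      ‖z - x‖ ≤ 3 * r := by
    intro a z hz
    obtain ⟨x, hx, hc⟩ := hAmem a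
    have h1 := hc.norm_le
    refine ⟨x, hx, h1, ?_⟩
    have h2 : ‖z - x‖ ≤ ‖z - lat r a‖ + ‖x - lat r a‖ := by
      have := norm_sub_le (z - lat r a) (x - lat r a)
      rwa [sub_sub_sub_cancel_right] at this
    linarith
  have hAdm : Adm (fun a : A => lat r a) ρ ρ' (fun a => T (lat r a)) F q T R := by
    refine ⟨hS, ?_, hT, ?_⟩
    · intro a
      obtain ⟨x, hx, hc⟩ := hAmem a
      have h1 := hc.norm_le
      have h2 := hM x hx
      have h3 : ‖lat r a‖ ≤ ‖x‖ + ‖x - lat r a‖ := by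
        have := norm_sub_le x (x - lat r a)
        rwa [sub_sub_cancel] at this
      show ‖lat r a‖ + ρ < R
      linarith
    · intro a z hz
      obtain ⟨x, hx, h1, h2⟩ := hnear a z hz
      have e1 := hloc x hx z (by linarith)
      have e2 := hloc x hx (lat r a) (by rw [norm_sub_rev]; linarith)
      show T z = T (lat r a)
      rw [e1, e2]
  refine ⟨A, inferInstance, fun a => lat r a, ρ, ρ', fun a => T (lat r a), F, q, hAdm, ?_, ?_⟩
  · intro a z hz
    obtain ⟨x, hx, h1, h2⟩ := hnear a z hz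
    exact ⟨x, hx, by linarith⟩
  · intro K hKP hKc hKconn x hx y hy
    obtain ⟨p, hp⟩ := exists_cell hr x
    obtain ⟨p', hp'⟩ := exists_cell hr y
    have hmemA : ∀ b, (∃ z ∈ K, Cell r b z) → b ∈ A := by
      rintro b ⟨z, hz, hc⟩
      rw [hAdef]
      exact ⟨z, hKP hz, hc⟩
    have hpA : p ∈ A := hmemA p ⟨x, hx, hp⟩
    have hp'A : p' ∈ A := hmemA p' ⟨y, hy, hp'⟩
    have hch := chain hr hKc hKconn hx hy hp hp'
    have hlift : ∀ p₁, Relation.ReflTransGen (fun a b => (∃ z ∈ K, Cell r a z) ∧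
        (∃ z ∈ K, Cell r b z) ∧ ‖lat r a - lat r b‖ = 2 * r) p p₁ → ∀ hp₁ : p₁ ∈ A,
        Relation.ReflTransGen (fun a b : A => ‖lat r a - lat r b‖ = 2 * r) ⟨p, hpA⟩ ⟨p₁, hp₁⟩ := by
      intro p₁ h
      induction h with
      | refl => intro _; exact Relation.ReflTransGen.refl
      | tail _ hstep ih =>
        intro hp₁
        exact (ih (hmemA _ hstep.1)).tail hstep.2.2
    have hch' := hlift p' hch hp'A
    have hstep : ∀ a b : A, ‖lat r a - lat r b‖ = 2 * r → |q a - q b| ≤ η := by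
      intro a b hab
      have hr2 : (2 * r : ℝ) ≠ 0 := by positivity
      obtain ⟨s, hs⟩ : ∃ s : ℝ, s = ρ / (2 * r) := ⟨_, rfl⟩
      have hs0 : 0 ≤ s := by rw [hs]; positivity
      have hsr : s * (2 * r) = ρ := by rw [hs]; field_simp
      have hs1 : 2 * s ≤ 1 := by
        rw [hs]
        rw [← mul_div_assoc, div_le_one (by positivity)]
        linarith
      have h1 : ‖lat r a + s * (lat r b - lat r a) - lat r a‖ ≤ ρ := by
        rw [add_sub_cancel_left, norm_mul, norm_real, Real.norm_of_nonneg hs0,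
          norm_sub_rev, hab, hsr]
      have h2 : ‖lat r b + s * (lat r a - lat r b) - lat r b‖ ≤ ρ := by
        rw [add_sub_cancel_left, norm_mul, norm_real, Real.norm_of_nonneg hs0,
          hab, hsr]
      have h3 : ‖(lat r a + s * (lat r b - lat r a)) - (lat r b + s * (lat r a - lat r b))‖ ≤ δ' := by
        have e : (lat r a + s * (lat r b - lat r a)) - (lat r b + s * (lat r a - lat r b))
            = ((1 - 2 * s : ℝ) : ℂ) * (lat r a - lat r b) := by
          push_cast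
          ring
        rw [e, norm_mul, norm_real, Real.norm_of_nonneg (by linarith), hab]
        have : (1 - 2 * s) * (2 * r) = 2 * (r - ρ) := by
          rw [← hsr]
          ring
        rw [this]
        exact hρδ
      have h4 : ‖lat r a + s * (lat r b - lat r a)‖ ≤ 2 * R := by
        have h5 := hAdm.inball a
        have h6 : ‖lat r a + s * (lat r b - lat r a)‖ ≤ ‖lat r a‖ +
            ‖lat r a + s * (lat r b - lat r a) - lat r a‖ := by
          have := norm_add_le (lat r a) (lat r a + s * (lat r b - lat r a) - lat r a)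
          rwa [add_sub_cancel] at this
        linarith
      have h7 := hQ' A inferInstance _ ρ ρ' _ F q hAdm _ _ h4 h3
      rw [QQ_of_mem hAdm h1, QQ_of_mem hAdm h2] at h7
      exact h7
    have h8 := potential_bound (Rel := fun a b : A => ‖lat r a - lat r b‖ = 2 * r) (q := q) hη.le
      hstep hch'
    rw [← hN] at h8
    have hend : ∀ (u : ℂ) (hu : u ∈ K) (b : ℤ × ℤ) (hb : b ∈ A), Cell r b u →
        |QQ (fun a : A => lat r a) ρ F q T u - q ⟨b, hb⟩| ≤ ε / 3 := by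
      intro u hu b hb hc
      have h9 := hc.norm_le
      have h10 := hQ A inferInstance _ ρ ρ' _ F q hAdm u (lat r b)
        (by have := hPR u (hKP hu); linarith) (by linarith)
      have h11 : QQ (fun a : A => lat r a) ρ F q T (lat r b) = q ⟨b, hb⟩ := by
        apply QQ_of_mem hAdm (a := ⟨b, hb⟩)
        simp only [sub_self, norm_zero]
        exact hρ0.le
      rw [h11] at h10
      exact h10
    have h12 := hend x hx p hpA hp
    have h13 := hend y hy p' hp'A hp'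
    rw [abs_le] at h8 h12 h13 ⊢
    constructor <;> linarith [h8.1, h8.2, h12.1, h12.2, h13.1, h13.2]

end RSM
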