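import Pool.Agent.RSM.S2
import Pool.Agent.RSM.S3

/-!
# RSM module L2: the approximating sequence

PROOF.  Let `C` be the constant of `hFD` for the radius `3R`.  For `n ∈ ℕ` let
`P n = ⋃ j ≤ n, connectedComponentIn E (x j)`: a compact subset of `E` (components of a compact
set are compact), on which `Θ` takes finitely many values (`hconst`).  `exists_locally_const` with
radius `3R`, `ε = 1/(n+1)`, gives `T n`, `C¹`, `|T n - Θ| ≤ 1/(n+1)` on `closedBall 0 (3R)`, with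
Dirichlet integral at most `2C + 1`, and `T n z = Θ x` for `x ∈ P n`, `‖z - x‖ ≤ r n`; in particular
`T n z = T n x`.  The family `T n` satisfies the equicontinuity hypothesis of
`QQ_equicont`: given `ε`, choose `N` with `1/(N+1) ≤ ε/3`, `δ` for the uniform continuity
of `Θ` on `closedBall 0 (3R)` (`ε/3`) and of each of the finitely many `T n`, `n < N`.  Apply
`stage` to `T n`, `P n`, `r0 = r n`, `ε = 1/(n+1)` for each `n` and choose the data.  The
equicontinuity of the `QQ`'s is `QQ_equicont`.  For `j ≤ n`, `x j` and `y j` lie in the compact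
connected set `K = connectedComponentIn E (x j) ⊆ P n`.
-/

open Complex Set Metric Filter Topology MeasureTheory

namespace RSM

/-- components of a compact set are compact -/
theorem L2_isCompact_component {E : Set ℂ} (hE : IsCompact E) {x : ℂ} (hx : x ∈ E) :
    IsCompact (connectedComponentIn E x) := by
  apply hE.of_isClosed_subset _ (connectedComponentIn_subset E x)
  have h1 : closure (connectedComponentIn E x) ⊆ connectedComponentIn E x := by
    apply IsPreconnected.subset_connectedComponentIn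
    · exact isPreconnected_connectedComponentIn.closure
    · exact subset_closure (mem_connectedComponentIn hx)
    · exact closure_minimal (connectedComponentIn_subset E x) hE.isClosed
  exact isClosed_of_closure_subset h1

theorem L2_unif {Θ : ℂ → ℝ} (hΘ : Continuous Θ) (R : ℝ) {ε : ℝ} (hε : 0 < ε) :
    ∃ δ > 0, ∀ z w : ℂ, ‖z‖ ≤ R → ‖w‖ ≤ R → ‖z - w‖ ≤ δ → |Θ z - Θ w| ≤ ε := by
  have h1 : UniformContinuousOn Θ (closedBall (0 : ℂ) R) :=
    (isCompact_closedBall _ _).uniformContinuousOn_of_continuous hΘ.continuousOn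
  rw [Metric.uniformContinuousOn_iff] at h1
  obtain ⟨δ, hδ, h⟩ := h1 ε hε
  refine ⟨δ / 2, by positivity, fun z w hz hw hzw => ?_⟩
  have h2 := h z (by rwa [mem_closedBall_zero_iff]) w (by rwa [mem_closedBall_zero_iff])
    (by rw [dist_eq_norm]; linarith)
  rw [Real.dist_eq] at h2
  exact h2.le

theorem L2_equi {Θ : ℂ → ℝ} (hΘ : Continuous Θ) {R : ℝ} {T : ℕ → ℂ → ℝ}
    (hT : ∀ n, Continuous (T n))
    (hc : ∀ n z, ‖z‖ ≤ R → |T n z - Θ z| ≤ 1 / ((n : ℝ) + 1)) :
    ∀ ε > 0, ∃ δ > 0, ∀ n z w, ‖z‖ ≤ R → ‖w‖ ≤ R → ‖z - w‖ ≤ δ → |T n z - T n w| ≤ ε := by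
  intro ε hε
  obtain ⟨N, hN⟩ := exists_nat_one_div_lt (by positivity : (0 : ℝ) < ε / 3)
  obtain ⟨δ0, hδ0, h0⟩ := L2_unif hΘ R (by positivity : (0 : ℝ) < ε / 3)
  choose δ hδ h using fun n => L2_unif (hT n) R hε
  -- minimum of finitely many
  have hmin : ∀ M : ℕ, ∃ d > 0, ∀ n < M, d ≤ δ n := by
    intro M
    induction M with
    | zero => exact ⟨1, one_pos, fun n hn => absurd hn (Nat.not_lt_zero n)⟩
    | succ M ih =>
      obtain ⟨d, hd, hd'⟩ := ih
      refine ⟨min d (δ M), lt_min hd (hδ M), fun n hn => ?_⟩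
      rcases Nat.lt_succ_iff_lt_or_eq.1 hn with h1 | h1
      · exact (min_le_left _ _).trans (hd' n h1)
      · rw [h1]
        exact min_le_right _ _
  obtain ⟨d, hd, hd'⟩ := hmin N
  refine ⟨min d δ0, lt_min hd hδ0, fun n z w hz hw hzw => ?_⟩
  rcases lt_or_ge n N with hn | hn
  · exact h n z w hz hw (hzw.trans ((min_le_left _ _).trans (hd' n hn)))
  · have h1 : 1 / ((n : ℝ) + 1) ≤ ε / 3 := by
      refine le_trans ?_ hN.le
      apply one_div_le_one_div_of_le (by positivity)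
      have : (N : ℝ) ≤ n := by exact_mod_cast hn
      linarith
    have h2 := hc n z hz
    have h3 := hc n w hw
    have h4 := h0 z w hz hw (hzw.trans (min_le_right _ _))
    rw [abs_le] at h2 h3 h4 ⊢
    constructor <;> linarith [h2.1, h2.2, h3.1, h3.2, h4.1, h4.2]

theorem exists_sequence {E : Set ℂ} (hE : IsCompact E) {Θ : ℂ → ℝ} (hΘ : Continuous Θ)
    (hFD : FiniteDirichlet Θ) (hconst : ∀ x ∈ E, ∀ y ∈ connectedComponentIn E x, Θ y = Θ x)
    {R : ℝ} (hR : 0 < R) (hER : ∀ x ∈ E, ‖x‖ < R) {x y : ℕ → ℂ} (hx : ∀ j, x j ∈ E)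
    (hy : ∀ j, y j ∈ connectedComponentIn E (x j)) :
    ∃ (ι : ℕ → Type) (_ : ∀ n, Finite (ι n)) (c : ∀ n, ι n → ℂ) (ρ ρ' : ℕ → ℝ)
      (θ : ∀ n, ι n → ℝ) (F : ℕ → ℂ → ℂ) (q : ∀ n, ι n → ℝ) (T : ℕ → ℂ → ℝ),
      (∀ n, Adm (c n) (ρ n) (ρ' n) (θ n) (F n) (q n) (T n) R) ∧
      (∀ n z, ‖z‖ ≤ 3 * R → |T n z - Θ z| ≤ 1 / ((n : ℝ) + 1)) ∧
      (∀ n a z, ‖z - c n a‖ ≤ ρ n → ∃ x ∈ E, ‖z - x‖ < 1 / ((n : ℝ) + 1)) ∧
      (∀ ε > 0, ∃ δ > 0, ∀ n z w, ‖z‖ ≤ 2 * R → ‖z - w‖ ≤ δ →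
        |QQ (c n) (ρ n) (F n) (q n) (T n) z - QQ (c n) (ρ n) (F n) (q n) (T n) w| ≤ ε) ∧
      ∀ n, ∀ j ≤ n, |QQ (c n) (ρ n) (F n) (q n) (T n) (x j) -
        QQ (c n) (ρ n) (F n) (q n) (T n) (y j)| ≤ 1 / ((n : ℝ) + 1) := by
  classical
  obtain ⟨C, hC⟩ := hFD (3 * R)
  have h3R : 0 < 3 * R := by positivity
  obtain ⟨P, hPdef⟩ : ∃ P : ℕ → Set ℂ, P = fun n => ⋃ j ∈ Finset.range (n + 1),
    connectedComponentIn E (x j) := ⟨_, rfl⟩
  have hPE : ∀ n, P n ⊆ E := by
    intro n z hz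
    rw [hPdef] at hz
    simp only [mem_iUnion] at hz
    obtain ⟨j, _, hz⟩ := hz
    exact connectedComponentIn_subset E _ hz
  have hPc : ∀ n, IsCompact (P n) := by
    intro n
    rw [hPdef]
    exact (Finset.range (n + 1)).isCompact_biUnion fun j _ => L2_isCompact_component hE (hx j)
  have hPfin : ∀ n, (Θ '' P n).Finite := by
    intro n
    apply Set.Finite.subset (((Finset.range (n + 1)).finite_toSet).image fun j => Θ (x j))
    rintro _ ⟨z, hz, rfl⟩
    rw [hPdef] at hz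
    simp only [mem_iUnion] at hz
    obtain ⟨j, hj, hz⟩ := hz
    exact ⟨j, hj, (hconst _ (hx j) z hz).symm⟩
  have hPR : ∀ n, ∀ z ∈ P n, ‖z‖ < 3 * R := fun n z hz => by
    have := hER z (hPE n hz)
    linarith
  have hpos : ∀ n : ℕ, (0 : ℝ) < 1 / ((n : ℝ) + 1) := fun n => by positivity
  choose T hTs hTc hTD r hr hloc using fun n =>
    exists_locally_const hΘ (hPc n) (hPfin n) h3R hC (hPR n) (hpos n)
  choose ι hfin c ρ ρ' θ F q hAdm hnear hK using fun n =>
    stage hR (hTs n) (hPc n) (fun z hz => hER z (hPE n hz)) (hr n)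
      (fun z hz w hw => by
        rw [hloc n z hz w hw, hloc n z hz z (by rw [sub_self, norm_zero]; exact (hr n).le)])
      (hpos n)
  refine ⟨ι, hfin, c, ρ, ρ', θ, F, q, T, hAdm, hTc, ?_, ?_, ?_⟩
  · intro n a z hz
    obtain ⟨w, hw, hzw⟩ := hnear n a z hz
    exact ⟨w, hPE n hw, hzw⟩
  · intro ε hε
    obtain ⟨δ, hδ, h⟩ := QQ_equicont hR hTs hTD
      (L2_equi hΘ (fun n => (hTs n).continuous) hTc) hε
    exact ⟨δ, hδ, fun n z w hz hzw => h n (ι n) (hfin n) (c n) (ρ n) (ρ' n) (θ n) (F n) (q n)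
      (hAdm n) z w hz hzw⟩
  · intro n j hj
    refine hK n (connectedComponentIn E (x j)) ?_ (L2_isCompact_component hE (hx j))
      isPreconnected_connectedComponentIn (x j) (mem_connectedComponentIn (hx j)) (y j) (hy j)
    intro z hz
    rw [hPdef]
    simp only [mem_iUnion]
    exact ⟨j, Finset.mem_range.2 (by omega), hz⟩

end RSM
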