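import Pool.Agent.RSM.C8
import Pool.Agent.RSM.L1
import Pool.Agent.RSM.L2

/-!
# RSM module L3: the limit map

PROOF.  Let `R > 0` with `‖x‖ < R` for `x ∈ E`.  The set `S = {(x, y) | x ∈ E, y ∈
connectedComponentIn E x} ⊆ ℂ × ℂ` is nonempty and separable: let `(x j, y j)` be a sequence in
`S`, dense in `S`.  Take the data of `exists_sequence` and an ultrafilter `p ≤ atTop` on `ℕ`
(`Filter.hyperfilter ℕ`).  Write `QQ_n` for the functions `QQ`.
(1) Let `K ⊆ Eᶜ` be compact.  For large `n` (distance from `K` to `E` larger than `2/(n+1)`) `K` is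
contained in the open set `V = {z | ∀ x ∈ E, 1/(n+1) < ‖z - x‖} ⊆ dom (c n) (ρ n)` (or in
`dom (c n) (ρ n)` itself), on which `F n` is holomorphic and injective (`IsSlit.injOn`); and
`‖F n z‖ ≤ 9R` for `‖z‖ ≤ 3R`, `‖F n z‖ ≤ ‖z‖ + 6R` for `‖z‖ ≥ 3R` (`norm_le`, `far_bound`).  By
`montel_ultra`, `F n → f` along `p`, uniformly on compact subsets of `Eᶜ`, `f` holomorphic.
(2) `‖f z - z‖ ≤ 18R²/‖z‖` for `‖z‖ ≥ 3R`, so `f z - z → 0` at infinity; `f` is not constant on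
`Eᶜ`; `f` is injective on `Eᶜ` by `injOn_of_ultra`.  Also `‖f z‖ ≤ 9R` for `z ∉ E`, `‖z‖ ≤ 3R`.
(3) For `‖z‖ ≤ 2R`, `|QQ_n z| ≤ 9R` (`abs_QQ_le`), so `Q z := lim_p QQ_n z` exists; it satisfies
`|Q z - Q w| ≤ ε` for `‖z‖, ‖w‖ ≤ 2R`, `‖z - w‖ ≤ δ(ε)`.  `Q (x j) = Q (y j)` for all `j` (as
`|QQ_n (x j) - QQ_n (y j)| ≤ 1/(n+1)` for `n ≥ j`), hence by density and continuity `Q x = Q y`
for all `(x, y) ∈ S`.  For `z ∉ E`, `‖z‖ ≤ 2R`: `z ∈ cdom (c n) (ρ n)` for large `n`, so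
`QQ_n z = Im (exp (-i T n z) F n z) → Im (exp (-i Θ z) f z)`; so `Q z = Im (exp (-iΘ z) f z)`.
(4) Let `x ∈ E`, `q = Q x`, `y ∈ connectedComponentIn E x`.  As `z → y`, `z ∉ E`:
`Q z → Q y = Q x = q`, and `|Im (exp (-iΘ x) f z) - Im (exp (-iΘ z) f z)| ≤ |Θ z - Θ x| 9R → 0`
since `Θ z → Θ y = Θ x`.
-/

open Complex Set Metric Filter Topology MeasureTheory

namespace RSM

theorem exists_limit {E : Set ℂ} (hE : IsCompact E) (hne : E.Nonempty) (hc : IsConnected Eᶜ)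
    {Θ : ℂ → ℝ} (hΘ : Continuous Θ) (hFD : FiniteDirichlet Θ)
    (hconst : ∀ x ∈ E, ∀ y ∈ connectedComponentIn E x, Θ y = Θ x) :
    ∃ f : ℂ → ℂ, DifferentiableOn ℂ f Eᶜ ∧ InjOn f Eᶜ ∧
      Tendsto (fun z => f z - z) (cocompact ℂ) (𝓝 0) ∧
      ∀ x ∈ E, ∃ q : ℝ, ∀ y ∈ connectedComponentIn E x,
        Tendsto (fun z => (exp (-(Θ x : ℂ) * I) * f z).im) (𝓝[Eᶜ] y) (𝓝 q) := by
  -- the radius
  obtain ⟨R0, hR0⟩ := hE.isBounded.subset_closedBall (0 : ℂ)
  set R : ℝ := max R0 0 + 1 with hRdef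
  have hR : 0 < R := by positivity
  have hER : ∀ x ∈ E, ‖x‖ < R := by
    intro x hx
    have h1 := hR0 hx
    rw [mem_closedBall, dist_zero_right] at h1
    have := le_max_left R0 0
    linarith
  have hUo : IsOpen Eᶜ := hE.isClosed.isOpen_compl
  -- the dense sequence of pairs
  let S : Set (ℂ × ℂ) := {p | p.1 ∈ E ∧ p.2 ∈ connectedComponentIn E p.1}
  obtain ⟨x0, hx0⟩ := hne
  have : Nonempty S := ⟨⟨(x0, x0), hx0, mem_connectedComponentIn hx0⟩⟩
  set s : ℕ → S := TopologicalSpace.denseSeq S with hs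
  have hsd : DenseRange s := TopologicalSpace.denseRange_denseSeq S
  obtain ⟨ι, hfin, c, ρ, ρ', θ, F, q, T, hA, hT, hdisc, hequi, hpair⟩ :=
    exists_sequence hE hΘ hFD hconst hR hER (x := fun j => (s j).1.1) (y := fun j => (s j).1.2)
      (fun j => (s j).2.1) (fun j => (s j).2.2)
  set p : Ultrafilter ℕ := hyperfilter ℕ with hp
  have hpt : (p : Filter ℕ) ≤ atTop := Nat.hyperfilter_le_atTop
  have hnat : Tendsto (fun n : ℕ => 1 / ((n : ℝ) + 1)) (p : Filter ℕ) (𝓝 0) :=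
    tendsto_one_div_add_atTop_nhds_zero_nat.mono_left hpt
  -- compact sets are eventually in the circle domains
  have hdom : ∀ K ⊆ Eᶜ, IsCompact K → ∀ᶠ n in (p : Filter ℕ), K ⊆ dom (c n) (ρ n) := by
    intro K hKE hK
    obtain ⟨δ, hδ, hthick⟩ := hK.exists_cthickening_subset_open hUo hKE
    filter_upwards [hnat.eventually (gt_mem_nhds hδ)] with n hn z hz a
    by_contra hcon
    push Not at hcon
    obtain ⟨x, hx, hxz⟩ := hdisc n a z hcon
    have h1 : x ∈ cthickening δ K := by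
      apply thickening_subset_cthickening
      rw [mem_thickening_iff]
      refine ⟨z, hz, ?_⟩
      rw [dist_comm, dist_eq_norm]
      exact hxz.trans hn
    exact hthick h1 hx
  have hdiff : ∀ n, DifferentiableOn ℂ (F n) (dom (c n) (ρ n)) := fun n =>
    (hA n).diff.mono (dom_anti _ (hA n).lt.le)
  have hopen : ∀ n, IsOpen (dom (c n) (ρ n)) := fun n => by
    have := hfin n
    exact isOpen_dom _ _
  have hbd1 : ∀ n z, z ∈ cdom (c n) (ρ n) → ‖z‖ ≤ 3 * R → ‖F n z‖ ≤ 9 * R := by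
    intro n z hz hz3
    have := hfin n
    exact norm_le (hA n).toIsSlit hR (hA n).inball hz hz3
  have hbd2 : ∀ n z, 3 * R ≤ ‖z‖ → ‖F n z - z‖ ≤ 18 * R ^ 2 / ‖z‖ := by
    intro n z hz3
    have := hfin n
    exact far_bound (hA n).toIsSlit hR (hA n).inball hz3
  -- the limit
  obtain ⟨f, hf, hlim⟩ := montel_ultra hUo (F := F) p (by
    intro K hKE hK
    obtain ⟨B, hB⟩ := hK.isBounded.exists_norm_le
    refine ⟨max (9 * R) (B + 6 * R), ?_⟩
    filter_upwards [hdom K hKE hK] with n hn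
    refine ⟨⟨_, hopen n, hn, hdiff n⟩, fun z hz => ?_⟩
    rcases le_total ‖z‖ (3 * R) with h | h
    · exact (hbd1 n z (dom_subset_cdom _ _ (hn hz)) h).trans (le_max_left _ _)
    · refine le_trans ?_ (le_max_right _ _)
      have h1 := hbd2 n z h
      have h2 : 18 * R ^ 2 / ‖z‖ ≤ 6 * R := by
        rw [div_le_iff₀ (by linarith)]
        nlinarith
      have h3 : ‖F n z‖ ≤ ‖F n z - z‖ + ‖z‖ := by
        have := norm_add_le (F n z - z) z
        simpa using this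
      have h4 := hB z hz
      linarith)
  have hptw : ∀ z ∉ E, Tendsto (fun n => F n z) (p : Filter ℕ) (𝓝 (f z)) := by
    intro z hz
    have h1 := hlim {z} (singleton_subset_iff.2 hz) isCompact_singleton
    exact h1.tendsto_at (mem_singleton z)
  have hzdom : ∀ z ∉ E, ∀ᶠ n in (p : Filter ℕ), z ∈ dom (c n) (ρ n) := by
    intro z hz
    filter_upwards [hdom {z} (singleton_subset_iff.2 hz) isCompact_singleton] with n hn
    exact hn (mem_singleton z)
  have hfbd : ∀ z ∉ E, ‖z‖ ≤ 3 * R → ‖f z‖ ≤ 9 * R := by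
    intro z hz hz3
    refine le_of_tendsto (hptw z hz).norm ?_
    filter_upwards [hzdom z hz] with n hn
    exact hbd1 n z (dom_subset_cdom _ _ hn) hz3
  have hnotE : ∀ z : ℂ, 3 * R ≤ ‖z‖ → z ∉ E := by
    intro z hz hzE
    have := hER z hzE
    linarith
  have hffar : ∀ z, 3 * R ≤ ‖z‖ → ‖f z - z‖ ≤ 18 * R ^ 2 / ‖z‖ := by
    intro z hz3
    refine le_of_tendsto ((hptw z (hnotE z hz3)).sub_const z).norm ?_
    exact Eventually.of_forall fun n => hbd2 n z hz3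
  have hinf : Tendsto (fun z => f z - z) (cocompact ℂ) (𝓝 0) := by
    have h1 : Tendsto (fun z : ℂ => 18 * R ^ 2 / ‖z‖) (cocompact ℂ) (𝓝 0) :=
      (tendsto_norm_cocompact_atTop (E := ℂ)).const_div_atTop _
    refine squeeze_zero_norm' ?_ h1
    filter_upwards [(tendsto_norm_cocompact_atTop (E := ℂ)).eventually_ge_atTop (3 * R)] with z hz
    exact hffar z hz
  have hnc : ¬ ∃ k, ∀ z ∈ Eᶜ, f z = k := by
    rintro ⟨k, hk⟩
    have h1 : Tendsto (fun z : ℂ => k - z) (cocompact ℂ) (𝓝 0) := by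
      refine hinf.congr' ?_
      filter_upwards [(tendsto_norm_cocompact_atTop (E := ℂ)).eventually_ge_atTop (3 * R)]
        with z hz
      rw [hk z (hnotE z hz)]
    have h2 : Tendsto (fun z : ℂ => k - (k - z)) (cocompact ℂ) (𝓝 (k - 0)) :=
      h1.const_sub k
    simp only [sub_sub_cancel, sub_zero] at h2
    exact (tendsto_norm_cocompact_atTop (E := ℂ)).not_tendsto (disjoint_nhds_atTop _).symm h2.norm
  have hinj : InjOn f Eᶜ := by
    refine injOn_of_ultra hUo hc.isPreconnected p hlim ?_ hf hnc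
    intro K hKE hK
    filter_upwards [hdom K hKE hK] with n hn
    have := hfin n
    exact ⟨_, hopen n, hn, hdiff n, (hA n).toIsSlit.injOn⟩
  refine ⟨f, hf, hinj, hinf, ?_⟩
  -- the limit of the functions `QQ`
  set G : ℕ → ℂ → ℝ := fun n => QQ (c n) (ρ n) (F n) (q n) (T n) with hG
  have hGbd : ∀ n z, ‖z‖ ≤ 2 * R → |G n z| ≤ 9 * R := by
    intro n z hz
    have := hfin n
    exact abs_QQ_le (hA n) hR (by linarith)
  have hQex : ∀ z : ℂ, ∃ l : ℝ, ‖z‖ ≤ 2 * R → Tendsto (fun n => G n z) (p : Filter ℕ) (𝓝 l) := by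
    intro z
    by_cases hz : ‖z‖ ≤ 2 * R
    · have h1 : ((p.map fun n => G n z : Ultrafilter ℝ) : Filter ℝ) ≤
          𝓟 (Icc (-(9 * R)) (9 * R)) := by
        rw [Ultrafilter.coe_map, le_principal_iff, mem_map]
        exact Eventually.of_forall fun n => abs_le.1 (hGbd n z hz)
      obtain ⟨l, -, hl⟩ := isCompact_Icc.ultrafilter_le_nhds _ h1
      exact ⟨l, fun _ => hl⟩
    · exact ⟨0, fun h => absurd h hz⟩
  choose Q hQ using hQex
  have hQequi : ∀ ε > 0, ∃ δ > 0, ∀ z w, ‖z‖ ≤ 2 * R → ‖w‖ ≤ 2 * R → ‖z - w‖ ≤ δ →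
      |Q z - Q w| ≤ ε := by
    intro ε hε
    obtain ⟨δ, hδ, h⟩ := hequi ε hε
    refine ⟨δ, hδ, fun z w hz hw hzw => ?_⟩
    refine le_of_tendsto ((hQ z hz).sub (hQ w hw)).abs ?_
    exact Eventually.of_forall fun n => h n z w hz hzw
  have hE2 : ∀ x ∈ E, ‖x‖ ≤ 2 * R := fun x hx => by have := hER x hx; linarith
  have hQseq : ∀ j, Q (s j).1.1 = Q (s j).1.2 := by
    intro j
    have hx := hE2 _ (s j).2.1
    have hy := hE2 _ (connectedComponentIn_subset _ _ (s j).2.2)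
    have h1 := ((hQ _ hx).sub (hQ _ hy)).abs
    have h2 : |Q (s j).1.1 - Q (s j).1.2| ≤ 0 := by
      refine le_of_tendsto_of_tendsto h1 hnat ?_
      filter_upwards [hpt (eventually_ge_atTop j)] with n hn
      exact hpair n j hn
    exact sub_eq_zero.1 (abs_eq_zero.1 (le_antisymm h2 (abs_nonneg _)))
  have hQcomp : ∀ x ∈ E, ∀ y ∈ connectedComponentIn E x, Q x = Q y := by
    intro x hx y hy
    have hyE := connectedComponentIn_subset _ _ hy
    by_contra hne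
    have hpos : 0 < |Q x - Q y| := abs_pos.2 (sub_ne_zero.2 hne)
    obtain ⟨δ, hδ, h⟩ := hQequi (|Q x - Q y| / 3) (by positivity)
    obtain ⟨j, hj⟩ := hsd.exists_dist_lt (⟨(x, y), hx, hy⟩ : S) hδ
    rw [Subtype.dist_eq, Prod.dist_eq, max_lt_iff] at hj
    simp only [dist_eq_norm] at hj
    have h1 := h x (s j).1.1 (hE2 x hx) (hE2 _ (s j).2.1) hj.1.le
    have h2 := h y (s j).1.2 (hE2 y hyE)
      (hE2 _ (connectedComponentIn_subset _ _ (s j).2.2)) hj.2.le
    have h3 := hQseq j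
    have h4 : |Q x - Q y| ≤ |Q x - Q (s j).1.1| + |Q y - Q (s j).1.2| := by
      rw [show Q x - Q y = (Q x - Q (s j).1.1) - (Q y - Q (s j).1.2) by rw [h3]; ring]
      exact abs_sub _ _
    linarith
  have hQf : ∀ z ∉ E, ‖z‖ ≤ 2 * R → Q z = (exp (-(Θ z : ℂ) * I) * f z).im := by
    intro z hz hz2
    have hTz : Tendsto (fun n => T n z) (p : Filter ℕ) (𝓝 (Θ z)) := by
      rw [tendsto_iff_norm_sub_tendsto_zero]
      refine squeeze_zero_norm (fun n => ?_) hnat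
      rw [norm_norm, Real.norm_eq_abs]
      exact hT n z (by linarith)
    have h1 : Tendsto (fun n => (exp (-(T n z : ℂ) * I) * F n z).im) (p : Filter ℕ)
        (𝓝 ((exp (-(Θ z : ℂ) * I) * f z).im)) := by
      have h2 : Tendsto (fun n => exp (-(T n z : ℂ) * I)) (p : Filter ℕ)
          (𝓝 (exp (-(Θ z : ℂ) * I))) := by
        have : Continuous fun t : ℝ => exp (-(t : ℂ) * I) := by fun_prop
        exact (this.tendsto _).comp hTz
      exact (continuous_im.tendsto _).comp (h2.mul (hptw z hz))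
    refine tendsto_nhds_unique ((hQ z hz2).congr' ?_) h1
    filter_upwards [hzdom z hz] with n hn
    exact QQ_of_cdom (hA n) (dom_subset_cdom _ _ hn)
  -- conclusion
  intro x hx
  refine ⟨Q x, fun y hy => ?_⟩
  have hyE := connectedComponentIn_subset _ _ hy
  have hyR := hER y hyE
  have hnear : ∀ᶠ z in 𝓝[Eᶜ] y, ‖z‖ ≤ 2 * R := by
    have : ∀ᶠ z in 𝓝 y, ‖z‖ < 2 * R :=
      continuous_norm.continuousAt.eventually (gt_mem_nhds (by linarith))
    exact (this.filter_mono nhdsWithin_le_nhds).mono fun z hz => hz.le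
  have hQy : Tendsto Q (𝓝[Eᶜ] y) (𝓝 (Q x)) := by
    rw [hQcomp x hx y hy, Metric.tendsto_nhds]
    intro ε hε
    obtain ⟨δ, hδ, h⟩ := hQequi (ε / 2) (by positivity)
    have hball : ∀ᶠ z in 𝓝[Eᶜ] y, z ∈ ball y δ :=
      nhdsWithin_le_nhds (ball_mem_nhds y hδ)
    filter_upwards [hnear, hball] with z hz hzb
    rw [mem_ball, dist_eq_norm] at hzb
    rw [Real.dist_eq]
    exact (h z y hz (hE2 y hyE) hzb.le).trans_lt (by linarith)
  have hexp : Tendsto (fun z => exp (-(Θ x : ℂ) * I) - exp (-(Θ z : ℂ) * I)) (𝓝[Eᶜ] y) (𝓝 0) := by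
    have h1 : Continuous fun z => exp (-(Θ x : ℂ) * I) - exp (-(Θ z : ℂ) * I) := by fun_prop
    have h2 := (h1.tendsto y).mono_left (nhdsWithin_le_nhds (s := Eᶜ))
    rwa [hconst x hx y hy, sub_self] at h2
  have hprod : Tendsto (fun z => (exp (-(Θ x : ℂ) * I) - exp (-(Θ z : ℂ) * I)) * f z)
      (𝓝[Eᶜ] y) (𝓝 0) := by
    have h0 : Tendsto (fun z => ‖exp (-(Θ x : ℂ) * I) - exp (-(Θ z : ℂ) * I)‖ * (9 * R))
        (𝓝[Eᶜ] y) (𝓝 0) := by
      have := hexp.norm.mul_const (9 * R)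
      rwa [norm_zero, zero_mul] at this
    refine squeeze_zero_norm' ?_ h0
    filter_upwards [hnear, self_mem_nhdsWithin] with z hz hzE
    rw [norm_mul]
    exact mul_le_mul_of_nonneg_left (hfbd z hzE (by linarith)) (norm_nonneg _)
  have hsum : Tendsto (fun z => Q z +
      ((exp (-(Θ x : ℂ) * I) - exp (-(Θ z : ℂ) * I)) * f z).im) (𝓝[Eᶜ] y) (𝓝 (Q x + 0)) := by
    refine hQy.add ?_
    have := (continuous_im.tendsto 0).comp hprod
    rw [zero_im] at this
    exact this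
  rw [add_zero] at hsum
  refine hsum.congr' ?_
  filter_upwards [hnear, self_mem_nhdsWithin] with z hz hzE
  rw [hQf z hzE hz, sub_mul, sub_im]
  ring

end RSM
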