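import Pool.Agent.RSM.FD
import Pool.Agent.RSM.L3

/-!
# RSM module Fin: existence of slit maps for finitely many continua (interface for project RSM2)

PROOF.  Let `E = ⋃ j, K j`, compact, with components exactly the nonempty sets `K j`: for `x ∈ K j`,
`connectedComponentIn E x = K j` (the `K j` are pairwise disjoint compact connected sets, finite in
number, so each is clopen in `E`).  If `E = ∅` take `f = id`.  Let
`χ j : ℂ → ℝ` be `C^∞` with compact support, `χ j = 1` on `K j`, `χ j = 0` on `K i` for `i ≠ j`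
(smooth Urysohn lemma), `Θ = ∑ j, θ j * χ j`; it is `C¹` with compact support, hence Lipschitz, so
`FiniteDirichlet Θ` (`finiteDirichlet_of_lipschitz`; or directly with `T = Θ`), and `Θ = θ j` on
`K j`.  Apply `exists_limit`.
-/

open Complex Set Metric Filter Topology MeasureTheory

namespace RSM

/-- finitely many pairwise disjoint compact sets have positive distance -/
theorem finGap {m : ℕ} (K : Fin m → Set ℂ) (hK : ∀ j, IsCompact (K j))
    (hdisj : ∀ i j, i ≠ j → Disjoint (K i) (K j)) :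
    ∃ δ : ℝ, 0 < δ ∧ ∀ i j, i ≠ j → ∀ x ∈ K i, ∀ y ∈ K j, δ ≤ dist x y := by
  have h1 : ∀ i j : Fin m, ∀ᶠ δ in 𝓝[>] (0 : ℝ), i ≠ j → ∀ x ∈ K i, ∀ y ∈ K j, δ ≤ dist x y := by
    intro i j
    by_cases hij : i = j
    · exact Eventually.of_forall (fun δ h => absurd hij h)
    · obtain ⟨δ₀, hδ₀, hd⟩ := (hdisj i j hij).exists_thickenings (hK i) (hK j).isClosed
      filter_upwards [Ioo_mem_nhdsGT hδ₀] with δ hδ _ x hx y hy
      by_contra hlt
      rw [not_le] at hlt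
      exact Set.disjoint_left.mp hd (self_subset_thickening hδ₀ _ hx)
        (mem_thickening_iff.mpr ⟨y, hy, hlt.trans hδ.2⟩)
  have h2 : ∀ᶠ δ in 𝓝[>] (0 : ℝ), ∀ i j : Fin m, i ≠ j → ∀ x ∈ K i, ∀ y ∈ K j, δ ≤ dist x y :=
    eventually_all.mpr (fun i => eventually_all.mpr (fun j => h1 i j))
  obtain ⟨δ, hδ, hδ0⟩ := (h2.and self_mem_nhdsWithin).exists
  exact ⟨δ, hδ0, hδ⟩

/-- a Lipschitz function with prescribed values on finitely many disjoint compact sets -/
theorem finLip {m : ℕ} (K : Fin m → Set ℂ) (hK : ∀ j, IsCompact (K j))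
    (hdisj : ∀ i j, i ≠ j → Disjoint (K i) (K j)) (θ : Fin m → ℝ) :
    ∃ (C : NNReal) (Θ : ℂ → ℝ), LipschitzWith C Θ ∧ ∀ j, ∀ x ∈ K j, Θ x = θ j := by
  classical
  obtain ⟨δ, hδ, hgap⟩ := finGap K hK hdisj
  obtain ⟨g, hg⟩ : ∃ g : ℂ → ℝ, ∀ j, ∀ x ∈ K j, g x = θ j := by
    refine ⟨fun z => if h : ∃ j, z ∈ K j then θ h.choose else 0, fun j x hx => ?_⟩
    have h : ∃ j, x ∈ K j := ⟨j, hx⟩
    have h2 : h.choose = j := by
      by_contra hne
      exact Set.disjoint_left.mp (hdisj _ _ hne) h.choose_spec hx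
    simp only [dif_pos h]
    rw [h2]
  obtain ⟨M, hM⟩ : ∃ M, M = 2 * ∑ i, |θ i| := ⟨_, rfl⟩
  have hM0 : 0 ≤ M := by
    rw [hM]
    exact mul_nonneg two_pos.le (Finset.sum_nonneg (fun i _ => abs_nonneg _))
  have hMd : ∀ i j, |θ i - θ j| ≤ M := by
    intro i j
    have h1 : |θ i| ≤ ∑ i, |θ i| :=
      Finset.single_le_sum (f := fun i => |θ i|) (fun i _ => abs_nonneg _) (Finset.mem_univ i)
    have h2 : |θ j| ≤ ∑ i, |θ i| :=
      Finset.single_le_sum (f := fun i => |θ i|) (fun i _ => abs_nonneg _) (Finset.mem_univ j)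
    have h3 := abs_sub (θ i) (θ j)
    rw [hM]
    linarith
  have hL : LipschitzOnWith (Real.toNNReal (M / δ)) g (⋃ j, K j) := by
    refine LipschitzOnWith.of_dist_le_mul ?_
    intro x hx y hy
    rw [mem_iUnion] at hx hy
    obtain ⟨i, hi⟩ := hx
    obtain ⟨j, hj⟩ := hy
    rw [hg i x hi, hg j y hj, Real.dist_eq, Real.coe_toNNReal _ (div_nonneg hM0 hδ.le)]
    by_cases hij : i = j
    · rw [hij, sub_self, abs_zero]
      exact mul_nonneg (div_nonneg hM0 hδ.le) dist_nonneg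
    · have h1 := hgap i j hij x hi y hj
      calc |θ i - θ j| ≤ M := hMd i j
        _ = M / δ * δ := by rw [div_mul_cancel₀ _ hδ.ne']
        _ ≤ M / δ * dist x y := mul_le_mul_of_nonneg_left h1 (div_nonneg hM0 hδ.le)
  obtain ⟨Θ, hΘ, hE⟩ := hL.extend_real
  refine ⟨_, Θ, hΘ, fun j x hx => ?_⟩
  rw [← hE (mem_iUnion.mpr ⟨j, hx⟩), hg j x hx]

/-- the components of a finite disjoint union of compact preconnected sets -/
theorem finComp {m : ℕ} (K : Fin m → Set ℂ) (hK : ∀ j, IsCompact (K j))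
    (hKc : ∀ j, IsPreconnected (K j)) (hdisj : ∀ i j, i ≠ j → Disjoint (K i) (K j))
    (j : Fin m) {x : ℂ} (hx : x ∈ K j) : connectedComponentIn (⋃ j, K j) x = K j := by
  have hxE : x ∈ ⋃ j, K j := mem_iUnion.mpr ⟨j, hx⟩
  refine Subset.antisymm ?_ ((hKc j).subset_connectedComponentIn hx (subset_iUnion K j))
  have hC : IsPreconnected (connectedComponentIn (⋃ j, K j) x) :=
    isPreconnected_connectedComponentIn
  rw [isPreconnected_iff_subset_of_disjoint_closed] at hC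
  have hxC : x ∈ connectedComponentIn (⋃ j, K j) x := mem_connectedComponentIn hxE
  have hcov : connectedComponentIn (⋃ j, K j) x ⊆ K j ∪ ⋃ i ∈ {i | i ≠ j}, K i := by
    intro y hy
    have hyE := connectedComponentIn_subset _ _ hy
    rw [mem_iUnion] at hyE
    obtain ⟨i, hi⟩ := hyE
    by_cases hij : i = j
    · exact Or.inl (hij ▸ hi)
    · exact Or.inr (mem_iUnion₂.mpr ⟨i, hij, hi⟩)
  have hdis : connectedComponentIn (⋃ j, K j) x ∩ (K j ∩ ⋃ i ∈ {i | i ≠ j}, K i) = ∅ := by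
    rw [eq_empty_iff_forall_notMem]
    rintro y ⟨-, h1, h2⟩
    rw [mem_iUnion₂] at h2
    obtain ⟨i, hi, hyi⟩ := h2
    exact Set.disjoint_left.mp (hdisj i j hi) hyi h1
  rcases hC (K j) (⋃ i ∈ {i | i ≠ j}, K i) (hK j).isClosed
    (Set.Finite.isClosed_biUnion (Set.toFinite _) (fun i _ => (hK i).isClosed)) hcov hdis with
    h | h
  · exact h
  · exfalso
    have h2 := h hxC
    rw [mem_iUnion₂] at h2
    obtain ⟨i, hi, hxi⟩ := h2
    exact Set.disjoint_left.mp (hdisj i j hi) hxi hx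

theorem exists_finite {m : ℕ} (K : Fin m → Set ℂ) (hK : ∀ j, IsCompact (K j))
    (hKc : ∀ j, IsPreconnected (K j)) (hdisj : ∀ i j, i ≠ j → Disjoint (K i) (K j))
    (hc : IsConnected (⋃ j, K j)ᶜ) (θ : Fin m → ℝ) :
    ∃ f : ℂ → ℂ, DifferentiableOn ℂ f (⋃ j, K j)ᶜ ∧ InjOn f (⋃ j, K j)ᶜ ∧
      Tendsto (fun z => f z - z) (cocompact ℂ) (𝓝 0) ∧
      ∀ j, ∃ q : ℝ, ∀ y ∈ K j,
        Tendsto (fun z => (exp (-(θ j : ℂ) * I) * f z).im) (𝓝[(⋃ j, K j)ᶜ] y) (𝓝 q) := by
  rcases (⋃ j, K j).eq_empty_or_nonempty with hE | hne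
  · refine ⟨id, differentiableOn_id, injOn_id _, ?_, fun j => ⟨0, fun y hy => ?_⟩⟩
    · simp only [id, sub_self]
      exact tendsto_const_nhds
    · exfalso
      have : y ∈ ⋃ j, K j := mem_iUnion.mpr ⟨j, hy⟩
      rw [hE] at this
      exact this
  · obtain ⟨C, Θ, hΘ, hΘK⟩ := finLip K hK hdisj θ
    obtain ⟨f, hf1, hf2, hf3, hf4⟩ := exists_limit (isCompact_iUnion hK) hne hc hΘ.continuous
      (finiteDirichlet_of_lipschitz hΘ) (by
        intro x hx y hy
        rw [mem_iUnion] at hx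
        obtain ⟨j, hj⟩ := hx
        rw [finComp K hK hKc hdisj j hj] at hy
        rw [hΘK j x hj, hΘK j y hy])
    refine ⟨f, hf1, hf2, hf3, fun j => ?_⟩
    rcases (K j).eq_empty_or_nonempty with hKe | ⟨x, hx⟩
    · refine ⟨0, fun y hy => ?_⟩
      rw [hKe] at hy
      exact absurd hy (notMem_empty y)
    · obtain ⟨q, hq⟩ := hf4 x (mem_iUnion.mpr ⟨j, hx⟩)
      refine ⟨q, fun y hy => ?_⟩
      have h1 := hq y (by rw [finComp K hK hKc hdisj j hx]; exact hy)
      rw [hΘK j x hx] at h1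
      exact h1

end RSM
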