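import Pool.Agent.RSM.Defs

/-!
# RSM module G0: topology of components of compact plane sets

PROOFS.
`isCompact_component`: a component of a compact set is closed in it.
`frontier_component_subset`: let `C = connectedComponentIn B p`, closed.  If `w ∈ frontier C` were
an interior point of `B`, a ball around `w` would be a connected subset of `B` meeting `C`
(`w ∈ C`), hence contained in `C`, so `w ∈ interior C`.
`frontier_nonempty`: a nonempty compact subset of `ℂ` is not open (connectedness of `ℂ`,
`isClopen_iff`), so its frontier is nonempty.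
`eq_segment`: let `L z = Im (exp (-iθ) z)`.  If some `z ∈ C` had `L z > q`, a point of `C` where
the continuous function `L` attains its maximum over `C` would be a point `w` with `L w > q`; it is
not an interior point of `C` (moving in the direction `i exp (iθ)` increases `L`), so it is in
the frontier, contradiction; similarly for `L z < q`.  So `C` is contained in the line, and
`C = {exp (iθ) (s + i q) | s ∈ S}` with `S = (fun z => Re (exp (-iθ) z)) '' C` a nonempty compact
connected subset of `ℝ`, `S = [a, b]`.  Take `w = exp (iθ) (a + i q)`, `t = b - a`.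
-/

open Complex Set Metric Filter Topology MeasureTheory

namespace RSM

private theorem isClosed_component {B : Set ℂ} (hB : IsClosed B) (p : ℂ) :
    IsClosed (connectedComponentIn B p) := by
  by_cases hp : p ∈ B
  · refine isClosed_of_closure_subset ?_
    refine IsPreconnected.subset_connectedComponentIn
      isPreconnected_connectedComponentIn.closure (subset_closure (mem_connectedComponentIn hp)) ?_
    exact closure_minimal (connectedComponentIn_subset B p) hB
  · rw [connectedComponentIn_eq_empty hp]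
    exact isClosed_empty

theorem isCompact_component {B : Set ℂ} (hB : IsCompact B) (p : ℂ) :
    IsCompact (connectedComponentIn B p) :=
  hB.of_isClosed_subset (isClosed_component hB.isClosed p) (connectedComponentIn_subset B p)

theorem frontier_component_subset {B : Set ℂ} (hB : IsClosed B) (p : ℂ) :
    frontier (connectedComponentIn B p) ⊆ frontier B := by
  intro w hw
  have hC := isClosed_component hB p
  rw [hC.frontier_eq] at hw
  rw [hB.frontier_eq]
  refine ⟨connectedComponentIn_subset B p hw.1, fun hwB => hw.2 ?_⟩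
  have h1 : connectedComponentIn B w ∈ 𝓝 w :=
    connectedComponentIn_mem_nhds (mem_interior_iff_mem_nhds.1 hwB)
  rw [← connectedComponentIn_eq hw.1] at h1
  exact mem_interior_iff_mem_nhds.2 h1

theorem frontier_nonempty {C : Set ℂ} (hC : IsCompact C) (hne : C.Nonempty) :
    (frontier C).Nonempty := by
  by_contra h
  rw [not_nonempty_iff_eq_empty] at h
  rcases isClopen_iff.1 (isClopen_iff_frontier_eq_empty.2 h) with h1 | h1
  · exact hne.ne_empty h1
  · rw [h1] at hC
    exact noncompact_univ ℂ hC

private theorem exp_mul_cancel (θ : ℝ) : exp (-(θ : ℂ) * I) * exp ((θ : ℂ) * I) = 1 := by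
  rw [← Complex.exp_add]
  simp

private theorem im_add (θ : ℝ) (w : ℂ) (t : ℝ) :
    (exp (-(θ : ℂ) * I) * (w + t * (I * exp ((θ : ℂ) * I)))).im =
      (exp (-(θ : ℂ) * I) * w).im + t := by
  have : exp (-(θ : ℂ) * I) * (w + t * (I * exp ((θ : ℂ) * I))) =
      exp (-(θ : ℂ) * I) * w + t * I * (exp (-(θ : ℂ) * I) * exp ((θ : ℂ) * I)) := by ring
  rw [this, exp_mul_cancel]
  simp

/-- at an interior point the function `L` is neither maximal nor minimal -/
private theorem exists_near {C : Set ℂ} {θ : ℝ} {w : ℂ} (hw : w ∈ interior C) :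
    ∃ δ : ℝ, 0 < δ ∧ (w + (δ : ℝ) * (I * exp ((θ : ℂ) * I))) ∈ C ∧
      (w + ((-δ : ℝ) : ℂ) * (I * exp ((θ : ℂ) * I))) ∈ C := by
  obtain ⟨r, hr, hball⟩ := Metric.isOpen_iff.1 isOpen_interior w hw
  have hn : ∀ s : ℝ, ‖(s : ℂ) * (I * exp ((θ : ℂ) * I))‖ = |s| := by
    intro s
    rw [norm_mul, norm_mul, Complex.norm_I, Complex.norm_exp_ofReal_mul_I, Complex.norm_real,
      Real.norm_eq_abs]
    ring
  refine ⟨r / 2, by positivity, interior_subset (hball ?_), interior_subset (hball ?_)⟩
  · rw [mem_ball, dist_eq_norm, add_sub_cancel_left, hn, abs_of_pos (by positivity)]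
    linarith
  · rw [mem_ball, dist_eq_norm, add_sub_cancel_left, hn, abs_neg, abs_of_pos (by positivity)]
    linarith

theorem eq_segment {C : Set ℂ} (hC : IsCompact C) (hne : C.Nonempty) (hconn : IsPreconnected C)
    {θ q : ℝ} (hfr : ∀ z ∈ frontier C, (exp (-(θ : ℂ) * I) * z).im = q) :
    ∃ (w : ℂ) (t : ℝ), 0 ≤ t ∧ C = segment ℝ w (w + t * exp (θ * I)) := by
  have hLc : Continuous fun z : ℂ => (exp (-(θ : ℂ) * I) * z).im :=
    Complex.continuous_im.comp (continuous_const.mul continuous_id)
  have hRc : Continuous fun z : ℂ => (exp (-(θ : ℂ) * I) * z).re :=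
    Complex.continuous_re.comp (continuous_const.mul continuous_id)
  have hint : ∀ z ∈ C, z ∉ frontier C → z ∈ interior C := by
    intro z hz hz'
    rw [hC.isClosed.frontier_eq] at hz'
    by_contra h
    exact hz' ⟨hz, h⟩
  have hL : ∀ z ∈ C, (exp (-(θ : ℂ) * I) * z).im = q := by
    obtain ⟨w, hw, hmax⟩ := hC.exists_isMaxOn hne hLc.continuousOn
    obtain ⟨v, hv, hmin⟩ := hC.exists_isMinOn hne hLc.continuousOn
    have h1 : (exp (-(θ : ℂ) * I) * w).im ≤ q := by
      by_contra hlt
      have hwf : w ∉ frontier C := fun h => hlt (hfr w h).le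
      obtain ⟨δ, hδ, h1, _⟩ := exists_near (θ := θ) (hint w hw hwf)
      have h2 := hmax h1
      simp only [mem_setOf_eq] at h2
      rw [im_add] at h2
      linarith
    have h2 : q ≤ (exp (-(θ : ℂ) * I) * v).im := by
      by_contra hlt
      have hvf : v ∉ frontier C := fun h => hlt (hfr v h).ge
      obtain ⟨δ, hδ, _, h1⟩ := exists_near (θ := θ) (hint v hv hvf)
      have h2 := hmin h1
      simp only [mem_setOf_eq] at h2
      rw [im_add] at h2
      linarith
    intro z hz
    have h3 := hmax hz
    have h4 := hmin hz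
    simp only [mem_setOf_eq] at h3 h4
    linarith
  have hform : ∀ z ∈ C, z = exp ((θ : ℂ) * I) *
      (((exp (-(θ : ℂ) * I) * z).re : ℝ) + (q : ℝ) * I) := by
    intro z hz
    have h1 : (((exp (-(θ : ℂ) * I) * z).re : ℝ) : ℂ) + (q : ℝ) * I = exp (-(θ : ℂ) * I) * z := by
      rw [← hL z hz, Complex.re_add_im]
    rw [h1]
    have h2 : exp ((θ : ℂ) * I) * (exp (-(θ : ℂ) * I) * z) =
        (exp (-(θ : ℂ) * I) * exp ((θ : ℂ) * I)) * z := by ring
    rw [h2, exp_mul_cancel, one_mul]
  have hS := eq_Icc_of_connected_compact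
    (⟨hne.image _, hconn.image _ hRc.continuousOn⟩ :
      IsConnected ((fun z : ℂ => (exp (-(θ : ℂ) * I) * z).re) '' C)) (hC.image hRc)
  set a := sInf ((fun z : ℂ => (exp (-(θ : ℂ) * I) * z).re) '' C) with ha
  set b := sSup ((fun z : ℂ => (exp (-(θ : ℂ) * I) * z).re) '' C) with hb
  have hab : a ≤ b := by
    have := hne.image (fun z : ℂ => (exp (-(θ : ℂ) * I) * z).re)
    rw [hS] at this
    exact nonempty_Icc.1 this
  refine ⟨exp ((θ : ℂ) * I) * ((a : ℂ) + (q : ℝ) * I), b - a, sub_nonneg.2 hab, ?_⟩
  rw [segment_eq_image']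
  ext z
  constructor
  · intro hz
    have hs : (exp (-(θ : ℂ) * I) * z).re ∈ Icc a b := by
      rw [← hS]
      exact mem_image_of_mem _ hz
    rw [← segment_eq_Icc hab, segment_eq_image'] at hs
    obtain ⟨r, hr, hrs⟩ := hs
    refine ⟨r, hr, ?_⟩
    have h1 := hform z hz
    rw [← hrs] at h1
    rw [h1]
    simp only [smul_eq_mul, Complex.real_smul]
    push_cast
    ring
  · rintro ⟨r, hr, rfl⟩
    have hs : a + r • (b - a) ∈ Icc a b := by
      rw [← segment_eq_Icc hab, segment_eq_image']
      exact ⟨r, hr, rfl⟩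
    rw [← hS] at hs
    obtain ⟨z, hz, hzs⟩ := hs
    have h1 := hform z hz
    simp only at hzs
    rw [hzs] at h1
    have h2 : exp ((θ : ℂ) * I) * ((a : ℂ) + (q : ℝ) * I) + r • (exp ((θ : ℂ) * I) *
        ((a : ℂ) + (q : ℝ) * I) + ((b - a : ℝ) : ℂ) * exp ((θ : ℂ) * I) -
        exp ((θ : ℂ) * I) * ((a : ℂ) + (q : ℝ) * I)) = z := by
      rw [h1]
      simp only [smul_eq_mul, Complex.real_smul]
      push_cast
      ring
    have h3 := h2 ▸ hz
    exact h3

end RSM
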