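import Pool.Agent.RSM.Defs
import Pool.Agent.Lib.Hurwitz

/-!
# RSM module G1: transplantation of a cut-off function by a conformal map

PROOF.  Let `V = f '' U` (open: `Pool/Agent/Lib/Hurwitz.lean`, `isOpen_image_of_injOn`), `g` the
inverse map, holomorphic on `V` (`exists_inverse`), `S = tsupport (fderiv ℝ χ)`, a compact subset of
`U` (closed subset of the compact `tsupport χ`), so `f '' S` is a compact subset of `V`.
Define the 1-form `ω : ℂ → (ℂ →L[ℝ] ℝ)` by `ω w = fderiv ℝ (χ ∘ g) w` for `w ∈ V` and `ω w = 0`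
for `w ∉ V`.  On the open set `V` it is `C¹` with symmetric derivative (`χ ∘ g` is `C²` there,
`ContDiffAt.isSymmSndFDerivAt`), and it vanishes on the open set `(f '' S)ᶜ` (if `w ∈ V \ f '' S` then
`g w ∉ S`, `fderiv ℝ χ (g w) = 0`).  The two open sets cover the plane, so `ω` is differentiable
with symmetric derivative everywhere, and Mathlib's Poincare lemma
(`Convex.exists_forall_hasFDerivAt_of_fderiv_symmetric`, file
`MeasureTheory/Integral/CurveIntegral/Poincare.lean`) gives `W₀ : ℂ → ℝ` with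
`HasFDerivAt W₀ (ω w) w` for all `w`.  `ω` vanishes outside of the compact set `f '' S`, so `W₀` is
locally constant on `(f '' S)ᶜ`.  On the preconnected open set `V` the function
`W₀ - χ ∘ g` has derivative `0`, so it is a constant `k`; put `W = W₀ - k`.  Then `W` is
continuous, `W (f z) = χ z` for `z ∈ U`, and `W` is locally constant at every `w ∉ V`.
(If `U = ∅` take `W = 0`.  So no behaviour at infinity is needed.)
-/

open Complex Set Metric Filter Topology MeasureTheory

namespace RSM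

theorem exists_ext {U : Set ℂ} (hU : IsOpen U) (hUc : IsPreconnected U) {f : ℂ → ℂ}
    (hf : DifferentiableOn ℂ f U) (hinj : InjOn f U) {χ : ℂ → ℝ} (hχ : ContDiff ℝ 2 χ)
    (hχc : HasCompactSupport χ) (hχU : tsupport (fderiv ℝ χ) ⊆ U) :
    ∃ W : ℂ → ℝ, Continuous W ∧ (∀ z ∈ U, W (f z) = χ z) ∧
      ∀ w ∉ f '' U, ∀ᶠ w' in 𝓝 w, W w' = W w := by
  classical
  rcases U.eq_empty_or_nonempty with rfl | ⟨z₀, hz₀⟩
  · exact ⟨fun _ => 0, continuous_const, by simp, by simp⟩
  set V := f '' U with hVdef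
  have hV : IsOpen V := Pool.Agent.Lib.Hurwitz.isOpen_image_of_injOn hU hf hinj
  have hVc : IsPreconnected V := hUc.image f hf.continuousOn
  obtain ⟨g, hg, -, hgV, hgf, hfg, -⟩ := Pool.Agent.Lib.Hurwitz.exists_inverse hU hf hinj
  set S := tsupport (fderiv ℝ χ) with hSdef
  have hS : IsCompact S := hχc.fderiv ℝ
  have hfS : IsCompact (f '' S) := hS.image_of_continuousOn (hf.continuousOn.mono hχU)
  have hfSc : IsOpen (f '' S)ᶜ := hfS.isClosed.isOpen_compl
  have hfSV : f '' S ⊆ V := image_mono hχU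
  have hgC : ∀ w ∈ V, ContDiffAt ℝ 2 g w := fun w hw =>
    ((hg.analyticAt (hV.mem_nhds hw)).contDiffAt).restrict_scalars ℝ
  have hcC : ∀ w ∈ V, ContDiffAt ℝ 2 (χ ∘ g) w := fun w hw => (hχ.contDiffAt).comp w (hgC w hw)
  have hzero : ∀ w ∈ V, w ∉ f '' S → fderiv ℝ (χ ∘ g) w = 0 := by
    intro w hw hwS
    have hgw : g w ∉ S := fun h => hwS ⟨g w, h, hfg w hw⟩
    have h0 : fderiv ℝ χ (g w) = 0 := image_eq_zero_of_notMem_tsupport hgw
    rw [fderiv_comp w (hχ.differentiable (by norm_num) _) ((hgC w hw).differentiableAt (by norm_num)), h0]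
    ext v
    simp
  set ω : ℂ → (ℂ →L[ℝ] ℝ) := fun w => if w ∈ V then fderiv ℝ (χ ∘ g) w else 0 with hω
  have hω0 : ∀ w ∉ f '' S, ω w = 0 := by
    intro w hw
    rw [hω]
    simp only
    by_cases h : w ∈ V
    · rw [if_pos h, hzero w h hw]
    · rw [if_neg h]
  have hωV : ∀ w ∈ V, ω =ᶠ[𝓝 w] fderiv ℝ (χ ∘ g) := by
    intro w hw
    filter_upwards [hV.mem_nhds hw] with w' hw'
    rw [hω]
    simp only
    rw [if_pos hw']
  have hωN : ∀ w ∉ V, ω =ᶠ[𝓝 w] fun _ => 0 := by
    intro w hw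
    have : w ∈ (f '' S)ᶜ := fun h => hw (hfSV h)
    filter_upwards [hfSc.mem_nhds this] with w' hw'
    exact hω0 w' hw'
  have hdiff : ∀ w, DifferentiableAt ℝ ω w := by
    intro w
    by_cases hw : w ∈ V
    · have h1 : ContDiffAt ℝ 1 (fderiv ℝ (χ ∘ g)) w := (hcC w hw).fderiv_right (by norm_num)
      exact (h1.differentiableAt (by norm_num)).congr_of_eventuallyEq (hωV w hw)
    · exact (differentiableAt_const _).congr_of_eventuallyEq (hωN w hw)
  have hsymm : ∀ w, ∀ x y, fderiv ℝ ω w x y = fderiv ℝ ω w y x := by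
    intro w x y
    by_cases hw : w ∈ V
    · rw [(hωV w hw).fderiv_eq]
      have := (hcC w hw).isSymmSndFDerivAt (by simp)
      exact this x y
    · rw [(hωN w hw).fderiv_eq]
      simp
  obtain ⟨W₀, hW₀⟩ := convex_univ.exists_forall_hasFDerivAt_of_fderiv_symmetric isOpen_univ
    (fun w _ => (hdiff w).differentiableWithinAt) (fun w _ => hsymm w)
  have hW₀' : ∀ w, HasFDerivAt W₀ (ω w) w := fun w => hW₀ w (mem_univ w)
  have hconst : ∀ w ∈ V, W₀ w - (χ ∘ g) w = W₀ (f z₀) - (χ ∘ g) (f z₀) := by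
    intro w hw
    have hd : ∀ w ∈ V, HasFDerivAt (fun w => W₀ w - (χ ∘ g) w) (0 : ℂ →L[ℝ] ℝ) w := by
      intro w hw
      have h1 := (hW₀' w).sub ((hcC w hw).differentiableAt (by norm_num)).hasFDerivAt
      have h2 : ω w - fderiv ℝ (χ ∘ g) w = 0 := by
        rw [hω]
        simp only
        rw [if_pos hw, sub_self]
      rw [h2] at h1
      exact h1
    exact hV.is_const_of_fderiv_eq_zero (𝕜 := ℝ) hVc
      (fun w hw => (hd w hw).differentiableAt.differentiableWithinAt)
      (fun w hw => (hd w hw).fderiv) hw ⟨z₀, hz₀, rfl⟩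
  refine ⟨fun w => W₀ w - (W₀ (f z₀) - (χ ∘ g) (f z₀)), ?_, ?_, ?_⟩
  · exact (continuous_iff_continuousAt.mpr fun w => (hW₀' w).continuousAt).sub continuous_const
  · intro z hz
    have := hconst (f z) ⟨z, hz, rfl⟩
    simp only [Function.comp_apply, hgf z hz] at this ⊢
    linarith
  · intro w hw
    have hwS : w ∈ (f '' S)ᶜ := fun h => hw (hfSV h)
    obtain ⟨ε, hε, hball⟩ := Metric.isOpen_iff.mp hfSc w hwS
    filter_upwards [Metric.ball_mem_nhds w hε] with w' hw'
    have hd : ∀ x ∈ ball w ε, HasFDerivAt W₀ (0 : ℂ →L[ℝ] ℝ) x := by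
      intro x hx
      have := hW₀' x
      rw [hω0 x (hball hx)] at this
      exact this
    have := (Metric.isOpen_ball).is_const_of_fderiv_eq_zero (𝕜 := ℝ) (convex_ball w ε).isPreconnected
      (fun x hx => (hd x hx).differentiableAt.differentiableWithinAt)
      (fun x hx => (hd x hx).fderiv) hw' (mem_ball_self hε)
    rw [this]

end RSM
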