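import Pool.Agent.RSM.G1

/-!
# RSM module G2: cluster values of different components of `E` are in different components

PROOF.  Suppose `x' ∉ connectedComponentIn E x`.  In the compact Hausdorff space `E` components
are quasi-components (`connectedComponent_eq_iInter_isClopen`), so there are disjoint compact sets
`E₁, E₂` with `E = E₁ ∪ E₂`, `x ∈ E₁`, `x' ∈ E₂`.  Let `χ : ℂ → ℝ` be `C^∞` with compact support,
`χ = 1` in a neighbourhood of `E₁`, `χ = 0` in a neighbourhood of `E₂` (smooth Urysohn lemma); so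
`tsupport (fderiv ℝ χ) ⊆ Eᶜ`.  Let `W` be the function of `exists_ext` for `U = Eᶜ`.
If `u n → x`, `u n ∉ E`, `f (u n) → p` then `W p = lim W (f (u n)) = lim χ (u n) = χ x = 1`; in
the same way `W p' = χ x' = 0`.  But `W` is locally constant at every point of
`(f '' Eᶜ)ᶜ`, so it is constant on the preconnected subset `connectedComponentIn (f '' Eᶜ)ᶜ p`,
which contains `p` (it is nonempty) and `p'`: contradiction.
-/

open Complex Set Metric Filter Topology MeasureTheory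

namespace RSM

/-- `p` is a limit value of `f` at the point `x` (along `Eᶜ`). -/
def Clus (E : Set ℂ) (f : ℂ → ℂ) (x p : ℂ) : Prop :=
  ∃ u : ℕ → ℂ, (∀ n, u n ∉ E) ∧ Tendsto u atTop (𝓝 x) ∧ Tendsto (fun n => f (u n)) atTop (𝓝 p)

theorem clus_separation {E : Set ℂ} (hE : IsCompact E) (hc : IsPreconnected Eᶜ) {f : ℂ → ℂ}
    (hf : DifferentiableOn ℂ f Eᶜ) (hinj : InjOn f Eᶜ) {x x' p p' : ℂ} (hx : x ∈ E)
    (hx' : x' ∈ E) (h : Clus E f x p) (h' : Clus E f x' p')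
    (hpp : p' ∈ connectedComponentIn (f '' Eᶜ)ᶜ p) : x' ∈ connectedComponentIn E x := by
  by_contra hnot
  have : CompactSpace E := isCompact_iff_compactSpace.mp hE
  obtain ⟨s, hs, hxs, hx's⟩ : ∃ s : Set E, IsClopen s ∧ (⟨x, hx⟩ : E) ∈ s ∧
      (⟨x', hx'⟩ : E) ∉ s := by
    by_contra hcon
    push Not at hcon
    apply hnot
    rw [connectedComponentIn_eq_image hx]
    refine ⟨⟨x', hx'⟩, ?_, rfl⟩
    rw [connectedComponent_eq_iInter_isClopen]
    exact mem_iInter.2 fun s => hcon s.1 s.2.1 s.2.2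
  obtain ⟨E1, hE1⟩ : ∃ E1 : Set ℂ, E1 = (↑) '' s := ⟨_, rfl⟩
  obtain ⟨E2, hE2⟩ : ∃ E2 : Set ℂ, E2 = (↑) '' sᶜ := ⟨_, rfl⟩
  have hE1c : IsCompact E1 := by
    rw [hE1]
    exact hs.isClosed.isCompact.image continuous_subtype_val
  have hE2c : IsCompact E2 := by
    rw [hE2]
    exact hs.isOpen.isClosed_compl.isCompact.image continuous_subtype_val
  have hx1 : x ∈ E1 := by rw [hE1]; exact ⟨_, hxs, rfl⟩
  have hx2 : x' ∈ E2 := by rw [hE2]; exact ⟨_, hx's, rfl⟩
  have hdisj : Disjoint E2 E1 := by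
    rw [Set.disjoint_left]
    intro z h2 h1
    rw [hE1] at h1
    rw [hE2] at h2
    obtain ⟨a, ha, rfl⟩ := h1
    obtain ⟨b, hb, hab⟩ := h2
    exact hb (by rwa [Subtype.ext hab])
  have hunion : ∀ z ∈ E, z ∈ E1 ∨ z ∈ E2 := by
    intro z hz
    by_cases h1 : (⟨z, hz⟩ : E) ∈ s
    · left; rw [hE1]; exact ⟨_, h1, rfl⟩
    · right; rw [hE2]; exact ⟨_, h1, rfl⟩
  obtain ⟨ρ, hρ⟩ := hE1c.isBounded.subset_ball 0
  have hcl : IsClosed (E2 ∪ (ball (0 : ℂ) ρ)ᶜ) := hE2c.isClosed.union isOpen_ball.isClosed_compl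
  have hd : Disjoint (E2 ∪ (ball (0 : ℂ) ρ)ᶜ) E1 := by
    rw [Set.disjoint_left]
    rintro z (h2 | h2) h1
    · exact Set.disjoint_left.mp hdisj h2 h1
    · exact h2 (hρ h1)
  obtain ⟨F, hF0, hF1, -⟩ := exists_contMDiffMap_zero_one_nhds_of_isClosed
    (n := (2 : ℕ∞)) (modelWithCornersSelf ℝ ℂ) hcl hE1c.isClosed hd
  obtain ⟨χ, hχ⟩ : ∃ χ : ℂ → ℝ, χ = fun z => F z := ⟨_, rfl⟩
  have hχd : ContDiff ℝ 2 χ := by
    rw [hχ]
    exact F.contMDiff.contDiff
  have hχ0 : ∀ z ∈ E2 ∪ (ball (0 : ℂ) ρ)ᶜ, χ =ᶠ[𝓝 z] fun _ => 0 := by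
    intro z hz
    rw [hχ]
    exact (Filter.Eventually.filter_mono (nhds_le_nhdsSet hz) hF0)
  have hχ1 : ∀ z ∈ E1, χ =ᶠ[𝓝 z] fun _ => 1 := by
    intro z hz
    rw [hχ]
    exact (Filter.Eventually.filter_mono (nhds_le_nhdsSet hz) hF1)
  have hχc : HasCompactSupport χ := by
    refine HasCompactSupport.intro (isCompact_closedBall (0 : ℂ) ρ) fun z hz => ?_
    refine (hχ0 z (Or.inr fun h1 => hz (ball_subset_closedBall h1))).self_of_nhds
  have hχE : tsupport (fderiv ℝ χ) ⊆ Eᶜ := by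
    intro z hz hzE
    refine absurd hz (notMem_tsupport_iff_eventuallyEq.mpr ?_)
    rcases hunion z hzE with h1 | h1
    · refine (hχ1 z h1).fderiv.trans ?_
      rw [fderiv_fun_const]
    · refine (hχ0 z (Or.inl h1)).fderiv.trans ?_
      rw [fderiv_fun_const]
  obtain ⟨W, hWc, hWf, hWloc⟩ := exists_ext hE.isClosed.isOpen_compl hc hf hinj hχd hχc hχE
  have hval : ∀ y q, Clus E f y q → W q = χ y := by
    rintro y q ⟨u, hu, hu1, hu2⟩
    have h1 : Tendsto (fun n => W (f (u n))) atTop (𝓝 (W q)) := (hWc.tendsto q).comp hu2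
    have h2 : Tendsto (fun n => χ (u n)) atTop (𝓝 (χ y)) := (hχd.continuous.tendsto y).comp hu1
    have h3 : (fun n => W (f (u n))) = fun n => χ (u n) := by
      funext n
      exact hWf _ (hu n)
    rw [h3] at h1
    exact tendsto_nhds_unique h1 h2
  have hWp : W p = 1 := by
    rw [hval x p h]
    exact (hχ1 x hx1).self_of_nhds
  have hWp' : W p' = 0 := by
    rw [hval x' p' h']
    exact (hχ0 x' (Or.inl hx2)).self_of_nhds
  have hp : p ∈ (f '' Eᶜ)ᶜ := connectedComponentIn_nonempty_iff.mp ⟨p', hpp⟩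
  have hpre : IsPreconnected (connectedComponentIn (f '' Eᶜ)ᶜ p) :=
    isPreconnected_connectedComponentIn
  have hA : IsOpen {w | ∀ᶠ w' in 𝓝 w, W w' = 1} := isOpen_setOfPred_eventually_nhds
  have hB : IsOpen {w | ∀ᶠ w' in 𝓝 w, W w' ≠ 1} := isOpen_setOfPred_eventually_nhds
  have hcov : connectedComponentIn (f '' Eᶜ)ᶜ p ⊆
      {w | ∀ᶠ w' in 𝓝 w, W w' = 1} ∪ {w | ∀ᶠ w' in 𝓝 w, W w' ≠ 1} := by
    intro w hw
    have h1 := hWloc w (connectedComponentIn_subset _ _ hw)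
    by_cases h2 : W w = 1
    · left
      filter_upwards [h1] with w' hw'
      rw [hw', h2]
    · right
      filter_upwards [h1] with w' hw'
      rw [hw']
      exact h2
  have hpA : p ∈ {w | ∀ᶠ w' in 𝓝 w, W w' = 1} := by
    rcases hcov (mem_connectedComponentIn hp) with h1 | h1
    · exact h1
    · exact absurd hWp h1.self_of_nhds
  have hpB : p' ∈ {w | ∀ᶠ w' in 𝓝 w, W w' ≠ 1} := by
    rcases hcov hpp with h1 | h1
    · have h2 := h1.self_of_nhds
      rw [hWp'] at h2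
      exact absurd h2 (by norm_num)
    · exact h1
  obtain ⟨w, -, hw1, hw2⟩ := hpre _ _ hA hB hcov ⟨p, mem_connectedComponentIn hp, hpA⟩
    ⟨p', hpp, hpB⟩
  exact hw2.self_of_nhds hw1.self_of_nhds

end RSM
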