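import Pool.Agent.RSM.A1
import Pool.Agent.RSM.G2

/-!
# RSM module G3: the image domain and the inverse map

PROOFS.  Let `R1 > 0` be such that `E ⊆ ball 0 R1` and `A = {z | R1 < ‖z‖}`.
`image_nhds_infty`: let `R' = max` of `‖f z‖` over `‖z‖ = R1` and `R' > 0`.  The set `f '' A` is open
(`isOpen_image_of_injOn`).  It is relatively closed in `{w | R' < ‖w‖}`: if `f (z n) → w` with
`z n ∈ A`, `‖w‖ > R'`, then `z n` is bounded (as `f z - z → 0` at infinity), so a subsequence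
converges to some `z` with `‖z‖ ≥ R1` and `f z = w`; `‖z‖ = R1` is impossible.  The set
`{w | R' < ‖w‖}` is connected (`isPreconnected_dom` for one disc), and meets `f '' A`; so it is
contained in `f '' A`.
Consequences: `(f '' Eᶜ)ᶜ` is compact (closed, bounded).  `f` is bounded on bounded subsets of `Eᶜ`:
if `z ∉ E`, `‖z‖ ≤ R1` then `f z ∉ f '' A` by injectivity, so `‖f z‖ ≤ R'`; and `f` is
continuous on the compact set `R1 ≤ ‖z‖ ≤ R2`.
`exists_inv`: the inverse map `g` (`Pool/Agent/Lib/Hurwitz.lean`, `exists_inverse`) is holomorphic and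
injective on `f '' Eᶜ`, with image `Eᶜ`.  (`g w - w → 0` at infinity, not needed.)
`clus_separation'`: apply `clus_separation` to the compact set `E' = (f '' Eᶜ)ᶜ` and `g`:
`(g '' E'ᶜ)ᶜ = E`; a sequence `u n → x`, `f (u n) → p` gives `v n = f (u n) → p`,
`g (v n) = u n → x`.  (`p ∈ E'`: if `p = f z` with `z ∉ E` then `u n = g (f (u n)) → g p = z`, so
`x = z ∉ E`, contradiction.)
-/

open Complex Set Metric Filter Topology MeasureTheory

namespace RSM

variable {E : Set ℂ} {f : ℂ → ℂ}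

private theorem far (hE : IsCompact E) (hf : DifferentiableOn ℂ f Eᶜ)
    (hinj : InjOn f Eᶜ) (hlim : Tendsto (fun z => f z - z) (cocompact ℂ) (𝓝 0)) :
    ∃ R1 R' : ℝ, E ⊆ ball 0 R1 ∧ ∀ w : ℂ, R' < ‖w‖ → ∃ z, R1 < ‖z‖ ∧ f z = w := by
  obtain ⟨R1, hR1, hER⟩ := hE.isBounded.subset_ball_lt 0 0
  have hA : ∀ z : ℂ, R1 ≤ ‖z‖ → z ∈ Eᶜ := by
    intro z hz hzE
    have := hER hzE
    rw [mem_ball_zero_iff] at this
    linarith
  have hEo : IsOpen Eᶜ := hE.isClosed.isOpen_compl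
  have hfc : ContinuousOn f Eᶜ := hf.continuousOn
  obtain ⟨C, hC⟩ := (isCompact_sphere (0 : ℂ) R1).exists_bound_of_continuousOn
    (hfc.mono fun z hz => hA z (by rw [mem_sphere_zero_iff_norm] at hz; linarith))
  set R' : ℝ := max C 1 with hR'
  have hR'0 : 0 < R' := lt_of_lt_of_le one_pos (le_max_right _ _)
  have hAo : IsOpen {z : ℂ | R1 < ‖z‖} := isOpen_lt continuous_const continuous_norm
  have hAE : {z : ℂ | R1 < ‖z‖} ⊆ Eᶜ := fun z hz => hA z (le_of_lt hz)
  have hfAo : IsOpen (f '' {z : ℂ | R1 < ‖z‖}) :=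
    Pool.Agent.Lib.Hurwitz.isOpen_image_of_injOn hAo (hf.mono hAE) (hinj.mono hAE)
  have hBp : IsPreconnected {w : ℂ | R' < ‖w‖} := by
    have h1 : IsPreconnected (dom (fun _ : Unit => (0 : ℂ)) R') :=
      isPreconnected_dom hR'0 (fun a b hab => absurd (Subsingleton.elim a b) hab)
    have h2 : dom (fun _ : Unit => (0 : ℂ)) R' = {w : ℂ | R' < ‖w‖} := by
      ext w
      simp [dom]
    rwa [h2] at h1
  obtain ⟨R3, hR3⟩ : ∃ R3 : ℝ, ∀ z : ℂ, R3 < ‖z‖ → ‖f z - z‖ < 1 := by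
    have h1 : ∀ᶠ z in cocompact ℂ, ‖f z - z‖ < 1 := by
      have := hlim.norm
      rw [norm_zero] at this
      exact this.eventually (gt_mem_nhds one_pos)
    obtain ⟨K, hK, hKs⟩ := mem_cocompact.1 h1
    obtain ⟨R3, hR3⟩ := hK.isBounded.subset_closedBall 0
    refine ⟨R3, fun z hz => hKs ?_⟩
    intro hzK
    have := hR3 hzK
    rw [mem_closedBall_zero_iff] at this
    linarith
  have hsub : {w : ℂ | R' < ‖w‖} ⊆ f '' {z : ℂ | R1 < ‖z‖} := by
    refine hBp.subset_of_closure_inter_subset hfAo ?_ ?_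
    · set z : ℂ := ((|R1| + R' + |R3| + 2 : ℝ) : ℂ) with hz
      have hzn : ‖z‖ = |R1| + R' + |R3| + 2 := by
        rw [hz, norm_real, Real.norm_of_nonneg (by positivity)]
      have a1 := le_abs_self R1
      have a3 := le_abs_self R3
      have b1 := abs_nonneg R1
      have b3 := abs_nonneg R3
      have h1 := hR3 z (by rw [hzn]; linarith)
      refine ⟨f z, ?_, z, ?_, rfl⟩
      · show R' < ‖f z‖
        have h2 := norm_sub_norm_le z (z - f z)
        rw [sub_sub_cancel, norm_sub_rev z (f z)] at h2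
        rw [hzn] at h2
        linarith
      · show R1 < ‖z‖
        rw [hzn]
        linarith
    · rintro w ⟨hwc, hwB⟩
      obtain ⟨y, hy, hyw⟩ := mem_closure_iff_seq_limit.1 hwc
      choose z hz hzy using hy
      obtain ⟨M, hM⟩ := (hyw.norm).bddAbove_range
      have hbd : ∀ n, z n ∈ closedBall (0 : ℂ) (max R3 (M + 1)) := by
        intro n
        rw [mem_closedBall_zero_iff]
        rcases le_or_gt ‖z n‖ R3 with h | h
        · exact h.trans (le_max_left _ _)
        · refine le_trans ?_ (le_max_right _ _)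
          have h1 := hR3 (z n) h
          have h2 : ‖y n‖ ≤ M := hM ⟨n, rfl⟩
          have h3 := norm_sub_norm_le (z n) (f (z n))
          rw [norm_sub_rev, hzy n] at h3
          rw [hzy n] at h1
          linarith
      obtain ⟨z₀, -, φ, hφ, hlimz⟩ := (isCompact_closedBall (0 : ℂ) _).tendsto_subseq hbd
      have hz₀ : R1 ≤ ‖z₀‖ :=
        ge_of_tendsto' hlimz.norm fun n => le_of_lt (hz (φ n))
      have hfz : f z₀ = w := by
        have h1 : Tendsto (fun n => f (z (φ n))) atTop (𝓝 (f z₀)) :=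
          ((hfc.continuousAt (hEo.mem_nhds (hA z₀ hz₀))).tendsto).comp hlimz
        have h2 : Tendsto (fun n => f (z (φ n))) atTop (𝓝 w) := by
          have h3 := hyw.comp hφ.tendsto_atTop
          refine h3.congr fun n => ?_
          exact (hzy (φ n)).symm
        exact tendsto_nhds_unique h1 h2
      refine ⟨z₀, ?_, hfz⟩
      show R1 < ‖z₀‖
      refine lt_of_le_of_ne hz₀ fun h => ?_
      have h1 := hC z₀ (by rw [mem_sphere_zero_iff_norm]; exact h.symm)
      rw [hfz] at h1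
      have h2 : R' < ‖w‖ := hwB
      have h3 : C ≤ R' := le_max_left _ _
      linarith
  refine ⟨R1, R', hER, fun w hw => ?_⟩
  obtain ⟨z, hz, hzw⟩ := hsub hw
  exact ⟨z, hz, hzw⟩

theorem isCompact_compl_image (hE : IsCompact E) (hf : DifferentiableOn ℂ f Eᶜ)
    (hinj : InjOn f Eᶜ) (hlim : Tendsto (fun z => f z - z) (cocompact ℂ) (𝓝 0)) :
    IsCompact (f '' Eᶜ)ᶜ := by
  obtain ⟨R1, R', hER, hfar⟩ := far hE hf hinj hlim
  have hEo : IsOpen Eᶜ := hE.isClosed.isOpen_compl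
  have ho : IsOpen (f '' Eᶜ) := Pool.Agent.Lib.Hurwitz.isOpen_image_of_injOn hEo hf hinj
  refine (isCompact_closedBall (0 : ℂ) R').of_isClosed_subset ho.isClosed_compl ?_
  intro w hw
  rw [mem_closedBall_zero_iff]
  by_contra hc
  push Not at hc
  obtain ⟨z, hz, hzw⟩ := hfar w hc
  refine hw ⟨z, ?_, hzw⟩
  intro hzE
  have := hER hzE
  rw [mem_ball_zero_iff] at this
  linarith

theorem bounded_near (hE : IsCompact E) (hf : DifferentiableOn ℂ f Eᶜ) (hinj : InjOn f Eᶜ)
    (hlim : Tendsto (fun z => f z - z) (cocompact ℂ) (𝓝 0)) (R2 : ℝ) :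
    ∃ M : ℝ, ∀ z ∉ E, ‖z‖ ≤ R2 → ‖f z‖ ≤ M := by
  obtain ⟨R1, R', hER, hfar⟩ := far hE hf hinj hlim
  have hA : ∀ z : ℂ, R1 ≤ ‖z‖ → z ∈ Eᶜ := by
    intro z hz hzE
    have := hER hzE
    rw [mem_ball_zero_iff] at this
    linarith
  have hK : IsCompact (closedBall (0 : ℂ) R2 ∩ {z | R1 ≤ ‖z‖}) :=
    (isCompact_closedBall 0 R2).inter_right (isClosed_le continuous_const continuous_norm)
  obtain ⟨C, hC⟩ := hK.exists_bound_of_continuousOn
    (hf.continuousOn.mono fun z hz => hA z hz.2)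
  refine ⟨max R' C, fun z hz hzR => ?_⟩
  rcases le_or_gt R1 ‖z‖ with h | h
  · exact (hC z ⟨by rwa [mem_closedBall_zero_iff], h⟩).trans (le_max_right _ _)
  · refine le_trans ?_ (le_max_left _ _)
    by_contra hc
    push Not at hc
    obtain ⟨z', hz', hzz⟩ := hfar (f z) hc
    have := hinj (hA z' hz'.le) hz hzz
    rw [this] at hz'
    linarith

/-- A limit value at a point of `E` is not in the image. -/
theorem Clus.notMem (hE : IsCompact E) (hf : DifferentiableOn ℂ f Eᶜ) (hinj : InjOn f Eᶜ)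
    {x p : ℂ} (hx : x ∈ E) (h : Clus E f x p) : p ∈ (f '' Eᶜ)ᶜ := by
  rintro ⟨z, hz, rfl⟩
  obtain ⟨u, hu, hux, hup⟩ := h
  have hEo : IsOpen Eᶜ := hE.isClosed.isOpen_compl
  have ho : IsOpen (f '' Eᶜ) := Pool.Agent.Lib.Hurwitz.isOpen_image_of_injOn hEo hf hinj
  obtain ⟨g, hg, -, -, hgf, -, -⟩ := Pool.Agent.Lib.Hurwitz.exists_inverse hEo hf hinj
  have hgc : ContinuousAt g (f z) :=
    hg.continuousOn.continuousAt (ho.mem_nhds ⟨z, hz, rfl⟩)
  have h1 : Tendsto (fun n => g (f (u n))) atTop (𝓝 (g (f z))) := hgc.tendsto.comp hup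
  rw [hgf z hz] at h1
  have h2 : Tendsto u atTop (𝓝 z) := h1.congr fun n => hgf (u n) (hu n)
  have h3 : x = z := tendsto_nhds_unique hux h2
  exact hz (h3 ▸ hx)

theorem clus_separation' (hE : IsCompact E) (hc : IsPreconnected Eᶜ)
    (hf : DifferentiableOn ℂ f Eᶜ) (hinj : InjOn f Eᶜ)
    (hlim : Tendsto (fun z => f z - z) (cocompact ℂ) (𝓝 0)) {x x' p p' : ℂ} (hx : x ∈ E)
    (h : Clus E f x p) (h' : Clus E f x' p') (hxx : x' ∈ connectedComponentIn E x) :
    p' ∈ connectedComponentIn (f '' Eᶜ)ᶜ p := by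
  have hx' : x' ∈ E := connectedComponentIn_subset E x hxx
  have hEo : IsOpen Eᶜ := hE.isClosed.isOpen_compl
  have hE' := isCompact_compl_image hE hf hinj hlim
  obtain ⟨g, hg, hgi, hgimg, hgf, -, -⟩ := Pool.Agent.Lib.Hurwitz.exists_inverse hEo hf hinj
  have hcl : ∀ {y q : ℂ}, Clus E f y q → Clus (f '' Eᶜ)ᶜ g q y := by
    rintro y q ⟨u, hu, huy, huq⟩
    refine ⟨fun n => f (u n), fun n hn => hn ⟨u n, hu n, rfl⟩, huq, ?_⟩
    exact huy.congr fun n => (hgf (u n) (hu n)).symm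
  refine clus_separation hE' ?_ ?_ ?_ (Clus.notMem hE hf hinj hx h) (Clus.notMem hE hf hinj hx' h')
    (hcl h) (hcl h') ?_
  · rw [compl_compl]
    exact hc.image f hf.continuousOn
  · rw [compl_compl]
    exact hg
  · rw [compl_compl]
    exact hgi
  · rw [compl_compl, hgimg, compl_compl]
    exact hxx

end RSM
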