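import Pool.Agent.RSM.G0
import Pool.Agent.RSM.G3

/-!
# RSM module G4: from the line condition to a rectilinear slit map

PROOF.  Let `B = (f '' Eᶜ)ᶜ`, compact (`isCompact_compl_image`).  `f` is bounded on bounded parts of
`Eᶜ` (`bounded_near`), and `‖f z‖ → ∞` as `z → ∞`.
(a) For `p₁ ∈ frontier B` there are `x ∈ E` with `Clus E f x p₁`: `p₁ = lim f (u n)`, `u n ∉ E`
(`frontier B = frontier (f '' Eᶜ) ⊆ closure (f '' Eᶜ)`), `u n` is bounded, so after passing to a
subsequence `u n → x`; if `x ∉ E` then `p₁ = f x ∉ B`, impossible (`B` is closed and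
`p₁ ∈ frontier B ⊆ B`).
(b) For `x₁ ∈ frontier E` there is `p₁` with `Clus E f x₁ p₁`: take `u n → x₁`, `u n ∉ E`; `f (u n)` is
bounded; pass to a subsequence.
(c) If `Clus E f x₁ p₁`, `x₁ ∈ E`, then `Corr E f K K'` for `K = connectedComponentIn E x₁`,
`K' = connectedComponentIn B p₁` (`p₁ ∈ B` by `Clus.notMem`), both compact.  Let `u n ∉ E` with
`infDist (u n) K → 0`.  If `infDist (f (u n)) K'` does not tend to `0`, there is a subsequence
along which it is `≥ ε`, `u n → y ∈ K`, `f (u n) → p₂`.  So `Clus E f y p₂` and by `clus_separation'`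
`p₂ ∈ connectedComponentIn B p₁ = K'`, contradiction.  Conversely let
`infDist (f (u n)) K' → 0`: then `f (u n)` is bounded, so `u n` is bounded; if `infDist (u n) K` does
not tend to `0` there is a subsequence along which it is `≥ ε`, `u n → y`, `f (u n) → p₂ ∈ K'`;
`y ∈ E` (else `p₂ = f y ∉ B`), so `Clus E f y p₂`, and `y ∈ connectedComponentIn E x₁ = K` by
`clus_separation`, contradiction.
(d) `exists_right`: for `x ∈ E`, `K = connectedComponentIn E x` is compact, take
`x₁ ∈ frontier K ⊆ frontier E` (G0), `x₁ ∈ K`, and (b), (c); note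
`connectedComponentIn E x₁ = connectedComponentIn E x` (`connectedComponentIn_eq`).
`exists_left`: the same with (a), (c).
(e) `slit`: let `Corr E f K K'`, `K = connectedComponentIn E x`, `K' = connectedComponentIn B p`.
By (b) there are `u n ∉ E`, `u n → x₁ ∈ K`, `f (u n) → p₁`; `infDist (u n) K → 0`, so
`infDist (f (u n)) K' → 0` and `p₁ ∈ K'` (closed).  Let `z ∈ frontier K' ⊆ frontier B`; by (a)
`Clus E f y z` with `y ∈ E`, and `z ∈ K' = connectedComponentIn B p₁`, so by `clus_separation`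
`y ∈ connectedComponentIn E x₁ = connectedComponentIn E x`.  By `hline`,
`Im (exp (-iθ x) z) = q`.  So `eq_segment` applies to `K'`.
-/

open Complex Set Metric Filter Topology MeasureTheory

namespace RSM

private theorem bdd_of_infDist {K : Set ℂ} (hK : IsCompact K) (hne : K.Nonempty) {v : ℕ → ℂ}
    (h : Tendsto (fun n => infDist (v n) K) atTop (𝓝 0)) : ∃ M : ℝ, ∀ n, ‖v n‖ ≤ M := by
  obtain ⟨ρ, hρ⟩ := hK.isBounded.exists_norm_le
  obtain ⟨M, hM⟩ := (isBounded_range_of_tendsto _ h).exists_norm_le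
  refine ⟨M + ρ, fun n => ?_⟩
  have h1 : ‖v n‖ - ρ ≤ infDist (v n) K := by
    rw [le_infDist hne]
    intro k hk
    have h2 := hρ k hk
    have h3 : ‖v n‖ ≤ dist (v n) k + ‖k‖ := by
      have := norm_add_le (v n - k) k
      rwa [sub_add_cancel, ← dist_eq_norm] at this
    linarith
  have h2 := hM _ (mem_range_self n)
  rw [Real.norm_eq_abs] at h2
  have h3 := le_abs_self (infDist (v n) K)
  linarith

private theorem exists_subseq {v : ℕ → ℂ} {M : ℝ} (h : ∀ n, ‖v n‖ ≤ M) :
    ∃ (y : ℂ) (φ : ℕ → ℕ), StrictMono φ ∧ Tendsto (v ∘ φ) atTop (𝓝 y) := by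
  obtain ⟨y, -, φ, hφ, h1⟩ := tendsto_subseq_of_bounded (isBounded_closedBall (x := (0 : ℂ)) (r := M))
    (x := v) (fun n => by rw [mem_closedBall, dist_zero_right]; exact h n)
  exact ⟨y, φ, hφ, h1⟩

variable {E : Set ℂ} {f : ℂ → ℂ}

/-- a sequence whose image converges to a point of the complement of the image accumulates
at a point of `E` -/
private theorem exists_clus (hE : IsCompact E) (hf : DifferentiableOn ℂ f Eᶜ)
    (hlim : Tendsto (fun z => f z - z) (cocompact ℂ) (𝓝 0)) {u : ℕ → ℂ} (hu : ∀ n, u n ∉ E)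
    {p : ℂ} (hp : p ∈ (f '' Eᶜ)ᶜ) (h : Tendsto (fun n => f (u n)) atTop (𝓝 p)) :
    ∃ x ∈ E, ∃ φ : ℕ → ℕ, StrictMono φ ∧ Tendsto (u ∘ φ) atTop (𝓝 x) := by
  obtain ⟨M, hM⟩ := (isBounded_range_of_tendsto _ h).exists_norm_le
  have h1 : ∀ᶠ z in cocompact ℂ, ‖f z - z‖ < 1 := by
    have := hlim.norm
    rw [norm_zero] at this
    exact this.eventually (gt_mem_nhds one_pos)
  obtain ⟨R, -, hR⟩ := (hasBasis_cobounded_norm (E := ℂ)).eventually_iff.1
    (Metric.cobounded_eq_cocompact (α := ℂ) ▸ h1)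
  have hb : ∀ n, ‖u n‖ ≤ max R (M + 1) := by
    intro n
    rcases le_or_gt R ‖u n‖ with h2 | h2
    · have h3 : ‖f (u n) - u n‖ < 1 := hR h2
      have h4 : ‖u n‖ ≤ ‖f (u n)‖ + ‖f (u n) - u n‖ := by
        have := norm_sub_le (f (u n)) (f (u n) - u n)
        rwa [sub_sub_cancel] at this
      have h5 := hM _ (mem_range_self n)
      exact (by linarith : ‖u n‖ ≤ M + 1).trans (le_max_right _ _)
    · exact h2.le.trans (le_max_left _ _)
  obtain ⟨x, φ, hφ, hx⟩ := exists_subseq hb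
  refine ⟨x, ?_, φ, hφ, hx⟩
  by_contra hxE
  have hc : ContinuousAt f x :=
    (hf.differentiableAt (hE.isClosed.isOpen_compl.mem_nhds hxE)).continuousAt
  have h2 : Tendsto (fun n => f (u (φ n))) atTop (𝓝 (f x)) := hc.tendsto.comp hx
  have h3 := tendsto_nhds_unique h2 (h.comp hφ.tendsto_atTop)
  exact hp ⟨x, hxE, h3⟩

/-- step (a) -/
private theorem clus_of_frontier (hE : IsCompact E) (hf : DifferentiableOn ℂ f Eᶜ)
    (hinj : InjOn f Eᶜ) (hlim : Tendsto (fun z => f z - z) (cocompact ℂ) (𝓝 0)) {p : ℂ}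
    (hp : p ∈ frontier (f '' Eᶜ)ᶜ) : ∃ x ∈ E, Clus E f x p := by
  have hB := (isCompact_compl_image hE hf hinj hlim).isClosed
  have hpB : p ∈ (f '' Eᶜ)ᶜ := hB.frontier_subset hp
  rw [frontier_compl] at hp
  obtain ⟨v, hv, hvp⟩ := mem_closure_iff_seq_limit.1 (frontier_subset_closure hp)
  choose u hu huv using hv
  have h1 : Tendsto (fun n => f (u n)) atTop (𝓝 p) := by simpa only [huv] using hvp
  obtain ⟨x, hx, φ, hφ, h2⟩ := exists_clus hE hf hlim hu hpB h1
  exact ⟨x, hx, u ∘ φ, fun n => hu _, h2, h1.comp hφ.tendsto_atTop⟩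

/-- step (b) -/
private theorem clus_of_frontier' (hE : IsCompact E) (hf : DifferentiableOn ℂ f Eᶜ)
    (hinj : InjOn f Eᶜ) (hlim : Tendsto (fun z => f z - z) (cocompact ℂ) (𝓝 0)) {x : ℂ}
    (hx : x ∈ frontier E) : ∃ p, Clus E f x p := by
  rw [← frontier_compl] at hx
  obtain ⟨u, hu, hux⟩ := mem_closure_iff_seq_limit.1 (frontier_subset_closure hx)
  obtain ⟨R2, hR2⟩ := (isBounded_range_of_tendsto _ hux).exists_norm_le
  obtain ⟨M, hM⟩ := bounded_near hE hf hinj hlim R2
  obtain ⟨p, φ, hφ, hp⟩ := exists_subseq (v := fun n => f (u n)) (M := M)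
    (fun n => hM _ (hu n) (hR2 _ (mem_range_self n)))
  exact ⟨p, u ∘ φ, fun n => hu _, hux.comp hφ.tendsto_atTop, hp⟩

private theorem infDist_eq_zero_of {K : Set ℂ} (hK : IsCompact K) (hne : K.Nonempty) {y : ℂ}
    (h : infDist y K = 0) : y ∈ K := (hK.isClosed.mem_iff_infDist_zero hne).2 h

/-- step (c) -/
private theorem corr_of_clus (hE : IsCompact E) (hc : IsPreconnected Eᶜ)
    (hf : DifferentiableOn ℂ f Eᶜ) (hinj : InjOn f Eᶜ)
    (hlim : Tendsto (fun z => f z - z) (cocompact ℂ) (𝓝 0)) {x p : ℂ} (hx : x ∈ E)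
    (h : Clus E f x p) :
    Corr E f (connectedComponentIn E x) (connectedComponentIn (f '' Eᶜ)ᶜ p) := by
  have hB := isCompact_compl_image hE hf hinj hlim
  have hp := Clus.notMem hE hf hinj hx h
  have hK := isCompact_component hE x
  have hK' := isCompact_component hB p
  have hKn : (connectedComponentIn E x).Nonempty := ⟨x, mem_connectedComponentIn hx⟩
  have hKn' : (connectedComponentIn (f '' Eᶜ)ᶜ p).Nonempty := ⟨p, mem_connectedComponentIn hp⟩
  intro u hu
  constructor
  · intro h1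
    refine tendsto_of_subseq_tendsto fun ns hns => ?_
    have h2 : Tendsto (fun n => infDist (u (ns n)) (connectedComponentIn E x)) atTop (𝓝 0) :=
      h1.comp hns
    obtain ⟨M, hM⟩ := bdd_of_infDist hK hKn h2
    obtain ⟨y, φ, hφ, hy⟩ := exists_subseq hM
    have hyK : y ∈ connectedComponentIn E x := by
      refine infDist_eq_zero_of hK hKn ?_
      exact tendsto_nhds_unique (((continuous_infDist_pt _).tendsto y).comp hy)
        (h2.comp hφ.tendsto_atTop)
    obtain ⟨M', hM'⟩ := bounded_near hE hf hinj hlim M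
    obtain ⟨p₂, ψ, hψ, hp₂⟩ := exists_subseq (v := fun n => f (u (ns (φ n)))) (M := M')
      (fun n => hM' _ (hu _) (hM _))
    have hcl : Clus E f y p₂ :=
      ⟨fun n => u (ns (φ (ψ n))), fun n => hu _, hy.comp hψ.tendsto_atTop, hp₂⟩
    have hmem := clus_separation' hE hc hf hinj hlim hx h hcl hyK
    refine ⟨fun n => φ (ψ n), ?_⟩
    have h3 : Tendsto (fun n => infDist (f (u (ns (φ (ψ n)))))
        (connectedComponentIn (f '' Eᶜ)ᶜ p)) atTop
        (𝓝 (infDist p₂ (connectedComponentIn (f '' Eᶜ)ᶜ p))) :=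
      ((continuous_infDist_pt _).tendsto p₂).comp hp₂
    rwa [infDist_zero_of_mem hmem] at h3
  · intro h1
    refine tendsto_of_subseq_tendsto fun ns hns => ?_
    have h2 : Tendsto (fun n => infDist (f (u (ns n))) (connectedComponentIn (f '' Eᶜ)ᶜ p)) atTop
        (𝓝 0) := h1.comp hns
    obtain ⟨M, hM⟩ := bdd_of_infDist hK' hKn' h2
    obtain ⟨p₂, φ, hφ, hp₂⟩ := exists_subseq hM
    have hpK : p₂ ∈ connectedComponentIn (f '' Eᶜ)ᶜ p := by
      refine infDist_eq_zero_of hK' hKn' ?_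
      exact tendsto_nhds_unique (((continuous_infDist_pt _).tendsto p₂).comp hp₂)
        (h2.comp hφ.tendsto_atTop)
    obtain ⟨y, hyE, ψ, hψ, hy⟩ := exists_clus hE hf hlim (u := fun n => u (ns (φ n)))
      (fun n => hu _) (connectedComponentIn_subset _ _ hpK) hp₂
    have hcl : Clus E f y p₂ :=
      ⟨fun n => u (ns (φ (ψ n))), fun n => hu _, hy, hp₂.comp hψ.tendsto_atTop⟩
    have hmem := clus_separation hE hc hf hinj hx hyE h hcl hpK
    refine ⟨fun n => φ (ψ n), ?_⟩
    have h3 : Tendsto (fun n => infDist (u (ns (φ (ψ n)))) (connectedComponentIn E x)) atTop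
        (𝓝 (infDist y (connectedComponentIn E x))) :=
      ((continuous_infDist_pt _).tendsto y).comp hy
    rwa [infDist_zero_of_mem hmem] at h3

theorem isSlitMap_of_lines {E : Set ℂ} (hE : IsCompact E) (hc : IsPreconnected Eᶜ) {θ : ℂ → ℝ}
    {f : ℂ → ℂ} (hf : DifferentiableOn ℂ f Eᶜ) (hinj : InjOn f Eᶜ)
    (hlim : Tendsto (fun z => f z - z) (cocompact ℂ) (𝓝 0))
    (hline : ∀ x ∈ E, ∃ q : ℝ, ∀ y ∈ connectedComponentIn E x,
      Tendsto (fun z => (exp (-(θ x : ℂ) * I) * f z).im) (𝓝[Eᶜ] y) (𝓝 q)) :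
    IsSlitMap E θ f := by
  have hB := isCompact_compl_image hE hf hinj hlim
  -- a boundary point of the component and a limit value
  have key : ∀ x ∈ E, ∃ x₁ ∈ E, x₁ ∈ connectedComponentIn E x ∧ ∃ p₁, Clus E f x₁ p₁ := by
    intro x hx
    have hK := isCompact_component hE x
    obtain ⟨x₁, hx₁⟩ := frontier_nonempty hK ⟨x, mem_connectedComponentIn hx⟩
    have h1 := hK.isClosed.frontier_subset hx₁
    exact ⟨x₁, connectedComponentIn_subset _ _ h1, h1,
      clus_of_frontier' hE hf hinj hlim (frontier_component_subset hE.isClosed x hx₁)⟩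
  refine ⟨hf, hinj, hlim, ?_, ?_, ?_⟩
  · intro x hx
    obtain ⟨x₁, hx₁E, hx₁, p₁, hp₁⟩ := key x hx
    refine ⟨p₁, Clus.notMem hE hf hinj hx₁E hp₁, ?_⟩
    rw [connectedComponentIn_eq hx₁]
    exact corr_of_clus hE hc hf hinj hlim hx₁E hp₁
  · intro p hp
    have hK' := isCompact_component hB p
    obtain ⟨z, hz⟩ := frontier_nonempty hK' ⟨p, mem_connectedComponentIn hp⟩
    have h1 := hK'.isClosed.frontier_subset hz
    obtain ⟨x, hx, hcl⟩ := clus_of_frontier hE hf hinj hlim
      (frontier_component_subset hB.isClosed p hz)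
    refine ⟨x, hx, ?_⟩
    rw [connectedComponentIn_eq h1]
    exact corr_of_clus hE hc hf hinj hlim hx hcl
  · intro x hx p hp hcor
    have hK := isCompact_component hE x
    have hK' := isCompact_component hB p
    have hKn' : (connectedComponentIn (f '' Eᶜ)ᶜ p).Nonempty := ⟨p, mem_connectedComponentIn hp⟩
    obtain ⟨x₁, hx₁E, hx₁, p₁, hcl⟩ := key x hx
    have hcl' := hcl
    obtain ⟨u, hu, hux, hfu⟩ := hcl
    have h1 : Tendsto (fun n => infDist (u n) (connectedComponentIn E x)) atTop (𝓝 0) := by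
      have := ((continuous_infDist_pt (connectedComponentIn E x)).tendsto x₁).comp hux
      rwa [infDist_zero_of_mem hx₁] at this
    have h2 := (hcor u hu).1 h1
    have hp₁ : p₁ ∈ connectedComponentIn (f '' Eᶜ)ᶜ p := by
      refine infDist_eq_zero_of hK' hKn' ?_
      exact tendsto_nhds_unique (((continuous_infDist_pt _).tendsto p₁).comp hfu) h2
    obtain ⟨q, hq⟩ := hline x hx
    refine eq_segment hK' hKn' isPreconnected_connectedComponentIn (q := q) ?_
    intro z hz
    have hzK := hK'.isClosed.frontier_subset hz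
    obtain ⟨y, hyE, hy⟩ := clus_of_frontier hE hf hinj hlim
      (frontier_component_subset hB.isClosed p hz)
    have hy1 : y ∈ connectedComponentIn E x := by
      rw [connectedComponentIn_eq hx₁]
      refine clus_separation hE hc hf hinj hx₁E hyE hcl' hy ?_
      rw [← connectedComponentIn_eq hp₁]; exact hzK
    obtain ⟨v, hv, hvy, hfv⟩ := hy
    have h3 : Tendsto v atTop (𝓝[Eᶜ] y) :=
      tendsto_nhdsWithin_iff.2 ⟨hvy, Eventually.of_forall hv⟩
    have h4 := (hq y hy1).comp h3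
    have h5 : Tendsto (fun n => (exp (-(θ x : ℂ) * I) * f (v n)).im) atTop
        (𝓝 (exp (-(θ x : ℂ) * I) * z).im) :=
      (continuous_im.tendsto _).comp (hfv.const_mul _)
    exact tendsto_nhds_unique h5 h4

end RSM
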