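import Pool.Agent.RSM.FD
import Pool.Agent.RSM.L3
import Pool.Agent.RSM.G4

/-!
# RSM: the main theorem (assembled from the modules)
-/

open Complex Set Metric Filter Topology MeasureTheory
open scoped NNReal

namespace RSM

theorem main {E : Set ℂ} (hE : IsCompact E) (hc : IsConnected Eᶜ) {Θ : ℂ → ℝ}
    (hΘ : Continuous Θ) (hFD : FiniteDirichlet Θ)
    (hconst : ∀ x ∈ E, ∀ y ∈ connectedComponentIn E x, Θ y = Θ x) :
    ∃ f : ℂ → ℂ, IsSlitMap E Θ f := by
  rcases E.eq_empty_or_nonempty with rfl | hne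
  · refine ⟨fun z => z, isSlitMap_of_lines hE hc.isPreconnected differentiableOn_id
      (injOn_id _) (by simp) (fun x hx => absurd hx (notMem_empty x))⟩
  · obtain ⟨f, hf, hinj, hlim, hline⟩ := exists_limit hE hne hc hΘ hFD hconst
    exact ⟨f, isSlitMap_of_lines hE hc.isPreconnected hf hinj hlim hline⟩

theorem IsSlitMap.congr {E : Set ℂ} {θ θ' : ℂ → ℝ} {f : ℂ → ℂ} (h : IsSlitMap E θ f)
    (hθ : EqOn θ θ' E) : IsSlitMap E θ' f := by
  refine ⟨h.diff, h.inj, h.lim, h.exists_right, h.exists_left, fun x hx p hp hcor => ?_⟩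
  rw [← hθ hx]
  exact h.slit x hx p hp hcor

theorem main_lipschitz {E : Set ℂ} (hE : IsCompact E) (hc : IsConnected Eᶜ) {θ : ℂ → ℝ}
    {K : ℝ≥0} (hK : LipschitzOnWith K θ E)
    (hconst : ∀ x ∈ E, ∀ y ∈ connectedComponentIn E x, θ y = θ x) :
    ∃ f : ℂ → ℂ, IsSlitMap E θ f := by
  obtain ⟨Θ, hΘ, heq⟩ := hK.extend_real
  obtain ⟨f, hf⟩ := main hE hc hΘ.continuous (finiteDirichlet_of_lipschitz hΘ)
    (fun x hx y hy => by
      rw [← heq hx, ← heq (connectedComponentIn_subset _ _ hy)]; exact hconst x hx y hy)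
  exact ⟨f, hf.congr heq.symm⟩

end RSM
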