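import Pool.Agent.RSM.Defs

/-!
# RSM module S2: approximation by a `C¹` function which is locally constant near `P`

PROOF.  Let `V = Θ '' P` (finite), `P_v = P ∩ Θ⁻¹ {v}` for `v ∈ V`: pairwise disjoint compact sets.
Choose `χ_v : ℂ → ℝ`, `C^∞`, with values in `[0,1]`, compact pairwise disjoint supports, equal
to `1` in a neighbourhood of `P_v` (smooth Urysohn lemma, `exists_contDiff_tsupport_subset` /
`exists_contMDiff...`; first take disjoint open neighbourhoods of the `P_v`).  Let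
`G = sup ‖fderiv χ_v‖` over all `v` and all points.  Clamp: a `C^∞` function `s : ℝ → ℝ` with
`s t = t` for `|t| ≤ 1`, `|s| ≤ 3`, `0 ≤ s' ≤ 1` (e.g. the primitive, `0` at `0`, of a smooth even
bump function with values in `[0,1]`, equal to `1` on `[-1,1]` and `0` outside `[-2,2]`); put
`s_η t = η s (t/η)`: `s_η t = t` for `|t| ≤ η`, `|s_η| ≤ 3η`, `0 ≤ s_η' ≤ 1`.
Let `κ > 0` be small: `2 κ² π R² ≤ 1` (if `R > 0`); `η > 0` with `3 η G ≤ κ`, `3 η ≤ ε/2`.  Choose
`T₀` from `hFD` for `min (ε/2) (η/2)`.  Put `T = T₀ + ∑_v χ_v * s_η (v - T₀)`.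
* `|T - Θ| ≤ |T₀ - Θ| + 3η ≤ ε` on `‖z‖ ≤ R` (the supports of the `χ_v` are disjoint).
* `fderiv T = (1 - χ_v s_η'(v - T₀)) fderiv T₀ + s_η (v - T₀) fderiv χ_v` on the support of
  `χ_v`, so `‖fderiv T‖ ≤ ‖fderiv T₀‖ + 3 η G ≤ ‖fderiv T₀‖ + κ` everywhere, and
  `‖fderiv T‖² ≤ 2 ‖fderiv T₀‖² + 2 κ²`; integrate over `closedBall 0 R`.
* Near `P_v`: `χ_v = 1` and `|v - T₀| ≤ |Θ x - Θ z| + η/2 ≤ η` for `z` close to `x ∈ P_v`
  (uniformly: `Θ` is uniformly continuous on compact sets, and the points near `P` satisfy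
  `‖z‖ ≤ R` since `‖x‖ < R` on the compact set `P`), so `T z = T₀ z + (v - T₀ z) = v = Θ x`.
If `P = ∅` take `T = T₀`.
-/

open Complex Set Metric Filter Topology MeasureTheory

namespace RSM

/-- a continuous bump -/
private noncomputable def bb (u : ℝ) : ℝ := max 0 (min 1 (2 - |u|))

private theorem continuous_bb : Continuous bb := by
  unfold bb; fun_prop

private theorem bb_nonneg (u : ℝ) : 0 ≤ bb u := le_max_left _ _

private theorem bb_le_one (u : ℝ) : bb u ≤ 1 := max_le zero_le_one (min_le_left _ _)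

private theorem bb_one {u : ℝ} (h : |u| ≤ 1) : bb u = 1 := by
  unfold bb; rw [min_eq_left (by linarith), max_eq_right zero_le_one]

private theorem bb_zero {u : ℝ} (h : 2 ≤ |u|) : bb u = 0 := by
  unfold bb; exact max_eq_left ((min_le_right _ _).trans (by linarith))

/-- a clamp -/
private noncomputable def cl (t : ℝ) : ℝ := ∫ u in (0 : ℝ)..t, bb u

private theorem hasDerivAt_cl (t : ℝ) : HasDerivAt cl (bb t) t :=
  (continuous_bb.integral_hasStrictDerivAt 0 t).hasDerivAt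

private theorem contDiff_cl : ContDiff ℝ 1 cl := by
  rw [contDiff_one_iff_deriv]
  refine ⟨fun t => (hasDerivAt_cl t).differentiableAt, ?_⟩
  have : deriv cl = bb := funext fun t => (hasDerivAt_cl t).deriv
  rw [this]; exact continuous_bb

private theorem cl_eq {t : ℝ} (h : |t| ≤ 1) : cl t = t := by
  unfold cl
  rw [intervalIntegral.integral_congr (g := fun _ => (1 : ℝ))]
  · simp
  · intro u hu
    refine bb_one ?_
    have h1 := abs_le.1 h
    rcases le_total 0 t with h0 | h0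
    · rw [uIcc_of_le h0] at hu
      exact abs_le.2 ⟨by linarith [hu.1], by linarith [hu.2]⟩
    · rw [uIcc_of_ge h0] at hu
      exact abs_le.2 ⟨by linarith [hu.1], by linarith [hu.2]⟩

private theorem cl_le_of {t : ℝ} (h : |t| ≤ 2) : |cl t| ≤ 2 := by
  have := intervalIntegral.norm_integral_le_of_norm_le_const (a := 0) (b := t) (C := 1) (f := bb)
    (fun u _ => by rw [Real.norm_eq_abs, abs_of_nonneg (bb_nonneg u)]; exact bb_le_one u)
  rw [Real.norm_eq_abs, sub_zero, one_mul] at this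
  exact this.trans h

private theorem abs_cl_le (t : ℝ) : |cl t| ≤ 2 := by
  rcases le_or_gt |t| 2 with h | h
  · exact cl_le_of h
  · have hi : ∀ a b, IntervalIntegrable bb volume a b := fun a b =>
      continuous_bb.intervalIntegrable a b
    rcases le_total 0 t with h0 | h0
    · rw [abs_of_nonneg h0] at h
      have h1 : cl t = cl 2 := by
        unfold cl
        rw [← intervalIntegral.integral_add_adjacent_intervals (hi 0 2) (hi 2 t)]
        have : ∫ u in (2 : ℝ)..t, bb u = ∫ u in (2 : ℝ)..t, (0 : ℝ) := by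
          refine intervalIntegral.integral_congr fun u hu => ?_
          rw [uIcc_of_le h.le] at hu
          refine bb_zero ?_
          rw [abs_of_nonneg (by linarith [hu.1])]; exact hu.1
        rw [this]; simp
      rw [h1]; exact cl_le_of (by norm_num)
    · rw [abs_of_nonpos h0] at h
      have h1 : cl t = cl (-2) := by
        unfold cl
        rw [← intervalIntegral.integral_add_adjacent_intervals (hi 0 (-2)) (hi (-2) t)]
        have : ∫ u in (-2 : ℝ)..t, bb u = ∫ u in (-2 : ℝ)..t, (0 : ℝ) := by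
          refine intervalIntegral.integral_congr fun u hu => ?_
          rw [uIcc_of_ge (by linarith)] at hu
          refine bb_zero ?_
          rw [abs_of_nonpos (by linarith [hu.2])]; linarith [hu.2]
        rw [this]; simp
      rw [h1]; exact cl_le_of (by norm_num)

/-- the scaled clamp -/
private noncomputable def cle (η t : ℝ) : ℝ := η * cl (t / η)

private theorem hasDerivAt_cle {η : ℝ} (hη : 0 < η) (t : ℝ) :
    HasDerivAt (cle η) (bb (t / η)) t := by
  have h := ((hasDerivAt_cl (t / η)).comp t ((hasDerivAt_id t).div_const η)).const_mul η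
  have e : η * (bb (t / η) * (1 / η)) = bb (t / η) := by field_simp
  rw [e] at h
  exact h

private theorem contDiff_cle (η : ℝ) : ContDiff ℝ 1 (cle η) :=
  contDiff_const.mul (contDiff_cl.comp (contDiff_id.div_const η))

private theorem cle_eq {η : ℝ} (hη : 0 < η) {t : ℝ} (h : |t| ≤ η) : cle η t = t := by
  unfold cle
  rw [cl_eq]
  · field_simp
  · rw [abs_div, abs_of_pos hη]; exact (div_le_one hη).2 h

private theorem abs_cle_le {η : ℝ} (hη : 0 < η) (t : ℝ) : |cle η t| ≤ 2 * η := by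
  unfold cle
  rw [abs_mul, abs_of_pos hη]
  nlinarith [abs_cl_le (t / η)]

/-- a rounding function for a finite set of reals -/
private theorem exists_round {V : Set ℝ} (hV : V.Finite) :
    ∃ δ > 0, ∃ r : ℝ → ℝ, ∀ v ∈ V, ∀ t, |t - v| < δ → r t = v := by
  classical
  obtain ⟨δ, hδ, h⟩ : ∃ δ > 0, ∀ v ∈ V, ∀ w ∈ V, v ≠ w → 2 * δ ≤ |v - w| := by
    have hf : ((V ×ˢ V) ∩ {p : ℝ × ℝ | p.1 ≠ p.2}).Finite := (hV.prod hV).inter_of_left _
    by_cases hne : ((V ×ˢ V) ∩ {p : ℝ × ℝ | p.1 ≠ p.2}).Nonempty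
    · obtain ⟨p, hp, hmin⟩ := Set.exists_min_image _ (fun p : ℝ × ℝ => |p.1 - p.2|) hf hne
      refine ⟨|p.1 - p.2| / 2, by
        have : 0 < |p.1 - p.2| := abs_pos.2 (sub_ne_zero.2 hp.2)
        linarith, fun v hv w hw hvw => ?_⟩
      have := hmin (v, w) ⟨⟨hv, hw⟩, hvw⟩
      simp only at this
      linarith
    · refine ⟨1, one_pos, fun v hv w hw hvw => ?_⟩
      exact absurd ⟨(v, w), ⟨hv, hw⟩, hvw⟩ hne
  refine ⟨δ, hδ, fun t => if h : ∃ v ∈ V, |t - v| < δ then h.choose else 0, fun v hv t ht => ?_⟩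
  have hex : ∃ v ∈ V, |t - v| < δ := ⟨v, hv, ht⟩
  simp only [dif_pos hex]
  by_contra hne
  have h1 := h _ hex.choose_spec.1 v hv hne
  have h2 := hex.choose_spec.2
  have h3 : |hex.choose - v| ≤ |t - hex.choose| + |t - v| := by
    have := abs_sub_le hex.choose t v
    rw [abs_sub_comm hex.choose t] at this
    exact this
  linarith

/-- a smooth function with compact support in `U`, equal to `1` near `P` -/
private theorem exists_bump {P U : Set ℂ} (hP : IsCompact P) (hU : IsOpen U) (hPU : P ⊆ U) :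
    ∃ χ : ℂ → ℝ, ContDiff ℝ 1 χ ∧ HasCompactSupport χ ∧ tsupport χ ⊆ U ∧
      (∀ z, 0 ≤ χ z ∧ χ z ≤ 1) ∧ ∃ O, IsOpen O ∧ P ⊆ O ∧ ∀ z ∈ O, χ z = 1 := by
  obtain ⟨K, hK, hPK, hKU⟩ := exists_compact_between hP hU hPU
  obtain ⟨f, h1, h0, h01⟩ := exists_contMDiffMap_one_nhds_of_subset_interior
    (I := modelWithCornersSelf ℝ ℂ) (n := 1) hP.isClosed hPK
  have hts : tsupport (f : ℂ → ℝ) ⊆ K := by
    refine closure_minimal ?_ hK.isClosed
    intro z hz
    by_contra hzK
    exact hz (h0 z hzK)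
  refine ⟨f, f.contMDiff.contDiff, HasCompactSupport.of_support_subset_isCompact hK
    ((subset_tsupport _).trans hts), hts.trans hKU, fun z => ⟨(h01 z).1, (h01 z).2⟩, ?_⟩
  rw [eventually_nhdsSet_iff_exists] at h1
  obtain ⟨O, hO, hPO, h⟩ := h1
  exact ⟨O, hO, hPO, h⟩

theorem exists_locally_const {Θ : ℂ → ℝ} (hΘ : Continuous Θ) {P : Set ℂ} (hP : IsCompact P)
    (hfin : (Θ '' P).Finite) {R C : ℝ} (hR : 0 < R)
    (hFD : ∀ ε > 0, ∃ T : ℂ → ℝ, ContDiff ℝ 1 T ∧ (∀ z, ‖z‖ ≤ R → |T z - Θ z| ≤ ε) ∧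
      ∫ z in closedBall (0 : ℂ) R, ‖fderiv ℝ T z‖ ^ 2 ≤ C)
    (hPR : ∀ x ∈ P, ‖x‖ < R) {ε : ℝ} (hε : 0 < ε) :
    ∃ T : ℂ → ℝ, ContDiff ℝ 1 T ∧ (∀ z, ‖z‖ ≤ R → |T z - Θ z| ≤ ε) ∧
      ∫ z in closedBall (0 : ℂ) R, ‖fderiv ℝ T z‖ ^ 2 ≤ 2 * C + 1 ∧
      ∃ r > 0, ∀ x ∈ P, ∀ z, ‖z - x‖ ≤ r → T z = Θ x := by
  obtain ⟨δ, hδ, rd, hrd⟩ := exists_round hfin
  set U : Set ℂ := {z | ∃ v ∈ Θ '' P, |Θ z - v| < δ} with hUdef
  have hU : IsOpen U := by
    rw [isOpen_iff_mem_nhds]
    rintro z ⟨v, hv, hz⟩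
    have : ∀ᶠ w in 𝓝 z, |Θ w - v| < δ :=
      ((hΘ.sub continuous_const).abs.continuousAt.eventually (gt_mem_nhds hz))
    filter_upwards [this] with w hw
    exact ⟨v, hv, hw⟩
  have hPU : P ⊆ U := fun x hx => ⟨Θ x, mem_image_of_mem _ hx, by simpa using hδ⟩
  obtain ⟨χ, hχ, hχc, hχU, hχ01, O, hO, hPO, hχ1⟩ := exists_bump hP hU hPU
  obtain ⟨G, hG⟩ : ∃ G, ∀ z, ‖fderiv ℝ χ z‖ ≤ G :=
    (hχc.fderiv (𝕜 := ℝ)).exists_bound_of_continuous (hχ.continuous_fderiv one_ne_zero)
  have hG0 : 0 ≤ G := (norm_nonneg _).trans (hG 0)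
  set vol : ℝ := (volume (closedBall (0 : ℂ) R)).toReal with hvol
  have hvol0 : 0 ≤ vol := ENNReal.toReal_nonneg
  obtain ⟨κ, hκ, hκv⟩ : ∃ κ > 0, 2 * κ ^ 2 * vol ≤ 1 := by
    refine ⟨1 / (2 * (vol + 1)), by positivity, ?_⟩
    have : 2 * (1 / (2 * (vol + 1))) ^ 2 * vol = vol / (2 * (vol + 1) ^ 2) := by
      field_simp; try ring
    rw [this, div_le_one (by positivity)]
    nlinarith
  obtain ⟨η, hη, hη1, hη2⟩ : ∃ η > 0, 2 * η * G ≤ κ ∧ 2 * η ≤ ε / 2 := by
    refine ⟨min (κ / (2 * (G + 1))) (ε / 4), by positivity, ?_, ?_⟩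
    · have h1 : min (κ / (2 * (G + 1))) (ε / 4) ≤ κ / (2 * (G + 1)) := min_le_left _ _
      have h2 : 2 * (κ / (2 * (G + 1))) * G ≤ κ := by
        have : 2 * (κ / (2 * (G + 1))) * G = κ * (G / (G + 1)) := by field_simp
        rw [this]
        have h3 : G / (G + 1) ≤ 1 := (div_le_one (by positivity)).2 (by linarith)
        nlinarith
      nlinarith
    · have h1 : min (κ / (2 * (G + 1))) (ε / 4) ≤ ε / 4 := min_le_right _ _
      linarith
  obtain ⟨T₀, hT₀, hT₀a, hT₀e⟩ := hFD (min (ε / 2) (η / 2)) (by positivity)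
  set T : ℂ → ℝ := fun z => T₀ z + χ z * cle η (rd (Θ z) - T₀ z) with hT
  -- local form of `T`
  have hloc : ∀ v ∈ Θ '' P, ∀ z, |Θ z - v| < δ →
      T =ᶠ[𝓝 z] fun w => T₀ w + χ w * cle η (v - T₀ w) := by
    intro v hv z hz
    have : ∀ᶠ w in 𝓝 z, |Θ w - v| < δ :=
      ((hΘ.sub continuous_const).abs.continuousAt.eventually (gt_mem_nhds hz))
    filter_upwards [this] with w hw
    simp only [hT, hrd v hv _ hw]
  have hout : ∀ z, z ∉ tsupport χ → T =ᶠ[𝓝 z] T₀ := by
    intro z hz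
    filter_upwards [(isClosed_tsupport χ).isOpen_compl.mem_nhds hz] with w hw
    simp only [hT, image_eq_zero_of_notMem_tsupport hw, zero_mul, add_zero]
  have hcv : ∀ v : ℝ, ContDiff ℝ 1 fun w => T₀ w + χ w * cle η (v - T₀ w) := fun v =>
    hT₀.add (hχ.mul ((contDiff_cle η).comp (contDiff_const.sub hT₀)))
  have hTd : ContDiff ℝ 1 T := by
    rw [contDiff_iff_contDiffAt]
    intro z
    by_cases hz : z ∈ tsupport χ
    · obtain ⟨v, hv, hzv⟩ := hχU hz
      exact (hcv v).contDiffAt.congr_of_eventuallyEq (hloc v hv z hzv)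
    · exact hT₀.contDiffAt.congr_of_eventuallyEq (hout z hz)
  have hder : ∀ z, ‖fderiv ℝ T z‖ ≤ ‖fderiv ℝ T₀ z‖ + κ := by
    intro z
    by_cases hz : z ∈ tsupport χ
    · obtain ⟨v, hv, hzv⟩ := hχU hz
      rw [(hloc v hv z hzv).fderiv_eq]
      have d0 : HasFDerivAt T₀ (fderiv ℝ T₀ z) z :=
        (hT₀.differentiable one_ne_zero z).hasFDerivAt
      have d1 : HasFDerivAt χ (fderiv ℝ χ z) z := (hχ.differentiable one_ne_zero z).hasFDerivAt
      have d2 : HasFDerivAt (fun w => cle η (v - T₀ w))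
          (bb ((v - T₀ z) / η) • (-fderiv ℝ T₀ z)) z :=
        HasDerivAt.comp_hasFDerivAt (h₂ := cle η) (f := fun w => v - T₀ w) z
          (hasDerivAt_cle hη (v - T₀ z)) (d0.const_sub v)
      have d3 := (d0.add (d1.mul d2)).fderiv
      have d3' : fderiv ℝ (fun w => T₀ w + χ w * cle η (v - T₀ w)) z =
          (1 - χ z * bb ((v - T₀ z) / η)) • fderiv ℝ T₀ z +
            cle η (v - T₀ z) • fderiv ℝ χ z := by
        refine (show _ = _ from d3).trans ?_
        rw [smul_smul, smul_neg, sub_smul, one_smul]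
        abel
      rw [d3']
      refine (norm_add_le _ _).trans ?_
      rw [norm_smul, norm_smul, Real.norm_eq_abs, Real.norm_eq_abs]
      have e1 : |1 - χ z * bb ((v - T₀ z) / η)| ≤ 1 := by
        have h1 := hχ01 z
        have h2 := bb_nonneg ((v - T₀ z) / η)
        have h3 := bb_le_one ((v - T₀ z) / η)
        have h4 : 0 ≤ χ z * bb ((v - T₀ z) / η) := mul_nonneg h1.1 h2
        have h5 : χ z * bb ((v - T₀ z) / η) ≤ 1 := mul_le_one₀ h1.2 h2 h3
        exact abs_le.2 ⟨by linarith, by linarith⟩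
      have e2 : |cle η (v - T₀ z)| * ‖fderiv ℝ χ z‖ ≤ κ :=
        (mul_le_mul (abs_cle_le hη _) (hG z) (norm_nonneg _) (by positivity)).trans hη1
      have e3 : |1 - χ z * bb ((v - T₀ z) / η)| * ‖fderiv ℝ T₀ z‖ ≤ ‖fderiv ℝ T₀ z‖ :=
        mul_le_of_le_one_left (norm_nonneg _) e1
      linarith
    · rw [(hout z hz).fderiv_eq]; linarith
  refine ⟨T, hTd, ?_, ?_, ?_⟩
  · intro z hz
    have h1 := hT₀a z hz
    have h2 : |χ z * cle η (rd (Θ z) - T₀ z)| ≤ 2 * η := by
      rw [abs_mul, abs_of_nonneg (hχ01 z).1]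
      calc χ z * |cle η (rd (Θ z) - T₀ z)| ≤ 1 * (2 * η) :=
            mul_le_mul (hχ01 z).2 (abs_cle_le hη _) (abs_nonneg _) zero_le_one
        _ = 2 * η := one_mul _
    have h3 : T z - Θ z = (T₀ z - Θ z) + χ z * cle η (rd (Θ z) - T₀ z) := by
      simp only [hT]; ring
    rw [h3]
    refine (abs_add_le _ _).trans ?_
    have h4 := min_le_left (ε / 2) (η / 2)
    linarith
  · have c0 : Continuous fun z => ‖fderiv ℝ T₀ z‖ ^ 2 :=
      (hT₀.continuous_fderiv one_ne_zero).norm.pow 2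
    have c1 : Continuous fun z => ‖fderiv ℝ T z‖ ^ 2 :=
      (hTd.continuous_fderiv one_ne_zero).norm.pow 2
    have hcomp : IsCompact (closedBall (0 : ℂ) R) := isCompact_closedBall _ _
    have i0 : IntegrableOn (fun z => ‖fderiv ℝ T₀ z‖ ^ 2) (closedBall (0 : ℂ) R) :=
      c0.continuousOn.integrableOn_compact hcomp
    have i1 : IntegrableOn (fun z => ‖fderiv ℝ T z‖ ^ 2) (closedBall (0 : ℂ) R) :=
      c1.continuousOn.integrableOn_compact hcomp
    have i2 : IntegrableOn (fun _ : ℂ => 2 * κ ^ 2) (closedBall (0 : ℂ) R) :=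
      continuous_const.continuousOn.integrableOn_compact hcomp
    calc ∫ z in closedBall (0 : ℂ) R, ‖fderiv ℝ T z‖ ^ 2
        ≤ ∫ z in closedBall (0 : ℂ) R, (2 * ‖fderiv ℝ T₀ z‖ ^ 2 + 2 * κ ^ 2) := by
          refine setIntegral_mono i1 ((i0.const_mul 2).add i2) fun z => ?_
          have h1 := hder z
          have h2 := norm_nonneg (fderiv ℝ T z)
          have h3 := norm_nonneg (fderiv ℝ T₀ z)
          simp only
          nlinarith [sq_nonneg (‖fderiv ℝ T₀ z‖ - κ)]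
      _ = 2 * (∫ z in closedBall (0 : ℂ) R, ‖fderiv ℝ T₀ z‖ ^ 2) + 2 * κ ^ 2 * vol := by
          rw [integral_add (i0.const_mul 2) i2, integral_const_mul, setIntegral_const]
          simp only [smul_eq_mul, hvol, Measure.real]
          ring
      _ ≤ 2 * C + 1 := by linarith
  · have hB : IsOpen {z : ℂ | ‖z‖ < R} := isOpen_lt continuous_norm continuous_const
    obtain ⟨r1, hr1, hr1'⟩ := hP.exists_cthickening_subset_open (hO.inter hB)
      (subset_inter hPO fun x hx => hPR x hx)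
    have hm : 0 < min δ (η / 2) := by positivity
    have hu := hP.uniformContinuousAt_of_continuousAt Θ (fun a _ => hΘ.continuousAt)
      (dist_mem_uniformity hm)
    rw [Metric.mem_uniformity_dist] at hu
    obtain ⟨r2, hr2, hr2'⟩ := hu
    refine ⟨min r1 (r2 / 2), by positivity, fun x hx z hz => ?_⟩
    have hz1 : z ∈ O ∩ {z : ℂ | ‖z‖ < R} := by
      refine hr1' (mem_cthickening_of_dist_le z x r1 P hx ?_)
      rw [dist_eq_norm]; exact hz.trans (min_le_left _ _)
    have hd : dist x z < r2 := by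
      rw [dist_comm, dist_eq_norm]
      have := hz.trans (min_le_right r1 (r2 / 2))
      linarith
    have h1 : dist (Θ x) (Θ z) < min δ (η / 2) := hr2' hd hx
    have h2 : |Θ z - Θ x| < min δ (η / 2) := by
      rw [dist_comm, Real.dist_eq] at h1; exact h1
    have h3 : rd (Θ z) = Θ x :=
      hrd _ (mem_image_of_mem _ hx) _ (h2.trans_le (min_le_left _ _))
    have h4 := hT₀a z hz1.2.le
    have h5 : |Θ x - T₀ z| ≤ η := by
      have a1 : |Θ x - T₀ z| ≤ |Θ x - Θ z| + |Θ z - T₀ z| := abs_sub_le _ _ _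
      rw [abs_sub_comm (Θ x) (Θ z), abs_sub_comm (Θ z) (T₀ z)] at a1
      have a2 := min_le_right δ (η / 2)
      have a3 := min_le_right (ε / 2) (η / 2)
      linarith
    simp only [hT, h3, hχ1 z hz1.1, one_mul, cle_eq hη h5]
    ring

end RSM
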